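import Pool.Agent.Lib.MP_c8b4d4_an.Defs

set_option autoImplicit false

noncomputable section

namespace Pool.Agent.C8B

open scoped InnerProductSpace

namespace Wind

open Complex

/-- Continuous logarithms on simply connected spaces. -/
theorem exists_log {X : Type*} [TopologicalSpace X] [SimplyConnectedSpace X]
    [LocallyPathConnectedSpace X] (F : X → ℂ) (hF : Continuous F) (h0 : ∀ x, F x ≠ 0) :
    ∃ L : X → ℂ, Continuous L ∧ ∀ x, exp (L x) = F x := by
  obtain ⟨x₀⟩ : Nonempty X := inferInstance
  obtain ⟨L, ⟨-, hL⟩, -⟩ := Complex.isCoveringMap_exp.existsUnique_continuousMap_lifts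
    (⟨fun x => ⟨F x, h0 x⟩, by fun_prop⟩ : C(X, {z : ℂ // z ≠ 0})) x₀ (log (F x₀))
    (Subtype.ext (exp_log (h0 x₀)))
  refine ⟨L, L.continuous, fun x => ?_⟩
  have := congrFun hL x
  exact congrArg Subtype.val this

/-- A continuous function with values in `2 π i ℤ` is constant. -/
theorem exists_const {X : Type*} [TopologicalSpace X] [PreconnectedSpace X] [Nonempty X]
    (A : X → ℂ) (hA : Continuous A) (h : ∀ x, ∃ m : ℤ, A x = m * (2 * Real.pi * I)) :
    ∃ w : ℤ, ∀ x, A x = w * (2 * Real.pi * I) := by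
  choose m hm using h
  have hpi : (2 * Real.pi * I : ℂ) ≠ 0 := by
    simp [Real.pi_ne_zero]
  have h1 : (fun x => ((m x : ℤ) : ℝ)) = fun x => (A x / (2 * Real.pi * I)).re := by
    funext x
    rw [hm x, mul_div_assoc, div_self hpi, mul_one]
    simp
  have h2 : Continuous m := by
    rw [Int.isClosedEmbedding_coe_real.isEmbedding.isInducing.continuous_iff]
    change Continuous (fun x => ((m x : ℤ) : ℝ))
    rw [h1]
    exact Complex.continuous_re.comp (hA.div_const _)
  obtain ⟨x₀⟩ : Nonempty X := inferInstance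
  refine ⟨m x₀, fun x => ?_⟩
  rw [hm x, PreconnectedSpace.constant inferInstance h2 (x := x) (y := x₀)]

/-- Two continuous logarithms of the same function differ by a constant. -/
theorem diff_const {X : Type*} [TopologicalSpace X] [PreconnectedSpace X] [Nonempty X]
    {A B : X → ℂ} (hA : Continuous A) (hB : Continuous B) (h : ∀ x, exp (A x) = exp (B x)) :
    ∃ w : ℤ, ∀ x, A x - B x = w * (2 * Real.pi * I) := by
  apply exists_const _ (hA.sub hB)
  intro x
  obtain ⟨n, hn⟩ := Complex.exp_eq_exp_iff_exists_int.1 (h x)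
  exact ⟨n, by rw [Pi.sub_apply, hn]; ring⟩

variable {N : ℕ}

/-- Diagonal unitary matrices. -/
def D (θ : Fin N → ℝ) : UN N :=
  ⟨Matrix.diagonal fun i => exp (θ i * I), by
    rw [Matrix.mem_unitaryGroup_iff, Matrix.star_eq_conjTranspose, Matrix.diagonal_conjTranspose,
      Matrix.diagonal_mul_diagonal, ← Matrix.diagonal_one]
    congr 1
    funext i
    simp only [Pi.star_apply, star_def]
    rw [← Complex.exp_conj, ← Complex.exp_add]
    simp⟩

theorem continuous_D : Continuous (D : (Fin N → ℝ) → UN N) := by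
  apply Continuous.subtype_mk
  apply Continuous.matrix_diagonal
  fun_prop

/-- Rank one modification of the identity. -/
theorem mem_unitary {P : Matrix (Fin N) (Fin N) ℂ} (h1 : P * P = P) (h2 : star P = P) {z : ℂ}
    (hz : z * star z = 1) : 1 + (z - 1) • P ∈ Matrix.unitaryGroup (Fin N) ℂ := by
  rw [Matrix.mem_unitaryGroup_iff]
  rw [star_add, star_one, star_smul, h2]
  have h3 : (1 + (z - 1) • P) * (1 + star (z - 1) • P) =
      1 + ((z - 1) + star (z - 1) + (z - 1) * star (z - 1)) • P := by
    rw [mul_add, add_mul, add_mul, mul_one, one_mul, mul_one, smul_mul_smul_comm, h1]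
    module
  rw [h3]
  have h4 : (z - 1) + star (z - 1) + (z - 1) * star (z - 1) = 0 := by
    rw [star_sub, star_one]
    linear_combination hz
  rw [h4, zero_smul, add_zero]

/-- The vector `cos s e_j + sin s e_l`. -/
def vec (j l : Fin N) (s : ℝ) : Fin N → ℂ :=
  fun i => (Real.cos s : ℂ) * (if i = j then 1 else 0) + (Real.sin s : ℂ) * (if i = l then 1 else 0)

theorem star_vec (j l : Fin N) (s : ℝ) : star (vec j l s) = vec j l s := by
  funext i
  simp only [Pi.star_apply, vec, star_def, map_add, map_mul, Complex.conj_ofReal]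
  congr 2 <;> split_ifs <;> simp

theorem dot_vec {j l : Fin N} (h : j ≠ l) (s : ℝ) : vec j l s ⬝ᵥ vec j l s = 1 := by
  have h1 : vec j l s ⬝ᵥ vec j l s = ∑ i, ((Real.cos s : ℂ) ^ 2 * (if i = j then 1 else 0) +
      (Real.sin s : ℂ) ^ 2 * (if i = l then 1 else 0)) := by
    apply Finset.sum_congr rfl
    intro i _
    simp only [vec]
    by_cases hij : i = j
    · have hil : i ≠ l := fun h' => h (hij.symm.trans h')
      rw [if_pos hij, if_neg hil]
      ring
    · rw [if_neg hij]
      split_ifs <;> ring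
  rw [h1, Finset.sum_add_distrib, ← Finset.mul_sum, ← Finset.mul_sum]
  simp only [Finset.sum_ite_eq', Finset.mem_univ, if_true, mul_one]
  have := Real.cos_sq_add_sin_sq s
  exact_mod_cast this

/-- The projection onto `vec`. -/
def Pr (j l : Fin N) (s : ℝ) : Matrix (Fin N) (Fin N) ℂ :=
  Matrix.vecMulVec (vec j l s) (vec j l s)

theorem Pr_mul {j l : Fin N} (h : j ≠ l) (s : ℝ) : Pr j l s * Pr j l s = Pr j l s := by
  rw [Pr, Matrix.vecMulVec_mul_vecMulVec, dot_vec h, one_smul]

theorem star_Pr (j l : Fin N) (s : ℝ) : star (Pr j l s) = Pr j l s := by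
  rw [Pr, Matrix.star_eq_conjTranspose, Matrix.conjTranspose_vecMulVec, star_vec]

/-- Rotation of `D (φ e_j)` into `D (φ e_l)`. -/
def G {j l : Fin N} (h : j ≠ l) (q : ℝ × ℝ) : UN N :=
  ⟨1 + (exp (q.2 * I) - 1) • Pr j l q.1, mem_unitary (Pr_mul h _) (star_Pr _ _ _) (by
    rw [star_def, ← Complex.exp_conj, ← Complex.exp_add]
    simp)⟩

theorem continuous_G {j l : Fin N} (h : j ≠ l) : Continuous (G h) := by
  apply Continuous.subtype_mk
  apply continuous_const.add
  refine Continuous.fun_smul (by fun_prop) ?_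
  unfold Pr
  apply Continuous.matrix_vecMulVec
  · apply continuous_pi
    intro i
    simp only [vec]
    fun_prop
  · apply continuous_pi
    intro i
    simp only [vec]
    fun_prop

theorem G_zero {j l : Fin N} (h : j ≠ l) (φ : ℝ) : G h (0, φ) = D (Pi.single j φ) := by
  apply Subtype.ext
  change 1 + (exp (φ * I) - 1) • Pr j l 0 = Matrix.diagonal fun i => exp ((Pi.single j φ : Fin N → ℝ) i * I)
  ext a b
  simp only [Matrix.add_apply, Matrix.smul_apply, Pr, Matrix.vecMulVec_apply, vec, Real.cos_zero,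
    Real.sin_zero, Complex.ofReal_one, Complex.ofReal_zero, zero_mul, add_zero, one_mul,
    Matrix.diagonal_apply, Matrix.one_apply, smul_eq_mul]
  by_cases hab : a = b
  · subst hab
    by_cases haj : a = j
    · subst haj
      simp
    · simp [haj]
  · by_cases haj : a = j
    · have hbj : b ≠ j := fun h' => hab (haj.trans h'.symm)
      simp [hab, hbj]
    · simp [hab, haj]

theorem G_pi_div_two {j l : Fin N} (h : j ≠ l) (φ : ℝ) :
    G h (Real.pi / 2, φ) = D (Pi.single l φ) := by
  apply Subtype.ext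
  change 1 + (exp (φ * I) - 1) • Pr j l (Real.pi / 2) =
    Matrix.diagonal fun i => exp ((Pi.single l φ : Fin N → ℝ) i * I)
  ext a b
  simp only [Matrix.add_apply, Matrix.smul_apply, Pr, Matrix.vecMulVec_apply, vec,
    Real.cos_pi_div_two, Real.sin_pi_div_two, Complex.ofReal_one, Complex.ofReal_zero, zero_mul,
    zero_add, one_mul, Matrix.diagonal_apply, Matrix.one_apply, smul_eq_mul]
  by_cases hab : a = b
  · subst hab
    by_cases haj : a = l
    · subst haj
      simp
    · simp [haj]
  · by_cases haj : a = l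
    · have hbj : b ≠ l := fun h' => hab (haj.trans h'.symm)
      simp [hab, hbj]
    · simp [hab, haj]

theorem exp_add_two_pi (x : ℝ) : exp ((x + 2 * Real.pi : ℝ) * I) = exp (x * I) := by
  rw [show ((x + 2 * Real.pi : ℝ) : ℂ) * I = x * I + 2 * Real.pi * I by push_cast; ring]
  rw [Complex.exp_add, Complex.exp_two_pi_mul_I, mul_one]

theorem D_period (θ : Fin N → ℝ) (j : Fin N) : D (θ + Pi.single j (2 * Real.pi)) = D θ := by
  apply Subtype.ext
  change Matrix.diagonal _ = Matrix.diagonal _
  congr 1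
  funext i
  by_cases h : i = j
  · subst h
    rw [Pi.add_apply, Pi.single_eq_same, exp_add_two_pi]
  · rw [Pi.add_apply, Pi.single_eq_of_ne h, add_zero]

theorem G_period {j l : Fin N} (h : j ≠ l) (s φ : ℝ) :
    G h (s, φ + 2 * Real.pi) = G h (s, φ) := by
  apply Subtype.ext
  change 1 + (exp ((φ + 2 * Real.pi : ℝ) * I) - 1) • Pr j l s = 1 + (exp (φ * I) - 1) • Pr j l s
  rw [exp_add_two_pi]

end Wind

open Wind Complex in
theorem winding {N : ℕ} (hN : 1 ≤ N) (k : ℤ) (f : UN N → ℂ) (hf : Continuous f)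
    (h0 : ∀ g, f g ≠ 0)
    (hs : ∀ (t : ℂ) (g g' : UN N), ‖t‖ = 1 →
      (g' : Matrix (Fin N) (Fin N) ℂ) = t • (g : Matrix (Fin N) (Fin N) ℂ) →
      f g' = t ^ k * f g) :
    (N : ℤ) ∣ k := by
  have hpi : (2 * Real.pi * I : ℂ) ≠ 0 := by
    simp [Real.pi_ne_zero]
  obtain ⟨L, hL, hLf⟩ := exists_log (fun θ : Fin N → ℝ => f (D θ)) (hf.comp continuous_D)
    (fun θ => h0 _)
  have hw : ∀ j : Fin N, ∃ w : ℤ, ∀ θ : Fin N → ℝ,
      L (θ + Pi.single j (2 * Real.pi)) - L θ = w * (2 * Real.pi * I) := by
    intro j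
    apply diff_const (by fun_prop) hL
    intro θ
    rw [hLf, hLf, D_period]
  choose w hw using hw
  -- the sum of the winding numbers
  have hsum : ∀ S : Finset (Fin N), L (∑ j ∈ S, Pi.single j (2 * Real.pi)) - L 0 =
      ((∑ j ∈ S, w j : ℤ) : ℂ) * (2 * Real.pi * I) := by
    intro S
    induction S using Finset.induction_on with
    | empty => simp
    | insert a S ha ih =>
      rw [Finset.sum_insert ha, Finset.sum_insert ha,
        add_comm (Pi.single a (2 * Real.pi) : Fin N → ℝ)]
      have h1 := hw a (∑ j ∈ S, Pi.single j (2 * Real.pi))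
      push_cast at ih ⊢
      linear_combination h1 + ih
  have huniv : (∑ j : Fin N, Pi.single j (2 * Real.pi) : Fin N → ℝ) = fun _ => 2 * Real.pi := by
    funext i
    rw [Finset.sum_apply]
    simp [Pi.single_apply]
  have hk : ((∑ j : Fin N, w j : ℤ) : ℂ) = k := by
    have h1 : ∃ m : ℤ, ∀ φ : ℝ, L (fun _ => φ) - (k * (φ * I) + L 0) = m * (2 * Real.pi * I) := by
      apply diff_const (by fun_prop) (by fun_prop)
      intro φ
      rw [Complex.exp_add, hLf, hLf]
      have h2 : ((D fun _ => φ : UN N) : Matrix (Fin N) (Fin N) ℂ) =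
          exp (φ * I) • ((D 0 : UN N) : Matrix (Fin N) (Fin N) ℂ) := by
        change Matrix.diagonal _ = exp (φ * I) • Matrix.diagonal _
        rw [← Matrix.diagonal_smul]
        congr 1
        funext i
        simp
      rw [hs (exp (φ * I)) _ _ (by rw [Complex.norm_exp_ofReal_mul_I]) h2]
      rw [← Complex.exp_int_mul]
    obtain ⟨m, hm⟩ := h1
    have h3 := hm 0
    have h4 := hm (2 * Real.pi)
    have h5 := hsum Finset.univ
    rw [huniv] at h5
    have h6 : (fun _ : Fin N => (0 : ℝ)) = 0 := rfl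
    rw [h6] at h3
    have h7 : ((∑ j : Fin N, w j : ℤ) : ℂ) * (2 * Real.pi * I) = k * (2 * Real.pi * I) := by
      rw [← h5]
      push_cast at h3 h4 ⊢
      linear_combination h4 - h3
    exact mul_right_cancel₀ hpi h7
  -- all winding numbers are equal
  have heq : ∀ j l : Fin N, w j = w l := by
    intro j l
    by_cases hjl : j = l
    · rw [hjl]
    obtain ⟨M, hM, hMf⟩ := exists_log (fun q : ℝ × ℝ => f (G hjl q)) (hf.comp (continuous_G hjl))
      (fun q => h0 _)
    have h1 : ∃ m : ℤ, ∀ q : ℝ × ℝ, M (q.1, q.2 + 2 * Real.pi) - M q = m * (2 * Real.pi * I) := by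
      apply diff_const (by fun_prop) hM
      intro q
      rw [hMf, hMf, G_period]
    obtain ⟨m, hm⟩ := h1
    have key : ∀ (s : ℝ) (a : Fin N), (∀ φ, G hjl (s, φ) = D (Pi.single a φ)) → w a = m := by
      intro s a ha
      have h2 : ∃ n : ℤ, ∀ φ : ℝ, M (s, φ) - L (Pi.single a φ) = n * (2 * Real.pi * I) := by
        apply diff_const (by fun_prop)
        · apply hL.comp
          apply continuous_pi
          intro i
          by_cases hi : i = a
          · subst hi
            simp only [Pi.single_eq_same]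
            exact continuous_id'
          · simp only [Pi.single_eq_of_ne hi]
            exact continuous_const
        · intro φ
          rw [hMf, hLf, ha]
      obtain ⟨n, hn⟩ := h2
      have h3 := hn 0
      have h4 := hn (2 * Real.pi)
      have h5 := hm (s, 0)
      have h6 := hw a 0
      simp only [zero_add, Pi.single_zero] at h3 h5 h6
      have h7 : ((w a : ℤ) : ℂ) * (2 * Real.pi * I) = m * (2 * Real.pi * I) := by
        rw [← h6]
        linear_combination h5 + h3 - h4
      exact_mod_cast mul_right_cancel₀ hpi h7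
    rw [key 0 j (G_zero hjl), key (Real.pi / 2) l (G_pi_div_two hjl)]
  have hj0 : ∀ j : Fin N, w j = w ⟨0, hN⟩ := fun j => heq j _
  rw [Finset.sum_congr rfl (fun j _ => hj0 j)] at hk
  simp only [Finset.sum_const, Finset.card_univ, Fintype.card_fin, nsmul_eq_mul] at hk
  exact ⟨w ⟨0, hN⟩, by exact_mod_cast hk.symm⟩

end Pool.Agent.C8B
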