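import Pool.Agent.Lib.MP_c8b4d4_an.Defs

/-!
# The operators `A ⊗ T` on `n` copies of a Hilbert space and the Laplacian `Del`
-/

set_option autoImplicit false

noncomputable section

namespace Pool.Agent.C8B

open scoped InnerProductSpace

section
variable {K : Type} [NormedAddCommGroup K] [InnerProductSpace ℂ K] {n : ℕ}

theorem amp_apply (A : Matrix (Fin n) (Fin n) ℂ) (T : K →L[ℂ] K) (ξ : Amp n K) (a : Fin n) :
    amp A T ξ a = ∑ b, A a b • T (ξ b) := by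
  simp [amp]

theorem amp_mul (A B : Matrix (Fin n) (Fin n) ℂ) (T S : K →L[ℂ] K) :
    amp A T * amp B S = amp (A * B) (T * S) := by
  ext ξ a
  rw [mul_apply_eq_comp, amp_apply, amp_apply]
  simp only [amp_apply, map_sum, map_smul, Finset.smul_sum, Matrix.mul_apply, Finset.sum_smul,
    mul_apply_eq_comp, smul_smul]
  rw [Finset.sum_comm]

theorem amp_one : amp (1 : Matrix (Fin n) (Fin n) ℂ) (1 : K →L[ℂ] K) = 1 := by
  ext ξ a
  rw [amp_apply]
  simp [Matrix.one_apply]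

theorem amp_add_left (A B : Matrix (Fin n) (Fin n) ℂ) (T : K →L[ℂ] K) :
    amp (A + B) T = amp A T + amp B T := by
  ext ξ a
  simp [amp_apply, add_smul, Finset.sum_add_distrib]

theorem amp_add_right (A : Matrix (Fin n) (Fin n) ℂ) (T S : K →L[ℂ] K) :
    amp A (T + S) = amp A T + amp A S := by
  ext ξ a
  simp [amp_apply, smul_add, Finset.sum_add_distrib]

theorem amp_sub_right (A : Matrix (Fin n) (Fin n) ℂ) (T S : K →L[ℂ] K) :
    amp A (T - S) = amp A T - amp A S := by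
  ext ξ a
  simp [amp_apply, smul_sub, Finset.sum_sub_distrib]

theorem amp_smul_left (z : ℂ) (A : Matrix (Fin n) (Fin n) ℂ) (T : K →L[ℂ] K) :
    amp (z • A) T = z • amp A T := by
  ext ξ a
  simp [amp_apply, Finset.smul_sum, smul_smul]

theorem amp_smul_right (z : ℂ) (A : Matrix (Fin n) (Fin n) ℂ) (T : K →L[ℂ] K) :
    amp A (z • T) = z • amp A T := by
  ext ξ a
  simp only [amp_apply, smul_apply, PiLp.smul_apply, Finset.smul_sum,
    smul_smul, mul_comm]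

theorem AmpB.inner_amp (A : Matrix (Fin n) (Fin n) ℂ) (T : K →L[ℂ] K) (ξ η : Amp n K) :
    ⟪ξ, amp A T η⟫_ℂ = ∑ a, ∑ b, A a b * ⟪ξ a, T (η b)⟫_ℂ := by
  rw [PiLp.inner_apply]
  refine Finset.sum_congr rfl fun a _ => ?_
  rw [amp_apply, inner_sum]
  refine Finset.sum_congr rfl fun b _ => ?_
  rw [inner_smul_right]

theorem AmpB.amp_inner (A : Matrix (Fin n) (Fin n) ℂ) (T : K →L[ℂ] K) (ξ η : Amp n K) :
    ⟪amp A T ξ, η⟫_ℂ = ∑ a, ∑ b, (starRingEnd ℂ) (A a b) * ⟪T (ξ b), η a⟫_ℂ := by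
  rw [PiLp.inner_apply]
  refine Finset.sum_congr rfl fun a _ => ?_
  rw [amp_apply, sum_inner]
  refine Finset.sum_congr rfl fun b _ => ?_
  rw [inner_smul_left]

theorem amp_star [CompleteSpace K] (A : Matrix (Fin n) (Fin n) ℂ) (T : K →L[ℂ] K) :
    star (amp A T) = amp (star A) (star T) := by
  symm
  rw [show star (amp A T) = ContinuousLinearMap.adjoint (amp A T) from rfl,
    ContinuousLinearMap.eq_adjoint_iff]
  intro ξ η
  rw [AmpB.amp_inner, AmpB.inner_amp, Finset.sum_comm]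
  refine Finset.sum_congr rfl fun a _ => Finset.sum_congr rfl fun b _ => ?_
  rw [ContinuousLinearMap.star_eq_adjoint, ContinuousLinearMap.adjoint_inner_left]
  congr 1
  simp [Matrix.star_apply]

/-- A unitary matrix acts isometrically. -/
theorem AmpB.norm_amp_unitary (A : UN n) (ξ : Amp n K) :
    ‖amp (A : Matrix (Fin n) (Fin n) ℂ) (1 : K →L[ℂ] K) ξ‖ = ‖ξ‖ := by
  have h : ‖amp (A : Matrix (Fin n) (Fin n) ℂ) (1 : K →L[ℂ] K) ξ‖ ^ 2 = ‖ξ‖ ^ 2 := by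
    have h1 : (⟪amp (A : Matrix (Fin n) (Fin n) ℂ) (1 : K →L[ℂ] K) ξ,
        amp (A : Matrix (Fin n) (Fin n) ℂ) (1 : K →L[ℂ] K) ξ⟫_ℂ) = ⟪ξ, ξ⟫_ℂ := by
      rw [AmpB.amp_inner]
      simp only [one_apply_eq_self]
      have h2 : ∀ a b : Fin n, (starRingEnd ℂ) ((A : Matrix (Fin n) (Fin n) ℂ) a b) *
          ⟪ξ b, amp (A : Matrix (Fin n) (Fin n) ℂ) (1 : K →L[ℂ] K) ξ a⟫_ℂ
          = ∑ c, ((starRingEnd ℂ) ((A : Matrix (Fin n) (Fin n) ℂ) a b) *
            (A : Matrix (Fin n) (Fin n) ℂ) a c) * ⟪ξ b, ξ c⟫_ℂ := by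
        intro a b
        rw [amp_apply, inner_sum, Finset.mul_sum]
        refine Finset.sum_congr rfl fun c _ => ?_
        rw [inner_smul_right, one_apply_eq_self]
        ring
      simp only [h2]
      rw [Finset.sum_comm]
      rw [PiLp.inner_apply]
      refine Finset.sum_congr rfl fun b _ => ?_
      rw [Finset.sum_comm]
      have h3 : ∀ c : Fin n, ∑ a, ((starRingEnd ℂ) ((A : Matrix (Fin n) (Fin n) ℂ) a b) *
            (A : Matrix (Fin n) (Fin n) ℂ) a c) * ⟪ξ b, ξ c⟫_ℂ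
          = (if b = c then 1 else 0) * ⟪ξ b, ξ c⟫_ℂ := by
        intro c
        rw [← Finset.sum_mul]
        congr 1
        have h4 := A.2
        rw [Matrix.mem_unitaryGroup_iff'] at h4
        have h5 := congrFun (congrFun h4 b) c
        rw [Matrix.mul_apply, Matrix.one_apply] at h5
        rw [← h5]
        refine Finset.sum_congr rfl fun a _ => ?_
        simp [Matrix.star_apply]
      simp only [h3]
      simp
    have h6 := congrArg Complex.re h1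
    rw [inner_self_eq_norm_sq_to_K, inner_self_eq_norm_sq_to_K] at h6
    have h7 : ∀ r : ℝ, (((r : ℂ)) ^ 2).re = r ^ 2 := by
      intro r
      rw [← Complex.ofReal_pow, Complex.ofReal_re]
    simpa [h7] using h6
  have h0 := norm_nonneg (amp (A : Matrix (Fin n) (Fin n) ℂ) (1 : K →L[ℂ] K) ξ)
  have h1 := norm_nonneg ξ
  nlinarith [sq_nonneg (‖amp (A : Matrix (Fin n) (Fin n) ℂ) (1 : K →L[ℂ] K) ξ‖ - ‖ξ‖)]

theorem AmpB.norm_one_amp_le (T : K →L[ℂ] K) (ξ : Amp n K) :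
    ‖amp (1 : Matrix (Fin n) (Fin n) ℂ) T ξ‖ ≤ ‖T‖ * ‖ξ‖ := by
  have h1 : ∀ a, amp (1 : Matrix (Fin n) (Fin n) ℂ) T ξ a = T (ξ a) := by
    intro a
    rw [amp_apply]
    simp [Matrix.one_apply]
  refine le_of_sq_le_sq ?_ (mul_nonneg (norm_nonneg _) (norm_nonneg _))
  rw [mul_pow, PiLp.norm_sq_eq_of_L2, PiLp.norm_sq_eq_of_L2, Finset.mul_sum]
  refine Finset.sum_le_sum fun a _ => ?_
  rw [h1, ← mul_pow]
  exact pow_le_pow_left₀ (norm_nonneg _) (T.le_opNorm _) 2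

theorem amp_norm_le (A : UN n) (T : K →L[ℂ] K) :
    ‖amp (A : Matrix (Fin n) (Fin n) ℂ) T‖ ≤ ‖T‖ := by
  refine ContinuousLinearMap.opNorm_le_bound _ (norm_nonneg _) fun ξ => ?_
  have h1 : amp (A : Matrix (Fin n) (Fin n) ℂ) T =
      amp (A : Matrix (Fin n) (Fin n) ℂ) 1 * amp 1 T := by
    rw [amp_mul, mul_one, one_mul]
  rw [h1, mul_apply_eq_comp, AmpB.norm_amp_unitary]
  exact AmpB.norm_one_amp_le T ξ

/-- `A ↦ A ⊗ T` as a linear map. -/
def AmpB.ampLin (T : K →L[ℂ] K) :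
    Matrix (Fin n) (Fin n) ℂ →ₗ[ℂ] (Amp n K →L[ℂ] Amp n K) where
  toFun A := amp A T
  map_add' A B := amp_add_left A B T
  map_smul' z A := amp_smul_left z A T

theorem amp_continuous (T : K →L[ℂ] K) :
    Continuous fun A : Matrix (Fin n) (Fin n) ℂ => amp A T :=
  (AmpB.ampLin (n := n) T).continuous_of_finiteDimensional

theorem del_selfAdjoint [CompleteSpace K] (y : Tup n) (w : Ix → K →L[ℂ] K) :
    star (Del y w) = Del y w := by
  have h16 : star ((16 : ℂ) • (1 : Amp n K →L[ℂ] Amp n K)) = (16 : ℂ) • 1 := by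
    ext1 ξ
    refine ext_inner_right ℂ fun η => ?_
    rw [ContinuousLinearMap.star_eq_adjoint, ContinuousLinearMap.adjoint_inner_left]
    simp only [smul_apply, one_apply_eq_self, inner_smul_left, inner_smul_right]
    congr 1
    exact (Complex.conj_ofReal 16).symm
  unfold Del
  rw [ContinuousLinearMap.star_eq_adjoint, map_sub, map_sum, ← ContinuousLinearMap.star_eq_adjoint,
    h16]
  congr 1
  refine Finset.sum_congr rfl fun i _ => ?_
  rw [map_add, ← ContinuousLinearMap.star_eq_adjoint, ← ContinuousLinearMap.star_eq_adjoint,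
    amp_star, amp_star, star_star, star_star, add_comm]

theorem AmpB.inner_cross [CompleteSpace K] (y : UN n) (w : K →L[ℂ] K) (ξ : Amp n K) :
    ⟪amp (star (y : Matrix (Fin n) (Fin n) ℂ)) w ξ, ξ⟫_ℂ
      = ⟪amp 1 w ξ, amp (y : Matrix (Fin n) (Fin n) ℂ) 1 ξ⟫_ℂ := by
  have h : amp (star (y : Matrix (Fin n) (Fin n) ℂ)) w
      = star (amp (y : Matrix (Fin n) (Fin n) ℂ) (1 : K →L[ℂ] K)) * amp 1 w := by
    rw [amp_star, amp_mul, star_one, mul_one, one_mul]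
  rw [h, mul_apply_eq_comp, ContinuousLinearMap.star_eq_adjoint,
    ContinuousLinearMap.adjoint_inner_left]

/-- `⟪Del ξ, ξ⟫ + ∑ (‖(1⊗w) ξ‖² - ‖ξ‖²) = ∑ ‖(1 ⊗ w) ξ - (y ⊗ 1) ξ‖²`. -/
theorem del_quad [CompleteSpace K] (y : Tup n) (w : Ix → K →L[ℂ] K) (ξ : Amp n K) :
    (⟪Del y w ξ, ξ⟫_ℂ).re = ∑ i, (‖amp 1 (w i) ξ -
      amp (y i : Matrix (Fin n) (Fin n) ℂ) 1 ξ‖ ^ 2 + ‖ξ‖ ^ 2 - ‖amp 1 (w i) ξ‖ ^ 2) := by
  have h1 : ∀ i, ‖amp 1 (w i) ξ - amp (y i : Matrix (Fin n) (Fin n) ℂ) 1 ξ‖ ^ 2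
      = ‖amp 1 (w i) ξ‖ ^ 2 -
        2 * (⟪amp (star (y i : Matrix (Fin n) (Fin n) ℂ)) (w i) ξ, ξ⟫_ℂ).re + ‖ξ‖ ^ 2 := by
    intro i
    rw [norm_sub_sq (𝕜 := ℂ), AmpB.norm_amp_unitary, AmpB.inner_cross]
    rfl
  have h2 : ∀ i, (⟪amp (y i : Matrix (Fin n) (Fin n) ℂ) (star (w i)) ξ, ξ⟫_ℂ).re
      = (⟪amp (star (y i : Matrix (Fin n) (Fin n) ℂ)) (w i) ξ, ξ⟫_ℂ).re := by
    intro i
    have h3 : amp (y i : Matrix (Fin n) (Fin n) ℂ) (star (w i))
        = star (amp (star (y i : Matrix (Fin n) (Fin n) ℂ)) (w i)) := by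
      rw [amp_star, star_star]
    rw [h3, ContinuousLinearMap.star_eq_adjoint, ContinuousLinearMap.adjoint_inner_left,
      ← inner_conj_symm, Complex.conj_re]
  have h4 : (⟪Del y w ξ, ξ⟫_ℂ).re = 16 * ‖ξ‖ ^ 2 -
      ∑ i, 2 * (⟪amp (star (y i : Matrix (Fin n) (Fin n) ℂ)) (w i) ξ, ξ⟫_ℂ).re := by
    unfold Del
    rw [sub_apply, inner_sub_left, Complex.sub_re,
      smul_apply, one_apply_eq_self, inner_smul_left,
      sum_apply, sum_inner, Complex.re_sum]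
    congr 1
    · rw [inner_self_eq_norm_sq_to_K]
      have : (starRingEnd ℂ) (16 : ℂ) * ((‖ξ‖ : ℂ)) ^ 2 = (((16 : ℝ) * ‖ξ‖ ^ 2 : ℝ) : ℂ) := by
        push_cast
        congr 1
        exact Complex.conj_ofReal 16
      rw [show ((RCLike.ofReal ‖ξ‖ : ℂ)) = ((‖ξ‖ : ℝ) : ℂ) from rfl, this, Complex.ofReal_re]
    · refine Finset.sum_congr rfl fun i _ => ?_
      rw [add_apply, inner_add_left, Complex.add_re, h2]
      ring
  rw [h4]
  simp only [h1]
  have h5 : ∀ i : Ix, ‖amp 1 (w i) ξ‖ ^ 2 -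
        2 * (⟪amp (star (y i : Matrix (Fin n) (Fin n) ℂ)) (w i) ξ, ξ⟫_ℂ).re + ‖ξ‖ ^ 2
          + ‖ξ‖ ^ 2 - ‖amp 1 (w i) ξ‖ ^ 2
      = 2 * ‖ξ‖ ^ 2 - 2 * (⟪amp (star (y i : Matrix (Fin n) (Fin n) ℂ)) (w i) ξ, ξ⟫_ℂ).re := by
    intro i; ring
  simp only [h5]
  rw [Finset.sum_sub_distrib, Finset.sum_const, Finset.card_univ]
  have h6 : Fintype.card Ix = 8 := by simp
  rw [h6, nsmul_eq_mul]
  push_cast
  ring

theorem AmpB.norm_star_amp_le [CompleteSpace K] (A : UN n) (T : K →L[ℂ] K) :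
    ‖amp (star (A : Matrix (Fin n) (Fin n) ℂ)) T‖ ≤ ‖T‖ := by
  have h := amp_norm_le (star A) T
  exact h

theorem AmpB.pair_norm_le [CompleteSpace K] (y : Tup n) (w : Ix → K →L[ℂ] K) (M : ℝ)
    (hM : ∀ i, ‖w i‖ ≤ M) :
    ‖∑ i, (amp (star (y i : Matrix (Fin n) (Fin n) ℂ)) (w i) +
      amp (y i : Matrix (Fin n) (Fin n) ℂ) (star (w i)))‖ ≤ 16 * M := by
  have h1 : ∀ i ∈ (Finset.univ : Finset Ix), ‖amp (star (y i : Matrix (Fin n) (Fin n) ℂ)) (w i) +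
      amp (y i : Matrix (Fin n) (Fin n) ℂ) (star (w i))‖ ≤ 2 * M := by
    intro i _
    refine (norm_add_le _ _).trans ?_
    have h2 := AmpB.norm_star_amp_le (y i) (w i)
    have h3 := amp_norm_le (y i) (star (w i))
    rw [norm_star] at h3
    linarith [hM i]
  refine (norm_sum_le_of_le _ h1).trans (le_of_eq ?_)
  rw [Finset.sum_const, Finset.card_univ]
  have h6 : Fintype.card Ix = 8 := by simp
  rw [h6, nsmul_eq_mul]
  push_cast
  ring

theorem del_norm_le [CompleteSpace K] (y : Tup n) (w : Ix → K →L[ℂ] K) (M : ℝ)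
    (hM : ∀ i, ‖w i‖ ≤ M) : ‖Del y w‖ ≤ 16 + 16 * M := by
  unfold Del
  refine (norm_sub_le _ _).trans (add_le_add ?_ (AmpB.pair_norm_le y w M hM))
  rw [norm_smul]
  have h1 : ‖(1 : Amp n K →L[ℂ] Amp n K)‖ ≤ 1 := ContinuousLinearMap.norm_id_le
  have h2 : ‖(16 : ℂ)‖ = 16 := by simp
  rw [h2]
  linarith

theorem ampIso_apply {K' : Type} [NormedAddCommGroup K'] [InnerProductSpace ℂ K']
    (V : K' →ₗᵢ[ℂ] K) (ξ : Amp n K') (a : Fin n) : ampIso n V ξ a = V (ξ a) := rfl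

theorem sg_apply (a b : Fin n) (v : K) : (sg a v : Amp n K) b = if b = a then v else 0 := by
  simp [sg]

theorem AmpB.amp_ampIso {K' : Type} [NormedAddCommGroup K'] [InnerProductSpace ℂ K']
    (V : K' →ₗᵢ[ℂ] K) (A : Matrix (Fin n) (Fin n) ℂ) (T : K →L[ℂ] K) (T' : K' →L[ℂ] K')
    (h : ∀ u, T (V u) = V (T' u)) (ξ : Amp n K') :
    amp A T (ampIso n V ξ) = ampIso n V (amp A T' ξ) := by
  ext a
  rw [amp_apply, ampIso_apply, amp_apply, map_sum]
  refine Finset.sum_congr rfl fun b _ => ?_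
  rw [ampIso_apply, h, map_smul]

theorem del_ampIso [CompleteSpace K] {K' : Type} [NormedAddCommGroup K'] [InnerProductSpace ℂ K']
    [CompleteSpace K'] (V : K' →ₗᵢ[ℂ] K) (w : Ix → K →L[ℂ] K) (w' : Ix → K' →L[ℂ] K')
    (h : ∀ i u, w i (V u) = V (w' i u)) (h' : ∀ i u, star (w i) (V u) = V (star (w' i) u))
    (y : Tup n) (ξ : Amp n K') :
    Del y w (ampIso n V ξ) = ampIso n V (Del y w' ξ) := by
  unfold Del
  simp only [sub_apply, smul_apply,
    one_apply_eq_self, sum_apply, add_apply,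
    map_sub, map_smul, map_sum, map_add]
  congr 1
  refine Finset.sum_congr rfl fun i _ => ?_
  rw [AmpB.amp_ampIso V _ (w i) (w' i) (h i), AmpB.amp_ampIso V _ (star (w i)) (star (w' i)) (h' i)]

theorem del_sub_norm_le [CompleteSpace K] (y : Tup n) (w v : Ix → K →L[ℂ] K) (δ : ℝ)
    (hM : ∀ i, ‖w i - v i‖ ≤ δ) : ‖Del y w - Del y v‖ ≤ 16 * δ := by
  have h : Del y w - Del y v =
      -(∑ i, (amp (star (y i : Matrix (Fin n) (Fin n) ℂ)) (w i - v i) +
      amp (y i : Matrix (Fin n) (Fin n) ℂ) (star (w i - v i)))) := by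
    unfold Del
    rw [sub_sub_sub_cancel_left, ← Finset.sum_sub_distrib, ← Finset.sum_neg_distrib]
    refine Finset.sum_congr rfl fun i _ => ?_
    rw [star_sub, amp_sub_right, amp_sub_right]
    abel
  rw [h, norm_neg]
  exact AmpB.pair_norm_le y (fun i => w i - v i) δ hM

end

end Pool.Agent.C8B

end
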