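import Pool.Agent.Lib.MP_c8b4d4_an.Defs
import Pool.Agent.Lib.MP_c8b4d4_an.AmpB

set_option autoImplicit false

noncomputable section

namespace Pool.Agent.C8B

open scoped InnerProductSpace

namespace Block

section

variable {K : Type} [NormedAddCommGroup K] [InnerProductSpace ℂ K] {n : ℕ}

theorem continuous_coord (a : Fin n) : Continuous fun v : K => (sg a v : Amp n K) :=
  (PiLp.continuousLinearEquiv 2 ℂ (fun _ : Fin n => K)).symm.continuous.comp
    (continuous_pi fun b => by
      rcases eq_or_ne b a with rfl | hb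
      · simpa using (continuous_id' : Continuous fun a : K => a)
      · simpa [Pi.single_eq_of_ne hb] using continuous_const)

/-- `sg a` as a linear map -/
def sgL (a : Fin n) : K →ₗ[ℂ] Amp n K where
  toFun v := sg a v
  map_add' u v := by
    ext b
    rw [sg_apply, PiLp.add_apply, sg_apply, sg_apply]
    split <;> simp
  map_smul' z v := by
    ext b
    rw [sg_apply, RingHom.id_apply, PiLp.smul_apply, sg_apply]
    split <;> simp

theorem sum_sg (ξ : Amp n K) : ξ = ∑ a, sg a (ξ a) := by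
  ext b
  have h : (∑ a, (sg a (ξ a) : Amp n K)) b = ∑ a, (sg a (ξ a) : Amp n K) b := by
    simp
  rw [h]
  simp_rw [sg_apply]
  simp

theorem ampIso_sg {K' : Type} [NormedAddCommGroup K'] [InnerProductSpace ℂ K']
    (V : K' →ₗᵢ[ℂ] K) (a : Fin n) (u : K') : ampIso n V (sg a u) = sg a (V u) := by
  ext b
  rw [ampIso_apply, sg_apply, sg_apply]
  split
  · rfl
  · exact map_zero V

end

end Block

open Pool.Agent.C8B.Block in
theorem block_del {K : Type} [NormedAddCommGroup K] [InnerProductSpace ℂ K] [CompleteSpace K]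
    {ι : Type} (Kr : ι → Type) [∀ r, NormedAddCommGroup (Kr r)]
    [∀ r, InnerProductSpace ℂ (Kr r)] [∀ r, CompleteSpace (Kr r)]
    (V : ∀ r, Kr r →ₗᵢ[ℂ] K)
    (horth : ∀ r r', r ≠ r' → ∀ u v, ⟪V r u, V r' v⟫_ℂ = 0)
    (hdense : (⨆ r, LinearMap.range ((V r).toLinearMap)).topologicalClosure = ⊤)
    (w : Ix → K →L[ℂ] K) (wr : ∀ r, Ix → Kr r →L[ℂ] Kr r)
    (h : ∀ r i u, w i (V r u) = V r (wr r i u))
    (h' : ∀ r i u, star (w i) (V r u) = V r (star (wr r i) u))
    {n : ℕ} (y : Tup n) (α β κ : ℝ)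
    (hq : ∀ r, ∀ u : Amp n (Kr r), 0 ≤ α * ‖u‖ ^ 2 + β * (⟪Del y (wr r) u, u⟫_ℂ).re +
      κ * ‖Del y (wr r) u‖ ^ 2)
    (ξ : Amp n K) :
    0 ≤ α * ‖ξ‖ ^ 2 + β * (⟪Del y w ξ, ξ⟫_ℂ).re + κ * ‖Del y w ξ‖ ^ 2 := by
  classical
  -- the orthogonal family
  have hfam : OrthogonalFamily ℂ (fun r => Amp n (Kr r)) fun r => ampIso n (V r) := by
    intro r r' hrr u v
    show ⟪ampIso n (V r) u, ampIso n (V r') v⟫_ℂ = 0
    rw [PiLp.inner_apply]
    refine Finset.sum_eq_zero fun a _ => ?_
    rw [ampIso_apply, ampIso_apply]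
    exact horth r r' hrr _ _
  set S : Submodule ℂ (Amp n K) :=
    ⨆ r, LinearMap.range ((ampIso n (V r)).toLinearMap) with hS
  -- density
  have hSd : S.topologicalClosure = ⊤ := by
    rw [eq_top_iff]
    intro η _
    rw [sum_sg η]
    refine Submodule.sum_mem _ fun a _ => ?_
    have h1 : (⨆ r, LinearMap.range ((V r).toLinearMap)) ≤
        Submodule.comap (sgL a) S.topologicalClosure := by
      refine iSup_le fun r => ?_
      rintro _ ⟨u, rfl⟩
      rw [Submodule.mem_comap]
      refine Submodule.le_topologicalClosure _ ?_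
      refine Submodule.mem_iSup_of_mem r ⟨sg a u, ?_⟩
      exact ampIso_sg (V r) a u
    have h2 : IsClosed ((Submodule.comap (sgL a) S.topologicalClosure : Submodule ℂ K) :
        Set K) := by
      have h3 : IsClosed (S.topologicalClosure : Set (Amp n K)) :=
        Submodule.isClosed_topologicalClosure _
      exact h3.preimage (continuous_coord (K := K) a)
    have h3 := Submodule.topologicalClosure_minimal _ h1 h2
    rw [hdense] at h3
    exact h3 (Submodule.mem_top : η a ∈ ⊤)
  -- the inequality on the dense subspace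
  have hmem : ∀ η ∈ S, 0 ≤ α * ‖η‖ ^ 2 + β * (⟪Del y w η, η⟫_ℂ).re + κ * ‖Del y w η‖ ^ 2 := by
    intro η hη
    rw [hS, Submodule.mem_iSup_iff_exists_finsupp] at hη
    obtain ⟨f, hf, rfl⟩ := hη
    choose u hu using hf
    have e1 : (f.sum fun _ x => x) = ∑ r ∈ f.support, ampIso n (V r) (u r) := by
      rw [Finsupp.sum]
      exact Finset.sum_congr rfl fun r _ => (hu r).symm
    rw [e1]
    have e2 : Del y w (∑ r ∈ f.support, ampIso n (V r) (u r)) =
        ∑ r ∈ f.support, ampIso n (V r) (Del y (wr r) (u r)) := by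
      rw [map_sum]
      exact Finset.sum_congr rfl fun r _ =>
        del_ampIso (V r) w (wr r) (h r) (h' r) y (u r)
    rw [e2, hfam.norm_sum, hfam.norm_sum, hfam.inner_sum, Complex.re_sum, Finset.mul_sum,
      Finset.mul_sum, Finset.mul_sum, ← Finset.sum_add_distrib, ← Finset.sum_add_distrib]
    exact Finset.sum_nonneg fun r _ => hq r (u r)
  -- closedness
  have hcl : IsClosed {η : Amp n K |
      0 ≤ α * ‖η‖ ^ 2 + β * (⟪Del y w η, η⟫_ℂ).re + κ * ‖Del y w η‖ ^ 2} := by
    refine isClosed_le continuous_const ?_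
    have c1 : Continuous fun η : Amp n K => Del y w η := (Del y w).continuous
    exact ((continuous_const.mul (continuous_norm.pow 2)).add
      (continuous_const.mul (Complex.continuous_re.comp (c1.inner continuous_id)))).add
      (continuous_const.mul (c1.norm.pow 2))
  have h4 : (S.topologicalClosure : Set (Amp n K)) ⊆ {η : Amp n K |
      0 ≤ α * ‖η‖ ^ 2 + β * (⟪Del y w η, η⟫_ℂ).re + κ * ‖Del y w η‖ ^ 2} := by
    rw [Submodule.topologicalClosure_coe]
    exact closure_minimal hmem hcl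
  rw [hSd] at h4
  exact h4 (Set.mem_univ ξ)

end Pool.Agent.C8B

end
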