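import Pool.Agent.Lib.MP_c8b4d4_an.Defs

set_option autoImplicit false

noncomputable section

namespace Pool.Agent.C8B

open scoped InnerProductSpace

namespace Fam

variable {N : ℕ}

theorem clamp_one_of_le {t : ℝ} (h : 1 ≤ t) : clamp t = 1 := by
  unfold clamp
  rw [min_eq_left h]
  norm_num

theorem clamp_zero_of_le {t : ℝ} (h : t ≤ 0) : clamp t = 0 := by
  unfold clamp
  rw [min_eq_right (by linarith), max_eq_left h]

theorem clamp_continuous : Continuous clamp := by
  unfold clamp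
  fun_prop

theorem frob_nonneg {m n : Type*} [Fintype m] [Fintype n] (X : Matrix m n ℂ) : 0 ≤ frob X :=
  Finset.sum_nonneg fun _ _ => Finset.sum_nonneg fun _ _ => by positivity

theorem frob_eq_trace {m n : Type*} [Fintype m] [Fintype n] (X : Matrix m n ℂ) :
    ((frob X : ℝ) : ℂ) = Matrix.trace (X * X.conjTranspose) := by
  simp only [frob, Matrix.trace, Matrix.diag, Matrix.mul_apply, Matrix.conjTranspose_apply]
  push_cast
  refine Finset.sum_congr rfl fun a _ => Finset.sum_congr rfl fun b _ => ?_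
  rw [← Complex.mul_conj']
  rfl

theorem frob_unitary_left (g : UN N) (X : Matrix (Fin N) (Fin N) ℂ) :
    frob ((g : Matrix (Fin N) (Fin N) ℂ) * X) = frob X := by
  have h : ((frob ((g : Matrix (Fin N) (Fin N) ℂ) * X) : ℝ) : ℂ) = frob X := by
    rw [frob_eq_trace, frob_eq_trace, Matrix.conjTranspose_mul, Matrix.mul_assoc,
      ← Matrix.mul_assoc X, ← Matrix.mul_assoc, Matrix.trace_mul_comm, ← Matrix.mul_assoc,
      ← Matrix.mul_assoc]
    have := g.2
    rw [Matrix.mem_unitaryGroup_iff', Matrix.star_eq_conjTranspose] at this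
    rw [this, Matrix.one_mul]
  exact_mod_cast h

theorem frob_unitary_right (g : UN N) (X : Matrix (Fin N) (Fin N) ℂ) :
    frob (X * (g : Matrix (Fin N) (Fin N) ℂ)) = frob X := by
  have h : ((frob (X * (g : Matrix (Fin N) (Fin N) ℂ)) : ℝ) : ℂ) = frob X := by
    rw [frob_eq_trace, frob_eq_trace, Matrix.conjTranspose_mul, Matrix.mul_assoc,
      ← Matrix.mul_assoc (g : Matrix (Fin N) (Fin N) ℂ)]
    have := g.2
    rw [Matrix.mem_unitaryGroup_iff, Matrix.star_eq_conjTranspose] at this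
    rw [this, Matrix.one_mul]
  exact_mod_cast h

theorem inv_coe (g : UN N) : ((g⁻¹ : UN N) : Matrix (Fin N) (Fin N) ℂ) =
    star (g : Matrix (Fin N) (Fin N) ℂ) := rfl

theorem gap_conj {c : ℝ} (e : Fin 4 → UN N)
    (hgap : ∀ X : Matrix (Fin N) (Fin N) ℂ, X.trace = 0 →
        c ^ 2 * frob X ≤ ∑ i, frob ((e i : Matrix (Fin N) (Fin N) ℂ) * X -
          X * (e i : Matrix (Fin N) (Fin N) ℂ))) (g : UN N)
    (X : Matrix (Fin N) (Fin N) ℂ) (hX : X.trace = 0) :
    c ^ 2 * frob X ≤ ∑ i, frob (((g * e i * g⁻¹ : UN N) : Matrix (Fin N) (Fin N) ℂ) * X -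
          X * ((g * e i * g⁻¹ : UN N) : Matrix (Fin N) (Fin N) ℂ)) := by
  have h1 := hgap (((g⁻¹ : UN N) : Matrix (Fin N) (Fin N) ℂ) * X *
    (g : Matrix (Fin N) (Fin N) ℂ)) ?_
  · rw [frob_unitary_right, frob_unitary_left] at h1
    refine h1.trans (le_of_eq ?_)
    refine Finset.sum_congr rfl fun i _ => ?_
    have h2 : ((e i : UN N) : Matrix (Fin N) (Fin N) ℂ) *
        (((g⁻¹ : UN N) : Matrix (Fin N) (Fin N) ℂ) * X * (g : Matrix (Fin N) (Fin N) ℂ)) -
        ((g⁻¹ : UN N) : Matrix (Fin N) (Fin N) ℂ) * X * (g : Matrix (Fin N) (Fin N) ℂ) *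
          ((e i : UN N) : Matrix (Fin N) (Fin N) ℂ) =
        ((g⁻¹ : UN N) : Matrix (Fin N) (Fin N) ℂ) *
          (((g * e i * g⁻¹ : UN N) : Matrix (Fin N) (Fin N) ℂ) * X -
          X * ((g * e i * g⁻¹ : UN N) : Matrix (Fin N) (Fin N) ℂ)) *
          (g : Matrix (Fin N) (Fin N) ℂ) := by
      have e1 : ((g⁻¹ : UN N) : Matrix (Fin N) (Fin N) ℂ) * (g : Matrix (Fin N) (Fin N) ℂ) = 1 := by
        rw [inv_coe]
        exact Matrix.mem_unitaryGroup_iff'.1 g.2
      simp only [Submonoid.coe_mul]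
      rw [Matrix.mul_sub, Matrix.sub_mul]
      congr 1
      · calc _ = 1 * (e i : Matrix (Fin N) (Fin N) ℂ) *
            (((g⁻¹ : UN N) : Matrix (Fin N) (Fin N) ℂ) * X * (g : Matrix (Fin N) (Fin N) ℂ)) := by
              rw [Matrix.one_mul]
          _ = _ := by
              rw [← e1]
              simp only [Matrix.mul_assoc]
      · calc _ = ((g⁻¹ : UN N) : Matrix (Fin N) (Fin N) ℂ) * X * (g : Matrix (Fin N) (Fin N) ℂ) *
            (e i : Matrix (Fin N) (Fin N) ℂ) * 1 := by rw [Matrix.mul_one]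
          _ = _ := by
              rw [← e1]
              simp only [Matrix.mul_assoc]
    rw [h2, frob_unitary_right, frob_unitary_left]
  · rw [Matrix.trace_mul_comm, ← Matrix.mul_assoc]
    have e1 : (g : Matrix (Fin N) (Fin N) ℂ) * ((g⁻¹ : UN N) : Matrix (Fin N) (Fin N) ℂ) = 1 := by
      rw [inv_coe]
      exact Matrix.mem_unitaryGroup_iff.1 g.2
    rw [e1, Matrix.one_mul, hX]

end Fam

open Fam

theorem fam_gap {c : ℝ} {N : ℕ} (p : Fin 4 → ℝ → UN N) (h0 : ∀ i, p i 0 = 1)
    (hgap : ∀ X : Matrix (Fin N) (Fin N) ℂ, X.trace = 0 →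
        c ^ 2 * frob X ≤ ∑ i, frob ((p i 1 : Matrix (Fin N) (Fin N) ℂ) * X -
          X * (p i 1 : Matrix (Fin N) (Fin N) ℂ))) (g : UN N) (t : ℝ) :
    Gap c (fam p g t) := by
  intro X hX
  rw [Fintype.sum_prod_type, Fin.sum_univ_two]
  have key := gap_conj (fun i => p i 1) hgap g X hX
  have key2 := hgap X hX
  by_cases ht : t ≤ 2
  · refine le_trans ?_ (le_add_of_nonneg_left (Finset.sum_nonneg fun i _ => frob_nonneg _))
    have e : ∀ i, fam p g t (1, i) = g * p i 1 * g⁻¹ := by
      intro i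
      unfold fam
      rw [if_neg (by simp), clamp_one_of_le (by linarith)]
    simp only [e]
    exact key
  · push Not at ht
    refine le_trans ?_ (le_add_of_nonneg_right (Finset.sum_nonneg fun i _ => frob_nonneg _))
    have e : ∀ i, fam p g t (0, i) = p i 1 := by
      intro i
      unfold fam
      rw [if_pos (by simp), clamp_zero_of_le (by linarith), clamp_one_of_le (by linarith), h0]
      simp
    simp only [e]
    exact key2

theorem fam_zero {N : ℕ} (p : Fin 4 → ℝ → UN N) (h0 : ∀ i, p i 0 = 1) (g : UN N) :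
    fam p g 0 = fun i => g * fam p 1 0 i * g⁻¹ := by
  funext i
  unfold fam
  by_cases hi : i.1 = 0
  · rw [if_pos hi, if_pos hi, clamp_zero_of_le (t := 0 - 1) (by norm_num), h0]
    simp
  · rw [if_neg hi, if_neg hi]
    simp

theorem fam_three {N : ℕ} (p : Fin 4 → ℝ → UN N) (h0 : ∀ i, p i 0 = 1) (g : UN N) :
    fam p g 3 = fam p 1 3 := by
  funext i
  unfold fam
  by_cases hi : i.1 = 0
  · rw [if_pos hi, if_pos hi, clamp_zero_of_le (t := 1 - 3) (by norm_num), h0]
    simp
  · rw [if_neg hi, if_neg hi, clamp_zero_of_le (t := 3 - 3) (by norm_num), h0]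
    simp

theorem fam_scalar {N : ℕ} (p : Fin 4 → ℝ → UN N) (s : ℂ) (g g' : UN N) (t : ℝ) (hs : ‖s‖ = 1)
    (h : (g' : Matrix (Fin N) (Fin N) ℂ) = s • (g : Matrix (Fin N) (Fin N) ℂ)) :
    fam p g' t = fam p g t := by
  have key : ∀ u : UN N, g' * u * g'⁻¹ = g * u * g⁻¹ := by
    intro u
    apply Subtype.ext
    simp only [Submonoid.coe_mul, inv_coe, h, star_smul, Matrix.smul_mul, Matrix.mul_smul,
      smul_smul]
    have : star s * s = 1 := by
      have := Complex.conj_mul' s
      rw [hs] at this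
      simpa using this
    rw [this, one_smul]
  funext i
  unfold fam
  by_cases hi : i.1 = 0
  · rw [if_pos hi, if_pos hi, key]
  · rw [if_neg hi, if_neg hi, key]

theorem fam_continuous {N : ℕ} (p : Fin 4 → ℝ → UN N) (hp : ∀ i, Continuous (p i)) :
    Continuous fun a : UN N × ℝ => fam p a.1 a.2 := by
  refine continuous_pi fun i => ?_
  unfold fam
  have h1 : Continuous fun a : UN N × ℝ => p i.2 (clamp (1 - a.2)) :=
    (hp i.2).comp (clamp_continuous.comp (by fun_prop))
  have h2 : Continuous fun a : UN N × ℝ => p i.2 (clamp (a.2 - 1)) :=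
    (hp i.2).comp (clamp_continuous.comp (by fun_prop))
  have h3 : Continuous fun a : UN N × ℝ => p i.2 (clamp (3 - a.2)) :=
    (hp i.2).comp (clamp_continuous.comp (by fun_prop))
  by_cases hi : i.1 = 0
  · simp only [if_pos hi]
    exact ((continuous_fst.mul h1).mul (continuous_inv.comp continuous_fst)).mul h2
  · simp only [if_neg hi]
    exact (continuous_fst.mul h3).mul (continuous_inv.comp continuous_fst)

end Pool.Agent.C8B

end
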