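import Pool.Agent.Lib.MP_c8b4d4_an.Defs

/-!
# Module FLAT of `MP_c8b4d4_an`

The Powers-Stoermer inequality and the flatness bound for near intertwiners.
-/

set_option autoImplicit false

noncomputable section

namespace Pool.Agent.C8B

open scoped InnerProductSpace

namespace Flat

open Matrix
open scoped ComplexOrder MatrixOrder

section Basic

variable {m n k : Type*} [Fintype m] [Fintype n] [Fintype k]

lemma frob_nonneg (X : Matrix m n ℂ) : 0 ≤ frob X :=
  Finset.sum_nonneg fun _ _ => Finset.sum_nonneg fun _ _ => by positivity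

lemma frob_eq (X : Matrix m n ℂ) : frob X = (Matrix.trace (Xᴴ * X)).re := by
  unfold frob
  rw [Finset.sum_comm]
  simp only [Matrix.trace, Matrix.diag_apply, Matrix.mul_apply, Matrix.conjTranspose_apply,
    Complex.re_sum]
  refine Finset.sum_congr rfl fun a _ => Finset.sum_congr rfl fun b _ => ?_
  rw [← Complex.normSq_eq_norm_sq, Complex.star_def, ← Complex.normSq_eq_conj_mul_self,
    Complex.ofReal_re]

lemma frob_eq' (X : Matrix m n ℂ) : frob X = (Matrix.trace (X * Xᴴ)).re := by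
  rw [frob_eq, Matrix.trace_mul_comm]

lemma frob_conjTranspose (X : Matrix m n ℂ) : frob Xᴴ = frob X := by
  rw [frob_eq, Matrix.conjTranspose_conjTranspose, frob_eq']

lemma frob_transpose (X : Matrix m n ℂ) : frob Xᵀ = frob X := by
  unfold frob
  rw [Finset.sum_comm]
  rfl

lemma frob_neg (X : Matrix m n ℂ) : frob (-X) = frob X := by
  unfold frob
  simp

lemma frob_sub_comm (X Y : Matrix m n ℂ) : frob (X - Y) = frob (Y - X) := by
  rw [← frob_neg, neg_sub]

lemma frob_unitary_mul [DecidableEq m] (u : Matrix m m ℂ) (h : uᴴ * u = 1) (X : Matrix m n ℂ) :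
    frob (u * X) = frob X := by
  rw [frob_eq, frob_eq, Matrix.conjTranspose_mul, Matrix.mul_assoc, ← Matrix.mul_assoc uᴴ, h,
    Matrix.one_mul]

lemma sqrt_frob_add (X Y : Matrix m n ℂ) :
    Real.sqrt (frob (X + Y)) ≤ Real.sqrt (frob X) + Real.sqrt (frob Y) := by
  let := Matrix.frobeniusNormedAddCommGroup (m := m) (n := n) (α := ℂ)
  have key : ∀ Z : Matrix m n ℂ, Real.sqrt (frob Z) = ‖Z‖ := by
    intro Z
    rw [Matrix.frobenius_norm_def, Real.sqrt_eq_rpow]
    unfold frob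
    congr 1
    refine Finset.sum_congr rfl fun a _ => Finset.sum_congr rfl fun b _ => ?_
    rw [← Real.rpow_natCast]
    norm_num
  rw [key, key, key]
  exact norm_add_le _ _

/-- Trace of a product of two positive semidefinite matrices. -/
lemma trace_mul_nonneg {P Q : Matrix n n ℂ} (hP : P.PosSemidef) (hQ : Q.PosSemidef) :
    0 ≤ (Matrix.trace (P * Q)).re := by
  classical
  obtain ⟨C, rfl⟩ := CStarAlgebra.nonneg_iff_eq_star_mul_self.mp hP.nonneg
  have h := (hQ.mul_mul_conjTranspose_same C).trace_nonneg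
  rw [Matrix.mul_assoc, Matrix.trace_mul_comm (star C), Matrix.mul_assoc,
    Matrix.star_eq_conjTranspose, ← Matrix.mul_assoc]
  exact (Complex.le_def.mp h).1

lemma frob_mul_le [DecidableEq n] {C : Matrix m n ℂ} (hC : (1 - Cᴴ * C).PosSemidef)
    (X : Matrix n k ℂ) : frob (C * X) ≤ frob X := by
  have h := (hC.conjTranspose_mul_mul_same X).trace_nonneg
  have h2 : Xᴴ * (1 - Cᴴ * C) * X = Xᴴ * X - (C * X)ᴴ * (C * X) := by
    rw [Matrix.conjTranspose_mul, Matrix.mul_sub, Matrix.sub_mul, Matrix.mul_one]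
    simp only [Matrix.mul_assoc]
  rw [h2, Matrix.trace_sub] at h
  have h3 := (Complex.le_def.mp h).1
  rw [Complex.sub_re, ← frob_eq, ← frob_eq] at h3
  simpa using h3

lemma frob_le_card [DecidableEq n] {C : Matrix m n ℂ} (hC : (1 - Cᴴ * C).PosSemidef) :
    frob C ≤ Fintype.card m := by
  have h1 : frob (C * Cᴴ) ≤ frob C := (frob_mul_le hC Cᴴ).trans_eq (frob_conjTranspose C)
  have h2 : (frob C) ^ 2 ≤ Fintype.card m * frob (C * Cᴴ) := by
    have e : frob C = ∑ i, ((C * Cᴴ) i i).re := by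
      rw [frob_eq', Matrix.trace, Complex.re_sum]; rfl
    rw [e]
    have hcs := Finset.sum_mul_sq_le_sq_mul_sq (Finset.univ : Finset m) (fun _ => (1 : ℝ))
      (fun i => ((C * Cᴴ) i i).re)
    simp only [one_mul, one_pow, Finset.sum_const, Finset.card_univ, nsmul_eq_mul, mul_one] at hcs
    refine hcs.trans ?_
    gcongr
    unfold frob
    refine Finset.sum_le_sum fun i _ => ?_
    refine le_trans ?_ (Finset.single_le_sum (f := fun b => ‖(C * Cᴴ) i b‖ ^ 2)
      (fun _ _ => by positivity) (Finset.mem_univ i))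
    have := Complex.abs_re_le_norm ((C * Cᴴ) i i)
    rw [← sq_abs]
    gcongr
  have h0 := frob_nonneg C
  have h3 : (frob C) ^ 2 ≤ Fintype.card m * frob C :=
    h2.trans (by gcongr)
  rcases h0.eq_or_lt with h | h
  · rw [← h]; positivity
  · nlinarith

end Basic

section PS

variable {n : Type} [Fintype n] [DecidableEq n]

/-- Functional calculus with respect to a fixed unitary. -/
def FC (U : Matrix n n ℂ) (d : n → ℝ) : Matrix n n ℂ :=
  U * Matrix.diagonal (fun i => (d i : ℂ)) * Uᴴ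

lemma FC_mul {U : Matrix n n ℂ} (hU : Uᴴ * U = 1) (d e : n → ℝ) :
    FC U d * FC U e = FC U (fun i => d i * e i) := by
  unfold FC
  rw [show U * diagonal (fun i => (d i : ℂ)) * Uᴴ * (U * diagonal (fun i => (e i : ℂ)) * Uᴴ) =
    U * diagonal (fun i => (d i : ℂ)) * (Uᴴ * U) * diagonal (fun i => (e i : ℂ)) * Uᴴ by
      simp only [Matrix.mul_assoc], hU, Matrix.mul_one, Matrix.mul_assoc U,
    Matrix.diagonal_mul_diagonal]
  simp

lemma FC_star (U : Matrix n n ℂ) (d : n → ℝ) : (FC U d)ᴴ = FC U d := by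
  unfold FC
  rw [Matrix.conjTranspose_mul, Matrix.conjTranspose_mul, Matrix.conjTranspose_conjTranspose,
    Matrix.diagonal_conjTranspose, Matrix.mul_assoc]
  congr 3
  ext i
  simp

lemma FC_sub (U : Matrix n n ℂ) (d e : n → ℝ) :
    FC U d - FC U e = FC U (fun i => d i - e i) := by
  unfold FC
  rw [← Matrix.sub_mul, ← Matrix.mul_sub, Matrix.diagonal_sub]
  simp

lemma FC_add (U : Matrix n n ℂ) (d e : n → ℝ) :
    FC U d + FC U e = FC U (fun i => d i + e i) := by
  unfold FC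
  rw [← Matrix.add_mul, ← Matrix.mul_add, Matrix.diagonal_add]
  simp

lemma FC_one {U : Matrix n n ℂ} (hU : U * Uᴴ = 1) : FC U (fun _ => 1) = 1 := by
  unfold FC
  simp [hU]

lemma FC_psd (U : Matrix n n ℂ) {d : n → ℝ} (hd : ∀ i, 0 ≤ d i) : (FC U d).PosSemidef := by
  unfold FC
  refine Matrix.PosSemidef.mul_mul_conjTranspose_same ?_ U
  refine Matrix.PosSemidef.diagonal ?_
  intro i
  simpa using hd i

end PS

end Flat

open ComplexOrder in
theorem powers_stormer {n : Type} [Fintype n] [DecidableEq n] (A B : Matrix n n ℂ)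
    (hA : A.PosSemidef) (hB : B.PosSemidef) :
    ∃ u : Matrix n n ℂ, star u * u = 1 ∧ u * star u = 1 ∧
      frob (A - B) ≤ (Matrix.trace (u * (A * A - B * B))).re := by
  have hS : (A - B).IsHermitian := hA.1.sub hB.1
  set U : Matrix n n ℂ := (hS.eigenvectorUnitary : Matrix n n ℂ) with hUdef
  have hU1 : U.conjTranspose * U = 1 := by
    have := (hS.eigenvectorUnitary).2
    rw [Matrix.mem_unitaryGroup_iff', Matrix.star_eq_conjTranspose] at this
    exact this
  have hU2 : U * U.conjTranspose = 1 := by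
    have := (hS.eigenvectorUnitary).2
    rw [Matrix.mem_unitaryGroup_iff, Matrix.star_eq_conjTranspose] at this
    exact this
  set l : n → ℝ := hS.eigenvalues with hl
  have hspec : A - B = Flat.FC U l := by
    have := hS.spectral_theorem
    rw [Unitary.conjStarAlgAut_apply] at this
    exact this
  set u : Matrix n n ℂ := Flat.FC U (fun i => if 0 ≤ l i then 1 else -1) with hu
  set P : Matrix n n ℂ := Flat.FC U (fun i => max (l i) 0) with hP
  set Q : Matrix n n ℂ := Flat.FC U (fun i => max (-l i) 0) with hQ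
  have huu : u * u = 1 := by
    rw [hu, Flat.FC_mul hU1, ← Flat.FC_one hU2]
    congr 1
    ext i
    split_ifs <;> simp
  have hus : star u = u := Flat.FC_star _ _
  have hPQ : A - B = P - Q := by
    rw [hspec, hP, hQ, Flat.FC_sub]
    congr 1
    ext i
    rcases le_total 0 (l i) with h | h
    · rw [max_eq_left h, max_eq_right (by linarith)]; ring
    · rw [max_eq_right h, max_eq_left (by linarith)]; ring
  have huS : u * (A - B) = P + Q := by
    rw [hspec, hP, hQ, hu, Flat.FC_mul hU1, Flat.FC_add]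
    congr 1
    ext i
    rcases lt_or_ge (l i) 0 with h | h
    · rw [max_eq_right h.le, max_eq_left (by linarith), if_neg (not_le.mpr h)]; ring
    · rw [max_eq_left h, max_eq_right (by linarith), if_pos h]; ring
  have hSu : (A - B) * u = P + Q := by
    rw [hspec, hP, hQ, hu, Flat.FC_mul hU1, Flat.FC_add]
    congr 1
    ext i
    rcases lt_or_ge (l i) 0 with h | h
    · rw [max_eq_right h.le, max_eq_left (by linarith), if_neg (not_le.mpr h)]; ring
    · rw [max_eq_left h, max_eq_right (by linarith), if_pos h]; ring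
  have hPp : P.PosSemidef := Flat.FC_psd _ fun i => le_max_right _ _
  have hQp : Q.PosSemidef := Flat.FC_psd _ fun i => le_max_right _ _
  refine ⟨u, by rw [hus, huu], by rw [hus, huu], ?_⟩
  have e1 : Matrix.trace (u * (A * A - B * B)) = Matrix.trace ((P + Q) * (A + B)) := by
    have h2 : (2 : ℂ) • (A * A - B * B) = (A - B) * (A + B) + (A + B) * (A - B) := by
      rw [two_smul]; noncomm_ring
    have h3 : (2 : ℂ) * Matrix.trace (u * (A * A - B * B)) =
        2 * Matrix.trace ((P + Q) * (A + B)) := by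
      rw [← smul_eq_mul, ← Matrix.trace_smul, ← Matrix.mul_smul, h2, Matrix.mul_add,
        Matrix.trace_add, ← Matrix.mul_assoc, huS, Matrix.trace_mul_comm u, Matrix.mul_assoc,
        hSu, Matrix.trace_mul_comm (A + B)]
      ring
    exact mul_left_cancel₀ two_ne_zero h3
  have e2 : frob (A - B) = (Matrix.trace ((P - Q) * (A - B))).re := by
    rw [Flat.frob_eq, hS.eq, ← hPQ]
  have p1 := Flat.trace_mul_nonneg hPp hB
  have p2 := Flat.trace_mul_nonneg hQp hA
  rw [e1, e2]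
  have e3 : (P + Q) * (A + B) - (P - Q) * (A - B) = (2 : ℂ) • (P * B) + (2 : ℂ) • (Q * A) := by
    simp only [two_smul]; noncomm_ring
  have e4 := congrArg (fun M => (Matrix.trace M).re) e3
  simp only [Matrix.trace_sub, Matrix.trace_add, Matrix.trace_smul, Complex.sub_re,
    Complex.add_re, smul_eq_mul, Complex.mul_re, Complex.re_ofNat, Complex.im_ofNat, zero_mul,
    sub_zero] at e4
  linarith

namespace Flat

open Matrix
open scoped ComplexOrder MatrixOrder

section TB

variable {n : Type*} [Fintype n] [DecidableEq n] {K : Type*} [NormedAddCommGroup K]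
  [InnerProductSpace ℂ K]

omit [DecidableEq n] in
lemma sum_inner_self (f : n → K) : ∑ p, ⟪f p, f p⟫_ℂ = ((∑ p, ‖f p‖ ^ 2 : ℝ) : ℂ) := by
  push_cast
  exact Finset.sum_congr rfl fun p _ => inner_self_eq_norm_sq_to_K (f p)

lemma sq_comb (w : Matrix n n ℂ) (h : w * wᴴ = 1) (g : n → K) :
    ∑ p, ‖∑ q, w q p • g q‖ ^ 2 = ∑ q, ‖g q‖ ^ 2 := by
  have e : ∑ p, ⟪∑ q, w q p • g q, ∑ q, w q p • g q⟫_ℂ = ∑ q, ⟪g q, g q⟫_ℂ := by
    calc ∑ p, ⟪∑ q, w q p • g q, ∑ q, w q p • g q⟫_ℂ
        = ∑ p, ∑ q, ∑ r, (w r p * star (w q p)) * ⟪g q, g r⟫_ℂ := by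
          refine Finset.sum_congr rfl fun p _ => ?_
          rw [sum_inner]
          refine Finset.sum_congr rfl fun q _ => ?_
          rw [inner_sum]
          refine Finset.sum_congr rfl fun r _ => ?_
          rw [inner_smul_left, inner_smul_right, Complex.star_def]
          ring
      _ = ∑ q, ∑ r, (w * wᴴ) r q * ⟪g q, g r⟫_ℂ := by
          rw [Finset.sum_comm]
          refine Finset.sum_congr rfl fun q _ => ?_
          rw [Finset.sum_comm]
          refine Finset.sum_congr rfl fun r _ => ?_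
          rw [Matrix.mul_apply, Finset.sum_mul]
          rfl
      _ = ∑ q, ⟪g q, g q⟫_ℂ := by
          refine Finset.sum_congr rfl fun q _ => ?_
          rw [h, Finset.sum_eq_single q]
          · simp
          · intro r _ hr
            simp [Matrix.one_apply_ne hr]
          · simp
  rw [sum_inner_self, sum_inner_self] at e
  exact_mod_cast e

omit [DecidableEq n] in
lemma trace_gram (w : Matrix n n ℂ) (f g : n → K) :
    Matrix.trace (w * Matrix.of fun p q => ⟪f p, g q⟫_ℂ) = ∑ p, ⟪f p, ∑ q, w q p • g q⟫_ℂ := by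
  simp only [Matrix.trace, Matrix.diag_apply, Matrix.mul_apply, Matrix.of_apply, inner_sum,
    inner_smul_right]
  rw [Finset.sum_comm]

lemma trace_bound (w : Matrix n n ℂ) (h : w * wᴴ = 1) (f g : n → K) {a b : ℝ} (ha0 : 0 ≤ a)
    (hb0 : 0 ≤ b) (ha : ∑ p, ‖f p‖ ^ 2 ≤ a ^ 2) (hb : ∑ p, ‖g p‖ ^ 2 ≤ b ^ 2) :
    (Matrix.trace (w * Matrix.of fun p q => ⟪f p, g q⟫_ℂ)).re ≤ a * b := by
  rw [trace_gram]
  refine (Complex.re_le_norm _).trans ?_
  refine (norm_sum_le _ _).trans ?_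
  refine (Finset.sum_le_sum fun p _ => norm_inner_le_norm _ _).trans ?_
  refine (Real.sum_mul_le_sqrt_mul_sqrt _ _ _).trans ?_
  rw [sq_comb w h g]
  gcongr
  · rw [Real.sqrt_le_left ha0]; exact ha
  · rw [Real.sqrt_le_left hb0]; exact hb

end TB

section Step

open scoped Kronecker

variable {N m : ℕ} {K : Type} [NormedAddCommGroup K] [InnerProductSpace ℂ K] [CompleteSpace K]

/-- The matrix `1 ⊗ yᵀ`. -/
def zz (m : ℕ) {N : ℕ} (y : UN N) : Matrix (Fin m × Fin N) (Fin m × Fin N) ℂ :=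
  (1 : Matrix (Fin m) (Fin m) ℂ) ⊗ₖ (y : Matrix (Fin N) (Fin N) ℂ)ᵀ

lemma zz_unitary (y : UN N) : (zz m y)ᴴ * zz m y = 1 := by
  have h := (Matrix.mem_unitaryGroup_iff).1 y.2
  have h3 := congrArg Matrix.transpose h
  rw [Matrix.transpose_mul, Matrix.transpose_one] at h3
  unfold zz
  rw [Matrix.conjTranspose_kronecker, ← Matrix.mul_kronecker_mul, Matrix.conjTranspose_one,
    Matrix.one_mul, ← Matrix.one_kronecker_one]
  congr 1

lemma zz_unitary' (y : UN N) : zz m y * (zz m y)ᴴ = 1 := by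
  have h := (Matrix.mem_unitaryGroup_iff').1 y.2
  have h3 := congrArg Matrix.transpose h
  rw [Matrix.transpose_mul, Matrix.transpose_one] at h3
  unfold zz
  rw [Matrix.conjTranspose_kronecker, ← Matrix.mul_kronecker_mul, Matrix.conjTranspose_one,
    Matrix.one_mul, ← Matrix.one_kronecker_one]
  congr 1

lemma zz_apply (y : UN N) (p q : Fin m × Fin N) :
    zz m y p q = if p.1 = q.1 then (y : Matrix (Fin N) (Fin N) ℂ) q.2 p.2 else 0 := by
  unfold zz
  rw [Matrix.kroneckerMap_apply, Matrix.one_apply, Matrix.transpose_apply]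
  split_ifs <;> simp

omit [CompleteSpace K] in
lemma sum_zz (y : UN N) (ξ : Fin m → Fin N → K) (q : Fin m × Fin N) :
    ∑ p, zz m y p q • ξ p.1 p.2 =
      ∑ b, (y : Matrix (Fin N) (Fin N) ℂ) q.2 b • ξ q.1 b := by
  rw [Fintype.sum_prod_type, Finset.sum_eq_single q.1]
  · exact Finset.sum_congr rfl fun b _ => by rw [zz_apply, if_pos rfl]
  · intro α _ hα
    exact Finset.sum_eq_zero fun b _ => by rw [zz_apply, if_neg hα, zero_smul]
  · simp

omit [CompleteSpace K] in
lemma conj_gram (y : UN N) (ξ : Fin m → Fin N → K) :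
    (zz m y)ᴴ * Matrix.gram ℂ (fun p : Fin m × Fin N => ξ p.1 p.2) * zz m y =
      Matrix.gram ℂ (fun p : Fin m × Fin N =>
        ∑ b, (y : Matrix (Fin N) (Fin N) ℂ) p.2 b • ξ p.1 b) := by
  ext p q
  rw [Matrix.gram_apply, ← sum_zz, ← sum_zz, Matrix.mul_apply, inner_sum]
  refine Finset.sum_congr rfl fun r _ => ?_
  rw [inner_smul_right, sum_inner, Matrix.mul_apply, mul_comm]
  congr 1
  refine Finset.sum_congr rfl fun s _ => ?_
  rw [inner_smul_left, Matrix.gram_apply, Matrix.conjTranspose_apply, Complex.star_def]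

lemma one_step (y : UN N) (W : K →L[ℂ] K) (δ η : ℝ) (hδ : 0 ≤ δ) (hη : 0 ≤ η)
    (hW : ‖star W * W - 1‖ ≤ δ) (ξ : Fin m → Fin N → K)
    (hm : ∑ p : Fin m × Fin N, ‖ξ p.1 p.2‖ ^ 2 = m)
    (hnear : ∑ p : Fin m × Fin N, ‖W (ξ p.1 p.2) -
      ∑ b, (y : Matrix (Fin N) (Fin N) ℂ) p.2 b • ξ p.1 b‖ ^ 2 ≤ η ^ 2 * m)
    (A : Matrix (Fin m × Fin N) (Fin m × Fin N) ℂ) (hA : A.PosSemidef)
    (hAG : A * A = Matrix.gram ℂ (fun p : Fin m × Fin N => ξ p.1 p.2)) :
    frob (zz m y * A - A * zz m y) ≤ m * (δ + η * (2 + δ)) := by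
  set z := zz m y with hz
  have hz1 : zᴴ * z = 1 := zz_unitary y
  have hz2 : z * zᴴ = 1 := zz_unitary' y
  set u : Fin m × Fin N → K := fun p => ξ p.1 p.2 with hu
  set u' : Fin m × Fin N → K := fun p =>
    ∑ b, (y : Matrix (Fin N) (Fin N) ℂ) p.2 b • ξ p.1 b with hu'
  have e1 : frob (z * A - A * z) = frob (A - zᴴ * A * z) := by
    rw [← frob_unitary_mul z hz1 (A - zᴴ * A * z), Matrix.mul_sub, ← Matrix.mul_assoc,
      ← Matrix.mul_assoc, hz2, Matrix.one_mul]
  obtain ⟨w, -, hw, hle⟩ := powers_stormer A (zᴴ * A * z) hA (hA.conjTranspose_mul_mul_same z)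
  rw [e1]
  refine hle.trans ?_
  have e2 : zᴴ * A * z * (zᴴ * A * z) = Matrix.gram ℂ u' := by
    rw [hu', ← conj_gram, ← hz, ← hAG]
    rw [show zᴴ * A * z * (zᴴ * A * z) = zᴴ * A * (z * zᴴ) * A * z by
      simp only [Matrix.mul_assoc], hz2]
    simp only [Matrix.mul_assoc, Matrix.one_mul]
  rw [e2, hAG]
  set r : Fin m × Fin N → K := fun p => W (u p) - u' p with hr
  have e3 : Matrix.gram ℂ u - Matrix.gram ℂ u' =
      (Matrix.of fun p q => ⟪u p, (1 - star W * W) (u q)⟫_ℂ) +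
      (Matrix.of fun p q => ⟪W (u p), r q⟫_ℂ) + (Matrix.of fun p q => ⟪r p, u' q⟫_ℂ) := by
    ext p q
    simp only [Matrix.sub_apply, Matrix.add_apply, Matrix.of_apply, Matrix.gram_apply, hr]
    have e4 : ⟪u p, (star W * W) (u q)⟫_ℂ = ⟪W (u p), W (u q)⟫_ℂ := by
      rw [mul_apply_eq_comp, ContinuousLinearMap.star_eq_adjoint,
        ContinuousLinearMap.adjoint_inner_right]
    rw [_root_.sub_apply, one_apply_eq_self, inner_sub_right, e4,
      inner_sub_right, inner_sub_left]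
    ring
  have hW' : ‖1 - star W * W‖ ≤ δ := by rw [norm_sub_rev]; exact hW
  have hm0 : (0 : ℝ) ≤ m := by positivity
  have s1 : ∑ p, ‖u p‖ ^ 2 ≤ Real.sqrt m ^ 2 := by
    rw [Real.sq_sqrt hm0]; exact hm.le
  have s2 : ∑ p, ‖(1 - star W * W) (u p)‖ ^ 2 ≤ (δ * Real.sqrt m) ^ 2 := by
    rw [mul_pow, Real.sq_sqrt hm0, ← hm, Finset.mul_sum]
    refine Finset.sum_le_sum fun p _ => ?_
    rw [← mul_pow]
    gcongr
    exact (ContinuousLinearMap.le_opNorm _ _).trans (by gcongr)
  have s3 : ∑ p, ‖W (u p)‖ ^ 2 ≤ ((1 + δ) * Real.sqrt m) ^ 2 := by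
    rw [mul_pow, Real.sq_sqrt hm0, ← hm, Finset.mul_sum]
    refine Finset.sum_le_sum fun p _ => ?_
    have e5 : ‖W (u p)‖ ^ 2 = (⟪u p, (star W * W) (u p)⟫_ℂ).re := by
      rw [mul_apply_eq_comp, ContinuousLinearMap.star_eq_adjoint,
        ContinuousLinearMap.adjoint_inner_right, ← inner_self_eq_norm_sq (𝕜 := ℂ)]
      rfl
    have e6 : (star W * W) (u p) = u p + (star W * W - 1) (u p) := by
      rw [_root_.sub_apply, one_apply_eq_self]; abel
    have e7 : (⟪u p, (star W * W - 1) (u p)⟫_ℂ).re ≤ δ * ‖u p‖ ^ 2 := by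
      refine (Complex.re_le_norm _).trans ((norm_inner_le_norm _ _).trans ?_)
      have := (star W * W - 1).le_opNorm (u p)
      calc ‖u p‖ * ‖(star W * W - 1) (u p)‖ ≤ ‖u p‖ * (δ * ‖u p‖) := by
            gcongr; exact this.trans (by gcongr)
        _ = δ * ‖u p‖ ^ 2 := by ring
    have e8 : (⟪u p, u p⟫_ℂ).re = ‖u p‖ ^ 2 := inner_self_eq_norm_sq (𝕜 := ℂ) (u p)
    rw [e5, e6, inner_add_right, Complex.add_re, e8]
    have : (1 + δ) * ‖u p‖ ^ 2 ≤ (1 + δ) ^ 2 * ‖u p‖ ^ 2 := by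
      gcongr
      nlinarith
    nlinarith
  have s4 : ∑ p, ‖r p‖ ^ 2 ≤ (η * Real.sqrt m) ^ 2 := by
    rw [mul_pow, Real.sq_sqrt hm0]; exact hnear
  have s5 : ∑ p, ‖u' p‖ ^ 2 ≤ Real.sqrt m ^ 2 := by
    have e9 : ∀ p, u' p = ∑ q, z q p • u q := fun p => (sum_zz y ξ p).symm
    have : ∑ p, ‖u' p‖ ^ 2 = ∑ q, ‖u q‖ ^ 2 := by
      rw [← sq_comb z hz2 u]
      exact Finset.sum_congr rfl fun p _ => by rw [e9]
    rw [this]; exact s1
  have hsm : 0 ≤ Real.sqrt m := Real.sqrt_nonneg _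
  have t1 := trace_bound w hw u (fun p => (1 - star W * W) (u p)) hsm (by positivity) s1 s2
  have t2 := trace_bound w hw (fun p => W (u p)) r (by positivity) (by positivity) s3 s4
  have t3 := trace_bound w hw r u' (by positivity) hsm s4 s5
  rw [e3, Matrix.mul_add, Matrix.mul_add, Matrix.trace_add, Matrix.trace_add, Complex.add_re,
    Complex.add_re]
  refine (add_le_add (add_le_add t1 t2) t3).trans_eq ?_
  have hs := Real.mul_self_sqrt hm0
  linear_combination (δ + η * (2 + δ)) * hs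

end Step

section Blocks

open scoped Kronecker

variable {N m : ℕ}

/-- Normalised partial trace. -/
def hat (A : Matrix (Fin m × Fin N) (Fin m × Fin N) ℂ) : Matrix (Fin m) (Fin m) ℂ :=
  Matrix.of fun α β => (N : ℂ)⁻¹ * ∑ a, A (α, a) (β, a)

/-- Transposed block. -/
def blk (A : Matrix (Fin m × Fin N) (Fin m × Fin N) ℂ) (α β : Fin m) :
    Matrix (Fin N) (Fin N) ℂ :=
  Matrix.of fun b a => A (α, a) (β, b)

lemma frob_blk (A : Matrix (Fin m × Fin N) (Fin m × Fin N) ℂ) :
    frob A = ∑ α, ∑ β, frob (blk A α β) := by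
  unfold frob blk
  rw [Fintype.sum_prod_type]
  refine Finset.sum_congr rfl fun α _ => ?_
  simp only [Fintype.sum_prod_type, Matrix.of_apply]
  rw [Finset.sum_comm]
  refine Finset.sum_congr rfl fun β _ => ?_
  rw [Finset.sum_comm]

/-- The part of `A` with vanishing partial trace. -/
def rest (A : Matrix (Fin m × Fin N) (Fin m × Fin N) ℂ) :
    Matrix (Fin m × Fin N) (Fin m × Fin N) ℂ :=
  A - hat A ⊗ₖ (1 : Matrix (Fin N) (Fin N) ℂ)

lemma rest_apply (A : Matrix (Fin m × Fin N) (Fin m × Fin N) ℂ) (p q : Fin m × Fin N) :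
    rest A p q = A p q - if p.2 = q.2 then hat A p.1 q.1 else 0 := by
  unfold rest
  rw [Matrix.sub_apply, Matrix.kroneckerMap_apply, Matrix.one_apply]
  split_ifs <;> simp

lemma ptr_rest (hN : 1 ≤ N) (A : Matrix (Fin m × Fin N) (Fin m × Fin N) ℂ) (α β : Fin m) :
    ∑ a, rest A (α, a) (β, a) = 0 := by
  have hN0 : (N : ℂ) ≠ 0 := by exact_mod_cast (by omega : N ≠ 0)
  simp only [rest_apply, if_true, Finset.sum_sub_distrib, Finset.sum_const, Finset.card_univ,
    Fintype.card_fin, nsmul_eq_mul, hat, Matrix.of_apply]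
  rw [← mul_assoc, mul_inv_cancel₀ hN0, one_mul, sub_self]

lemma gap_blocks {c : ℝ} (y : Tup N) (hy : Gap c y) (hN : 1 ≤ N)
    (A : Matrix (Fin m × Fin N) (Fin m × Fin N) ℂ) :
    c ^ 2 * frob (rest A) ≤ ∑ i, frob (zz m (y i) * A - A * zz m (y i)) := by
  have key : ∀ i α β, blk (zz m (y i) * A - A * zz m (y i)) α β =
      -((y i : Matrix (Fin N) (Fin N) ℂ) * blk (rest A) α β -
        blk (rest A) α β * (y i : Matrix (Fin N) (Fin N) ℂ)) := by
    intro i α β
    ext b a
    simp only [blk, Matrix.of_apply, Matrix.sub_apply, Matrix.neg_apply, Matrix.mul_apply,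
      Fintype.sum_prod_type, zz_apply, rest_apply]
    rw [Finset.sum_eq_single α, Finset.sum_eq_single β]
    · simp only [if_true, mul_sub, sub_mul, Finset.sum_sub_distrib, mul_ite, ite_mul, mul_zero,
        zero_mul, Finset.sum_ite_eq, Finset.sum_ite_eq', Finset.mem_univ]
      have e1 : ∀ x : Fin N, A (α, a) (β, x) * (y i : Matrix (Fin N) (Fin N) ℂ) b x =
        (y i : Matrix (Fin N) (Fin N) ℂ) b x * A (α, a) (β, x) := fun x => mul_comm _ _
      have e2 : ∀ x : Fin N, A (α, x) (β, b) * (y i : Matrix (Fin N) (Fin N) ℂ) x a =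
        (y i : Matrix (Fin N) (Fin N) ℂ) x a * A (α, x) (β, b) := fun x => mul_comm _ _
      simp only [e1, e2]
      ring
    · intro γ _ hγ
      exact Finset.sum_eq_zero fun x _ => by rw [if_neg hγ, mul_zero]
    · simp
    · intro γ _ hγ
      exact Finset.sum_eq_zero fun x _ => by rw [if_neg (Ne.symm hγ), zero_mul]
    · simp
  calc c ^ 2 * frob (rest A) = ∑ α, ∑ β, c ^ 2 * frob (blk (rest A) α β) := by
        rw [frob_blk, Finset.mul_sum]
        exact Finset.sum_congr rfl fun α _ => by rw [Finset.mul_sum]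
    _ ≤ ∑ α, ∑ β, ∑ i, frob ((y i : Matrix (Fin N) (Fin N) ℂ) * blk (rest A) α β -
          blk (rest A) α β * (y i : Matrix (Fin N) (Fin N) ℂ)) := by
        refine Finset.sum_le_sum fun α _ => Finset.sum_le_sum fun β _ => hy _ ?_
        exact ptr_rest hN A α β
    _ = ∑ i, frob (zz m (y i) * A - A * zz m (y i)) := by
        have e3 : ∀ i, frob (zz m (y i) * A - A * zz m (y i)) =
            ∑ α, ∑ β, frob ((y i : Matrix (Fin N) (Fin N) ℂ) * blk (rest A) α β -
              blk (rest A) α β * (y i : Matrix (Fin N) (Fin N) ℂ)) := by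
          intro i
          rw [frob_blk]
          exact Finset.sum_congr rfl fun α _ => Finset.sum_congr rfl fun β _ => by
            rw [key, frob_neg]
        simp only [e3]
        rw [Finset.sum_comm (s := (Finset.univ : Finset Ix))]
        refine Finset.sum_congr rfl fun α _ => ?_
        rw [Finset.sum_comm (s := (Finset.univ : Finset Ix))]

lemma hat_herm {A : Matrix (Fin m × Fin N) (Fin m × Fin N) ℂ} (hA : A.IsHermitian) :
    (hat A)ᴴ = hat A := by
  ext α β
  simp only [hat, Matrix.conjTranspose_apply, Matrix.of_apply, star_mul', star_sum, star_inv₀,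
    star_natCast]
  congr 1
  refine Finset.sum_congr rfl fun a _ => ?_
  have := congrFun (congrFun hA (α, a)) (β, a)
  rw [Matrix.conjTranspose_apply] at this
  exact this

lemma rest_herm {A : Matrix (Fin m × Fin N) (Fin m × Fin N) ℂ} (hA : A.IsHermitian) :
    (rest A)ᴴ = rest A := by
  unfold rest
  rw [Matrix.conjTranspose_sub, Matrix.conjTranspose_kronecker, hat_herm hA,
    Matrix.conjTranspose_one, hA]

/-- If the partial trace of `A * A` is one then `N (hat A)^2 ≤ 1`. -/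
lemma hat_sq_le (hN : 1 ≤ N) {A : Matrix (Fin m × Fin N) (Fin m × Fin N) ℂ}
    (hA : A.IsHermitian)
    (h1 : ∀ α β, ∑ a, (A * A) (α, a) (β, a) = if α = β then 1 else 0) :
    (1 - (N : ℂ) • (hat A * hat A)).PosSemidef := by
  set D : Matrix ((Fin m × Fin N) × Fin N) (Fin m) ℂ :=
    Matrix.of fun q α => rest A q.1 (α, q.2) with hD
  have e : 1 - (N : ℂ) • (hat A * hat A) = Dᴴ * D := by
    have hAe : A = hat A ⊗ₖ (1 : Matrix (Fin N) (Fin N) ℂ) + rest A := by
      unfold rest; abel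
    ext α β
    have h2 := h1 α β
    have h3 : A * A = (hat A * hat A) ⊗ₖ (1 : Matrix (Fin N) (Fin N) ℂ) +
        (hat A ⊗ₖ (1 : Matrix (Fin N) (Fin N) ℂ)) * rest A +
        rest A * (hat A ⊗ₖ (1 : Matrix (Fin N) (Fin N) ℂ)) + rest A * rest A := by
      conv_lhs => rw [hAe]
      rw [Matrix.add_mul, Matrix.mul_add, Matrix.mul_add, ← Matrix.mul_kronecker_mul,
        Matrix.one_mul]
      abel
    rw [h3] at h2
    simp only [Matrix.add_apply, Finset.sum_add_distrib] at h2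
    have k1 : ∑ a, ((hat A * hat A) ⊗ₖ (1 : Matrix (Fin N) (Fin N) ℂ)) (α, a) (β, a) =
        (N : ℂ) * (hat A * hat A) α β := by
      simp [Matrix.kroneckerMap_apply]
    have k2 : ∑ a, ((hat A ⊗ₖ (1 : Matrix (Fin N) (Fin N) ℂ)) * rest A) (α, a) (β, a) = 0 := by
      simp only [Matrix.mul_apply, Fintype.sum_prod_type, Matrix.kroneckerMap_apply,
        Matrix.one_apply, mul_ite, mul_one, mul_zero, ite_mul, zero_mul, Finset.sum_ite_eq,
        Finset.mem_univ, if_true]
      rw [Finset.sum_comm]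
      refine Finset.sum_eq_zero fun γ _ => ?_
      rw [← Finset.mul_sum, ptr_rest hN, mul_zero]
    have k3 : ∑ a, (rest A * (hat A ⊗ₖ (1 : Matrix (Fin N) (Fin N) ℂ))) (α, a) (β, a) = 0 := by
      simp only [Matrix.mul_apply, Fintype.sum_prod_type, Matrix.kroneckerMap_apply,
        Matrix.one_apply, mul_ite, mul_one, mul_zero, Finset.sum_ite_eq',
        Finset.mem_univ, if_true]
      rw [Finset.sum_comm]
      refine Finset.sum_eq_zero fun γ _ => ?_
      rw [← Finset.sum_mul, ptr_rest hN, zero_mul]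
    have k4 : ∑ a, (rest A * rest A) (α, a) (β, a) = (Dᴴ * D) α β := by
      rw [Matrix.mul_apply, Fintype.sum_prod_type_right]
      refine Finset.sum_congr rfl fun a _ => ?_
      rw [Matrix.mul_apply]
      refine Finset.sum_congr rfl fun q _ => ?_
      rw [Matrix.conjTranspose_apply, hD]
      simp only [Matrix.of_apply]
      congr 1
      have := congrFun (congrFun (rest_herm hA) (α, a)) q
      rw [Matrix.conjTranspose_apply] at this
      exact this.symm
    rw [k1, k2, k3, k4] at h2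
    rw [Matrix.sub_apply, Matrix.smul_apply, Matrix.one_apply, smul_eq_mul, ← h2]
    ring
  rw [e]
  exact Matrix.posSemidef_conjTranspose_mul_self D

lemma frob_mul_hat_le {ι : Type} [Fintype ι] (hN : 1 ≤ N)
    {A : Matrix (Fin m × Fin N) (Fin m × Fin N) ℂ} (hA : A.IsHermitian)
    (h1 : ∀ α β, ∑ a, (A * A) (α, a) (β, a) = if α = β then 1 else 0)
    (C : Matrix ι (Fin m × Fin N) ℂ) :
    N * frob (C * (hat A ⊗ₖ (1 : Matrix (Fin N) (Fin N) ℂ))) ≤ frob C := by
  have h2 := (hat_sq_le hN hA h1).kronecker (Matrix.PosSemidef.one (n := Fin N) (R := ℂ))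
  have h3 := (h2.mul_mul_conjTranspose_same C).trace_nonneg
  have e : C * ((1 - (N : ℂ) • (hat A * hat A)) ⊗ₖ (1 : Matrix (Fin N) (Fin N) ℂ)) * Cᴴ =
      C * Cᴴ - (N : ℂ) • ((C * (hat A ⊗ₖ (1 : Matrix (Fin N) (Fin N) ℂ))) *
        (C * (hat A ⊗ₖ (1 : Matrix (Fin N) (Fin N) ℂ)))ᴴ) := by
    have e0 : (1 - (N : ℂ) • (hat A * hat A)) ⊗ₖ (1 : Matrix (Fin N) (Fin N) ℂ) =
        1 - (N : ℂ) • ((hat A ⊗ₖ (1 : Matrix (Fin N) (Fin N) ℂ)) *
          (hat A ⊗ₖ (1 : Matrix (Fin N) (Fin N) ℂ))) := by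
      rw [← Matrix.mul_kronecker_mul, Matrix.one_mul, ← Matrix.smul_kronecker]
      rw [sub_eq_add_neg, Matrix.add_kronecker, Matrix.one_kronecker_one, sub_eq_add_neg]
      congr 1
      rw [← neg_one_smul ℂ, Matrix.smul_kronecker, neg_one_smul]
    rw [e0, Matrix.conjTranspose_mul, Matrix.conjTranspose_kronecker, hat_herm hA,
      Matrix.conjTranspose_one, Matrix.mul_sub, Matrix.sub_mul, Matrix.mul_one,
      Matrix.mul_smul, Matrix.smul_mul]
    simp only [Matrix.mul_assoc]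
  rw [e, Matrix.trace_sub, Matrix.trace_smul] at h3
  have h4 := (Complex.le_def.mp h3).1
  rw [Complex.sub_re, smul_eq_mul, Complex.mul_re, Complex.natCast_re, Complex.natCast_im,
    zero_mul, sub_zero, ← frob_eq', ← frob_eq'] at h4
  simpa using h4

end Blocks

end Flat

section

open Matrix
open scoped ComplexOrder MatrixOrder

theorem flat_bound {c : ℝ} (hc : 0 < c) {N m : ℕ} (hN : 1 ≤ N) {K : Type} [NormedAddCommGroup K]
    [InnerProductSpace ℂ K] [CompleteSpace K] (y : Tup N) (hy : Gap c y)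
    (W : Ix → K →L[ℂ] K) (δ η : ℝ) (hδ : 0 ≤ δ) (hη : 0 ≤ η)
    (hW : ∀ i, ‖star (W i) * W i - 1‖ ≤ δ)
    (ξ : Fin m → Fin N → K)
    (horth : ∀ α β, ∑ a, ⟪ξ α a, ξ β a⟫_ℂ = if α = β then 1 else 0)
    (hnear : ∀ i, ∑ α, ∑ a, ‖W i (ξ α a) -
      ∑ b, (y i : Matrix (Fin N) (Fin N) ℂ) a b • ξ α b‖ ^ 2 ≤ η ^ 2 * m)
    {ι : Type} [Fintype ι] (p : ι → K) (hp : Orthonormal ℂ p) (K' : ℕ)
    (hK' : Fintype.card ι = K' * N) :
    Real.sqrt (∑ α, ∑ a, ∑ k, ‖⟪p k, ξ α a⟫_ℂ‖ ^ 2) ≤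
      Real.sqrt K' + Real.sqrt (8 * (δ + η * (2 + δ)) / c ^ 2 * m) := by
  classical
  set n := Fin m × Fin N with hn
  set u : n → K := fun q => ξ q.1 q.2 with hu
  set G : Matrix n n ℂ := Matrix.gram ℂ u with hG
  have hGp : G.PosSemidef := Matrix.posSemidef_gram ℂ u
  obtain ⟨A, hA, hAG⟩ : ∃ A : Matrix n n ℂ, A.PosSemidef ∧ A * A = G :=
    ⟨CFC.sqrt G, (CFC.sqrt_nonneg G).posSemidef, CFC.sqrt_mul_sqrt_self G hGp.nonneg⟩
  have hm : ∑ q : n, ‖u q‖ ^ 2 = m := by
    have h1 : ∑ q : n, ⟪u q, u q⟫_ℂ = m := by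
      rw [Fintype.sum_prod_type]
      simp only [hu, horth, if_true]
      simp
    rw [Flat.sum_inner_self] at h1
    exact_mod_cast h1
  have h1 : ∀ α β, ∑ a, (A * A) (α, a) (β, a) = if α = β then 1 else 0 := by
    intro α β
    rw [hAG]
    exact horth α β
  set κ := δ + η * (2 + δ) with hκ
  have hκ0 : 0 ≤ κ := by positivity
  -- flatness
  have hY : frob (Flat.rest A) ≤ 8 * κ / c ^ 2 * m := by
    have g1 := Flat.gap_blocks y hy hN A
    have g2 : ∑ i, frob (Flat.zz m (y i) * A - A * Flat.zz m (y i)) ≤ ∑ _i : Ix, m * κ := by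
      refine Finset.sum_le_sum fun i _ => ?_
      refine Flat.one_step (y i) (W i) δ η hδ hη (hW i) ξ hm ?_ A hA hAG
      rw [Fintype.sum_prod_type]
      exact hnear i
    have g3 : ∑ _i : Ix, (m : ℝ) * κ = 8 * (m * κ) := by
      rw [Finset.sum_const, Finset.card_univ]
      simp [Ix]
    have hc2 : 0 < c ^ 2 := by positivity
    rw [div_mul_eq_mul_div, le_div_iff₀ hc2]
    nlinarith
  set Y := Flat.rest A with hYdef
  set Z : Matrix n n ℂ := Matrix.kroneckerMap (· * ·) (Flat.hat A) (1 : Matrix (Fin N) (Fin N) ℂ)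
    with hZ
  have hAYZ : A = Z + Y := by rw [hYdef]; unfold Flat.rest; rw [hZ]; abel
  set M : Matrix ι n ℂ := Matrix.of fun k q => ⟪p k, u q⟫_ℂ with hM
  have hMG : (G - Mᴴ * M).PosSemidef := by
    refine Matrix.PosSemidef.of_dotProduct_mulVec_nonneg
      (hGp.1.sub (Matrix.isHermitian_conjTranspose_mul_self M)) fun x => ?_
    set v : K := ∑ q, x q • u q with hv
    have e1 : star x ⬝ᵥ (G - Mᴴ * M) *ᵥ x = ⟪v, v⟫_ℂ - star (M *ᵥ x) ⬝ᵥ (M *ᵥ x) := by
      rw [Matrix.sub_mulVec, dotProduct_sub, hG, Matrix.star_dotProduct_gram_mulVec, hv,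
        ← Matrix.mulVec_mulVec, Matrix.dotProduct_mulVec (star x) Mᴴ, Matrix.vecMul_conjTranspose,
        star_star]
    have e2 : ∀ k, (M *ᵥ x) k = ⟪p k, v⟫_ℂ := by
      intro k
      rw [hv, inner_sum]
      refine Finset.sum_congr rfl fun q _ => ?_
      rw [inner_smul_right, mul_comm]
      rfl
    have e3 : star (M *ᵥ x) ⬝ᵥ (M *ᵥ x) = ((∑ k, ‖⟪p k, v⟫_ℂ‖ ^ 2 : ℝ) : ℂ) := by
      rw [dotProduct, Complex.ofReal_sum]
      refine Finset.sum_congr rfl fun k _ => ?_
      rw [Pi.star_apply, e2, ← Complex.normSq_eq_norm_sq, Complex.star_def,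
        ← Complex.normSq_eq_conj_mul_self]
    have e4 : ∑ k, ‖⟪p k, v⟫_ℂ‖ ^ 2 ≤ ‖v‖ ^ 2 := Orthonormal.sum_inner_products_le v hp
    rw [e1, e3, inner_self_eq_norm_sq_to_K]
    have e5 : ((‖v‖ : ℝ) : ℂ) ^ 2 - ((∑ k, ‖⟪p k, v⟫_ℂ‖ ^ 2 : ℝ) : ℂ) =
        ((‖v‖ ^ 2 - ∑ k, ‖⟪p k, v⟫_ℂ‖ ^ 2 : ℝ) : ℂ) := by
      push_cast; ring
    refine le_of_le_of_eq ?_ e5.symm
    exact_mod_cast sub_nonneg.mpr e4
  have hlhs : ∑ α, ∑ a, ∑ k, ‖⟪p k, ξ α a⟫_ℂ‖ ^ 2 = frob M := by
    rw [← Flat.frob_transpose]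
    unfold frob
    rw [Fintype.sum_prod_type]
    rfl
  rw [hlhs]
  have key : ∀ ε : ℝ, 0 < ε → Real.sqrt (frob M) ≤
      Real.sqrt K' + Real.sqrt (8 * κ / c ^ 2 * m) + ε * Real.sqrt (frob (1 : Matrix n n ℂ)) := by
    intro ε hε
    set E : Matrix n n ℂ := (ε : ℂ) • (1 : Matrix n n ℂ) with hE
    have hεC : (0 : ℂ) < (ε : ℂ) := by exact_mod_cast hε
    have hEp : E.PosDef := Matrix.PosDef.one.smul hεC
    set D : Matrix n n ℂ := A + E with hD
    have hDp : D.PosDef := hEp.posSemidef_add hA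
    have hDH : D.IsHermitian := hDp.1
    have hDu : IsUnit D := hDp.isUnit
    have hD1 : D⁻¹ * D = 1 := Matrix.nonsing_inv_mul D ((Matrix.isUnit_iff_isUnit_det D).1 hDu)
    have hD2 : D * D⁻¹ = 1 := Matrix.mul_nonsing_inv D ((Matrix.isUnit_iff_isUnit_det D).1 hDu)
    have hDiH : (D⁻¹)ᴴ = D⁻¹ := hDH.inv
    set C : Matrix ι n ℂ := M * D⁻¹ with hC
    have hCp : (1 - Cᴴ * C).PosSemidef := by
      have q1 : (D * D - Mᴴ * M).PosSemidef := by
        have q2 : D * D - Mᴴ * M = (G - Mᴴ * M) + ((2 * ε : ℂ) • A + (ε ^ 2 : ℂ) • 1) := by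
          rw [hD, ← hAG, hE]
          simp only [Matrix.add_mul, Matrix.mul_add, Matrix.smul_mul, Matrix.mul_smul,
            Matrix.one_mul, Matrix.mul_one, smul_add, smul_smul]
          rw [two_mul, add_smul, pow_two]
          abel
        rw [q2]
        refine hMG.add (Matrix.PosSemidef.add (hA.smul ?_) (Matrix.PosSemidef.one.smul ?_))
        · exact_mod_cast (by positivity : (0 : ℝ) ≤ 2 * ε)
        · exact_mod_cast (by positivity : (0 : ℝ) ≤ ε ^ 2)
      have q3 := q1.conjTranspose_mul_mul_same D⁻¹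
      have q4 : (D⁻¹)ᴴ * (D * D - Mᴴ * M) * D⁻¹ = 1 - Cᴴ * C := by
        rw [hC, Matrix.conjTranspose_mul, Matrix.mul_sub, Matrix.sub_mul, hDiH]
        congr 1
        · rw [← Matrix.mul_assoc, hD1, Matrix.one_mul, hD2]
        · simp only [Matrix.mul_assoc]
      rwa [q4] at q3
    have hMC : M = C * Z + C * (Y + E) := by
      rw [← Matrix.mul_add, ← add_assoc, ← hAYZ, hC, Matrix.mul_assoc, hD1, Matrix.mul_one]
    have b1 : frob (C * Z) ≤ K' := by
      have b2 := Flat.frob_mul_hat_le hN hA.1 h1 C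
      have b3 := Flat.frob_le_card hCp
      rw [hK'] at b3
      push_cast at b3
      have hN0 : (0 : ℝ) < N := by exact_mod_cast hN
      have b4 : N * frob (C * Z) ≤ N * (K' : ℝ) := by
        refine b2.trans (b3.trans_eq (mul_comm _ _))
      exact le_of_mul_le_mul_left b4 hN0
    have b5 : Real.sqrt (frob (C * (Y + E))) ≤
        Real.sqrt (8 * κ / c ^ 2 * m) + ε * Real.sqrt (frob (1 : Matrix n n ℂ)) := by
      refine (Real.sqrt_le_sqrt (Flat.frob_mul_le hCp (Y + E))).trans ?_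
      refine (Flat.sqrt_frob_add Y E).trans ?_
      have b6 : frob E = ε ^ 2 * frob (1 : Matrix n n ℂ) := by
        rw [hE]
        unfold frob
        simp only [Matrix.smul_apply, norm_smul, mul_pow, Complex.norm_real, Real.norm_eq_abs,
          sq_abs, Finset.mul_sum]
      rw [b6, Real.sqrt_mul (by positivity), Real.sqrt_sq hε.le]
      gcongr
    calc Real.sqrt (frob M) ≤ Real.sqrt (frob (C * Z)) + Real.sqrt (frob (C * (Y + E))) := by
          conv_lhs => rw [hMC]
          exact Flat.sqrt_frob_add _ _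
      _ ≤ _ := by
          have b7 := Real.sqrt_le_sqrt b1
          linarith
  refine le_of_forall_pos_le_add fun ε hε => ?_
  set s := Real.sqrt (frob (1 : Matrix n n ℂ)) with hs
  have hs0 : 0 ≤ s := Real.sqrt_nonneg _
  refine (key (ε / (s + 1)) (by positivity)).trans ?_
  have : ε / (s + 1) * s ≤ ε := by
    rw [div_mul_eq_mul_div, div_le_iff₀ (by positivity)]
    nlinarith
  linarith

end

end Pool.Agent.C8B

end
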