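import Pool.Agent.Lib.MP_c8b4d4_an.Defs

/-!
Module FOCK for `MP_c8b4d4_an`: basic operators on `ℓ²` of words.
-/

set_option autoImplicit false

noncomputable section

namespace Pool.Agent.C8B

open scoped InnerProductSpace

theorem Fock.opOf_spec {ι E : Type*} [DecidableEq ι] [NormedAddCommGroup E]
    [InnerProductSpace ℂ E] (v : ι → E)
    (h : ∃ T : lp (fun _ : ι => ℂ) 2 →L[ℂ] E, ∀ i, T (lp.single 2 i (1 : ℂ)) = v i) (i : ι) :
    opOf v (lp.single 2 i (1 : ℂ)) = v i := by
  have hdec : ‹DecidableEq ι› = fun a b => Classical.propDecidable (a = b) :=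
    Subsingleton.elim _ _
  subst hdec
  unfold opOf
  rw [dif_pos h]
  exact h.choose_spec i

theorem opOf_single {ι E : Type} [DecidableEq ι] [NormedAddCommGroup E] [InnerProductSpace ℂ E]
    [CompleteSpace E] (v : ι → E) (hv : Orthonormal ℂ v) (i : ι) :
    opOf v (lp.single 2 i (1 : ℂ)) = v i := by
  apply Fock.opOf_spec
  refine ⟨hv.orthogonalFamily.linearIsometry.toContinuousLinearMap, fun j => ?_⟩
  change hv.orthogonalFamily.linearIsometry (lp.single 2 j (1 : ℂ)) = v j
  rw [hv.orthogonalFamily.linearIsometry_apply_single]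
  simp

variable {ω : Set ℕ} {D : ω → Dat} {q : Set ℕ}

namespace Fock

theorem inner_bas (γ : List (Lett D q)) (f : Fk D q) : ⟪bas γ, f⟫_ℂ = f γ := by
  classical
  unfold bas
  rw [lp.inner_single_left]
  simp

theorem inner_bas_same (γ : List (Lett D q)) :
    ⟪(bas γ : Fk D q), bas γ⟫_ℂ = 1 := by
  classical
  rw [inner_bas]
  unfold bas
  exact lp.single_apply_self 2 γ _

theorem inner_bas_ne {γ γ' : List (Lett D q)} (h : γ ≠ γ') :
    ⟪(bas γ : Fk D q), bas γ'⟫_ℂ = 0 := by
  classical
  rw [inner_bas]
  unfold bas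
  exact lp.single_apply_ne 2 γ' _ h

theorem inner_bas_bas [DecidableEq (List (Lett D q))] (γ γ' : List (Lett D q)) :
    ⟪(bas γ : Fk D q), bas γ'⟫_ℂ = if γ = γ' then 1 else 0 := by
  by_cases h : γ = γ'
  · subst h
    rw [inner_bas_same, if_pos rfl]
  · rw [inner_bas_ne h, if_neg h]

theorem inner_ext {f g : Fk D q} (h : ∀ γ, ⟪(bas γ : Fk D q), f⟫_ℂ = ⟪bas γ, g⟫_ℂ) : f = g := by
  ext γ
  rw [← inner_bas, ← inner_bas, h]

end Fock

open Fock

theorem bas_orthonormal : Orthonormal ℂ (bas (D := D) (q := q)) := by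
  classical
  rw [orthonormal_iff_ite]
  intro γ γ'
  rw [inner_bas_bas]

theorem bas_span_dense :
    (Submodule.span ℂ (Set.range (bas (D := D) (q := q)))).topologicalClosure = ⊤ := by
  classical
  rw [eq_top_iff]
  intro f _
  have hs := lp.hasSum_single (E := fun _ : List (Lett D q) => ℂ) (p := 2) (by norm_num) f
  refine mem_closure_of_tendsto hs (Filter.Eventually.of_forall fun s => ?_)
  refine Submodule.sum_mem _ fun γ _ => ?_
  have h1 : (lp.single 2 γ (f γ) : Fk D q) = f γ • bas γ := by
    unfold bas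
    rw [← lp.single_smul]
    simp
  rw [h1]
  exact Submodule.smul_mem _ _ (Submodule.subset_span ⟨γ, rfl⟩)

theorem fk_ext {E : Type} [NormedAddCommGroup E] [NormedSpace ℂ E]
    {T S : Fk D q →L[ℂ] E} (h : ∀ γ, T (bas γ) = S (bas γ)) : T = S := by
  have hle : (Submodule.span ℂ (Set.range (bas (D := D) (q := q)))) ≤
      LinearMap.eqLocus T.toLinearMap S.toLinearMap := by
    rw [Submodule.span_le]
    rintro _ ⟨γ, rfl⟩
    exact h γ
  have hcl : IsClosed ((LinearMap.eqLocus T.toLinearMap S.toLinearMap : Submodule ℂ (Fk D q)) :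
      Set (Fk D q)) := isClosed_eq T.continuous S.continuous
  have h2 := Submodule.topologicalClosure_minimal _ hle hcl
  rw [bas_span_dense] at h2
  ext x
  exact h2 (Submodule.mem_top : x ∈ ⊤)

theorem cr_bas (l : Lett D q) (γ) : cr l (bas γ) = bas (l :: γ) := by
  classical
  unfold cr
  have h := opOf_single (fun γ : List (Lett D q) => (bas (l :: γ) : Fk D q)) ?_ γ
  · rw [← h]
    unfold bas
    congr!
  · exact bas_orthonormal.comp (fun γ => l :: γ) fun a b h => by simpa using h

namespace Fock

theorem inner_star_right (T : Fk D q →L[ℂ] Fk D q) (x y : Fk D q) :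
    ⟪x, star T y⟫_ℂ = ⟪T x, y⟫_ℂ := by
  rw [ContinuousLinearMap.star_eq_adjoint, ContinuousLinearMap.adjoint_inner_right]

end Fock

theorem cr_star_nil (l : Lett D q) : star (cr l) (bas []) = 0 := by
  apply inner_ext
  intro γ
  rw [inner_star_right, cr_bas, inner_zero_right, inner_bas_ne (by simp)]

theorem cr_star_cons_same (l : Lett D q) (γ) : star (cr l) (bas (l :: γ)) = bas γ := by
  classical
  apply inner_ext
  intro γ'
  rw [inner_star_right, cr_bas, inner_bas_bas, inner_bas_bas]
  simp

theorem cr_star_cons_ne (l l' : Lett D q) (h : l ≠ l') (γ) :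
    star (cr l) (bas (l' :: γ)) = 0 := by
  apply inner_ext
  intro γ'
  rw [inner_star_right, cr_bas, inner_zero_right, inner_bas_ne (by simp [h])]

theorem cr_star_mul_same (l : Lett D q) : star (cr l) * cr l = 1 := by
  apply fk_ext
  intro γ
  rw [mul_apply_eq_comp, cr_bas, cr_star_cons_same]
  rfl

theorem cr_star_mul_ne (l l' : Lett D q) (h : l ≠ l') : star (cr l) * cr l' = 0 := by
  apply fk_ext
  intro γ
  rw [mul_apply_eq_comp, cr_bas, cr_star_cons_ne l l' h]
  rfl

namespace Fock

theorem chg_blk (l : Lett D q) (b : Fin l.blk.1) : (l.chg b).blk = l.blk := rfl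

theorem chg_idx (l : Lett D q) (b : Fin l.blk.1) : (l.chg b).idx = b := rfl

theorem chg_self (l : Lett D q) : l.chg l.idx = l := rfl

theorem chg_chg (l : Lett D q) (b c : Fin l.blk.1) : (l.chg b).chg c = l.chg c := rfl

theorem chg_inj (l : Lett D q) {b c : Fin l.blk.1} (h : l.chg b = l.chg c) : b = c := by
  have h1 : (l.chg b).1.2.1 = (l.chg c).1.2.1 := by rw [h]
  exact Fin.ext h1

/-- Level and copy number. -/
def key (l : Lett D q) : ℕ × ℕ := (l.1.1, l.1.2.2)

theorem key_chg (l : Lett D q) (b : Fin l.blk.1) : key (l.chg b) = key l := rfl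

theorem exists_chg {l l' : Lett D q} (h : key l = key l') : ∃ b : Fin l.blk.1, l' = l.chg b := by
  obtain ⟨⟨j, a, r⟩, hl⟩ := l
  obtain ⟨⟨j', a', r'⟩, hl'⟩ := l'
  simp only [key, Prod.mk.injEq] at h
  obtain ⟨rfl, rfl⟩ := h
  exact ⟨⟨a', hl'.choose_spec.1⟩, rfl⟩

theorem inner_cons_sum (l l' : Lett D q) (γ γ' : List (Lett D q))
    (A : Fin l.blk.1 → ℂ) (B : Fin l'.blk.1 → ℂ) :
    ⟪∑ b, A b • (bas (l.chg b :: γ) : Fk D q), ∑ b', B b' • bas (l'.chg b' :: γ')⟫_ℂ =
      ∑ b, ∑ b', (starRingEnd ℂ) (A b) * B b' *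
        ⟪(bas (l.chg b :: γ) : Fk D q), bas (l'.chg b' :: γ')⟫_ℂ := by
  rw [sum_inner]
  refine Finset.sum_congr rfl fun b _ => ?_
  rw [inner_sum]
  refine Finset.sum_congr rfl fun b' _ => ?_
  rw [inner_smul_left, inner_smul_right, mul_assoc]

theorem xcol_orthonormal (i : Ix) : Orthonormal ℂ (xcol (D := D) (q := q) i) := by
  classical
  rw [orthonormal_iff_ite]
  intro γ γ'
  cases γ with
  | nil =>
    cases γ' with
    | nil => simp only [xcol, if_true]; exact inner_bas_same _
    | cons l' γ' =>
      rw [if_neg (by simp)]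
      simp only [xcol]
      rw [inner_sum]
      refine Finset.sum_eq_zero fun b _ => ?_
      rw [inner_smul_right, inner_bas_ne (by simp), mul_zero]
  | cons l γ =>
    cases γ' with
    | nil =>
      rw [if_neg (by simp)]
      simp only [xcol]
      rw [sum_inner]
      refine Finset.sum_eq_zero fun b _ => ?_
      rw [inner_smul_left, inner_bas_ne (by simp), mul_zero]
    | cons l' γ' =>
      simp only [xcol]
      rw [inner_cons_sum]
      by_cases hγ : γ = γ'
      · subst hγ
        by_cases hk : key l = key l'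
        · obtain ⟨c, rfl⟩ := exists_chg hk
          have h1 : ∀ b : Fin l.blk.1, ∑ b' : Fin l.blk.1,
              (starRingEnd ℂ) ((l.blk.2 i : Matrix (Fin l.blk.1) (Fin l.blk.1) ℂ) b l.idx) *
              (l.blk.2 i : Matrix (Fin l.blk.1) (Fin l.blk.1) ℂ) b' c *
              ⟪(bas (l.chg b :: γ) : Fk D q), bas (l.chg b' :: γ)⟫_ℂ =
              (starRingEnd ℂ) ((l.blk.2 i : Matrix (Fin l.blk.1) (Fin l.blk.1) ℂ) b l.idx) *
              (l.blk.2 i : Matrix (Fin l.blk.1) (Fin l.blk.1) ℂ) b c := by
            intro b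
            rw [Finset.sum_eq_single b]
            · rw [inner_bas_same, mul_one]
            · intro b' _ hb'
              rw [inner_bas_ne, mul_zero]
              intro h
              exact hb' (chg_inj l (List.cons.inj h).1).symm
            · simp
          have h2 := (l.blk.2 i).2
          rw [Matrix.mem_unitaryGroup_iff'] at h2
          have h3 := congrFun (congrFun h2 l.idx) c
          rw [Matrix.mul_apply, Matrix.one_apply] at h3
          calc _ = ∑ b : Fin l.blk.1, ∑ b' : Fin l.blk.1,
              (starRingEnd ℂ) ((l.blk.2 i : Matrix (Fin l.blk.1) (Fin l.blk.1) ℂ) b l.idx) *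
              (l.blk.2 i : Matrix (Fin l.blk.1) (Fin l.blk.1) ℂ) b' c *
              ⟪(bas (l.chg b :: γ) : Fk D q), bas (l.chg b' :: γ)⟫_ℂ := rfl
            _ = ∑ b : Fin l.blk.1,
              (starRingEnd ℂ) ((l.blk.2 i : Matrix (Fin l.blk.1) (Fin l.blk.1) ℂ) b l.idx) *
              (l.blk.2 i : Matrix (Fin l.blk.1) (Fin l.blk.1) ℂ) b c :=
                Finset.sum_congr rfl fun b _ => h1 b
            _ = if l.idx = c then 1 else 0 := by
                rw [← h3]
                rfl
            _ = _ := by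
              by_cases hc : l.idx = c
              · subst hc
                rw [if_pos rfl, chg_self, if_pos rfl]
              · rw [if_neg hc, if_neg]
                intro h
                apply hc
                have := (List.cons.inj h).1
                exact chg_inj l (by rw [chg_self]; exact this)
        · rw [if_neg]
          · refine Finset.sum_eq_zero fun b _ => Finset.sum_eq_zero fun b' _ => ?_
            rw [inner_bas_ne, mul_zero]
            intro h
            apply hk
            have := (List.cons.inj h).1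
            rw [← key_chg l b, this, key_chg]
          · intro h
            exact hk (by rw [(List.cons.inj h).1])
      · rw [if_neg (fun h => hγ (List.cons.inj h).2)]
        refine Finset.sum_eq_zero fun b _ => Finset.sum_eq_zero fun b' _ => ?_
        rw [inner_bas_ne (fun h => hγ (List.cons.inj h).2), mul_zero]

end Fock

theorem xop_bas (i : Ix) (γ : List (Lett D q)) : xop D q i (bas γ) = xcol i γ := by
  classical
  unfold xop
  have h := opOf_single (xcol (D := D) (q := q) i) (xcol_orthonormal i) γ
  rw [← h]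
  unfold bas
  congr!

theorem xop_star_nil (i : Ix) : star (xop D q i) (bas []) = bas [] := by
  apply inner_ext
  intro γ
  rw [inner_star_right, xop_bas]
  cases γ with
  | nil => rfl
  | cons l γ =>
    simp only [xcol]
    rw [sum_inner, inner_bas_ne (by simp)]
    refine Finset.sum_eq_zero fun b _ => ?_
    rw [inner_smul_left, inner_bas_ne (by simp), mul_zero]

theorem xop_star_cons (i : Ix) (l : Lett D q) (γ) :
    star (xop D q i) (bas (l :: γ)) = ∑ b : Fin l.blk.1,
      (star (l.blk.2 i : Matrix (Fin l.blk.1) (Fin l.blk.1) ℂ)) b l.idx •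
        bas (l.chg b :: γ) := by
  classical
  apply inner_ext
  intro γ'
  rw [inner_star_right, xop_bas, inner_sum]
  cases γ' with
  | nil =>
    simp only [xcol]
    rw [inner_bas_ne (by simp)]
    symm
    refine Finset.sum_eq_zero fun b _ => ?_
    rw [inner_smul_right, inner_bas_ne (by simp), mul_zero]
  | cons l' γ' =>
    simp only [xcol]
    rw [sum_inner]
    simp only [inner_smul_left, inner_smul_right]
    by_cases hγ : γ' = γ
    · subst hγ
      by_cases hk : key l = key l'
      · obtain ⟨c, rfl⟩ := exists_chg hk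
        have e1 : ∑ b : Fin l.blk.1,
            (starRingEnd ℂ) ((l.blk.2 i : Matrix (Fin l.blk.1) (Fin l.blk.1) ℂ) b c) *
              ⟪(bas (l.chg b :: γ') : Fk D q), bas (l :: γ')⟫_ℂ =
            (starRingEnd ℂ) ((l.blk.2 i : Matrix (Fin l.blk.1) (Fin l.blk.1) ℂ) l.idx c) := by
          rw [Finset.sum_eq_single l.idx]
          · rw [chg_self, inner_bas_same, mul_one]
          · intro b _ hb
            rw [inner_bas_ne, mul_zero]
            intro h
            exact hb (chg_inj l (b := b) (c := l.idx) (List.cons.inj h).1)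
          · intro h
            exact absurd (Finset.mem_univ _) h
        have e2 : ∑ b : Fin l.blk.1,
            (star (l.blk.2 i : Matrix (Fin l.blk.1) (Fin l.blk.1) ℂ)) b l.idx *
              ⟪(bas (l.chg c :: γ') : Fk D q), bas (l.chg b :: γ')⟫_ℂ =
            (star (l.blk.2 i : Matrix (Fin l.blk.1) (Fin l.blk.1) ℂ)) c l.idx := by
          rw [Finset.sum_eq_single c]
          · rw [inner_bas_same, mul_one]
          · intro b _ hb
            rw [inner_bas_ne, mul_zero]
            intro h
            exact hb (chg_inj l (List.cons.inj h).1).symm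
          · intro h
            exact absurd (Finset.mem_univ _) h
        refine Eq.trans ?_ (Eq.trans (e1.trans ?_) e2.symm)
        · rfl
        · rfl
      · rw [Finset.sum_eq_zero, Finset.sum_eq_zero]
        · intro b _
          rw [inner_bas_ne, mul_zero]
          intro h
          apply hk
          have := (List.cons.inj h).1
          rw [this, key_chg]
        · intro b _
          rw [inner_bas_ne, mul_zero]
          intro h
          apply hk
          have := (List.cons.inj h).1
          rw [← this, key_chg]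
    · rw [Finset.sum_eq_zero, Finset.sum_eq_zero]
      · intro b _
        rw [inner_bas_ne (fun h => hγ (List.cons.inj h).2), mul_zero]
      · intro b _
        rw [inner_bas_ne (fun h => hγ (List.cons.inj h).2), mul_zero]

theorem xop_unit1 (i : Ix) : star (xop D q i) * xop D q i = 1 := by
  classical
  apply fk_ext
  intro γ
  apply inner_ext
  intro γ'
  rw [mul_apply_eq_comp, inner_star_right, xop_bas, xop_bas,
    one_apply_eq_self, inner_bas_bas]
  exact (orthonormal_iff_ite.1 (xcol_orthonormal i)) γ' γ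

theorem xop_unit2 (i : Ix) : xop D q i * star (xop D q i) = 1 := by
  classical
  apply fk_ext
  intro γ
  rw [mul_apply_eq_comp, one_apply_eq_self]
  cases γ with
  | nil => rw [xop_star_nil, xop_bas]; rfl
  | cons l γ =>
    rw [xop_star_cons, map_sum]
    have h1 : ∀ b : Fin l.blk.1, xop D q i
        ((star (l.blk.2 i : Matrix (Fin l.blk.1) (Fin l.blk.1) ℂ)) b l.idx •
          (bas (l.chg b :: γ) : Fk D q)) =
        ∑ c : Fin l.blk.1, ((l.blk.2 i : Matrix (Fin l.blk.1) (Fin l.blk.1) ℂ) c b *
          (star (l.blk.2 i : Matrix (Fin l.blk.1) (Fin l.blk.1) ℂ)) b l.idx) •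
          (bas (l.chg c :: γ) : Fk D q) := by
      intro b
      rw [map_smul, xop_bas]
      change _ • (∑ c : Fin l.blk.1, (l.blk.2 i : Matrix (Fin l.blk.1) (Fin l.blk.1) ℂ) c b •
          (bas (l.chg c :: γ) : Fk D q)) = _
      rw [Finset.smul_sum]
      refine Finset.sum_congr rfl fun c _ => ?_
      rw [smul_smul, mul_comm]
    rw [Finset.sum_congr rfl fun b _ => h1 b, Finset.sum_comm]
    have h2 := (l.blk.2 i).2
    rw [Matrix.mem_unitaryGroup_iff] at h2
    have h3 : ∀ c : Fin l.blk.1, ∑ b : Fin l.blk.1,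
        ((l.blk.2 i : Matrix (Fin l.blk.1) (Fin l.blk.1) ℂ) c b *
          (star (l.blk.2 i : Matrix (Fin l.blk.1) (Fin l.blk.1) ℂ)) b l.idx) •
          (bas (l.chg c :: γ) : Fk D q) = (if c = l.idx then (1 : ℂ) else 0) •
          (bas (l.chg c :: γ) : Fk D q) := by
      intro c
      rw [← Finset.sum_smul]
      have h4 := congrFun (congrFun h2 c) l.idx
      rw [Matrix.mul_apply, Matrix.one_apply] at h4
      rw [h4]
    rw [Finset.sum_congr rfl fun c _ => h3 c, Finset.sum_eq_single l.idx]
    · rw [if_pos rfl, one_smul]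
      rfl
    · intro c _ hc
      rw [if_neg hc, zero_smul]
    · intro h
      exact absurd (Finset.mem_univ _) h

namespace Fock

theorem single_dec {ι : Type*} (d d' : DecidableEq ι) (i : ι) :
    (letI := d; (lp.single 2 i (1 : ℂ) : lp (fun _ : ι => ℂ) 2)) =
      (letI := d'; lp.single 2 i (1 : ℂ)) := by
  cases Subsingleton.elim d d'
  rfl

theorem single_eq_bas [DecidableEq (List (Lett D q))] (γ : List (Lett D q)) :
    (lp.single 2 γ (1 : ℂ) : Fk D q) = bas γ := by
  unfold bas
  exact single_dec _ _ γ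

theorem Pvac_bas [DecidableEq (List (Lett D q))] (γ : List (Lett D q)) :
    Pvac D q (bas γ) = if γ = [] then bas [] else 0 := by
  unfold Pvac
  rw [← single_eq_bas γ, opOf_spec]
  · by_cases h : γ = []
    · rw [if_pos h, if_pos h]
    · rw [if_neg h, if_neg h]
  · refine ⟨(innerSL ℂ (bas [] : Fk D q)).smulRight (bas []), fun γ => ?_⟩
    rw [ContinuousLinearMap.smulRight_apply, innerSL_apply_apply, single_eq_bas]
    by_cases h : γ = []
    · subst h
      rw [inner_bas_same, one_smul, if_pos rfl]
    · rw [inner_bas_ne (Ne.symm h), zero_smul, if_neg h]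

end Fock

theorem Pvac_nil : Pvac D q (bas []) = bas [] := by
  classical
  rw [Pvac_bas, if_pos rfl]

theorem Pvac_cons (l : Lett D q) (γ) : Pvac D q (bas (l :: γ)) = 0 := by
  classical
  rw [Pvac_bas, if_neg (by simp)]

theorem Pvac_star : star (Pvac D q) = Pvac D q := by
  classical
  apply fk_ext
  intro γ
  apply inner_ext
  intro γ'
  rw [inner_star_right]
  cases γ with
  | nil =>
    cases γ' with
    | nil => rw [Pvac_nil]
    | cons l' γ' =>
      rw [Pvac_cons, Pvac_nil, inner_zero_left, inner_bas_ne (by simp)]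
  | cons l γ =>
    cases γ' with
    | nil =>
      rw [Pvac_cons, Pvac_nil, inner_zero_right, inner_bas_ne (by simp)]
    | cons l' γ' =>
      rw [Pvac_cons, Pvac_cons, inner_zero_right, inner_zero_left]

theorem Pvac_mul : Pvac D q * Pvac D q = Pvac D q := by
  apply fk_ext
  intro γ
  rw [mul_apply_eq_comp]
  cases γ with
  | nil => rw [Pvac_nil, Pvac_nil]
  | cons l γ => rw [Pvac_cons, map_zero]

theorem xop_mul_Pvac (i : Ix) : xop D q i * Pvac D q = Pvac D q := by
  apply fk_ext
  intro γ
  rw [mul_apply_eq_comp]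
  cases γ with
  | nil => rw [Pvac_nil, xop_bas]; rfl
  | cons l γ => rw [Pvac_cons, map_zero]

theorem Pvac_mul_xop (i : Ix) : Pvac D q * xop D q i = Pvac D q := by
  apply fk_ext
  intro γ
  rw [mul_apply_eq_comp, xop_bas]
  cases γ with
  | nil => rfl
  | cons l γ =>
    rw [Pvac_cons]
    simp only [xcol]
    rw [map_sum]
    refine Finset.sum_eq_zero fun b _ => ?_
    rw [map_smul, Pvac_cons, smul_zero]

theorem Sop_mem (l : LL) (h : ∃ h : l.1 ∈ ω, l.2.1 < (D ⟨l.1, h⟩).1 ∧ l.2.2 ∈ q) :
    Sop D q l = cr ⟨l, h⟩ := by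
  unfold Sop
  rw [dif_pos h]

theorem Sop_not_mem (l : LL) (h : ¬ ∃ h : l.1 ∈ ω, l.2.1 < (D ⟨l.1, h⟩).1 ∧ l.2.2 ∈ q) :
    Sop D q l = 0 := by
  unfold Sop
  rw [dif_neg h]

end Pool.Agent.C8B

end
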