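import Pool.Agent.Lib.MP_c8b4d4_an.Defs
import Pool.Agent.Lib.MP_c8b4d4_an.AmpB
import Pool.Agent.Lib.MP_c8b4d4_an.Fock

set_option autoImplicit false

noncomputable section

namespace Pool.Agent.C8B

open scoped InnerProductSpace

variable {ω : Set ℕ} (D : ω → Dat) (q : Set ℕ)

theorem locE_continuous {n : ℕ} (e : Expr) : Continuous fun y : Tup n => locE D q y e := by
  induction e with
  | lit l => exact continuous_const
  | gen i =>
    have h1 : Continuous fun y : Tup n => (y i : Matrix (Fin n) (Fin n) ℂ) :=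
      continuous_subtype_val.comp (continuous_apply i)
    exact ((amp_continuous (Pvac D q)).comp h1).add continuous_const
  | st e ih => exact continuous_star.comp ih
  | cst a b => exact continuous_const
  | add e f ihe ihf => exact ihe.add ihf
  | mul e f ihe ihf => exact ihe.mul ihf

namespace LocE

variable {n : ℕ}

theorem amp_one_left (g : UN n) :
    amp (g : Matrix (Fin n) (Fin n) ℂ) (1 : Fk D q →L[ℂ] Fk D q) *
      amp (star (g : Matrix (Fin n) (Fin n) ℂ)) 1 = 1 := by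
  have h : (g : Matrix (Fin n) (Fin n) ℂ) * star (g : Matrix (Fin n) (Fin n) ℂ) = 1 :=
    Matrix.mem_unitaryGroup_iff.1 g.2
  rw [amp_mul, h, mul_one, amp_one]

theorem amp_one_right (g : UN n) :
    amp (star (g : Matrix (Fin n) (Fin n) ℂ)) (1 : Fk D q →L[ℂ] Fk D q) *
      amp (g : Matrix (Fin n) (Fin n) ℂ) 1 = 1 := by
  have h : star (g : Matrix (Fin n) (Fin n) ℂ) * (g : Matrix (Fin n) (Fin n) ℂ) = 1 :=
    Matrix.mem_unitaryGroup_iff'.1 g.2
  rw [amp_mul, h, mul_one, amp_one]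

end LocE

open Pool.Agent.C8B.LocE in
theorem locE_conj {n : ℕ} (y : Tup n) (g : UN n) (e : Expr) :
    locE D q (fun i => g * y i * g⁻¹) e =
      amp (g : Matrix (Fin n) (Fin n) ℂ) 1 * locE D q y e *
        amp (star (g : Matrix (Fin n) (Fin n) ℂ)) 1 := by
  have hg : (g : Matrix (Fin n) (Fin n) ℂ) * star (g : Matrix (Fin n) (Fin n) ℂ) = 1 :=
    Matrix.mem_unitaryGroup_iff.1 g.2
  have h1 := amp_one_left D q g
  have h2 := amp_one_right D q g
  induction e with
  | lit l =>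
    show amp 1 (Sop D q l) = amp (g : Matrix (Fin n) (Fin n) ℂ) 1 * amp 1 (Sop D q l) *
      amp (star (g : Matrix (Fin n) (Fin n) ℂ)) 1
    rw [amp_mul, amp_mul, mul_one, hg, one_mul, mul_one]
  | gen i =>
    show amp ((g : Matrix (Fin n) (Fin n) ℂ) * (y i : Matrix (Fin n) (Fin n) ℂ) *
        star (g : Matrix (Fin n) (Fin n) ℂ)) (Pvac D q) + amp 1 (xop D q i - Pvac D q) =
      amp (g : Matrix (Fin n) (Fin n) ℂ) 1 * (amp (y i : Matrix (Fin n) (Fin n) ℂ) (Pvac D q) +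
        amp 1 (xop D q i - Pvac D q)) * amp (star (g : Matrix (Fin n) (Fin n) ℂ)) 1
    rw [mul_add, add_mul, amp_mul, amp_mul, amp_mul, amp_mul, mul_one, mul_one, hg, one_mul,
      one_mul, mul_one]
  | st e ih =>
    show star (locE D q (fun i => g * y i * g⁻¹) e) =
      amp (g : Matrix (Fin n) (Fin n) ℂ) 1 * star (locE D q y e) *
        amp (star (g : Matrix (Fin n) (Fin n) ℂ)) 1
    rw [ih, star_mul, star_mul, amp_star, amp_star, star_star, star_one, mul_assoc]
  | cst a b =>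
    show algebraMap ℂ (Amp n (Fk D q) →L[ℂ] Amp n (Fk D q)) ((a : ℂ) + (b : ℂ) * Complex.I) =
      amp (g : Matrix (Fin n) (Fin n) ℂ) 1 *
        algebraMap ℂ (Amp n (Fk D q) →L[ℂ] Amp n (Fk D q)) ((a : ℂ) + (b : ℂ) * Complex.I) *
        amp (star (g : Matrix (Fin n) (Fin n) ℂ)) 1
    rw [← Algebra.commutes, mul_assoc, h1, mul_one]
  | add e f ihe ihf =>
    show locE D q (fun i => g * y i * g⁻¹) e + locE D q (fun i => g * y i * g⁻¹) f =
      amp (g : Matrix (Fin n) (Fin n) ℂ) 1 * (locE D q y e + locE D q y f) *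
        amp (star (g : Matrix (Fin n) (Fin n) ℂ)) 1
    rw [ihe, ihf, mul_add, add_mul]
  | mul e f ihe ihf =>
    show locE D q (fun i => g * y i * g⁻¹) e * locE D q (fun i => g * y i * g⁻¹) f =
      amp (g : Matrix (Fin n) (Fin n) ℂ) 1 * (locE D q y e * locE D q y f) *
        amp (star (g : Matrix (Fin n) (Fin n) ℂ)) 1
    rw [ihe, ihf]
    calc amp (g : Matrix (Fin n) (Fin n) ℂ) 1 * locE D q y e *
        amp (star (g : Matrix (Fin n) (Fin n) ℂ)) 1 *
        (amp (g : Matrix (Fin n) (Fin n) ℂ) 1 * locE D q y f *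
        amp (star (g : Matrix (Fin n) (Fin n) ℂ)) 1)
        = amp (g : Matrix (Fin n) (Fin n) ℂ) 1 * locE D q y e *
        (amp (star (g : Matrix (Fin n) (Fin n) ℂ)) 1 *
        amp (g : Matrix (Fin n) (Fin n) ℂ) 1) * locE D q y f *
        amp (star (g : Matrix (Fin n) (Fin n) ℂ)) 1 := by noncomm_ring
      _ = _ := by rw [h2]; noncomm_ring

namespace LocE

/-- span of the words of length at least `k` -/
def lng (k : ℕ) : Submodule ℂ (Fk D q) :=
  Submodule.span ℂ {v | ∃ γ : List (Lett D q), k ≤ γ.length ∧ v = bas γ}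

variable {D q}

theorem bas_mem {k : ℕ} {γ : List (Lett D q)} (h : k ≤ γ.length) : bas γ ∈ lng D q k :=
  Submodule.subset_span ⟨γ, h, rfl⟩

theorem lng_anti {j k : ℕ} (h : j ≤ k) : lng D q k ≤ lng D q j := by
  refine Submodule.span_mono ?_
  rintro v ⟨γ, hγ, rfl⟩
  exact ⟨γ, h.trans hγ, rfl⟩

/-- shortens words by at most `L` -/
def Sh (L : ℕ) (T : Fk D q →L[ℂ] Fk D q) : Prop :=
  ∀ k, ∀ v ∈ lng D q (k + L), T v ∈ lng D q k

/-- agrees with `1 ⊗ T` on long words -/
def Ag {n : ℕ} (L : ℕ) (T' : Amp n (Fk D q) →L[ℂ] Amp n (Fk D q))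
    (T : Fk D q →L[ℂ] Fk D q) : Prop :=
  ∀ a : Fin n, ∀ v ∈ lng D q L, T' (sg a v) = sg a (T v)

theorem sh_of_bas {L : ℕ} {T : Fk D q →L[ℂ] Fk D q}
    (h : ∀ k, ∀ γ : List (Lett D q), k + L ≤ γ.length → T (bas γ) ∈ lng D q k) : Sh L T := by
  intro k v hv
  have h1 : lng D q (k + L) ≤ (lng D q k).comap (T : Fk D q →ₗ[ℂ] Fk D q) := by
    refine Submodule.span_le.2 ?_
    rintro _ ⟨γ, hγ, rfl⟩
    exact h k γ hγ
  exact h1 hv

theorem Sh.mono {L L' : ℕ} {T : Fk D q →L[ℂ] Fk D q} (h : Sh L T) (hL : L ≤ L') : Sh L' T :=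
  fun k v hv => h k v (lng_anti (by omega) hv)

theorem Sh.mul {L L' : ℕ} {T S : Fk D q →L[ℂ] Fk D q} (h : Sh L T) (h' : Sh L' S) :
    Sh (L + L') (T * S) :=
  fun k v hv => h k _ (h' (k + L) v (by rwa [add_assoc]))

theorem Sh.add {L : ℕ} {T S : Fk D q →L[ℂ] Fk D q} (h : Sh L T) (h' : Sh L S) :
    Sh L (T + S) :=
  fun k v hv => Submodule.add_mem _ (h k v hv) (h' k v hv)

theorem sg_add {n : ℕ} (a : Fin n) (u v : Fk D q) :
    (sg a (u + v) : Amp n (Fk D q)) = sg a u + sg a v := by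
  ext1 b
  rw [sg_apply, PiLp.add_apply, sg_apply, sg_apply]
  split <;> simp

theorem sg_smul {n : ℕ} (a : Fin n) (z : ℂ) (v : Fk D q) :
    (sg a (z • v) : Amp n (Fk D q)) = z • sg a v := by
  ext1 b
  rw [sg_apply, PiLp.smul_apply, sg_apply]
  split <;> simp

theorem amp_sg {n : ℕ} (T : Fk D q →L[ℂ] Fk D q) (a : Fin n) (v : Fk D q) :
    amp 1 T (sg a v) = sg a (T v) := by
  ext1 b
  rw [amp_apply, sg_apply]
  simp_rw [sg_apply, Matrix.one_apply]
  rw [Finset.sum_eq_single b]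
  · rw [if_pos rfl, one_smul]
    split
    · rfl
    · exact map_zero T
  · intro c _ hc
    rw [if_neg (Ne.symm hc), zero_smul]
  · intro hb
    exact absurd (Finset.mem_univ b) hb

theorem amp_sg_zero {n : ℕ} (A : Matrix (Fin n) (Fin n) ℂ) (T : Fk D q →L[ℂ] Fk D q) (a : Fin n)
    (v : Fk D q) (h : T v = 0) : amp A T (sg a v) = 0 := by
  ext1 b
  rw [amp_apply]
  simp_rw [sg_apply]
  rw [PiLp.zero_apply]
  refine Finset.sum_eq_zero fun c _ => ?_
  split
  · rw [h, smul_zero]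
  · rw [map_zero, smul_zero]

theorem Ag.mono {n L L' : ℕ} {T' : Amp n (Fk D q) →L[ℂ] Amp n (Fk D q)}
    {T : Fk D q →L[ℂ] Fk D q} (h : Ag L T' T) (hL : L ≤ L') : Ag L' T' T :=
  fun a v hv => h a v (lng_anti hL hv)

theorem Ag.mul {n L L' : ℕ} {T' S' : Amp n (Fk D q) →L[ℂ] Amp n (Fk D q)}
    {T S : Fk D q →L[ℂ] Fk D q} (h : Ag L T' T) (h' : Ag L' S' S) (hS : Sh L' S) :
    Ag (L + L') (T' * S') (T * S) := by
  intro a v hv
  show T' (S' (sg a v)) = sg a (T (S v))
  rw [h' a v (lng_anti (Nat.le_add_left _ _) hv), h a (S v) (hS L v hv)]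

theorem Ag.add {n L : ℕ} {T' S' : Amp n (Fk D q) →L[ℂ] Amp n (Fk D q)}
    {T S : Fk D q →L[ℂ] Fk D q} (h : Ag L T' T) (h' : Ag L S' S) :
    Ag L (T' + S') (T + S) := by
  intro a v hv
  show T' (sg a v) + S' (sg a v) = sg a (T v + S v)
  rw [h a v hv, h' a v hv, sg_add]

theorem Pvac_long {v : Fk D q} (hv : v ∈ lng D q 1) : Pvac D q v = 0 := by
  have h1 : lng D q 1 ≤ LinearMap.ker (Pvac D q : Fk D q →ₗ[ℂ] Fk D q) := by
    refine Submodule.span_le.2 ?_
    rintro _ ⟨γ, hγ, rfl⟩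
    cases γ with
    | nil => simp at hγ
    | cons l γ => exact Pvac_cons l γ
  exact h1 hv

theorem xop_sh (i : Ix) : Sh 1 (xop D q i) := by
  refine sh_of_bas fun k γ hγ => ?_
  rw [xop_bas]
  cases γ with
  | nil => simp at hγ
  | cons l γ =>
    refine Submodule.sum_mem _ fun b _ => Submodule.smul_mem _ _ (bas_mem ?_)
    simp only [List.length_cons] at hγ ⊢
    omega

theorem xop_star_sh (i : Ix) : Sh 1 (star (xop D q i)) := by
  refine sh_of_bas fun k γ hγ => ?_
  cases γ with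
  | nil => simp at hγ
  | cons l γ =>
    rw [xop_star_cons]
    refine Submodule.sum_mem _ fun b _ => Submodule.smul_mem _ _ (bas_mem ?_)
    simp only [List.length_cons] at hγ ⊢
    omega

theorem cr_sh (l : Lett D q) : Sh 1 (cr l) := by
  refine sh_of_bas fun k γ hγ => ?_
  rw [cr_bas]
  refine bas_mem ?_
  simp only [List.length_cons]
  omega

theorem cr_star_sh (l : Lett D q) : Sh 1 (star (cr l)) := by
  refine sh_of_bas fun k γ hγ => ?_
  cases γ with
  | nil => simp at hγ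
  | cons l' γ =>
    by_cases h : l = l'
    · subst h
      rw [cr_star_cons_same]
      refine bas_mem ?_
      simp only [List.length_cons] at hγ
      omega
    · rw [cr_star_cons_ne l l' h]
      exact Submodule.zero_mem _

theorem Sop_sh (l : LL) : Sh 1 (Sop D q l) ∧ Sh 1 (star (Sop D q l)) := by
  by_cases h : ∃ h : l.1 ∈ ω, l.2.1 < (D ⟨l.1, h⟩).1 ∧ l.2.2 ∈ q
  · rw [Sop_mem l h]
    exact ⟨cr_sh _, cr_star_sh _⟩
  · rw [Sop_not_mem l h, star_zero]
    have h0 : Sh 1 (0 : Fk D q →L[ℂ] Fk D q) := fun k v _ => Submodule.zero_mem _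
    exact ⟨h0, h0⟩

theorem star_add_amp {n : ℕ} (A B : Amp n (Fk D q) →L[ℂ] Amp n (Fk D q)) :
    star (A + B) = star A + star B := star_add A B

theorem star_add_fk (A B : Fk D q →L[ℂ] Fk D q) :
    star (A + B) = star A + star B := star_add A B

/-- the statement for the induction -/
def Prp (D : ω → Dat) (q : Set ℕ) (e : Expr) (L : ℕ) : Prop :=
  Sh L (Ev D q e) ∧ Sh L (star (Ev D q e)) ∧
    ∀ {n : ℕ} (y : Tup n), Ag L (locE D q y e) (Ev D q e) ∧
      Ag L (star (locE D q y e)) (star (Ev D q e))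

theorem Prp.mono {e : Expr} {L L' : ℕ} (h : Prp D q e L) (hL : L ≤ L') : Prp D q e L' :=
  ⟨h.1.mono hL, h.2.1.mono hL, fun y => ⟨(h.2.2 y).1.mono hL, (h.2.2 y).2.mono hL⟩⟩

theorem exists_prp (e : Expr) : ∃ L, Prp D q e L := by
  induction e with
  | lit l =>
    refine ⟨1, (Sop_sh l).1, (Sop_sh l).2, fun {n} y => ⟨fun a v _ => amp_sg _ a v, ?_⟩⟩
    intro a v _
    show (star (amp (1 : Matrix (Fin n) (Fin n) ℂ) (Sop D q l))) (sg a v) =
      sg a (star (Sop D q l) v)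
    rw [amp_star, star_one, amp_sg]
  | gen i =>
    refine ⟨1, xop_sh i, xop_star_sh i, fun {n} y => ⟨?_, ?_⟩⟩
    · intro a v hv
      show amp (y i : Matrix (Fin n) (Fin n) ℂ) (Pvac D q) (sg a v) +
        amp 1 (xop D q i - Pvac D q) (sg a v) = sg a (xop D q i v)
      rw [amp_sg_zero _ _ _ _ (Pvac_long hv), zero_add, amp_sg]
      show sg a (xop D q i v - Pvac D q v) = _
      rw [Pvac_long hv, sub_zero]
    · intro a v hv
      have e1 : star (locE D q y (Expr.gen i)) =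
          amp (star (y i : Matrix (Fin n) (Fin n) ℂ)) (Pvac D q) +
            amp 1 (star (xop D q i) - Pvac D q) := by
        have e2 : star (amp (y i : Matrix (Fin n) (Fin n) ℂ) (Pvac D q) +
            amp 1 (xop D q i - Pvac D q)) =
            star (amp (y i : Matrix (Fin n) (Fin n) ℂ) (Pvac D q)) +
            star (amp 1 (xop D q i - Pvac D q)) := star_add_amp _ _
        have e3 : locE D q y (Expr.gen i) = amp (y i : Matrix (Fin n) (Fin n) ℂ) (Pvac D q) +
            amp 1 (xop D q i - Pvac D q) := rfl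
        rw [e3, e2, amp_star, amp_star, star_one, star_sub, Pvac_star]
      rw [e1]
      show amp (star (y i : Matrix (Fin n) (Fin n) ℂ)) (Pvac D q) (sg a v) +
        amp 1 (star (xop D q i) - Pvac D q) (sg a v) = _
      rw [amp_sg_zero _ _ _ _ (Pvac_long hv), zero_add, amp_sg]
      show sg a (star (xop D q i) v - Pvac D q v) = sg a (star (xop D q i) v)
      rw [Pvac_long hv, sub_zero]
  | st e ih =>
    obtain ⟨L, h1, h2, h3⟩ := ih
    refine ⟨L, h2, ?_, fun y => ⟨(h3 y).2, ?_⟩⟩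
    · show Sh L (star (star (Ev D q e)))
      rw [star_star]
      exact h1
    · show Ag L (star (star (locE D q y e))) (star (star (Ev D q e)))
      rw [star_star, star_star]
      exact (h3 y).1
  | cst r s =>
    have hc : ∀ z : ℂ, Sh 0 (algebraMap ℂ (Fk D q →L[ℂ] Fk D q) z) := by
      intro z k v hv
      rw [Algebra.algebraMap_eq_smul_one]
      exact Submodule.smul_mem _ _ hv
    have hag : ∀ (z : ℂ) (n : ℕ), Ag (n := n) 0
        (algebraMap ℂ (Amp n (Fk D q) →L[ℂ] Amp n (Fk D q)) z)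
        (algebraMap ℂ (Fk D q →L[ℂ] Fk D q) z) := by
      intro z n a v _
      rw [Algebra.algebraMap_eq_smul_one, Algebra.algebraMap_eq_smul_one]
      exact (sg_smul a z v).symm
    refine ⟨0, hc _, ?_, fun {n} y => ⟨hag _ n, ?_⟩⟩
    · show Sh 0 (star (algebraMap ℂ (Fk D q →L[ℂ] Fk D q) _))
      rw [← algebraMap_star_comm]
      exact hc _
    · show Ag 0 (star (algebraMap ℂ (Amp n (Fk D q) →L[ℂ] Amp n (Fk D q)) _))
        (star (algebraMap ℂ (Fk D q →L[ℂ] Fk D q) _))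
      rw [← algebraMap_star_comm, ← algebraMap_star_comm]
      exact hag _ n
  | add e f ihe ihf =>
    obtain ⟨L, h⟩ := ihe
    obtain ⟨M, h'⟩ := ihf
    obtain ⟨h1, h2, h3⟩ := h.mono (Nat.le_add_right L M)
    obtain ⟨h1', h2', h3'⟩ := h'.mono (Nat.le_add_left M L)
    refine ⟨L + M, h1.add h1', ?_, fun y => ⟨(h3 y).1.add (h3' y).1, ?_⟩⟩
    · show Sh (L + M) (star (Ev D q e + Ev D q f))
      rw [star_add]
      exact h2.add h2'
    · have e1 : star (locE D q y (Expr.add e f)) = star (locE D q y e) + star (locE D q y f) :=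
        star_add_amp (locE D q y e) (locE D q y f)
      have e2 : star (Ev D q (Expr.add e f)) = star (Ev D q e) + star (Ev D q f) :=
        star_add_fk (Ev D q e) (Ev D q f)
      rw [e1, e2]
      exact (h3 y).2.add (h3' y).2
  | mul e f ihe ihf =>
    obtain ⟨L, h1, h2, h3⟩ := ihe
    obtain ⟨M, h1', h2', h3'⟩ := ihf
    refine ⟨L + M, h1.mul h1', ?_, fun y => ⟨(h3 y).1.mul (h3' y).1 h1', ?_⟩⟩
    · show Sh (L + M) (star (Ev D q e * Ev D q f))
      rw [star_mul, add_comm]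
      exact h2'.mul h2
    · show Ag (L + M) (star (locE D q y e * locE D q y f)) (star (Ev D q e * Ev D q f))
      rw [star_mul, star_mul, add_comm]
      exact (h3' y).2.mul (h3 y).2 h2

end LocE

open Pool.Agent.C8B.LocE in
theorem locE_local (e : Expr) :
    ∃ L : ℕ, ∀ {n : ℕ} (y : Tup n) (a : Fin n) (γ : List (Lett D q)), L ≤ γ.length →
      locE D q y e (sg a (bas γ)) = amp 1 (Ev D q e) (sg a (bas γ)) := by
  obtain ⟨L, hL⟩ := exists_prp (D := D) (q := q) e
  refine ⟨L, fun {n} y a γ hγ => ?_⟩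
  rw [amp_sg]
  exact (hL.2.2 y).1 a _ (bas_mem hγ)

theorem lett_finite (hω : ω.Finite) (hq : q.Finite) : Finite (Lett D q) := by
  have : Finite ω := hω.to_subtype
  have h : {l : LL | ∃ h : l.1 ∈ ω, l.2.1 < (D ⟨l.1, h⟩).1 ∧ l.2.2 ∈ q}.Finite := by
    refine (Set.finite_iUnion fun j : ω => ((Set.finite_Iio (D j).1).prod hq).image
      fun p : ℕ × ℕ => ((j : ℕ), p.1, p.2)).subset ?_
    rintro ⟨j, b, c⟩ ⟨hj, hb, hc⟩
    rw [Set.mem_iUnion]
    exact ⟨⟨j, hj⟩, (b, c), ⟨hb, hc⟩, rfl⟩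
  exact h.to_subtype

end Pool.Agent.C8B

end
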