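import Pool.Agent.Lib.MP_c8b4d4_an.Defs

/-!
MP_c8b4d4_an, module SPEC: continuous spectral cut.
-/

set_option autoImplicit false

noncomputable section

namespace Pool.Agent.C8B

open scoped InnerProductSpace

variable {V : Type} [NormedAddCommGroup V] [InnerProductSpace ℂ V] [CompleteSpace V]

namespace Spec

/-- the cut-off function -/
def chi (s s' : ℝ) (t : ℝ) : ℝ := max 0 (min 1 ((s' - t) / (s' - s)))

theorem chi_cont (s s' : ℝ) : Continuous (chi s s') := by
  unfold chi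
  fun_prop

theorem chi_one {s s' t : ℝ} (hs : s < s') (ht : t ≤ s) : chi s s' t = 1 := by
  unfold chi
  have h : 1 ≤ (s' - t) / (s' - s) := by
    rw [one_le_div (by linarith)]
    linarith
  rw [min_eq_left h]
  exact max_eq_right zero_le_one

theorem chi_zero {s s' t : ℝ} (hs : s < s') (ht : s' ≤ t) : chi s s' t = 0 := by
  unfold chi
  have h : (s' - t) / (s' - s) ≤ 0 := div_nonpos_of_nonpos_of_nonneg (by linarith) (by linarith)
  exact max_eq_left ((min_le_right _ _).trans h)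

theorem chi_pos {s s' t : ℝ} (hs : s < s') (ht : t < s') : 0 < chi s s' t := by
  unfold chi
  exact lt_max_of_lt_right (lt_min one_pos (div_pos (by linarith) (by linarith)))

omit [CompleteSpace V] in
theorem re_smul (r : ℝ) (x y : V) : (⟪r • x, y⟫_ℂ).re = r * (⟪x, y⟫_ℂ).re := by
  rw [← Complex.coe_smul, inner_smul_left, Complex.conj_ofReal, Complex.re_ofReal_mul]

omit [CompleteSpace V] in
theorem re_self (x : V) : (⟪x, x⟫_ℂ).re = ‖x‖ ^ 2 := by
  rw [inner_self_eq_norm_sq_to_K]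
  norm_cast

theorem spec_or {s s' : ℝ} {T : V →L[ℂ] V} (hT : IsSelfAdjoint T)
    (h : ∀ ξ, (s + s') * (⟪T ξ, ξ⟫_ℂ).re ≤ ‖T ξ‖ ^ 2 + s * s' * ‖ξ‖ ^ 2) :
    ∀ x ∈ spectrum ℝ T, 0 ≤ (x - s) * (x - s') := by
  have h1 : cfc (fun x : ℝ => (x - s) * (x - s')) T = T * T - (s + s') • T + (s * s') • 1 := by
    have e1 : (fun x : ℝ => (x - s) * (x - s')) = fun x => x * x - (s + s') * x + s * s' := by
      funext x
      ring
    rw [e1, cfc_add .., cfc_sub .., cfc_mul .., cfc_const_mul .., cfc_const .., cfc_id' ℝ T,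
      Algebra.algebraMap_eq_smul_one]
  rw [← cfc_nonneg_iff (fun x : ℝ => (x - s) * (x - s')) T, h1,
    ContinuousLinearMap.nonneg_iff_isPositive, ContinuousLinearMap.isPositive_def']
  refine ⟨?_, fun ξ => ?_⟩
  · rw [← h1]
    exact cfc_predicate _ _
  · have hTT : (⟪(T * T) ξ, ξ⟫_ℂ).re = ‖T ξ‖ ^ 2 := by
      have e1 : ⟪(T * T) ξ, ξ⟫_ℂ = ⟪T ξ, T ξ⟫_ℂ := by
        have := ContinuousLinearMap.isSelfAdjoint_iff_isSymmetric.1 hT (T ξ) ξ
        exact this
      rw [e1, re_self]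
    have h2 : (⟪(T * T - (s + s') • T + (s * s') • (1 : V →L[ℂ] V)) ξ, ξ⟫_ℂ).re =
        ‖T ξ‖ ^ 2 - (s + s') * (⟪T ξ, ξ⟫_ℂ).re + s * s' * ‖ξ‖ ^ 2 := by
      rw [add_apply, sub_apply, inner_add_left, inner_sub_left, Complex.add_re, Complex.sub_re,
        hTT, smul_apply, smul_apply, one_apply_eq_self, re_smul, re_smul, re_self]
    have h3 := h ξ
    show 0 ≤ (⟪(T * T - (s + s') • T + (s * s') • (1 : V →L[ℂ] V)) ξ, ξ⟫_ℂ).re
    rw [h2]
    linarith

end Spec

theorem spectral_cut (s s' : ℝ) (hs : s < s') : ∃ Φ : (V →L[ℂ] V) → (V →L[ℂ] V),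
    (∀ T : V →L[ℂ] V, IsSelfAdjoint T →
      (∀ ξ, (s + s') * (⟪T ξ, ξ⟫_ℂ).re ≤ ‖T ξ‖ ^ 2 + s * s' * ‖ξ‖ ^ 2) →
      IsStarProjection (Φ T) ∧
      (∀ ξ, (⟪T (Φ T ξ), Φ T ξ⟫_ℂ).re ≤ s * ‖Φ T ξ‖ ^ 2) ∧
      (Φ T = 0 → ∀ ξ, s' * ‖ξ‖ ^ 2 ≤ (⟪T ξ, ξ⟫_ℂ).re)) ∧
    (∀ U T : V →L[ℂ] V, IsSelfAdjoint T → star U * U = 1 → U * star U = 1 →
      Φ (U * T * star U) = U * Φ T * star U) ∧
    (∀ M : ℝ, ContinuousOn Φ {T | IsSelfAdjoint T ∧ ‖T‖ ≤ M}) := by
  have hχ : ∀ T : V →L[ℂ] V, ContinuousOn (Spec.chi s s') (spectrum ℝ T) :=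
    fun T => (Spec.chi_cont s s').continuousOn
  refine ⟨fun T => cfc (Spec.chi s s') T, fun T hT h => ?_, fun U T hT h1 h2 => ?_, fun M => ?_⟩
  · have hsp : ∀ x ∈ spectrum ℝ T, x ≤ s ∨ s' ≤ x := by
      intro x hx
      have := Spec.spec_or hT h x hx
      by_contra hc
      push Not at hc
      nlinarith [mul_pos (sub_pos.2 hc.1) (sub_pos.2 hc.2)]
    have hsa : IsSelfAdjoint (cfc (Spec.chi s s') T) := cfc_predicate _ _
    refine ⟨⟨?_, hsa⟩, fun ξ => ?_, fun h0 ξ => ?_⟩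
    · show cfc (Spec.chi s s') T * cfc (Spec.chi s s') T = cfc (Spec.chi s s') T
      rw [← cfc_mul (Spec.chi s s') (Spec.chi s s') T (hχ T) (hχ T)]
      refine cfc_congr fun x hx => ?_
      rcases hsp x hx with h3 | h3
      · simp only [Spec.chi_one hs h3, mul_one]
      · simp only [Spec.chi_zero hs h3, mul_zero]
    · have h3 : 0 ≤ cfc (fun x : ℝ => Spec.chi s s' x * ((s - x) * Spec.chi s s' x)) T := by
        apply cfc_nonneg
        intro x hx
        rcases hsp x hx with h4 | h4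
        · rw [Spec.chi_one hs h4]
          linarith
        · rw [Spec.chi_zero hs h4]
          simp
      have h4 : cfc (fun x : ℝ => Spec.chi s s' x * ((s - x) * Spec.chi s s' x)) T =
          cfc (Spec.chi s s') T * ((s • 1 - T) * cfc (Spec.chi s s') T) := by
        rw [cfc_mul (Spec.chi s s') (fun x => (s - x) * Spec.chi s s' x) T (hχ T)
          (((continuous_const.sub continuous_id).mul (Spec.chi_cont s s')).continuousOn),
          cfc_mul (fun x => s - x) (Spec.chi s s') T (by fun_prop) (hχ T),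
          cfc_sub (fun _ => s) (fun x => x) T, cfc_const .., cfc_id' ℝ T,
          Algebra.algebraMap_eq_smul_one]
      rw [h4, ContinuousLinearMap.nonneg_iff_isPositive, ContinuousLinearMap.isPositive_def'] at h3
      have h5 := h3.2 ξ
      have h6 : 0 ≤ (⟪(cfc (Spec.chi s s') T * ((s • 1 - T) * cfc (Spec.chi s s') T)) ξ,
        ξ⟫_ℂ).re := h5
      have h7 : ⟪(cfc (Spec.chi s s') T * ((s • 1 - T) * cfc (Spec.chi s s') T)) ξ, ξ⟫_ℂ =
          ⟪((s • (1 : V →L[ℂ] V) - T) (cfc (Spec.chi s s') T ξ)), cfc (Spec.chi s s') T ξ⟫_ℂ :=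
        ContinuousLinearMap.isSelfAdjoint_iff_isSymmetric.1 hsa _ ξ
      rw [h7, sub_apply, inner_sub_left, Complex.sub_re, smul_apply, one_apply_eq_self,
        Spec.re_smul, Spec.re_self] at h6
      linarith
    · have h3 : ∀ x ∈ spectrum ℝ T, s' ≤ x := by
        have h4 : cfc (Spec.chi s s') T = cfc (fun _ : ℝ => (0 : ℝ)) T := by
          rw [cfc_const_zero]
          exact h0
        have h5 := eqOn_of_cfc_eq_cfc h4 (hχ T)
        intro x hx
        by_contra hc
        push Not at hc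
        have h6 := Spec.chi_pos hs hc
        rw [h5 hx] at h6
        exact lt_irrefl _ h6
      have h4 : 0 ≤ cfc (fun x : ℝ => x - s') T := by
        apply cfc_nonneg
        intro x hx
        have := h3 x hx
        linarith
      rw [cfc_sub (fun x => x) (fun _ => s') T, cfc_const .., cfc_id' ℝ T,
        Algebra.algebraMap_eq_smul_one, ContinuousLinearMap.nonneg_iff_isPositive,
        ContinuousLinearMap.isPositive_def'] at h4
      have h5 : 0 ≤ (⟪(T - s' • (1 : V →L[ℂ] V)) ξ, ξ⟫_ℂ).re := h4.2 ξ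
      rw [sub_apply, inner_sub_left, Complex.sub_re, smul_apply, one_apply_eq_self,
        Spec.re_smul, Spec.re_self] at h5
      linarith
  · have hU : U ∈ unitary (V →L[ℂ] V) := ⟨h1, h2⟩
    have h3 := StarAlgHomClass.map_cfc (S := ℂ) (Unitary.conjStarAlgAut ℂ (V →L[ℂ] V) ⟨U, hU⟩)
      (Spec.chi s s') T (hχ T) (by
        show Continuous fun x : V →L[ℂ] V => U * x * star U
        fun_prop) hT (by
        show IsSelfAdjoint (U * T * star U)
        exact hT.conjugate U)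
    exact h3.symm
  · have h1 := continuousOn_cfc (V →L[ℂ] V) (isCompact_Icc (a := -M) (b := M)) (Spec.chi s s')
      (Spec.chi_cont s s').continuousOn (p := IsSelfAdjoint)
    refine h1.mono fun T hT => ⟨hT.1, fun x hx => ?_⟩
    have h2 : ‖x‖ ≤ ‖T‖ := by
      rcases subsingleton_or_nontrivial V with hV | hV
      · have hs : Subsingleton (V →L[ℂ] V) := ⟨fun A B => by
          ext v
          exact Subsingleton.elim _ _⟩
        rw [spectrum.of_subsingleton] at hx
        exact absurd hx (Set.notMem_empty _)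
      · exact spectrum.norm_le_norm_of_mem hx
    have h3 := h2.trans hT.2
    rw [Real.norm_eq_abs] at h3
    exact abs_le.1 h3

end Pool.Agent.C8B
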