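import Pool.Agent.Lib.MP_c8b4d4_an.Defs
import Pool.Agent.Lib.MP_c8b4d4_an.Wind

set_option autoImplicit false

noncomputable section

namespace Pool.Agent.C8B

open scoped InnerProductSpace

namespace Trans

/-- the unitary group is compact -/
theorem isCompact_unitary (N : ℕ) :
    IsCompact ((Matrix.unitaryGroup (Fin N) ℂ : Set (Matrix (Fin N) (Fin N) ℂ))) := by
  have h1 : IsCompact (Set.univ.pi fun _ : Fin N => Set.univ.pi fun _ : Fin N =>
      Metric.closedBall (0 : ℂ) 1) :=
    isCompact_univ_pi fun _ => isCompact_univ_pi fun _ => isCompact_closedBall _ _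
  refine h1.of_isClosed_subset ?_ ?_
  · have h2 : (Matrix.unitaryGroup (Fin N) ℂ : Set (Matrix (Fin N) (Fin N) ℂ)) =
        {A | A * star A = 1} := by
      ext A
      exact Matrix.mem_unitaryGroup_iff
    rw [h2]
    exact isClosed_eq (continuous_id.matrix_mul continuous_star) continuous_const
  · intro A hA
    rw [Set.mem_univ_pi]
    intro i
    rw [Set.mem_univ_pi]
    intro j
    rw [mem_closedBall_zero_iff]
    exact entry_norm_bound_of_unitary hA i j

instance compact_UN (N : ℕ) : CompactSpace (UN N) :=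
  isCompact_iff_compactSpace.1 (isCompact_unitary N)

variable {V : Type} [NormedAddCommGroup V] [InnerProductSpace ℂ V] [CompleteSpace V]

theorem mem_range_iff {P : V →L[ℂ] V} (hP : IsStarProjection P) (v : V) :
    v ∈ LinearMap.range (P : V →ₗ[ℂ] V) ↔ P v = v := by
  constructor
  · rintro ⟨u, rfl⟩
    have h := congrArg (fun T : V →L[ℂ] V => T u) hP.isIdempotentElem.eq
    exact h
  · intro h
    exact ⟨v, h⟩

theorem inj_of_close {P P' : V →L[ℂ] V}
    (h : ‖P - P'‖ < 1) {v : V} (hv : P' v = v) (h0 : P v = 0) : v = 0 := by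
  by_contra hne
  have h1 : ‖(P - P') v‖ ≤ ‖P - P'‖ * ‖v‖ := ContinuousLinearMap.le_opNorm _ _
  have h2 : (P - P') v = -v := by
    show P v - P' v = -v
    rw [h0, hv, zero_sub]
  rw [h2, norm_neg] at h1
  have h3 : 0 < ‖v‖ := norm_pos_iff.2 hne
  nlinarith

theorem finrank_le_of_close {P P' : V →L[ℂ] V}
    (hP' : IsStarProjection P')
    (hfin : FiniteDimensional ℂ (LinearMap.range (P : V →ₗ[ℂ] V)))
    (h : ‖P - P'‖ < 1) :
    Module.finrank ℂ (LinearMap.range (P' : V →ₗ[ℂ] V)) ≤
      Module.finrank ℂ (LinearMap.range (P : V →ₗ[ℂ] V)) := by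
  let φ : LinearMap.range (P' : V →ₗ[ℂ] V) →ₗ[ℂ] LinearMap.range (P : V →ₗ[ℂ] V) :=
    ((P : V →ₗ[ℂ] V).rangeRestrict).comp (Submodule.subtype _)
  refine LinearMap.finrank_le_finrank_of_injective (f := φ) ?_
  rw [injective_iff_map_eq_zero]
  rintro ⟨v, hv⟩ h0
  have h1 : P v = 0 := congrArg Subtype.val h0
  exact Subtype.ext (inj_of_close h ((mem_range_iff hP' v).1 hv) h1)

/-- the product of the projections along the chain -/
def chain (P : ℕ → V →L[ℂ] V) : ℕ → V →L[ℂ] V
  | 0 => P 0
  | n + 1 => chain P n * P (n + 1)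

theorem chain_inj {P : ℕ → V →L[ℂ] V} (hP : ∀ n, IsStarProjection (P n)) (M : ℕ)
    (h : ∀ n < M, ‖P n - P (n + 1)‖ < 1) {v : V} (hv : P M v = v) (h0 : chain P M v = 0) :
    v = 0 := by
  induction M generalizing v with
  | zero =>
    have h1 : P 0 v = 0 := h0
    rw [hv] at h1
    exact h1
  | succ n ih =>
    have h1 : chain P n (P (n + 1) v) = 0 := h0
    rw [hv] at h1
    -- `chain P n v = chain P n (P n v)`
    have h2 : chain P n (P n v) = 0 := by
      have h3 : chain P n * P n = chain P n := by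
        cases n with
        | zero => exact (hP 0).isIdempotentElem.eq
        | succ k =>
          show chain P k * P (k + 1) * P (k + 1) = chain P k * P (k + 1)
          rw [mul_assoc, (hP (k + 1)).isIdempotentElem.eq]
      have h4 := congrArg (fun T : V →L[ℂ] V => T v) h3
      exact (h4 : chain P n (P n v) = chain P n v).trans h1
    have h5 : P n (P n v) = P n v :=
      congrArg (fun T : V →L[ℂ] V => T v) (hP n).isIdempotentElem.eq
    have h6 := ih (fun k hk => h k (by omega)) h5 h2
    exact inj_of_close (h n (by omega)) hv h6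

theorem chain_range {P : ℕ → V →L[ℂ] V} (hP : ∀ n, IsStarProjection (P n)) (M : ℕ) (v : V) :
    P 0 (chain P M v) = chain P M v := by
  induction M generalizing v with
  | zero => exact congrArg (fun T : V →L[ℂ] V => T v) (hP 0).isIdempotentElem.eq
  | succ n ih => exact ih _

/-- uniform continuity in the second variable -/
theorem exists_mesh {N : ℕ} (P : UN N → ℝ → V →L[ℂ] V)
    (hP : Continuous fun a : UN N × ℝ => P a.1 a.2) :
    ∃ M : ℕ, 1 ≤ M ∧ ∀ g : UN N, ∀ n < M,
      ‖P g (3 * n / M) - P g (3 * (n + 1 : ℕ) / M)‖ < 1 := by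
  let F : C(ℝ, C(UN N, V →L[ℂ] V)) :=
    ContinuousMap.curry ⟨fun a : ℝ × UN N => P a.2 a.1, hP.comp continuous_swap⟩
  have hu : UniformContinuousOn F (Set.Icc (0 : ℝ) 3) :=
    isCompact_Icc.uniformContinuousOn_of_continuous F.continuous.continuousOn
  rw [Metric.uniformContinuousOn_iff] at hu
  obtain ⟨δ, hδ, hF⟩ := hu 1 one_pos
  obtain ⟨M, hM⟩ := exists_nat_gt (3 / δ)
  have hMpos : (0 : ℝ) < M := lt_trans (by positivity) hM
  have hM1 : 1 ≤ M := by
    have : 0 < M := by exact_mod_cast hMpos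
    omega
  refine ⟨M, hM1, fun g n hn => ?_⟩
  have hnM : (n : ℝ) + 1 ≤ M := by exact_mod_cast hn
  have h1 : (3 * n / M : ℝ) ∈ Set.Icc (0 : ℝ) 3 := by
    constructor
    · positivity
    · rw [div_le_iff₀ hMpos]
      linarith
  have h2 : (3 * (n + 1 : ℕ) / M : ℝ) ∈ Set.Icc (0 : ℝ) 3 := by
    constructor
    · positivity
    · rw [div_le_iff₀ hMpos]
      push_cast
      linarith
  have h3 : dist (3 * n / M : ℝ) (3 * (n + 1 : ℕ) / M) < δ := by
    rw [Real.dist_eq]
    have h4 : (3 * n / M : ℝ) - 3 * (n + 1 : ℕ) / M = -(3 / M) := by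
      push_cast
      field_simp
      ring
    rw [h4, abs_neg, abs_of_pos (by positivity), div_lt_iff₀ hMpos]
    rw [div_lt_iff₀ hδ] at hM
    linarith
  have h4 := hF _ h1 _ h2 h3
  have h5 : dist (F (3 * n / M : ℝ) g) (F (3 * (n + 1 : ℕ) / M : ℝ) g) < 1 :=
    lt_of_le_of_lt (ContinuousMap.dist_apply_le_dist g) h4
  rw [dist_eq_norm] at h5
  exact h5

end Trans

open Pool.Agent.C8B.Trans in
theorem rank_dvd {N : ℕ} (hN : 1 ≤ N) {V : Type} [NormedAddCommGroup V] [InnerProductSpace ℂ V]
    [CompleteSpace V] (α : UN N → V →L[ℂ] V) (hα : Continuous α)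
    (hα1 : ∀ g, star (α g) * α g = 1) (hα2 : ∀ g, α g * star (α g) = 1)
    (hαt : ∀ (t : ℂ) (g g' : UN N), ‖t‖ = 1 →
      (g' : Matrix (Fin N) (Fin N) ℂ) = t • (g : Matrix (Fin N) (Fin N) ℂ) →
      α g' = t ^ 2 • α g)
    (P : UN N → ℝ → V →L[ℂ] V) (hP : Continuous fun a : UN N × ℝ => P a.1 a.2)
    (hproj : ∀ g s, IsStarProjection (P g s))
    (hfin : ∀ g s, FiniteDimensional ℂ (LinearMap.range (P g s : V →ₗ[ℂ] V)))
    (hend : ∀ g, P g 3 = P 1 3)
    (hsc : ∀ (t : ℂ) (g g' : UN N) (s : ℝ), ‖t‖ = 1 →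
      (g' : Matrix (Fin N) (Fin N) ℂ) = t • (g : Matrix (Fin N) (Fin N) ℂ) →
      P g' s = P g s)
    (h0 : ∀ g, P g 0 = α g * P 1 0 * star (α g)) :
    N ∣ 2 * Module.finrank ℂ (LinearMap.range (P 1 0 : V →ₗ[ℂ] V)) := by
  classical
  obtain ⟨M, hM1, hmesh⟩ := exists_mesh P hP
  have hMpos : (0 : ℝ) < M := by exact_mod_cast hM1
  -- the chain of projections
  let Q : UN N → ℕ → V →L[ℂ] V := fun g n => P g (3 * n / M)
  have hQ0 : ∀ g, Q g 0 = P g 0 := fun g => by
    show P g (3 * ((0 : ℕ) : ℝ) / M) = P g 0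
    simp
  have hQM : ∀ g, Q g M = P 1 3 := fun g => by
    show P g (3 * (M : ℝ) / M) = P 1 3
    rw [mul_div_assoc, div_self hMpos.ne', mul_one, hend]
  have hQp : ∀ g n, IsStarProjection (Q g n) := fun g n => hproj _ _
  -- equality of ranks
  have hrk : ∀ g n, n ≤ M → Module.finrank ℂ (LinearMap.range (Q g n : V →ₗ[ℂ] V)) =
      Module.finrank ℂ (LinearMap.range (Q g 0 : V →ₗ[ℂ] V)) := by
    intro g n
    induction n with
    | zero => intro _; rfl
    | succ n ih =>
      intro hn
      rw [← ih (by omega)]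
      refine le_antisymm ?_ ?_
      · exact finrank_le_of_close (hQp g (n + 1)) (hfin _ _) (hmesh g n (by omega))
      · refine finrank_le_of_close (hQp g n) (hfin _ _) ?_
        rw [norm_sub_rev]
        exact hmesh g n (by omega)
  set W : Submodule ℂ V := LinearMap.range (P 1 0 : V →ₗ[ℂ] V) with hW
  set W' : Submodule ℂ V := LinearMap.range (P 1 3 : V →ₗ[ℂ] V) with hW'
  have : FiniteDimensional ℂ W := hfin 1 0
  have : FiniteDimensional ℂ W' := hfin 1 3
  set m := Module.finrank ℂ W with hm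
  have hm' : Module.finrank ℂ W' = m := by
    have h := hrk 1 M le_rfl
    rw [hQM, hQ0] at h
    exact h
  let a : Module.Basis (Fin m) ℂ W := (stdOrthonormalBasis ℂ W).toBasis
  let b : Module.Basis (Fin m) ℂ W' := Module.finBasisOfFinrankEq ℂ W' hm'
  -- the transported vectors
  let T : UN N → V →L[ℂ] V := fun g => star (α g) * chain (Q g) M
  have hTmem : ∀ g v, T g v ∈ W := by
    intro g v
    rw [hW, mem_range_iff (hproj 1 0)]
    have h1 : P g 0 (chain (Q g) M v) = chain (Q g) M v := by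
      rw [← hQ0]
      exact chain_range (hQp g) M v
    have h2 : star (α g) * P g 0 = P 1 0 * star (α g) := by
      rw [h0 g, ← mul_assoc, ← mul_assoc, hα1, one_mul]
    show P 1 0 (star (α g) (chain (Q g) M v)) = star (α g) (chain (Q g) M v)
    have h3 := congrArg (fun S : V →L[ℂ] V => S (chain (Q g) M v)) h2
    have h4 : star (α g) (P g 0 (chain (Q g) M v)) = P 1 0 (star (α g) (chain (Q g) M v)) := h3
    rw [← h4, h1]
  let u : UN N → Fin m → W := fun g k => ⟨T g (b k), hTmem g _⟩
  have hTinj : ∀ g, ∀ v ∈ W', T g v = 0 → v = 0 := by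
    intro g v hv h
    have h1 : chain (Q g) M v = 0 := by
      have h2 : α g (star (α g) (chain (Q g) M v)) = chain (Q g) M v :=
        congrArg (fun S : V →L[ℂ] V => S (chain (Q g) M v)) (hα2 g)
      rw [← h2]
      have h3 : star (α g) (chain (Q g) M v) = 0 := h
      rw [h3, map_zero]
    refine chain_inj (hQp g) M (fun n hn => hmesh g n hn) ?_ h1
    rw [hQM]
    exact (mem_range_iff (hproj 1 3) v).1 hv
  have hulin : ∀ g, LinearIndependent ℂ (u g) := by
    intro g
    have h1 : LinearIndependent ℂ fun k => (b k : V) :=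
      b.linearIndependent.map' (Submodule.subtype _) (Submodule.ker_subtype _)
    have h2 : LinearIndependent ℂ fun k => T g (b k) := by
      have h3 : LinearIndependent ℂ (fun k => ((T g : V →ₗ[ℂ] V).comp W'.subtype) (b k)) := by
        refine b.linearIndependent.map' _ ?_
        rw [LinearMap.ker_eq_bot']
        rintro ⟨v, hv⟩ h
        exact Subtype.ext (hTinj g v hv h)
      exact h3
    exact LinearIndependent.of_comp W.subtype h2
  have hcard : Fintype.card (Fin m) = Module.finrank ℂ W := by simp [hm]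
  -- the determinant
  let f : UN N → ℂ := fun g => a.det (u g)
  have hf0 : ∀ g, f g ≠ 0 := by
    intro g
    have h1 := (Module.Basis.is_basis_iff_det a (v := u g)).1
      ⟨hulin g, (hulin g).span_eq_top_of_card_eq_finrank' hcard⟩
    exact h1.ne_zero
  have hfe : ∀ g, f g = Matrix.det (Matrix.of fun l k : Fin m =>
      ⟪((stdOrthonormalBasis ℂ W l : W) : V), T g (b k)⟫_ℂ) := by
    intro g
    show a.det (u g) = _
    rw [Module.Basis.det_apply]
    congr 1
    ext l k
    rw [Module.Basis.toMatrix_apply, Matrix.of_apply]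
    show (stdOrthonormalBasis ℂ W).toBasis.repr (u g k) l = _
    rw [OrthonormalBasis.coe_toBasis_repr_apply, OrthonormalBasis.repr_apply_apply]
    rfl
  have hTc : Continuous T := by
    have h1 : ∀ n, Continuous fun g => chain (Q g) n := by
      intro n
      have hQc : ∀ n, Continuous fun g => Q g n := fun n =>
        hP.comp (continuous_id.prodMk continuous_const)
      induction n with
      | zero => exact hQc 0
      | succ n ih => exact ih.mul (hQc (n + 1))
    exact (continuous_star.comp hα).mul (h1 M)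
  have hfc : Continuous f := by
    have h1 : f = fun g => Matrix.det (Matrix.of fun l k : Fin m =>
      ⟪((stdOrthonormalBasis ℂ W l : W) : V), T g (b k)⟫_ℂ) := funext hfe
    rw [h1]
    refine Continuous.matrix_det ?_
    refine continuous_matrix fun l k => ?_
    exact continuous_const.inner (hTc.clm_apply continuous_const)
  have hfs : ∀ (t : ℂ) (g g' : UN N), ‖t‖ = 1 →
      (g' : Matrix (Fin N) (Fin N) ℂ) = t • (g : Matrix (Fin N) (Fin N) ℂ) →
      f g' = t ^ (-(2 * m : ℤ)) * f g := by
    intro t g g' ht hg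
    have h1 : T g' = (starRingEnd ℂ t) ^ 2 • T g := by
      show star (α g') * chain (Q g') M = _ • (star (α g) * chain (Q g) M)
      have h2 : Q g' = Q g := funext fun n => hsc t g g' _ ht hg
      rw [h2, hαt t g g' ht hg, star_smul, smul_mul_assoc, star_pow]
      rfl
    have ht0 : t ≠ 0 := by
      rintro rfl
      simp at ht
    have hconj : starRingEnd ℂ t = t⁻¹ := by
      rw [Complex.inv_def]
      have : Complex.normSq t = 1 := by
        rw [Complex.normSq_eq_norm_sq, ht]; norm_num
      rw [this]; simp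
    rw [hfe g', hfe g, h1]
    have h3 : (Matrix.of fun l k : Fin m =>
        ⟪((stdOrthonormalBasis ℂ W l : W) : V), ((starRingEnd ℂ t) ^ 2 • T g) (b k)⟫_ℂ) =
        ((starRingEnd ℂ t) ^ 2) • (Matrix.of fun l k : Fin m =>
        ⟪((stdOrthonormalBasis ℂ W l : W) : V), T g (b k)⟫_ℂ) := by
      ext l k
      rw [Matrix.smul_apply, Matrix.of_apply, Matrix.of_apply, smul_eq_mul, ← inner_smul_right]
      rfl
    rw [h3, Matrix.det_smul, Fintype.card_fin, hconj]
    congr 1
    rw [zpow_neg, inv_pow, inv_pow, ← pow_mul]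
    congr 1
  have hdvd := winding hN (-(2 * m : ℤ)) f hfc hf0 hfs
  rw [Int.dvd_neg] at hdvd
  exact_mod_cast hdvd

end Pool.Agent.C8B

end
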