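import Pool.Agent.Lib.MP_c8b4d4_an.AmpB
import Pool.Agent.Lib.MP_c8b4d4_an.Block
import Pool.Agent.Lib.MP_c8b4d4_an.Fock
import Pool.Agent.Lib.MP_c8b4d4_an.LocE
import Pool.Agent.Lib.MP_c8b4d4_an.Spec
import Pool.Agent.Lib.MP_c8b4d4_an.Trans
import Pool.Agent.Lib.MP_c8b4d4_an.Flat
import Pool.Agent.Lib.MP_c8b4d4_an.Fam

set_option autoImplicit false

noncomputable section

namespace Pool.Agent.C8B

open scoped InnerProductSpace

namespace Chi

section general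

variable {K : Type} [NormedAddCommGroup K] [InnerProductSpace ℂ K] {n : ℕ}

theorem amp_one_apply (T : K →L[ℂ] K) (ξ : Amp n K) (a : Fin n) :
    amp (1 : Matrix (Fin n) (Fin n) ℂ) T ξ a = T (ξ a) := by
  rw [amp_apply, Finset.sum_eq_single a]
  · simp
  · intro b _ hb
    rw [Matrix.one_apply_ne (Ne.symm hb), zero_smul]
  · simp

theorem amp_one_sg (T : K →L[ℂ] K) (a : Fin n) (v : K) :
    amp (1 : Matrix (Fin n) (Fin n) ℂ) T (sg a v) = sg a (T v) := by
  ext b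
  rw [amp_one_apply, sg_apply, sg_apply]
  split_ifs <;> simp

theorem inner_sumA (ξ η : Amp n K) : ⟪ξ, η⟫_ℂ = ∑ a, ⟪ξ a, η a⟫_ℂ := by
  rw [PiLp.inner_apply]

theorem norm_sq_sum (ξ : Amp n K) : ‖ξ‖ ^ 2 = ∑ a, ‖ξ a‖ ^ 2 := by
  rw [PiLp.norm_sq_eq_of_L2]

theorem inner_sg (a b : Fin n) (u v : K) :
    ⟪(sg a u : Amp n K), sg b v⟫_ℂ = if a = b then ⟪u, v⟫_ℂ else 0 := by
  rw [inner_sumA]
  simp only [sg_apply]
  by_cases h : a = b
  · subst h
    rw [if_pos rfl, Finset.sum_eq_single a]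
    · simp
    · intro c _ hc
      rw [if_neg hc]
      simp
    · simp
  · rw [if_neg h, Finset.sum_eq_zero]
    intro c _
    by_cases h1 : c = a
    · subst h1
      rw [if_neg h]
      simp
    · rw [if_neg h1]
      simp

theorem norm_sg (a : Fin n) (v : K) : ‖(sg a v : Amp n K)‖ = ‖v‖ := by
  have h := inner_sg a a v v
  rw [if_pos rfl] at h
  have h1 : ‖(sg a v : Amp n K)‖ ^ 2 = ‖v‖ ^ 2 := by
    have e1 := inner_self_eq_norm_sq_to_K (𝕜 := ℂ) (sg a v : Amp n K)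
    have e2 := inner_self_eq_norm_sq_to_K (𝕜 := ℂ) v
    rw [h, e2] at e1
    exact_mod_cast e1.symm
  nlinarith [norm_nonneg (sg a v : Amp n K), norm_nonneg v, sq_nonneg (‖(sg a v : Amp n K)‖ - ‖v‖)]

/-- `sg a` as a linear isometry. -/
def sgI (n : ℕ) (a : Fin n) : K →ₗᵢ[ℂ] Amp n K where
  toFun v := sg a v
  map_add' u v := by
    ext b
    simp only [PiLp.add_apply, sg_apply]
    split_ifs <;> simp
  map_smul' z v := by
    ext b
    simp only [PiLp.smul_apply, sg_apply, RingHom.id_apply]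
    split_ifs <;> simp
  norm_map' v := norm_sg a v

theorem sgI_apply (a : Fin n) (v : K) : sgI n a v = sg a v := rfl

theorem sum_sg (ξ : Amp n K) : ξ = ∑ a, sg a (ξ a) := by
  ext b
  have : (∑ a, (sg a (ξ a) : Amp n K)) b = ∑ a, (sg a (ξ a) : Amp n K) b := by
    rw [WithLp.ofLp_sum, Finset.sum_apply]
  rw [this]
  simp only [sg_apply]
  rw [Finset.sum_eq_single b]
  · simp
  · intro c _ hc
    rw [if_neg (Ne.symm hc)]
  · simp

theorem range_sup : (⨆ a : Fin n, LinearMap.range ((sgI (K := K) n a).toLinearMap)) = ⊤ := by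
  rw [eq_top_iff]
  intro ξ _
  rw [sum_sg ξ]
  refine Submodule.sum_mem _ fun a _ => ?_
  exact Submodule.mem_iSup_of_mem a ⟨ξ a, rfl⟩

variable [CompleteSpace K]

/-- amplification in the second leg -/
theorem amp_ineq {n' : ℕ} (y : Tup n) (w : Ix → K →L[ℂ] K) (κ : ℝ)
    (H : ∀ ξ : Amp n K, κ * ‖ξ‖ ^ 2 ≤ (⟪Del y w ξ, ξ⟫_ℂ).re) (ξ : Amp n (Amp n' K)) :
    κ * ‖ξ‖ ^ 2 ≤ (⟪Del y (fun i => amp (1 : Matrix (Fin n') (Fin n') ℂ) (w i)) ξ, ξ⟫_ℂ).re := by
  have h := block_del (K := Amp n' K) (ι := Fin n') (fun _ => K) (fun a => sgI n' a)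
    (by
      intro a b hab u v
      rw [sgI_apply, sgI_apply, inner_sg, if_neg hab])
    (by rw [range_sup]; exact IsClosed.submodule_topologicalClosure_eq isClosed_univ)
    (fun i => amp (1 : Matrix (Fin n') (Fin n') ℂ) (w i)) (fun _ => w)
    (by
      intro a i u
      rw [sgI_apply, sgI_apply, amp_one_sg])
    (by
      intro a i u
      rw [sgI_apply, sgI_apply, amp_star, star_one, amp_one_sg])
    y (-κ) 1 0
    (by
      intro r u
      have := H u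
      linarith)
    ξ
  linarith

end general

section words

variable {ω : Set ℕ} {D : ω → Dat} {q : Set ℕ} {n : ℕ}

/-- standard basis of `Amp n (Fk D q)` -/
def wb (k : List (Lett D q) × Fin n) : Amp n (Fk D q) := sg k.2 (bas k.1)

theorem wb_orthonormal : Orthonormal ℂ (wb (D := D) (q := q) (n := n)) := by
  classical
  rw [orthonormal_iff_ite]
  intro k k'
  unfold wb
  rw [inner_sg]
  have h := orthonormal_iff_ite.1 (bas_orthonormal (D := D) (q := q)) k.1 k'.1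
  by_cases h2 : k.2 = k'.2
  · rw [if_pos h2, h]
    by_cases h1 : k.1 = k'.1
    · rw [if_pos h1, if_pos (Prod.ext h1 h2)]
    · rw [if_neg h1, if_neg (fun h => h1 (congrArg Prod.fst h))]
  · rw [if_neg h2, if_neg (fun h => h2 (congrArg Prod.snd h))]

theorem wb_dense (G : Submodule ℂ (Amp n (Fk D q))) (hG : IsClosed (G : Set (Amp n (Fk D q))))
    (h : ∀ k, wb (D := D) (q := q) (n := n) k ∈ G) (v : Amp n (Fk D q)) : v ∈ G := by
  have key : ∀ (a : Fin n) (u : Fk D q), sg a u ∈ G := by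
    intro a u
    have h1 : (⊤ : Submodule ℂ (Fk D q)) ≤ G.comap (sgI n a).toLinearMap := by
      rw [← bas_span_dense (D := D) (q := q)]
      refine Submodule.topologicalClosure_minimal _ ?_ ?_
      · rw [Submodule.span_le]
        rintro _ ⟨γ, rfl⟩
        exact h (γ, a)
      · exact hG.preimage (sgI n a).continuous
    exact h1 (Submodule.mem_top (x := u))
  rw [sum_sg v]
  exact Submodule.sum_mem _ fun a _ => key a _

/-- closed span of the long words -/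
def high (L : ℕ) : Submodule ℂ (Amp n (Fk D q)) :=
  (Submodule.span ℂ ((wb (D := D) (q := q) (n := n)) '' {k | L ≤ k.1.length})).topologicalClosure

theorem wb_mem_high {L : ℕ} (k : List (Lett D q) × Fin n) (hk : L ≤ k.1.length) :
    wb k ∈ high (D := D) (q := q) (n := n) L :=
  Submodule.le_topologicalClosure _ (Submodule.subset_span ⟨k, hk, rfl⟩)

theorem high_closed (L : ℕ) : IsClosed (high (D := D) (q := q) (n := n) L : Set (Amp n (Fk D q))) :=
  Submodule.isClosed_topologicalClosure _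

/-- Two operators which agree on long words agree on `high`. -/
theorem eq_on_high {L : ℕ} (T S : Amp n (Fk D q) →L[ℂ] Amp n (Fk D q))
    (h : ∀ k : List (Lett D q) × Fin n, L ≤ k.1.length → T (wb k) = S (wb k))
    (v : Amp n (Fk D q)) (hv : v ∈ high (D := D) (q := q) (n := n) L) : T v = S v := by
  have h1 : high (D := D) (q := q) (n := n) L ≤ LinearMap.ker (T - S).toLinearMap := by
    refine Submodule.topologicalClosure_minimal _ ?_ ?_
    · rw [Submodule.span_le]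
      rintro _ ⟨k, hk, rfl⟩
      simp [h k hk]
    · exact (T - S).isClosed_ker
  have h2 := h1 hv
  simpa [sub_eq_zero] using h2

variable [Finite (Lett D q)]

instance (L : ℕ) : Finite {γ : List (Lett D q) // γ.length < L} := by
  have h : {γ : List (Lett D q) | γ.length < L}.Finite := List.finite_length_lt _ _
  exact h.to_subtype

/-- index set of the short words -/
abbrev Sh (D : ω → Dat) (q : Set ℕ) (n L : ℕ) : Type :=
  {γ : List (Lett D q) // γ.length < L} × Fin n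

noncomputable instance (L : ℕ) : Fintype {γ : List (Lett D q) // γ.length < L} :=
  Fintype.ofFinite _

/-- short words -/
def sw (L : ℕ) (k : Sh D q n L) : Amp n (Fk D q) := wb (k.1.1, k.2)

theorem sw_orthonormal (L : ℕ) : Orthonormal ℂ (sw (D := D) (q := q) (n := n) L) := by
  refine (wb_orthonormal (D := D) (q := q) (n := n)).comp (fun k : Sh D q n L => (k.1.1, k.2)) ?_
  intro k k' h
  simp only [Prod.mk.injEq] at h
  exact Prod.ext (Subtype.ext h.1) h.2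

/-- projection onto the short words -/
def Plow (L : ℕ) : Amp n (Fk D q) →L[ℂ] Amp n (Fk D q) :=
  ∑ k : Sh D q n L, (innerSL ℂ (sw L k)).smulRight (sw L k)

theorem Plow_apply (L : ℕ) (v : Amp n (Fk D q)) :
    Plow L v = ∑ k : Sh D q n L, ⟪sw L k, v⟫_ℂ • sw L k := by
  simp [Plow]

theorem sub_Plow_mem (L : ℕ) (v : Amp n (Fk D q)) :
    v - Plow L v ∈ high (D := D) (q := q) (n := n) L := by
  classical
  let T : Amp n (Fk D q) →L[ℂ] Amp n (Fk D q) := 1 - Plow L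
  have h := wb_dense ((high (D := D) (q := q) (n := n) L).comap T.toLinearMap)
    ((high_closed L).preimage T.continuous) ?_ v
  · exact h
  · intro k
    change wb k - Plow L (wb k) ∈ high (D := D) (q := q) (n := n) L
    rw [Plow_apply]
    by_cases hk : k.1.length < L
    · have : (∑ k' : Sh D q n L, ⟪sw L k', wb k⟫_ℂ • sw L k') = wb k := by
        rw [Finset.sum_eq_single (⟨⟨k.1, hk⟩, k.2⟩ : Sh D q n L)]
        · have : sw L (⟨⟨k.1, hk⟩, k.2⟩ : Sh D q n L) = wb k := rfl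
          rw [this]
          have h1 := orthonormal_iff_ite.1 (wb_orthonormal (D := D) (q := q) (n := n)) k k
          rw [h1, if_pos rfl, one_smul]
        · intro k' _ hk'
          have h1 := orthonormal_iff_ite.1 (wb_orthonormal (D := D) (q := q) (n := n))
            (k'.1.1, k'.2) k
          have h2 : ¬ ((k'.1.1, k'.2) = k) := by
            intro h3
            have h4 : k'.1.1 = k.1 := by rw [← h3]
            have h5 : k'.2 = k.2 := by rw [← h3]
            exact hk' (Prod.ext (Subtype.ext h4) h5)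
          rw [if_neg h2] at h1
          change ⟪wb (k'.1.1, k'.2), wb k⟫_ℂ • _ = 0
          rw [h1, zero_smul]
        · simp
      rw [this, sub_self]
      exact Submodule.zero_mem _
    · push Not at hk
      have : (∑ k' : Sh D q n L, ⟪sw L k', wb k⟫_ℂ • sw L k') = 0 := by
        refine Finset.sum_eq_zero fun k' _ => ?_
        have h1 := orthonormal_iff_ite.1 (wb_orthonormal (D := D) (q := q) (n := n))
          (k'.1.1, k'.2) k
        have h2 : ¬ ((k'.1.1, k'.2) = k) := by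
          intro h3
          have := k'.1.2
          rw [← h3] at hk
          exact absurd this (not_lt.2 hk)
        rw [if_neg h2] at h1
        change ⟪wb (k'.1.1, k'.2), wb k⟫_ℂ • _ = 0
        rw [h1, zero_smul]
      rw [this, sub_zero]
      exact wb_mem_high k hk

theorem inner_sw_sub_Plow (L : ℕ) (v : Amp n (Fk D q)) (k : Sh D q n L) :
    ⟪sw L k, v - Plow L v⟫_ℂ = 0 := by
  classical
  rw [inner_sub_right, Plow_apply, _root_.inner_sum]
  simp only [inner_smul_right]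
  have h1 := orthonormal_iff_ite.1 (sw_orthonormal (D := D) (q := q) (n := n) L) k
  simp only [h1]
  simp

theorem norm_Plow (L : ℕ) (v : Amp n (Fk D q)) :
    ‖Plow L v‖ ^ 2 = ∑ k : Sh D q n L, ‖⟪sw L k, v⟫_ℂ‖ ^ 2 := by
  have h := (sw_orthonormal (D := D) (q := q) (n := n) L).inner_sum
    (fun k => ⟪sw L k, v⟫_ℂ) (fun k => ⟪sw L k, v⟫_ℂ) Finset.univ
  rw [← Plow_apply, inner_self_eq_norm_sq_to_K] at h
  have h2 : ((‖Plow L v‖ ^ 2 : ℝ) : ℂ) =
      ((∑ k : Sh D q n L, ‖⟪sw L k, v⟫_ℂ‖ ^ 2 : ℝ) : ℂ) := by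
    push_cast
    rw [show ((‖Plow L v‖ : ℝ) : ℂ) ^ 2 = _ from h]
    refine Finset.sum_congr rfl fun k _ => ?_
    rw [Complex.conj_mul']
  exact_mod_cast h2

end words

/-! ### constants -/

/-- lower bound for the mass on short words -/
def c3 (c : ℝ) : ℝ := c1 c ^ 2 / 200

theorem c1_pos {c : ℝ} (hc : 0 < c) : 0 < c1 c := by
  unfold c1
  positivity

theorem c1_le {c : ℝ} (hc : 0 < c) (hc1 : c ≤ 1) : c1 c ≤ 1 / 40 := by
  unfold c1
  have : c ^ 2 ≤ 1 := pow_le_one₀ hc.le hc1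
  linarith

theorem sC_pos {c : ℝ} (hc : 0 < c) : 0 < sC c := by
  have := c1_pos hc
  unfold sC
  positivity

theorem dC_pos {c : ℝ} (hc : 0 < c) : 0 < dC c := by
  have := c1_pos hc
  have := sC_pos hc
  unfold dC
  positivity

/-- square root of `sC` -/
def rC (c : ℝ) : ℝ := c ^ 2 * c1 c ^ 4 / 10 ^ 8

theorem rC_pos {c : ℝ} (hc : 0 < c) : 0 < rC c := by
  have := c1_pos hc
  unfold rC
  positivity

theorem sC_eq (c : ℝ) : sC c = rC c ^ 2 := rfl

theorem rC_le {c : ℝ} (hc : 0 < c) (hc1 : c ≤ 1) : rC c ≤ 1 / 10 ^ 8 := by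
  have h1 := c1_pos hc
  have h2 := c1_le hc hc1
  have h3 : c ^ 2 ≤ 1 := pow_le_one₀ hc.le hc1
  have h4 : c1 c ^ 4 ≤ 1 := pow_le_one₀ h1.le (by linarith)
  have h5 : c ^ 2 * c1 c ^ 4 ≤ 1 := by
    have : 0 ≤ c1 c ^ 4 := by positivity
    nlinarith [sq_nonneg c]
  unfold rC
  exact div_le_div_of_nonneg_right h5 (by positivity)

theorem sC_le_rC {c : ℝ} (hc : 0 < c) (hc1 : c ≤ 1) : sC c ≤ rC c / 10 ^ 8 := by
  rw [sC_eq, pow_two]
  have h1 := rC_le hc hc1
  have h2 := rC_pos hc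
  calc rC c * rC c ≤ rC c * (1 / 10 ^ 8) := by gcongr
    _ = _ := by ring

theorem rC_le_c1 {c : ℝ} (hc : 0 < c) (hc1 : c ≤ 1) : rC c ≤ c1 c ^ 2 / 10 ^ 8 := by
  have h1 := c1_pos hc
  have h2 := c1_le hc hc1
  have h3 : c ^ 2 ≤ 1 := pow_le_one₀ hc.le hc1
  have h4 : c1 c ^ 2 ≤ 1 := pow_le_one₀ h1.le (by linarith)
  have h5 : c ^ 2 * c1 c ^ 4 ≤ c1 c ^ 2 := by
    have h6 : c ^ 2 * c1 c ^ 4 = (c ^ 2 * c1 c ^ 2) * c1 c ^ 2 := by ring
    rw [h6]
    have h7 : c ^ 2 * c1 c ^ 2 ≤ 1 := by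
      have : 0 ≤ c1 c ^ 2 := by positivity
      nlinarith [sq_nonneg c]
    have : 0 ≤ c1 c ^ 2 := by positivity
    nlinarith
  unfold rC
  exact div_le_div_of_nonneg_right h5 (by positivity)

theorem sC_le_c1 {c : ℝ} (hc : 0 < c) (hc1 : c ≤ 1) : sC c ≤ c1 c ^ 2 / 10 ^ 8 := by
  have h1 := sC_le_rC hc hc1
  have h2 := rC_le_c1 hc hc1
  have h3 := rC_pos hc
  have h4 : rC c / 10 ^ 8 ≤ rC c := by
    apply div_le_self h3.le
    norm_num
  linarith

theorem dC_le {c : ℝ} (hc : 0 < c) (hc1 : c ≤ 1) : dC c ≤ sC c / 10 ^ 4 := by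
  have h1 := c1_pos hc
  have h2 := c1_le hc hc1
  have h4 : c1 c ^ 2 ≤ 1 := pow_le_one₀ h1.le (by linarith)
  have h5 := sC_pos hc
  unfold dC
  apply div_le_div_of_nonneg_right _ (by positivity)
  nlinarith

section key

variable {ω : Set ℕ} {D : ω → Dat} {q : Set ℕ} {n : ℕ} [Finite (Lett D q)]

/-- decomposition of a vector of `Amp n (Amp n F)` in short and long words -/
def lowV (L : ℕ) (ξ : Amp n (Amp n (Fk D q))) : Amp n (Amp n (Fk D q)) :=
  amp 1 (Plow L) ξ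

theorem lowV_apply (L : ℕ) (ξ : Amp n (Amp n (Fk D q))) (b : Fin n) :
    lowV L ξ b = Plow L (ξ b) := amp_one_apply _ _ _

theorem norm_lowV (L : ℕ) (ξ : Amp n (Amp n (Fk D q))) :
    ‖lowV L ξ‖ ^ 2 = ∑ b, ∑ k : Sh D q n L, ‖⟪sw L k, ξ b⟫_ℂ‖ ^ 2 := by
  rw [norm_sq_sum]
  refine Finset.sum_congr rfl fun b _ => ?_
  rw [lowV_apply, norm_Plow]

theorem inner_low_high (L : ℕ) (ξ : Amp n (Amp n (Fk D q))) :
    ⟪lowV L ξ, ξ - lowV L ξ⟫_ℂ = 0 := by
  rw [inner_sumA]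
  refine Finset.sum_eq_zero fun b _ => ?_
  rw [PiLp.sub_apply, lowV_apply, Plow_apply (v := ξ b), sum_inner]
  refine Finset.sum_eq_zero fun k _ => ?_
  rw [inner_smul_left, ← Plow_apply, inner_sw_sub_Plow, mul_zero]

theorem norm_sq_low_high (L : ℕ) (ξ : Amp n (Amp n (Fk D q))) :
    ‖ξ‖ ^ 2 = ‖lowV L ξ‖ ^ 2 + ‖ξ - lowV L ξ‖ ^ 2 := by
  have h := @norm_add_sq ℂ _ _ _ _ (lowV L ξ) (ξ - lowV L ξ)
  rw [inner_low_high] at h
  simp at h
  linarith

/-- the quadratic form only sees the values of the operators on the components -/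
theorem del_congr {K : Type} [NormedAddCommGroup K] [InnerProductSpace ℂ K] [CompleteSpace K]
    (y : Tup n) (w w' : Ix → K →L[ℂ] K) (ξ : Amp n K) (h : ∀ i a, w i (ξ a) = w' i (ξ a)) :
    (⟪Del y w ξ, ξ⟫_ℂ).re = (⟪Del y w' ξ, ξ⟫_ℂ).re := by
  rw [del_quad, del_quad]
  refine Finset.sum_congr rfl fun i _ => ?_
  have : amp (1 : Matrix (Fin n) (Fin n) ℂ) (w i) ξ = amp 1 (w' i) ξ := by
    ext a
    rw [amp_one_apply, amp_one_apply, h]
  rw [this]

theorem high_bound {c : ℝ} (L : ℕ) (e : Ix → Expr) (y : Tup n)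
    (hL : ∀ i (k : List (Lett D q) × Fin n), L ≤ k.1.length →
      locE D q y (e i) (wb k) = amp 1 (Ev D q (e i)) (wb k))
    (H3 : ∀ ξ : Amp n (Fk D q),
      (c1 c ^ 2 - sC c) * ‖ξ‖ ^ 2 ≤ (⟪Del y (fun i => Ev D q (e i)) ξ, ξ⟫_ℂ).re)
    (ξ : Amp n (Amp n (Fk D q))) (hξ : ∀ b, ξ b ∈ high (D := D) (q := q) (n := n) L) :
    (c1 c ^ 2 - sC c) * ‖ξ‖ ^ 2 ≤ (⟪Del y (fun i => locE D q y (e i)) ξ, ξ⟫_ℂ).re := by
  rw [del_congr y (fun i => locE D q y (e i)) (fun i => amp 1 (Ev D q (e i))) ξ]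
  · exact amp_ineq y _ _ H3 ξ
  · intro i b
    exact eq_on_high _ _ (hL i) _ (hξ b)

omit [Finite (Lett D q)] in
theorem real_key {C s A B X : ℝ} (hC : 0 < C) (hC1 : C ≤ 1) (hs0 : 0 ≤ s)
    (hs : s ≤ C / 10 ^ 8) (hA : 0 ≤ A) (hB : 0 ≤ B) (hX : 0 ≤ X) (h : X ^ 2 = A ^ 2 + B ^ 2)
    (hk : (C - s) * B ^ 2 ≤ s * X ^ 2 + 48 * A * B + 48 * B * A + 48 * A * A) :
    C / 200 * X ≤ A := by
  have hAX : A ≤ X := by
    apply le_of_sq_le_sq _ hX
    nlinarith [sq_nonneg B]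
  have hBX : B ≤ X := by
    apply le_of_sq_le_sq _ hX
    nlinarith [sq_nonneg A]
  have f2 : B ^ 2 = X ^ 2 - A ^ 2 := by linarith
  rw [f2] at hk
  have f3 : A * B ≤ A * X := mul_le_mul_of_nonneg_left hBX hA
  have f4 : A * A ≤ A * X := mul_le_mul_of_nonneg_left hAX hA
  have f5 : (C - s) * A ^ 2 ≤ A * X := by
    have g4 : C - s ≤ 1 := by linarith
    have g5 : (C - s) * A ^ 2 ≤ 1 * A ^ 2 := mul_le_mul_of_nonneg_right g4 (sq_nonneg A)
    have g6 : A ^ 2 = A * A := sq A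
    rw [one_mul, g6] at g5
    rw [g6]
    exact g5.trans f4
  have key : (C - 2 * s) * X ^ 2 ≤ 145 * (A * X) := by
    have g7 : (C - s) * (X ^ 2 - A ^ 2) = (C - s) * X ^ 2 - (C - s) * A ^ 2 := by ring
    have g8 : (C - 2 * s) * X ^ 2 = (C - s) * X ^ 2 - s * X ^ 2 := by ring
    have g9 : 48 * A * B + 48 * B * A + 48 * A * A = 96 * (A * B) + 48 * (A * A) := by ring
    rw [g7] at hk
    rw [g8]
    linarith
  have g5 : 145 * (C / 200) ≤ C - 2 * s := by
    have : s ≤ C / 10 ^ 8 := hs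
    linarith
  have key2 : 145 * (C / 200) * X ^ 2 ≤ 145 * (A * X) :=
    (mul_le_mul_of_nonneg_right g5 (sq_nonneg X)).trans key
  have key3 : C / 200 * X * X ≤ A * X := by
    have g10 : 145 * (C / 200) * X ^ 2 = 145 * (C / 200 * X * X) := by ring
    rw [g10] at key2
    linarith
  rcases eq_or_lt_of_le hX with h0 | h0
  · rw [← h0, mul_zero]
    exact hA
  · exact le_of_mul_le_mul_right key3 h0

theorem low_bound {c : ℝ} (hc : 0 < c) (hc1 : c ≤ 1) (L : ℕ) (e : Ix → Expr) (y : Tup n)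
    (hL : ∀ i (k : List (Lett D q) × Fin n), L ≤ k.1.length →
      locE D q y (e i) (wb k) = amp 1 (Ev D q (e i)) (wb k))
    (H3 : ∀ ξ : Amp n (Fk D q),
      (c1 c ^ 2 - sC c) * ‖ξ‖ ^ 2 ≤ (⟪Del y (fun i => Ev D q (e i)) ξ, ξ⟫_ℂ).re)
    (hT : ‖Del y (fun i => locE D q y (e i))‖ ≤ 48)
    (ξ : Amp n (Amp n (Fk D q)))
    (hξ : (⟪Del y (fun i => locE D q y (e i)) ξ, ξ⟫_ℂ).re ≤ sC c * ‖ξ‖ ^ 2) :
    c3 c ^ 2 * ‖ξ‖ ^ 2 ≤ ‖lowV L ξ‖ ^ 2 := by
  set T := Del y (fun i => locE D q y (e i)) with hTdef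
  set a := lowV L ξ with ha
  set b := ξ - lowV L ξ with hb
  have hab : ξ = a + b := by rw [ha, hb]; abel
  have h1 : (c1 c ^ 2 - sC c) * ‖b‖ ^ 2 ≤ (⟪T b, b⟫_ℂ).re := by
    apply high_bound L e y hL H3
    intro b'
    rw [hb, PiLp.sub_apply, lowV_apply]
    exact sub_Plow_mem L _
  have h2 : ‖ξ‖ ^ 2 = ‖a‖ ^ 2 + ‖b‖ ^ 2 := norm_sq_low_high L ξ
  have hTn : ∀ u v : Amp n (Amp n (Fk D q)), |(⟪T u, v⟫_ℂ).re| ≤ 48 * ‖u‖ * ‖v‖ := by
    intro u v
    calc |(⟪T u, v⟫_ℂ).re| ≤ ‖⟪T u, v⟫_ℂ‖ := Complex.abs_re_le_norm _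
      _ ≤ ‖T u‖ * ‖v‖ := norm_inner_le_norm _ _
      _ ≤ 48 * ‖u‖ * ‖v‖ := by
          gcongr
          exact (T.le_opNorm u).trans (by gcongr)
  have h3 : (⟪T ξ, ξ⟫_ℂ).re = (⟪T b, b⟫_ℂ).re + (⟪T a, b⟫_ℂ).re + (⟪T b, a⟫_ℂ).re +
      (⟪T a, a⟫_ℂ).re := by
    rw [hab, map_add, inner_add_left, inner_add_right, inner_add_right]
    simp only [Complex.add_re]
    ring
  have e1 := abs_le.1 (hTn a b)
  have e2 := abs_le.1 (hTn b a)
  have e3 := abs_le.1 (hTn a a)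
  have hs := sC_le_c1 hc hc1
  have hs0 := sC_pos hc
  have hc0 := c1_pos hc
  have hcle := c1_le hc hc1
  have na := norm_nonneg a
  have nb := norm_nonneg b
  have nx := norm_nonneg ξ
  have c3pos : 0 < c3 c := by unfold c3; positivity
  have key3 : c3 c * ‖ξ‖ ≤ ‖a‖ := by
    refine real_key (C := c1 c ^ 2) (s := sC c) (by positivity) ?_ hs0.le hs na nb nx h2 ?_
    · nlinarith
    · linarith [e1.1, e2.1, e3.1]
  calc c3 c ^ 2 * ‖ξ‖ ^ 2 = (c3 c * ‖ξ‖) ^ 2 := by ring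
    _ ≤ ‖a‖ ^ 2 := by
        apply pow_le_pow_left₀ (by positivity) key3

omit [Finite (Lett D q)] in
theorem norm_sq_le_of_near {K : Type} [NormedAddCommGroup K] [InnerProductSpace ℂ K]
    [CompleteSpace K] (W : K →L[ℂ] K) {δ : ℝ} (h : ‖star W * W - 1‖ ≤ δ) (v : K) :
    ‖W v‖ ^ 2 ≤ (1 + δ) * ‖v‖ ^ 2 := by
  have h1 : ⟪(star W * W - 1) v, v⟫_ℂ = ⟪W v, W v⟫_ℂ - ⟪v, v⟫_ℂ := by
    have e1 : (star W * W - 1) v = (star W) (W v) - v := rfl
    rw [e1, inner_sub_left, ContinuousLinearMap.star_eq_adjoint,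
      ContinuousLinearMap.adjoint_inner_left]
  have h2 : ‖⟪(star W * W - 1) v, v⟫_ℂ‖ ≤ δ * ‖v‖ ^ 2 := by
    calc ‖⟪(star W * W - 1) v, v⟫_ℂ‖ ≤ ‖(star W * W - 1) v‖ * ‖v‖ := norm_inner_le_norm _ _
      _ ≤ (‖star W * W - 1‖ * ‖v‖) * ‖v‖ := by
          gcongr
          exact ContinuousLinearMap.le_opNorm _ _
      _ ≤ (δ * ‖v‖) * ‖v‖ := by gcongr
      _ = δ * ‖v‖ ^ 2 := by ring
  have h3 : (⟪W v, W v⟫_ℂ - ⟪v, v⟫_ℂ).re = ‖W v‖ ^ 2 - ‖v‖ ^ 2 := by
    rw [inner_self_eq_norm_sq_to_K, inner_self_eq_norm_sq_to_K, Complex.sub_re]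
    norm_cast
  have h4 := Complex.re_le_norm (⟪(star W * W - 1) v, v⟫_ℂ)
  rw [h1, h3] at h4
  rw [h1] at h2
  linarith

omit [Finite (Lett D q)] in
theorem near_bound {c : ℝ} (hc : 0 < c) (e : Ix → Expr) (y : Tup n)
    (H1 : ∀ i, ‖star (locE D q y (e i)) * locE D q y (e i) - 1‖ ≤ 3 * dC c)
    (ξ : Amp n (Amp n (Fk D q)))
    (hξ : (⟪Del y (fun i => locE D q y (e i)) ξ, ξ⟫_ℂ).re ≤ sC c * ‖ξ‖ ^ 2) (i : Ix) :
    ∑ a, ‖locE D q y (e i) (ξ a) - ∑ b, (y i : Matrix (Fin n) (Fin n) ℂ) a b • ξ b‖ ^ 2 ≤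
      (sC c + 24 * dC c) * ‖ξ‖ ^ 2 := by
  have h1 := del_quad y (fun i => locE D q y (e i)) ξ
  have h2 : ∀ j, ‖amp 1 (locE D q y (e j)) ξ‖ ^ 2 ≤ (1 + 3 * dC c) * ‖ξ‖ ^ 2 := by
    intro j
    rw [norm_sq_sum, norm_sq_sum, Finset.mul_sum]
    refine Finset.sum_le_sum fun a _ => ?_
    rw [amp_one_apply]
    exact norm_sq_le_of_near _ (H1 j) _
  have h3 : ∑ j, ‖amp 1 (locE D q y (e j)) ξ -
      amp (y j : Matrix (Fin n) (Fin n) ℂ) 1 ξ‖ ^ 2 ≤ (sC c + 24 * dC c) * ‖ξ‖ ^ 2 := by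
    have h4 : ∑ j : Ix, (‖amp 1 (locE D q y (e j)) ξ -
      amp (y j : Matrix (Fin n) (Fin n) ℂ) 1 ξ‖ ^ 2 + ‖ξ‖ ^ 2 -
        ‖amp 1 (locE D q y (e j)) ξ‖ ^ 2) = ∑ j, ‖amp 1 (locE D q y (e j)) ξ -
      amp (y j : Matrix (Fin n) (Fin n) ℂ) 1 ξ‖ ^ 2 -
        ∑ j : Ix, (‖amp 1 (locE D q y (e j)) ξ‖ ^ 2 - ‖ξ‖ ^ 2) := by
      rw [← Finset.sum_sub_distrib]
      refine Finset.sum_congr rfl fun j _ => by ring
    have h5 : ∑ j : Ix, (‖amp 1 (locE D q y (e j)) ξ‖ ^ 2 - ‖ξ‖ ^ 2) ≤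
        ∑ j : Ix, 3 * dC c * ‖ξ‖ ^ 2 :=
      Finset.sum_le_sum fun j _ => by linarith [h2 j]
    rw [Finset.sum_const] at h5
    have h6 : (Finset.univ : Finset Ix).card = 8 := rfl
    rw [h6] at h5
    simp only [nsmul_eq_mul] at h5
    push_cast at h5
    rw [h4] at h1
    linarith
  refine le_trans ?_ h3
  refine le_trans ?_ (Finset.single_le_sum (f := fun j => ‖amp 1 (locE D q y (e j)) ξ -
      amp (y j : Matrix (Fin n) (Fin n) ℂ) 1 ξ‖ ^ 2) (fun j _ => by positivity)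
      (Finset.mem_univ i))
  rw [norm_sq_sum]
  refine le_of_eq (Finset.sum_congr rfl fun a _ => ?_)
  rw [PiLp.sub_apply, amp_one_apply, amp_apply]
  rfl

theorem kappa_le {c : ℝ} (hc : 0 < c) (hc1 : c ≤ 1) :
    8 * (3 * dC c + Real.sqrt (sC c + 24 * dC c) * (2 + 3 * dC c)) / c ^ 2 ≤ (c3 c / 2) ^ 2 := by
  have h1 := dC_le hc hc1
  have h2 := sC_le_rC hc hc1
  have h3 := rC_le hc hc1
  have h4 := rC_pos hc
  have h5 := dC_pos hc
  have h6 := sC_pos hc
  have h7 : Real.sqrt (sC c + 24 * dC c) ≤ 2 * rC c := by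
    rw [Real.sqrt_le_left (by positivity)]
    rw [sC_eq] at h1 ⊢
    nlinarith
  have h8 : Real.sqrt (sC c + 24 * dC c) * (2 + 3 * dC c) ≤ 2 * rC c * 3 := by
    gcongr
    nlinarith
  have h9 : 3 * dC c + Real.sqrt (sC c + 24 * dC c) * (2 + 3 * dC c) ≤ 7 * rC c := by
    have : 3 * dC c ≤ rC c := by nlinarith
    linarith
  rw [div_le_iff₀ (by positivity)]
  have h10 : rC c = c ^ 2 * c1 c ^ 4 / 10 ^ 8 := rfl
  have h11 : (c3 c / 2) ^ 2 * c ^ 2 = c ^ 2 * c1 c ^ 4 / 160000 := by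
    unfold c3
    ring
  rw [h11]
  have h12 : 0 < c ^ 2 * c1 c ^ 4 := by
    have := c1_pos hc
    positivity
  rw [h10] at h9
  nlinarith

theorem c3_pos {c : ℝ} (hc : 0 < c) : 0 < c3 c := by
  have := c1_pos hc
  unfold c3
  positivity

theorem rank_bound {c : ℝ} (hc : 0 < c) (hc1 : c ≤ 1) (hn : 1 ≤ n) (L : ℕ) (e : Ix → Expr)
    (y : Tup n) (hgap : Gap c y)
    (hL : ∀ i (k : List (Lett D q) × Fin n), L ≤ k.1.length →
      locE D q y (e i) (wb k) = amp 1 (Ev D q (e i)) (wb k))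
    (H1 : ∀ i, ‖star (locE D q y (e i)) * locE D q y (e i) - 1‖ ≤ 3 * dC c)
    (H3 : ∀ ξ : Amp n (Fk D q),
      (c1 c ^ 2 - sC c) * ‖ξ‖ ^ 2 ≤ (⟪Del y (fun i => Ev D q (e i)) ξ, ξ⟫_ℂ).re)
    (hT : ‖Del y (fun i => locE D q y (e i))‖ ≤ 48)
    (m : ℕ) (ξ : Fin m → Amp n (Amp n (Fk D q))) (hξ : Orthonormal ℂ ξ)
    (hE : ∀ α, (⟪Del y (fun i => locE D q y (e i)) (ξ α), ξ α⟫_ℂ).re ≤ sC c * ‖ξ α‖ ^ 2) :
    c3 c ^ 2 * m ≤ 4 * (Fintype.card {γ : List (Lett D q) // γ.length < L} : ℝ) := by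
  classical
  set K' := Fintype.card {γ : List (Lett D q) // γ.length < L} with hK'
  have h5 := dC_pos hc
  have h6 := sC_pos hc
  have hflat := flat_bound hc hn y hgap (fun i => locE D q y (e i)) (3 * dC c)
    (Real.sqrt (sC c + 24 * dC c)) (by positivity) (Real.sqrt_nonneg _) H1
    (fun α a => ξ α a)
    (by
      intro α β
      have := orthonormal_iff_ite.1 hξ α β
      rw [inner_sumA] at this
      exact this)
    (by
      intro i
      rw [Real.sq_sqrt (by positivity)]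
      have : ∀ α, ∑ a, ‖locE D q y (e i) (ξ α a) -
          ∑ b, (y i : Matrix (Fin n) (Fin n) ℂ) a b • ξ α b‖ ^ 2 ≤ sC c + 24 * dC c := by
        intro α
        have h := near_bound hc e y H1 (ξ α) (hE α) i
        rw [hξ.1 α] at h
        simpa using h
      calc _ ≤ ∑ _α : Fin m, (sC c + 24 * dC c) := Finset.sum_le_sum fun α _ => this α
        _ = _ := by
            rw [Finset.sum_const, Finset.card_univ, Fintype.card_fin, nsmul_eq_mul]
            ring)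
    (sw L : Sh D q n L → _) (sw_orthonormal L) K'
    (by rw [Fintype.card_prod, Fintype.card_fin])
  have hlow : ∀ α, c3 c ^ 2 ≤ ∑ a, ∑ k : Sh D q n L, ‖⟪sw L k, ξ α a⟫_ℂ‖ ^ 2 := by
    intro α
    have h := low_bound hc hc1 L e y hL H3 hT (ξ α) (hE α)
    rw [norm_lowV, hξ.1 α] at h
    simpa using h
  have hsum : c3 c ^ 2 * m ≤ ∑ α, ∑ a, ∑ k : Sh D q n L, ‖⟪sw L k, ξ α a⟫_ℂ‖ ^ 2 := by
    calc c3 c ^ 2 * m = ∑ _α : Fin m, c3 c ^ 2 := by
          rw [Finset.sum_const, Finset.card_univ, Fintype.card_fin, nsmul_eq_mul]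
          ring
      _ ≤ _ := Finset.sum_le_sum fun α _ => hlow α
  have h7 : c3 c * Real.sqrt m ≤ Real.sqrt K' + c3 c / 2 * Real.sqrt m := by
    have e1 : c3 c * Real.sqrt m = Real.sqrt (c3 c ^ 2 * m) := by
      rw [Real.sqrt_mul (by positivity), Real.sqrt_sq (c3_pos hc).le]
    have e2 : Real.sqrt (8 * (3 * dC c + Real.sqrt (sC c + 24 * dC c) * (2 + 3 * dC c)) /
        c ^ 2 * m) ≤ c3 c / 2 * Real.sqrt m := by
      have e3 : c3 c / 2 * Real.sqrt m = Real.sqrt ((c3 c / 2) ^ 2 * m) := by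
        rw [Real.sqrt_mul (by positivity), Real.sqrt_sq (by
          have := c3_pos hc
          positivity)]
      rw [e3]
      apply Real.sqrt_le_sqrt
      gcongr
      exact kappa_le hc hc1
    rw [e1]
    calc Real.sqrt (c3 c ^ 2 * m) ≤ _ := Real.sqrt_le_sqrt hsum
      _ ≤ _ := hflat
      _ ≤ _ := by gcongr
  have h8 : c3 c / 2 * Real.sqrt m ≤ Real.sqrt K' := by linarith
  have h9 : (c3 c / 2 * Real.sqrt m) ^ 2 ≤ (Real.sqrt K') ^ 2 := by
    have := c3_pos hc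
    apply pow_le_pow_left₀ (by positivity) h8
  rw [mul_pow, Real.sq_sqrt (by positivity), Real.sq_sqrt (by positivity)] at h9
  nlinarith

omit [Finite (Lett D q)] in
theorem amp_one_norm_le {K : Type} [NormedAddCommGroup K] [InnerProductSpace ℂ K]
    (T : K →L[ℂ] K) : ‖amp (1 : Matrix (Fin n) (Fin n) ℂ) T‖ ≤ ‖T‖ := by
  have h := amp_norm_le (1 : UN n) T
  simpa using h

omit [Finite (Lett D q)] in
theorem amp_cont {X : Type} [TopologicalSpace X] {K : Type} [NormedAddCommGroup K]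
    [InnerProductSpace ℂ K] (A : X → Matrix (Fin n) (Fin n) ℂ) (T : X → K →L[ℂ] K)
    (hA : Continuous A) (hT : Continuous T) : Continuous fun x => amp (A x) (T x) := by
  have h1 : ∀ x, amp (A x) (T x) = amp (A x) 1 * amp 1 (T x) := by
    intro x
    rw [amp_mul, mul_one, one_mul]
  simp only [h1]
  have h2 : LipschitzWith 1 (fun T : K →L[ℂ] K => amp (1 : Matrix (Fin n) (Fin n) ℂ) T) := by
    apply LipschitzWith.of_dist_le_mul
    intro S S'
    rw [dist_eq_norm, dist_eq_norm, ← amp_sub_right, NNReal.coe_one, one_mul]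
    exact amp_one_norm_le _
  exact ((amp_continuous (1 : K →L[ℂ] K)).comp hA).clm_comp (h2.continuous.comp hT)

omit [Finite (Lett D q)] in
theorem del_cont {X : Type} [TopologicalSpace X] {K : Type} [NormedAddCommGroup K]
    [InnerProductSpace ℂ K] [CompleteSpace K] (y : X → Tup n) (w : X → Ix → K →L[ℂ] K)
    (hy : Continuous y) (hw : ∀ i, Continuous fun x => w x i) :
    Continuous fun x => Del (y x) (w x) := by
  unfold Del
  refine continuous_const.sub (continuous_finsetSum _ fun i _ => ?_)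
  have h1 : Continuous fun x => ((y x i : UN n) : Matrix (Fin n) (Fin n) ℂ) :=
    continuous_subtype_val.comp ((continuous_apply i).comp hy)
  exact (amp_cont _ _ (continuous_star.comp h1) (hw i)).add
    (amp_cont _ _ h1 (continuous_star.comp (hw i)))

/-- the unitaries implementing the conjugation -/
def al (K : Type) [NormedAddCommGroup K] [InnerProductSpace ℂ K] (g : UN n) :
    Amp n (Amp n K) →L[ℂ] Amp n (Amp n K) :=
  amp (g : Matrix (Fin n) (Fin n) ℂ) (amp (g : Matrix (Fin n) (Fin n) ℂ) 1)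

omit [Finite (Lett D q)] in
theorem star_al {K : Type} [NormedAddCommGroup K] [InnerProductSpace ℂ K] [CompleteSpace K]
    (g : UN n) : star (al K g) = amp (star (g : Matrix (Fin n) (Fin n) ℂ))
      (amp (star (g : Matrix (Fin n) (Fin n) ℂ)) 1) := by
  unfold al
  rw [amp_star, amp_star, star_one]

omit [Finite (Lett D q)] in
theorem al_star_mul {K : Type} [NormedAddCommGroup K] [InnerProductSpace ℂ K] [CompleteSpace K]
    (g : UN n) : star (al K g) * al K g = 1 := by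
  rw [star_al]
  unfold al
  rw [amp_mul, amp_mul, Matrix.mem_unitaryGroup_iff'.1 g.2, mul_one, amp_one, amp_one]

omit [Finite (Lett D q)] in
theorem al_mul_star {K : Type} [NormedAddCommGroup K] [InnerProductSpace ℂ K] [CompleteSpace K]
    (g : UN n) : al K g * star (al K g) = 1 := by
  rw [star_al]
  unfold al
  rw [amp_mul, amp_mul, Matrix.mem_unitaryGroup_iff.1 g.2, mul_one, amp_one, amp_one]

omit [Finite (Lett D q)] in
theorem del_equiv (y : Tup n) (e : Ix → Expr) (g : UN n) :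
    Del (fun i => g * y i * g⁻¹) (fun i => locE D q (fun i => g * y i * g⁻¹) (e i)) =
      al (Fk D q) g * Del y (fun i => locE D q y (e i)) * star (al (Fk D q) g) := by
  unfold Del
  rw [mul_sub, sub_mul, mul_smul_comm, smul_mul_assoc, mul_one, al_mul_star, Finset.mul_sum,
    Finset.sum_mul]
  congr 1
  refine Finset.sum_congr rfl fun i _ => ?_
  dsimp only
  rw [locE_conj, mul_add, add_mul, star_al]
  unfold al
  simp only [Submonoid.coe_mul, Fam.inv_coe, amp_mul, star_mul, star_star, amp_star, star_one,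
    mul_assoc]

end key

end Chi

open Chi

theorem chirality {c : ℝ} (hc : 0 < c) (hc1 : c ≤ 1) {ω : Set ℕ} (D : ω → Dat) (q : Set ℕ)
    (hω : ω.Finite) (hq : q.Finite) (e : Ix → Expr) :
    ∃ n₀ : ℕ, ∀ n, n₀ ≤ n → ∀ p : Fin 4 → ℝ → UN n, (∀ i, Continuous (p i)) →
      (∀ i, p i 0 = 1) →
      (∀ X : Matrix (Fin n) (Fin n) ℂ, X.trace = 0 →
        c ^ 2 * frob X ≤ ∑ i, frob ((p i 1 : Matrix (Fin n) (Fin n) ℂ) * X -
          X * (p i 1 : Matrix (Fin n) (Fin n) ℂ))) →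
      ∃ g t, ¬ Good c D q e (fam p g t) := by
  classical
  have : Finite (Lett D q) := lett_finite D q hω hq
  choose Li hLi using fun i => locE_local D q (e i)
  set L := Finset.univ.sup Li with hLdef
  set K' := Fintype.card {γ : List (Lett D q) // γ.length < L} with hK'
  refine ⟨⌈8 * (K' : ℝ) / c3 c ^ 2⌉₊ + 1, ?_⟩
  intro n hn p hp h0 hgap
  by_contra hcon
  push Not at hcon
  have hn1 : 1 ≤ n := by omega
  have hfamgap : ∀ g t, Gap c (fam p g t) := fam_gap p h0 hgap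
  have hL : ∀ g t i (k : List (Lett D q) × Fin n), L ≤ k.1.length →
      locE D q (fam p g t) (e i) (wb k) = amp 1 (Ev D q (e i)) (wb k) := by
    intro g t i k hk
    exact hLi i (fam p g t) k.2 k.1 ((Finset.le_sup (Finset.mem_univ i)).trans hk)
  set T : UN n → ℝ → (Amp n (Amp n (Fk D q)) →L[ℂ] Amp n (Amp n (Fk D q))) :=
    fun g t => Del (fam p g t) (fun i => locE D q (fam p g t) (e i)) with hTdef
  have hsa : ∀ g t, IsSelfAdjoint (T g t) := fun g t => del_selfAdjoint _ _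
  have h5 := dC_pos hc
  have h6 := sC_pos hc
  have h7 := dC_le hc hc1
  have h8 := sC_le_c1 hc hc1
  have h9 := c1_pos hc
  have h10 := c1_le hc hc1
  have hW : ∀ g t i, ‖locE D q (fam p g t) (e i)‖ ≤ 2 := by
    intro g t i
    refine ContinuousLinearMap.opNorm_le_bound _ (by norm_num) fun v => ?_
    have h := norm_sq_le_of_near _ ((hcon g t).H1 i) v
    have h1 : (1 + 3 * dC c) ≤ 4 := by nlinarith
    have h2 : ‖locE D q (fam p g t) (e i) v‖ ^ 2 ≤ (2 * ‖v‖) ^ 2 := by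
      rw [mul_pow]
      refine h.trans ?_
      have : 0 ≤ ‖v‖ ^ 2 := by positivity
      nlinarith
    exact le_of_sq_le_sq h2 (by positivity)
  have hTn : ∀ g t, ‖T g t‖ ≤ 48 := by
    intro g t
    have h := del_norm_le (fam p g t) (fun i => locE D q (fam p g t) (e i)) 2 (hW g t)
    calc _ ≤ _ := h
      _ = 48 := by norm_num
  have hfc := fam_continuous p hp
  have hTc : Continuous fun a : UN n × ℝ => T a.1 a.2 :=
    del_cont _ _ hfc fun i => (locE_continuous D q (e i)).comp hfc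
  obtain ⟨Φ, hΦ1, hΦ2, hΦ3⟩ := spectral_cut (V := Amp n (Amp n (Fk D q))) (sC c)
    (c1 c ^ 2 - sC c) (by nlinarith)
  have hΦ : ∀ g t, IsStarProjection (Φ (T g t)) ∧
      (∀ ξ, (⟪T g t (Φ (T g t) ξ), Φ (T g t) ξ⟫_ℂ).re ≤ sC c * ‖Φ (T g t) ξ‖ ^ 2) ∧
      (Φ (T g t) = 0 → ∀ ξ, (c1 c ^ 2 - sC c) * ‖ξ‖ ^ 2 ≤ (⟪T g t ξ, ξ⟫_ℂ).re) := by
    intro g t
    refine hΦ1 _ (hsa g t) fun ξ => ?_
    have h := (hcon g t).H4 ξ
    have e1 : sC c + (c1 c ^ 2 - sC c) = c1 c ^ 2 := by ring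
    rw [e1]
    exact h
  have hne : ∀ g t, Φ (T g t) ≠ 0 := by
    intro g t h
    obtain ⟨ξ, hξ0, hξ⟩ := (hcon g t).H2
    have h1 := (hΦ g t).2.2 h ξ
    have h2 : 0 < ‖ξ‖ ^ 2 := by
      have := norm_pos_iff.2 hξ0
      positivity
    have h3 : sC c < c1 c ^ 2 - sC c := by nlinarith
    have h4 : sC c * ‖ξ‖ ^ 2 < (c1 c ^ 2 - sC c) * ‖ξ‖ ^ 2 := by gcongr
    have h5 : (⟪T g t ξ, ξ⟫_ℂ).re ≤ sC c * ‖ξ‖ ^ 2 := hξ
    linarith
  have hrange : ∀ g t, ∀ ξ ∈ LinearMap.range (Φ (T g t)).toLinearMap,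
      (⟪T g t ξ, ξ⟫_ℂ).re ≤ sC c * ‖ξ‖ ^ 2 := by
    rintro g t _ ⟨ζ, rfl⟩
    exact (hΦ g t).2.1 ζ
  have hfd : ∀ g t, FiniteDimensional ℂ (LinearMap.range (Φ (T g t)).toLinearMap) := by
    intro g t
    let f : LinearMap.range (Φ (T g t)).toLinearMap →ₗ[ℂ] (Fin n → Sh D q n L → ℂ) :=
      { toFun := fun ξ b k => ⟪sw L k, (ξ : Amp n (Amp n (Fk D q))) b⟫_ℂ
        map_add' := by
          intro ξ η
          funext b k
          simp only [Submodule.coe_add, PiLp.add_apply, inner_add_right, Pi.add_apply]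
        map_smul' := by
          intro z ξ
          funext b k
          simp only [Submodule.coe_smul, PiLp.smul_apply, inner_smul_right, RingHom.id_apply,
            Pi.smul_apply, smul_eq_mul] }
    refine FiniteDimensional.of_injective f ?_
    rw [← LinearMap.ker_eq_bot, LinearMap.ker_eq_bot']
    intro ξ hξ
    have h := low_bound hc hc1 L e (fam p g t) (hL g t) (hcon g t).H3 (hTn g t) ξ
      (hrange g t ξ ξ.2)
    rw [norm_lowV] at h
    have h1 : ∑ b, ∑ k : Sh D q n L, ‖⟪sw L k, (ξ : Amp n (Amp n (Fk D q))) b⟫_ℂ‖ ^ 2 = 0 := by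
      refine Finset.sum_eq_zero fun b _ => Finset.sum_eq_zero fun k _ => ?_
      have : f ξ b k = 0 := by rw [hξ]; rfl
      change ⟪sw L k, (ξ : Amp n (Amp n (Fk D q))) b⟫_ℂ = 0 at this
      rw [this]
      simp
    rw [h1] at h
    have h2 : ‖(ξ : Amp n (Amp n (Fk D q)))‖ ^ 2 = 0 := by
      have := c3_pos hc
      have h3 : 0 < c3 c ^ 2 := by positivity
      have h4 : 0 ≤ ‖(ξ : Amp n (Amp n (Fk D q)))‖ ^ 2 := by positivity
      nlinarith
    apply Subtype.ext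
    simpa using h2
  have hdvd := rank_dvd hn1 (al (Fk D q) (n := n))
    (amp_cont _ _ continuous_subtype_val (amp_cont _ _ continuous_subtype_val continuous_const))
    al_star_mul al_mul_star
    (by
      intro t g g' ht hg
      unfold al
      rw [hg, amp_smul_left, amp_smul_left, amp_smul_right, smul_smul, sq])
    (fun g t => Φ (T g t))
    ((hΦ3 48).comp_continuous hTc fun a => ⟨hsa _ _, hTn _ _⟩)
    (fun g t => (hΦ g t).1)
    hfd
    (by
      intro g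
      simp only [hTdef, fam_three p h0 g])
    (by
      intro t g g' s ht hg
      simp only [hTdef, fam_scalar p t g g' s ht hg])
    (by
      intro g
      have : T g 0 = al (Fk D q) g * T 1 0 * star (al (Fk D q) g) := by
        simp only [hTdef]
        rw [fam_zero p h0 g]
        exact del_equiv _ e g
      rw [this]
      exact hΦ2 _ _ (hsa 1 0) (al_star_mul g) (al_mul_star g))
  set m := Module.finrank ℂ (LinearMap.range (Φ (T 1 0)).toLinearMap) with hm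
  have hmpos : 0 < m := by
    have := hfd 1 0
    rw [hm, Module.finrank_pos_iff_exists_ne_zero]
    by_contra hall
    push Not at hall
    apply hne 1 0
    ext1 v
    have := hall ⟨Φ (T 1 0) v, ⟨v, rfl⟩⟩
    exact congrArg Subtype.val this
  have hmb : c3 c ^ 2 * m ≤ 4 * (K' : ℝ) := by
    have := hfd 1 0
    let b := stdOrthonormalBasis ℂ (LinearMap.range (Φ (T 1 0)).toLinearMap)
    have hb : Orthonormal ℂ fun i => ((b i : LinearMap.range (Φ (T 1 0)).toLinearMap) :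
        Amp n (Amp n (Fk D q))) :=
      b.orthonormal.comp_linearIsometry (Submodule.subtypeₗᵢ _)
    exact rank_bound hc hc1 hn1 L e (fam p 1 0) (hfamgap 1 0) (hL 1 0) (hcon 1 0).H1
      (hcon 1 0).H3 (hTn 1 0) m _ hb (fun α => hrange 1 0 _ (b α).2)
  have hle : n ≤ 2 * m := Nat.le_of_dvd (by omega) hdvd
  have h11 : (8 * (K' : ℝ) / c3 c ^ 2) ≤ ⌈8 * (K' : ℝ) / c3 c ^ 2⌉₊ := Nat.le_ceil _
  have h12 : (⌈8 * (K' : ℝ) / c3 c ^ 2⌉₊ : ℝ) + 1 ≤ n := by exact_mod_cast hn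
  have h13 : (n : ℝ) ≤ 2 * m := by exact_mod_cast hle
  have h14 : 0 < c3 c ^ 2 := by
    have := c3_pos hc
    positivity
  have h15 : (m : ℝ) ≤ 4 * K' / c3 c ^ 2 := by
    rw [le_div_iff₀ h14]
    linarith
  have h16 : 2 * (4 * (K' : ℝ) / c3 c ^ 2) = 8 * K' / c3 c ^ 2 := by ring
  linarith

end Pool.Agent.C8B

end
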