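import Mathlib

/-!
Definitions for `MP_c8b4d4_an` (a simple separable purely infinite C*-algebra which is not
isomorphic to its opposite algebra).
-/

set_option autoImplicit false

noncomputable section

namespace Pool.Agent.C8B

open scoped InnerProductSpace

/-- Index set of the eight generators: two groups of four. -/
abbrev Ix : Type := Fin 2 × Fin 4

/-- The unitary group of `N × N` matrices. -/
abbrev UN (N : ℕ) : Type := Matrix.unitaryGroup (Fin N) ℂ

/-- Eight-tuples of unitary matrices. -/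
abbrev Tup (N : ℕ) : Type := Ix → UN N

/-- Square of the Frobenius norm. -/
def frob {m n : Type*} [Fintype m] [Fintype n] (X : Matrix m n ℂ) : ℝ :=
  ∑ a, ∑ b, ‖X a b‖ ^ 2

/-- Spectral gap of a tuple (quantum expander property). -/
def Gap (c : ℝ) {N : ℕ} (x : Tup N) : Prop :=
  ∀ X : Matrix (Fin N) (Fin N) ℂ, X.trace = 0 →
    c ^ 2 * frob X ≤
      ∑ i, frob ((x i : Matrix (Fin N) (Fin N) ℂ) * X - X * (x i : Matrix (Fin N) (Fin N) ℂ))

/-- Transposed tuple. -/
def trT {N : ℕ} (x : Tup N) : Tup N := fun i =>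
  ⟨(x i : Matrix (Fin N) (Fin N) ℂ).transpose, by
    have h := (x i).2
    rw [Matrix.mem_unitaryGroup_iff'] at h ⊢
    have h2 := (x i).2
    rw [Matrix.mem_unitaryGroup_iff] at h2
    have h3 := congrArg Matrix.transpose h2
    rw [Matrix.transpose_mul, Matrix.transpose_one] at h3
    rw [Matrix.star_eq_conjTranspose] at h3 ⊢
    rw [← h3]
    rfl⟩

section Amp

variable {K : Type*} [NormedAddCommGroup K] [InnerProductSpace ℂ K]

/-- `n` copies of a Hilbert space. -/
abbrev Amp (n : ℕ) (K : Type*) [NormedAddCommGroup K] [InnerProductSpace ℂ K] : Type _ :=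
  PiLp 2 (fun _ : Fin n => K)

/-- The operator `A ⊗ T` on `n` copies of `K`: `(A ⊗ T) ξ a = ∑ b, A a b • T (ξ b)`. -/
def amp {n : ℕ} (A : Matrix (Fin n) (Fin n) ℂ) (T : K →L[ℂ] K) : Amp n K →L[ℂ] Amp n K :=
  ((PiLp.continuousLinearEquiv 2 ℂ (fun _ : Fin n => K)).symm :
      (Fin n → K) →L[ℂ] Amp n K) ∘L
    (ContinuousLinearMap.pi fun a => ∑ b, A a b • (T ∘L ContinuousLinearMap.proj b)) ∘L
    ((PiLp.continuousLinearEquiv 2 ℂ (fun _ : Fin n => K)) : Amp n K →L[ℂ] (Fin n → K))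

/-- The vector with `v` in copy `a` and `0` elsewhere. -/
def sg {n : ℕ} (a : Fin n) (v : K) : Amp n K :=
  (PiLp.continuousLinearEquiv 2 ℂ (fun _ : Fin n => K)).symm (Pi.single a v)

/-- `n` copies of a linear isometry. -/
def ampIso {K' : Type*} [NormedAddCommGroup K'] [InnerProductSpace ℂ K'] (n : ℕ)
    (V : K' →ₗᵢ[ℂ] K) : Amp n K' →ₗᵢ[ℂ] Amp n K where
  toFun ξ := WithLp.toLp 2 fun a => V (ξ a)
  map_add' ξ η := by ext a; simp
  map_smul' z ξ := by ext a; simp
  norm_map' ξ := by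
    simp only [PiLp.norm_eq_of_L2]
    congr 1
    refine Finset.sum_congr rfl fun a _ => ?_
    simp

variable [CompleteSpace K]

/-- `Del y w = ∑ i, (2 - y i^* ⊗ w i - y i ⊗ (w i)^*)`: the Laplacian whose small eigenvectors are
the near intertwiners. -/
def Del {n : ℕ} (y : Tup n) (w : Ix → K →L[ℂ] K) : Amp n K →L[ℂ] Amp n K :=
  (16 : ℂ) • (1 : Amp n K →L[ℂ] Amp n K) -
    ∑ i, (amp (star (y i : Matrix (Fin n) (Fin n) ℂ)) (w i) +
      amp (y i : Matrix (Fin n) (Fin n) ℂ) (star (w i)))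

end Amp

/-! ### Noncommutative `*`-polynomials with coefficients in `ℚ + iℚ` -/

/-- Letters are triples (level, basis index, copy). -/
abbrev LL : Type := ℕ × ℕ × ℕ

/-- Formal `*`-polynomials. -/
inductive Expr : Type
  | lit (l : LL) : Expr
  | gen (i : Ix) : Expr
  | st (e : Expr) : Expr
  | cst (p q : ℚ) : Expr
  | add (e f : Expr) : Expr
  | mul (e f : Expr) : Expr

/-- Evaluation of a formal polynomial. -/
def Expr.eval {R : Type*} [Ring R] [StarRing R] [Algebra ℂ R] (S : LL → R) (X : Ix → R) :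
    Expr → R
  | .lit l => S l
  | .gen i => X i
  | .st e => star (Expr.eval S X e)
  | .cst p q => algebraMap ℂ R ((p : ℂ) + (q : ℂ) * Complex.I)
  | .add e f => Expr.eval S X e + Expr.eval S X f
  | .mul e f => Expr.eval S X e * Expr.eval S X f

/-- All letters of `e` have level `< j₀` and copy number `< Q`. -/
def Expr.Bdd (j₀ Q : ℕ) : Expr → Prop
  | .lit l => l.1 < j₀ ∧ l.2.2 < Q
  | .gen _ => True
  | .st e => Expr.Bdd j₀ Q e
  | .cst _ _ => True
  | .add e f => Expr.Bdd j₀ Q e ∧ Expr.Bdd j₀ Q f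
  | .mul e f => Expr.Bdd j₀ Q e ∧ Expr.Bdd j₀ Q f

/-! ### Operators on `ℓ²` given on the standard basis -/

/-- The bounded operator with prescribed values on the standard basis (junk value `0` if there is
none). -/
def opOf {ι E : Type*} [NormedAddCommGroup E] [InnerProductSpace ℂ E] (v : ι → E) :
    lp (fun _ : ι => ℂ) 2 →L[ℂ] E := by
  classical
  exact if h : ∃ T : lp (fun _ : ι => ℂ) 2 →L[ℂ] E, ∀ i, T (lp.single 2 i (1 : ℂ)) = v i
    then h.choose else 0

/-! ### The Fock type spaces -/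

/-- A block: a dimension and a tuple of unitaries. -/
abbrev Dat : Type := Σ n : ℕ, Tup n

/-- Restriction of a sequence of blocks. -/
def Xr (X : ℕ → Dat) (ω : Set ℕ) : ω → Dat := fun j => X j

/-- The letters with level in `ω` and copy number in `q`. -/
def Lett {ω : Set ℕ} (D : ω → Dat) (q : Set ℕ) : Type :=
  {l : LL // ∃ h : l.1 ∈ ω, l.2.1 < (D ⟨l.1, h⟩).1 ∧ l.2.2 ∈ q}

/-- `ℓ²` of words. -/
abbrev Fk {ω : Set ℕ} (D : ω → Dat) (q : Set ℕ) : Type :=
  lp (fun _ : List (Lett D q) => ℂ) 2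

section Fock

variable {ω : Set ℕ} {D : ω → Dat} {q : Set ℕ}

open Classical in
/-- Basis vector of the word `γ`. -/
def bas (γ : List (Lett D q)) : Fk D q := lp.single 2 γ (1 : ℂ)

/-- Creation operator of a letter. -/
def cr (l : Lett D q) : Fk D q →L[ℂ] Fk D q := opOf (fun γ => bas (l :: γ))

/-- The block of a letter. -/
def Lett.blk (l : Lett D q) : Dat := D ⟨l.1.1, l.2.choose⟩

/-- The basis index of a letter. -/
def Lett.idx (l : Lett D q) : Fin l.blk.1 := ⟨l.1.2.1, l.2.choose_spec.1⟩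

/-- The letter obtained from `l` by changing the basis index to `b`. -/
def Lett.chg (l : Lett D q) (b : Fin l.blk.1) : Lett D q :=
  ⟨(l.1.1, (b : ℕ), l.1.2.2), l.2.choose, b.2, l.2.choose_spec.2⟩

/-- Image of a basis vector under the `i`-th unitary: it acts on the first letter; the empty word
is fixed. -/
def xcol (i : Ix) : List (Lett D q) → Fk D q
  | [] => bas []
  | l :: γ => ∑ b : Fin l.blk.1,
      (l.blk.2 i : Matrix (Fin l.blk.1) (Fin l.blk.1) ℂ) b l.idx • bas (l.chg b :: γ)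

variable (D) (q) in
/-- The `i`-th unitary. -/
def xop (i : Ix) : Fk D q →L[ℂ] Fk D q := opOf (xcol i)

open Classical in
variable (D) (q) in
/-- Projection onto the empty word. -/
def Pvac : Fk D q →L[ℂ] Fk D q := opOf (fun γ => if γ = [] then bas [] else 0)

open Classical in
variable (D) (q) in
/-- The operator of an arbitrary triple: the creation operator if the triple is a letter, and `0`
otherwise. -/
def Sop (l : LL) : Fk D q →L[ℂ] Fk D q :=
  if h : ∃ h : l.1 ∈ ω, l.2.1 < (D ⟨l.1, h⟩).1 ∧ l.2.2 ∈ q then cr ⟨l, h⟩ else 0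

variable (D) (q) in
/-- The `i`-th unitary on `F ⊗ ℂ^n`, where the empty word carries the tuple `y`. -/
def locX {n : ℕ} (y : Tup n) (i : Ix) : Amp n (Fk D q) →L[ℂ] Amp n (Fk D q) :=
  amp (y i : Matrix (Fin n) (Fin n) ℂ) (Pvac D q) + amp 1 (xop D q i - Pvac D q)

variable (D) (q) in
/-- Evaluation of a polynomial on `F ⊗ ℂ^n`, where the empty word carries the tuple `y`. -/
def locE {n : ℕ} (y : Tup n) (e : Expr) : Amp n (Fk D q) →L[ℂ] Amp n (Fk D q) :=
  e.eval (fun l => amp 1 (Sop D q l)) (locX D q y)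

variable (D) (q) in
/-- Evaluation of a polynomial on the Fock space itself. -/
def Ev (e : Expr) : Fk D q →L[ℂ] Fk D q := e.eval (Sop D q) (xop D q)

end Fock

/-- The C*-algebra generated by the creation operators and the eight unitaries on the `ℓ²` space
of words. -/
def Aalg {ω : Set ℕ} (D : ω → Dat) :
    StarSubalgebra ℂ (Fk D Set.univ →L[ℂ] Fk D Set.univ) :=
  (StarAlgebra.adjoin ℂ (Set.range (cr (D := D) (q := Set.univ)) ∪
    Set.range (xop D Set.univ))).topologicalClosure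

/-! ### Constants -/

/-- Separation constant. -/
def c1 (c : ℝ) : ℝ := c ^ 2 / 40

/-- Spectral cut. -/
def sC (c : ℝ) : ℝ := (c ^ 2 * c1 c ^ 4 / 10 ^ 8) ^ 2

/-- Approximation constant. -/
def dC (c : ℝ) : ℝ := sC c * c1 c ^ 2 / 10 ^ 4

/-- The four conditions on the tuple `y` for the datum `(D, q, e)`. -/
structure Good (c : ℝ) {ω : Set ℕ} (D : ω → Dat) (q : Set ℕ) (e : Ix → Expr)
    {n : ℕ} (y : Tup n) : Prop where
  /-- near unitarity -/
  H1 : ∀ i, ‖star (locE D q y (e i)) * locE D q y (e i) - 1‖ ≤ 3 * dC c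
  /-- existence of a near intertwiner -/
  H2 : ∃ ξ : Amp n (Amp n (Fk D q)), ξ ≠ 0 ∧
    (⟪Del y (fun i => locE D q y (e i)) ξ, ξ⟫_ℂ).re ≤ sC c * ‖ξ‖ ^ 2
  /-- no near intertwiner in the trivial coordinate -/
  H3 : ∀ ξ : Amp n (Fk D q),
    (c1 c ^ 2 - sC c) * ‖ξ‖ ^ 2 ≤ (⟪Del y (fun i => Ev D q (e i)) ξ, ξ⟫_ℂ).re
  /-- dichotomy -/
  H4 : ∀ ξ : Amp n (Amp n (Fk D q)),
    c1 c ^ 2 * (⟪Del y (fun i => locE D q y (e i)) ξ, ξ⟫_ℂ).re ≤
      ‖Del y (fun i => locE D q y (e i)) ξ‖ ^ 2 + sC c * (c1 c ^ 2 - sC c) * ‖ξ‖ ^ 2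

/-- The homotopy of tuples between `g (e, e) g⁻¹` and `(e, 1)`, where `e = p 1`. -/
def clamp (t : ℝ) : ℝ := max 0 (min 1 t)

/-- The family of tuples. -/
def fam {N : ℕ} (p : Fin 4 → ℝ → UN N) (g : UN N) (t : ℝ) : Tup N := fun i =>
  if i.1 = 0 then g * p i.2 (clamp (1 - t)) * g⁻¹ * p i.2 (clamp (t - 1))
  else g * p i.2 (clamp (3 - t)) * g⁻¹

end Pool.Agent.C8B

end
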