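import Pool.Agent.Lib.MP_c8b4d4_an.Defs

/-!
# Explicit quantum expanders from Weyl and Clifford unitaries
-/

set_option autoImplicit false

noncomputable section

namespace Pool.Agent.C8B

open scoped InnerProductSpace

namespace Exp

/-! ### The combinatorial inequality -/

section comb

variable {V : Type*} [Fintype V]

/-- Comparison of the mass of a set and of its image. -/
theorem move (h : V → ℝ) (f : V → ℝ) (hf0 : ∀ v, 0 ≤ f v) (hf1 : ∀ v, f v ≤ 1) (σ : V ≃ V) :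
    ∑ v, f (σ v) * h v ^ 2 ≤ ∑ v, f v * h v ^ 2 + (1 / 8) * ∑ v, h v ^ 2 +
      8 * ∑ v, (h (σ v) - h v) ^ 2 := by
  have h1 : ∑ v, f v * h v ^ 2 = ∑ v, f (σ v) * h (σ v) ^ 2 :=
    (Equiv.sum_comp σ (fun v => f v * h v ^ 2)).symm
  have h2 : ∑ v, h v ^ 2 = ∑ v, h (σ v) ^ 2 := (Equiv.sum_comp σ (fun v => h v ^ 2)).symm
  have h3 : (1 / 8 : ℝ) * ∑ v, h v ^ 2 =
      ∑ v, ((1 / 16 : ℝ) * h v ^ 2 + (1 / 16 : ℝ) * h (σ v) ^ 2) := by
    rw [Finset.sum_add_distrib, ← Finset.mul_sum, ← Finset.mul_sum, ← h2]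
    ring
  rw [h1, h3, Finset.mul_sum, ← Finset.sum_add_distrib, ← Finset.sum_add_distrib]
  refine Finset.sum_le_sum fun v _ => ?_
  have a1 := hf0 (σ v)
  have a2 := hf1 (σ v)
  have key : h v ^ 2 - h (σ v) ^ 2 ≤ (1 / 16 : ℝ) * h v ^ 2 + (1 / 16 : ℝ) * h (σ v) ^ 2 +
      8 * (h (σ v) - h v) ^ 2 := by
    nlinarith [sq_nonneg ((h v + h (σ v)) - 16 * (h v - h (σ v))),
      sq_nonneg (h v - h (σ v)), sq_nonneg (h v + h (σ v))]
  have pos : 0 ≤ (1 / 16 : ℝ) * h v ^ 2 + (1 / 16 : ℝ) * h (σ v) ^ 2 +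
      8 * (h (σ v) - h v) ^ 2 := by positivity
  nlinarith [mul_le_mul_of_nonneg_left key a1, mul_nonneg (sub_nonneg.2 a2) pos]

end comb

/-- Indicator. -/
def ind (p : Prop) [Decidable p] : ℝ := if p then 1 else 0

theorem ind_nonneg (p : Prop) [Decidable p] : 0 ≤ ind p := by
  unfold ind
  split_ifs <;> norm_num

theorem ind_le (p : Prop) [Decidable p] : ind p ≤ 1 := by
  unfold ind
  split_ifs <;> norm_num

theorem ind_of {p : Prop} [Decidable p] (h : p) : ind p = 1 := if_pos h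

/-- Same signs, second larger. -/
def P1 (D K : ℤ) : Prop := D.natAbs < K.natAbs ∧ ((0 < D ∧ 0 < K) ∨ (D < 0 ∧ K < 0))

/-- Different signs, second larger. -/
def P2 (D K : ℤ) : Prop := D.natAbs < K.natAbs ∧ ((0 < D ∧ K < 0) ∨ (D < 0 ∧ 0 < K))

instance (D K : ℤ) : Decidable (P1 D K) := by unfold P1; infer_instance
instance (D K : ℤ) : Decidable (P2 D K) := by unfold P2; infer_instance

theorem four_le (D K : ℤ) : ind (P1 D K) + ind (P2 D K) + ind (P1 K D) + ind (P2 K D) ≤ 1 := by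
  by_cases h1 : P1 D K
  · have h2 : ¬ P2 D K := by unfold P1 at h1; unfold P2; omega
    have h3 : ¬ P1 K D := by unfold P1 at h1; unfold P1; omega
    have h4 : ¬ P2 K D := by unfold P1 at h1; unfold P2; omega
    simp [ind, h1, h2, h3, h4]
  by_cases h2 : P2 D K
  · have h3 : ¬ P1 K D := by unfold P2 at h2; unfold P1; omega
    have h4 : ¬ P2 K D := by unfold P2 at h2; unfold P2; omega
    simp [ind, h1, h2, h3, h4]
  by_cases h3 : P1 K D
  · have h4 : ¬ P2 K D := by unfold P1 at h3; unfold P2; omega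
    simp [ind, h1, h2, h3, h4]
  by_cases h4 : P2 K D <;> simp [ind, h1, h2, h3, h4]

theorem four_ge (D K : ℤ) (h : ¬ (D = 0 ∧ K = 0)) :
    2 ≤ ind (P1 D (K + 2 * D)) + ind (P2 D (K - 2 * D)) + ind (P1 K (D + 2 * K)) +
      ind (P2 K (D - 2 * K)) := by
  have n1 := ind_nonneg (P1 D (K + 2 * D))
  have n2 := ind_nonneg (P2 D (K - 2 * D))
  have n3 := ind_nonneg (P1 K (D + 2 * K))
  have n4 := ind_nonneg (P2 K (D - 2 * K))
  rcases lt_trichotomy K.natAbs D.natAbs with g | g | g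
  · have h1 : P1 D (K + 2 * D) := by unfold P1; omega
    have h2 : P2 D (K - 2 * D) := by unfold P2; omega
    rw [ind_of h1, ind_of h2]
    linarith
  · rcases eq_or_ne K D with g' | g'
    · have h1 : P1 D (K + 2 * D) := by unfold P1; omega
      have h3 : P1 K (D + 2 * K) := by unfold P1; omega
      rw [ind_of h1, ind_of h3]
      linarith
    · have h2 : P2 D (K - 2 * D) := by unfold P2; omega
      have h4 : P2 K (D - 2 * K) := by unfold P2; omega
      rw [ind_of h2, ind_of h4]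
      linarith
  · have h3 : P1 K (D + 2 * K) := by unfold P1; omega
    have h4 : P2 K (D - 2 * K) := by unfold P2; omega
    rw [ind_of h3, ind_of h4]
    linarith

section ZM

variable {N : ℕ} [NeZero N]

/-- Abbreviation for the standard character. -/
abbrev ee (x : ZMod N) : ℂ := ZMod.stdAddChar x

theorem norm_ee (x : ZMod N) : ‖ee x‖ = 1 := by
  unfold ee
  rw [ZMod.stdAddChar_apply]
  exact Circle.norm_coe _

/-- The energy function. -/
def be (v : ZMod N × ZMod N) : ℝ := ‖ee v.1 - 1‖ ^ 2 + ‖ee v.2 - 1‖ ^ 2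

theorem far_ee (x : ZMod N) (h : (N : ℤ) ≤ 8 * x.valMinAbs.natAbs) : 1 / 2 ≤ ‖ee x - 1‖ ^ 2 := by
  have hN : (0 : ℝ) < N := by exact_mod_cast NeZero.pos N
  set D := x.valMinAbs with hD
  have hx : x = ((D : ℤ) : ZMod N) := by rw [hD, ZMod.coe_valMinAbs]
  have hm := ZMod.valMinAbs_mem_Ioc x
  rw [← hD] at hm
  obtain ⟨m1, m2⟩ := hm
  have e1 : ee x = Complex.exp (((2 * Real.pi * D / N : ℝ) : ℂ) * Complex.I) := by
    unfold ee
    rw [hx, ZMod.stdAddChar_coe]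
    congr 1
    push_cast
    ring
  have e2 : ‖ee x - 1‖ ^ 2 = 2 - 2 * Real.cos (2 * Real.pi * D / N) := by
    rw [e1, Complex.exp_mul_I, ← Complex.normSq_eq_norm_sq, Complex.normSq_apply]
    simp only [← Complex.ofReal_cos, ← Complex.ofReal_sin, Complex.sub_re, Complex.add_re,
      Complex.ofReal_re, Complex.mul_re, Complex.I_re, Complex.I_im, Complex.one_re,
      Complex.sub_im, Complex.add_im, Complex.ofReal_im, Complex.mul_im, Complex.one_im]
    have := Real.sin_sq_add_cos_sq (2 * Real.pi * D / N)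
    ring_nf at this ⊢
    linarith
  rw [e2]
  have e3 : Real.cos (2 * Real.pi * D / N) = Real.cos (2 * Real.pi * |(D : ℝ)| / N) := by
    rcases abs_cases (D : ℝ) with ⟨g, -⟩ | ⟨g, -⟩
    · rw [g]
    · rw [g, ← Real.cos_neg]
      congr 1
      ring
  have hpi := Real.pi_pos
  have f1 : (N : ℝ) ≤ 8 * |(D : ℝ)| := by
    have : ((N : ℤ) : ℝ) ≤ ((8 * D.natAbs : ℤ) : ℝ) := by exact_mod_cast h
    push_cast at this
    exact this
  have f2 : 2 * |(D : ℝ)| ≤ N := by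
    have g1 : (-(N : ℝ)) < D * 2 := by exact_mod_cast m1
    have g2 : (D : ℝ) * 2 ≤ N := by exact_mod_cast m2
    rcases abs_cases (D : ℝ) with ⟨g, -⟩ | ⟨g, -⟩ <;> rw [g] <;> linarith
  have f3 : Real.cos (2 * Real.pi * |(D : ℝ)| / N) ≤ Real.cos (Real.pi / 4) := by
    apply Real.cos_le_cos_of_nonneg_of_le_pi
    · positivity
    · rw [div_le_iff₀ hN]
      nlinarith
    · rw [le_div_iff₀ hN]
      nlinarith
  rw [Real.cos_pi_div_four] at f3
  rw [e3]
  have f4 : Real.sqrt 2 ≤ 3 / 2 := by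
    rw [Real.sqrt_le_left (by norm_num)]
    norm_num
  linarith

/-- The first shear. -/
def sh1 : (ZMod N × ZMod N) ≃ (ZMod N × ZMod N) where
  toFun v := (v.1, v.2 + 2 * v.1)
  invFun v := (v.1, v.2 - 2 * v.1)
  left_inv v := by simp
  right_inv v := by simp

/-- The second shear. -/
def sh2 : (ZMod N × ZMod N) ≃ (ZMod N × ZMod N) where
  toFun v := (v.1 + 2 * v.2, v.2)
  invFun v := (v.1 - 2 * v.2, v.2)
  left_inv v := by simp
  right_inv v := by simp

theorem vma (x : ZMod N) (y : ℤ) (h : x = y) (hy : 2 * y.natAbs < N) : x.valMinAbs = y := by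
  rw [ZMod.valMinAbs_spec]
  refine ⟨h, ?_⟩
  constructor <;> omega

theorem point (v : ZMod N × ZMod N) (hv : v ≠ 0) :
    2 ≤ ind (P1 (sh1 v).1.valMinAbs (sh1 v).2.valMinAbs) +
      ind (P2 (sh1.symm v).1.valMinAbs (sh1.symm v).2.valMinAbs) +
      ind (P1 (sh2 v).2.valMinAbs (sh2 v).1.valMinAbs) +
      ind (P2 (sh2.symm v).2.valMinAbs (sh2.symm v).1.valMinAbs) + 4 * be v := by
  obtain ⟨d, k⟩ := v
  have n0 := ind_nonneg (P1 (sh1 (d, k)).1.valMinAbs (sh1 (d, k)).2.valMinAbs)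
  have n1 := ind_nonneg (P2 (sh1.symm (d, k)).1.valMinAbs (sh1.symm (d, k)).2.valMinAbs)
  have n2 := ind_nonneg (P1 (sh2 (d, k)).2.valMinAbs (sh2 (d, k)).1.valMinAbs)
  have n3 := ind_nonneg (P2 (sh2.symm (d, k)).2.valMinAbs (sh2.symm (d, k)).1.valMinAbs)
  by_cases h1 : (N : ℤ) ≤ 8 * d.valMinAbs.natAbs
  · have := far_ee d h1
    have h2 : 0 ≤ ‖ee k - 1‖ ^ 2 := by positivity
    have h3 : be (d, k) = ‖ee d - 1‖ ^ 2 + ‖ee k - 1‖ ^ 2 := rfl
    linarith
  by_cases h2 : (N : ℤ) ≤ 8 * k.valMinAbs.natAbs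
  · have := far_ee k h2
    have h2 : 0 ≤ ‖ee d - 1‖ ^ 2 := by positivity
    have h3 : be (d, k) = ‖ee d - 1‖ ^ 2 + ‖ee k - 1‖ ^ 2 := rfl
    linarith
  have hd : ((d.valMinAbs : ℤ) : ZMod N) = d := ZMod.coe_valMinAbs d
  have hk : ((k.valMinAbs : ℤ) : ZMod N) = k := ZMod.coe_valMinAbs k
  have e1 : (k + 2 * d).valMinAbs = k.valMinAbs + 2 * d.valMinAbs :=
    vma _ _ (by simp) (by omega)
  have e2 : (k - 2 * d).valMinAbs = k.valMinAbs - 2 * d.valMinAbs :=
    vma _ _ (by simp) (by omega)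
  have e3 : (d + 2 * k).valMinAbs = d.valMinAbs + 2 * k.valMinAbs :=
    vma _ _ (by simp) (by omega)
  have e4 : (d - 2 * k).valMinAbs = d.valMinAbs - 2 * k.valMinAbs :=
    vma _ _ (by simp) (by omega)
  have hne : ¬ (d.valMinAbs = 0 ∧ k.valMinAbs = 0) := by
    rintro ⟨g1, g2⟩
    rw [ZMod.valMinAbs_eq_zero] at g1 g2
    exact hv (by rw [g1, g2]; rfl)
  have key := four_ge d.valMinAbs k.valMinAbs hne
  have hb : 0 ≤ be (d, k) := by unfold be; positivity
  rw [← e1, ← e2, ← e3, ← e4] at key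
  calc (2 : ℝ) ≤ _ := key
    _ ≤ _ := le_add_of_nonneg_right (by positivity)

/-- The combinatorial spectral gap. -/
theorem comb_gap (h : ZMod N × ZMod N → ℝ) (h0 : h 0 = 0) :
    ∑ v, h v ^ 2 ≤ 8 * ∑ v, be v * h v ^ 2 + 32 * (∑ v, (h (sh1 v) - h v) ^ 2 +
      ∑ v, (h (sh2 v) - h v) ^ 2) := by
  have m1 := move h (fun v => ind (P1 v.1.valMinAbs v.2.valMinAbs)) (fun _ => ind_nonneg _)
    (fun _ => ind_le _) sh1
  have m2 := move h (fun v => ind (P2 v.1.valMinAbs v.2.valMinAbs)) (fun _ => ind_nonneg _)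
    (fun _ => ind_le _) sh1.symm
  have m3 := move h (fun v => ind (P1 v.2.valMinAbs v.1.valMinAbs)) (fun _ => ind_nonneg _)
    (fun _ => ind_le _) sh2
  have m4 := move h (fun v => ind (P2 v.2.valMinAbs v.1.valMinAbs)) (fun _ => ind_nonneg _)
    (fun _ => ind_le _) sh2.symm
  have r1 : ∑ v, (h (sh1.symm v) - h v) ^ 2 = ∑ v, (h (sh1 v) - h v) ^ 2 := by
    rw [← Equiv.sum_comp sh1 (fun v => (h (sh1.symm v) - h v) ^ 2)]
    refine Finset.sum_congr rfl fun v _ => ?_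
    rw [Equiv.symm_apply_apply]
    ring
  have r2 : ∑ v, (h (sh2.symm v) - h v) ^ 2 = ∑ v, (h (sh2 v) - h v) ^ 2 := by
    rw [← Equiv.sum_comp sh2 (fun v => (h (sh2.symm v) - h v) ^ 2)]
    refine Finset.sum_congr rfl fun v _ => ?_
    rw [Equiv.symm_apply_apply]
    ring
  rw [r1] at m2
  rw [r2] at m4
  have hub : ∑ v : ZMod N × ZMod N, ind (P1 v.1.valMinAbs v.2.valMinAbs) * h v ^ 2 +
      ∑ v : ZMod N × ZMod N, ind (P2 v.1.valMinAbs v.2.valMinAbs) * h v ^ 2 +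
      ∑ v : ZMod N × ZMod N, ind (P1 v.2.valMinAbs v.1.valMinAbs) * h v ^ 2 +
      ∑ v : ZMod N × ZMod N, ind (P2 v.2.valMinAbs v.1.valMinAbs) * h v ^ 2 ≤ ∑ v, h v ^ 2 := by
    rw [← Finset.sum_add_distrib, ← Finset.sum_add_distrib, ← Finset.sum_add_distrib]
    refine Finset.sum_le_sum fun v _ => ?_
    have := four_le v.1.valMinAbs v.2.valMinAbs
    have hq : 0 ≤ h v ^ 2 := sq_nonneg _
    nlinarith
  have hlb : 2 * ∑ v, h v ^ 2 ≤
      ∑ v : ZMod N × ZMod N, ind (P1 (sh1 v).1.valMinAbs (sh1 v).2.valMinAbs) * h v ^ 2 +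
      ∑ v : ZMod N × ZMod N, ind (P2 (sh1.symm v).1.valMinAbs (sh1.symm v).2.valMinAbs) *
        h v ^ 2 +
      ∑ v : ZMod N × ZMod N, ind (P1 (sh2 v).2.valMinAbs (sh2 v).1.valMinAbs) * h v ^ 2 +
      ∑ v : ZMod N × ZMod N, ind (P2 (sh2.symm v).2.valMinAbs (sh2.symm v).1.valMinAbs) *
        h v ^ 2 + 4 * ∑ v, be v * h v ^ 2 := by
    rw [Finset.mul_sum, Finset.mul_sum, ← Finset.sum_add_distrib, ← Finset.sum_add_distrib,
      ← Finset.sum_add_distrib, ← Finset.sum_add_distrib]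
    refine Finset.sum_le_sum fun v _ => ?_
    by_cases hv : v = 0
    · rw [hv, h0]
      simp
    · have := point v hv
      have hq : 0 ≤ h v ^ 2 := sq_nonneg _
      nlinarith
  linarith

/-! ### Fourier coefficients of matrices -/

theorem conj_ee (x : ZMod N) : (starRingEnd ℂ) (ee x) = ee (-x) :=
  (AddChar.map_neg_eq_conj _ x).symm

theorem ee_add (x y : ZMod N) : ee (x + y) = ee x * ee y := AddChar.map_add_eq_mul _ x y

theorem sum_ee (b : ZMod N) : ∑ x : ZMod N, ee (x * b) = if b = 0 then (N : ℂ) else 0 := by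
  have := AddChar.sum_mulShift b (ZMod.isPrimitive_stdAddChar N)
  rw [ZMod.card] at this
  exact_mod_cast this

theorem parseval (f : ZMod N → ℂ) :
    ∑ k : ZMod N, ‖∑ x, f x * ee (-(k * x))‖ ^ 2 = N * ∑ x, ‖f x‖ ^ 2 := by
  have h1 : ∀ z : ℂ, ((‖z‖ ^ 2 : ℝ) : ℂ) = z * (starRingEnd ℂ) z := by
    intro z
    rw [Complex.mul_conj, Complex.normSq_eq_norm_sq]
  have h2 : ((∑ k : ZMod N, ‖∑ x, f x * ee (-(k * x))‖ ^ 2 : ℝ) : ℂ) =
      ((N * ∑ x, ‖f x‖ ^ 2 : ℝ) : ℂ) := by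
    rw [Complex.ofReal_sum, Complex.ofReal_mul, Complex.ofReal_sum]
    simp_rw [h1, map_sum, map_mul, conj_ee, neg_neg, Finset.sum_mul_sum]
    rw [Finset.sum_comm]
    rw [Finset.mul_sum]
    refine Finset.sum_congr rfl fun x _ => ?_
    rw [Finset.sum_comm]
    have h3 : ∀ y : ZMod N, ∑ k : ZMod N, f x * ee (-(k * x)) *
        ((starRingEnd ℂ) (f y) * ee (k * y)) =
        f x * (starRingEnd ℂ) (f y) * (if y - x = 0 then (N : ℂ) else 0) := by
      intro y
      rw [← sum_ee, Finset.mul_sum]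
      refine Finset.sum_congr rfl fun k _ => ?_
      have : k * (y - x) = -(k * x) + k * y := by ring
      rw [this, ee_add]
      ring
    simp_rw [h3, sub_eq_zero]
    rw [Finset.sum_eq_single x]
    · simp
      ring
    · intro y _ hy
      rw [if_neg hy, mul_zero]
    · intro h
      exact absurd (Finset.mem_univ _) h
  exact_mod_cast h2

/-- Matrix coefficient. -/
def co (A : Matrix (ZMod N) (ZMod N) ℂ) (v : ZMod N × ZMod N) : ℂ :=
  ∑ x, A x (x - v.1) * ee (-(v.2 * x))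

theorem co_zero (A : Matrix (ZMod N) (ZMod N) ℂ) : co A 0 = A.trace := by
  unfold co Matrix.trace
  refine Finset.sum_congr rfl fun x _ => ?_
  simp [ee]

theorem frob_eq (A : Matrix (ZMod N) (ZMod N) ℂ) : frob A = ∑ d, ∑ x, ‖A x (x - d)‖ ^ 2 := by
  unfold frob
  rw [Finset.sum_comm (s := Finset.univ (α := ZMod N)) (f := fun d x => ‖A x (x - d)‖ ^ 2)]
  refine Finset.sum_congr rfl fun x _ => ?_
  exact (Equiv.sum_comp (Equiv.subLeft x) (fun y => ‖A x y‖ ^ 2)).symm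

/-- Weighted Frobenius norm in terms of coefficients. -/
theorem weighted (A B : Matrix (ZMod N) (ZMod N) ℂ) (c : ZMod N → ℝ)
    (h : ∀ x d, ‖B x (x - d)‖ ^ 2 = c d * ‖A x (x - d)‖ ^ 2) :
    N * frob B = ∑ v : ZMod N × ZMod N, c v.1 * ‖co A v‖ ^ 2 := by
  rw [frob_eq, Fintype.sum_prod_type, Finset.mul_sum]
  refine Finset.sum_congr rfl fun d _ => ?_
  have h1 := parseval (fun x => A x (x - d))
  have h2 : ∑ k : ZMod N, c d * ‖co A (d, k)‖ ^ 2 = c d * (N * ∑ x, ‖A x (x - d)‖ ^ 2) := by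
    rw [← Finset.mul_sum, ← h1]
    rfl
  have h3 : ∑ x, ‖B x (x - d)‖ ^ 2 = c d * ∑ x, ‖A x (x - d)‖ ^ 2 := by
    rw [Finset.mul_sum]
    exact Finset.sum_congr rfl fun x _ => h x d
  exact (by rw [h3]; ring : (N : ℝ) * ∑ x, ‖B x (x - d)‖ ^ 2 =
    c d * (N * ∑ x, ‖A x (x - d)‖ ^ 2)).trans h2.symm

theorem frob_co (A : Matrix (ZMod N) (ZMod N) ℂ) :
    N * frob A = ∑ v : ZMod N × ZMod N, ‖co A v‖ ^ 2 := by
  rw [weighted A A (fun _ => 1) (fun x d => by ring)]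
  simp

/-- The clock matrix. -/
def Zm : Matrix (ZMod N) (ZMod N) ℂ := Matrix.diagonal fun x => ee x

/-- The quadratic clock matrix. -/
def Cm : Matrix (ZMod N) (ZMod N) ℂ := Matrix.diagonal fun x => ee (x ^ 2)

theorem frob_Z (A : Matrix (ZMod N) (ZMod N) ℂ) :
    N * frob (Zm * A - A * Zm) = ∑ v : ZMod N × ZMod N, ‖ee v.1 - 1‖ ^ 2 * ‖co A v‖ ^ 2 := by
  refine weighted A _ (fun d => ‖ee d - 1‖ ^ 2) fun x d => ?_
  have h1 : (Zm * A - A * Zm : Matrix (ZMod N) (ZMod N) ℂ) x (x - d) = ee (x - d) * (ee d - 1) * A x (x - d) := by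
    have h2 : ee x = ee (x - d) * ee d := by rw [← ee_add, sub_add_cancel]
    simp only [Zm, Matrix.sub_apply, Matrix.diagonal_mul, Matrix.mul_diagonal]
    rw [h2]
    ring
  rw [h1, norm_mul, norm_mul, norm_ee, one_mul, mul_pow]

theorem frob_C (A : Matrix (ZMod N) (ZMod N) ℂ) :
    ∑ v : ZMod N × ZMod N, (‖co A (sh1 v)‖ - ‖co A v‖) ^ 2 ≤
      N * frob (Cm * A - A * Cm) := by
  have h0 : ∀ d x : ZMod N, ‖(Cm * A - A * Cm : Matrix (ZMod N) (ZMod N) ℂ) x (x - d)‖ ^ 2 =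
      ‖(1 - ee (d ^ 2 - 2 * d * x)) * A x (x - d)‖ ^ 2 := by
    intro d x
    have h1 : (Cm * A - A * Cm : Matrix (ZMod N) (ZMod N) ℂ) x (x - d) =
        ee (x ^ 2) * ((1 - ee (d ^ 2 - 2 * d * x)) * A x (x - d)) := by
      have h2 : ee ((x - d) ^ 2) = ee (x ^ 2) * ee (d ^ 2 - 2 * d * x) := by
        rw [← ee_add]
        congr 1
        ring
      simp only [Cm, Matrix.sub_apply, Matrix.diagonal_mul, Matrix.mul_diagonal]
      rw [h2]
      ring
    rw [h1, norm_mul, norm_ee, one_mul]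
  rw [frob_eq, Fintype.sum_prod_type, Finset.mul_sum]
  refine Finset.sum_le_sum fun d _ => ?_
  simp_rw [h0]
  rw [← parseval]
  refine Finset.sum_le_sum fun k _ => ?_
  have h3 : ∑ x, (1 - ee (d ^ 2 - 2 * d * x)) * A x (x - d) * ee (-(k * x)) =
      co A (d, k) - ee (d ^ 2) * co A (sh1 (d, k)) := by
    unfold co sh1
    simp only [Equiv.coe_fn_mk]
    rw [Finset.mul_sum, ← Finset.sum_sub_distrib]
    refine Finset.sum_congr rfl fun x _ => ?_
    have h4 : ee (d ^ 2 - 2 * d * x) * ee (-(k * x)) =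
        ee (d ^ 2) * ee (-((k + 2 * d) * x)) := by
      rw [← ee_add, ← ee_add]
      congr 1
      ring
    linear_combination (-A x (x - d)) * h4
  rw [h3]
  have h5 : ‖ee (d ^ 2) * co A (sh1 (d, k))‖ = ‖co A (sh1 (d, k))‖ := by
    rw [norm_mul, norm_ee, one_mul]
  have h6 := abs_norm_sub_norm_le (co A (d, k)) (ee (d ^ 2) * co A (sh1 (d, k)))
  rw [h5] at h6
  have h7 := abs_nonneg (‖co A (d, k)‖ - ‖co A (sh1 (d, k))‖)
  have h8 : (‖co A (sh1 (d, k))‖ - ‖co A (d, k)‖) ^ 2 =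
      |‖co A (d, k)‖ - ‖co A (sh1 (d, k))‖| ^ 2 := by
    rw [sq_abs]
    ring
  rw [h8]
  exact pow_le_pow_left₀ h7 h6 2

/-- The Fourier matrix. -/
def Fm : Matrix (ZMod N) (ZMod N) ℂ := fun x y => ((Real.sqrt N)⁻¹ : ℝ) * ee (x * y)

omit [NeZero N] in
theorem sqrtN : (((Real.sqrt N)⁻¹ : ℝ) : ℂ) * (((Real.sqrt N)⁻¹ : ℝ) : ℂ) = (N : ℂ)⁻¹ := by
  rw [← Complex.ofReal_mul, ← mul_inv, Real.mul_self_sqrt (Nat.cast_nonneg N)]
  simp

theorem Nne : (N : ℂ) ≠ 0 := by exact_mod_cast NeZero.ne N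

theorem Fm_mem : (Fm : Matrix (ZMod N) (ZMod N) ℂ) ∈ Matrix.unitaryGroup (ZMod N) ℂ := by
  rw [Matrix.mem_unitaryGroup_iff']
  ext y z
  rw [Matrix.star_eq_conjTranspose, Matrix.mul_apply, Matrix.one_apply]
  have h1 : ∀ x : ZMod N, (Fm : Matrix (ZMod N) (ZMod N) ℂ).conjTranspose y x * Fm x z =
      (N : ℂ)⁻¹ * ee (x * (z - y)) := by
    intro x
    have h2 : ee (x * (z - y)) = ee (-(x * y)) * ee (x * z) := by
      rw [← ee_add]
      congr 1
      ring
    rw [Matrix.conjTranspose_apply, h2, ← sqrtN]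
    simp only [Fm, RCLike.star_def, map_mul, Complex.conj_ofReal, conj_ee]
    ring
  simp_rw [h1]
  rw [← Finset.mul_sum, sum_ee]
  by_cases h : y = z
  · rw [if_pos h, if_pos (by rw [h, sub_self]), inv_mul_cancel₀ Nne]
  · rw [if_neg h, if_neg (fun g => h (sub_eq_zero.1 g).symm), mul_zero]

theorem co_F (A : Matrix (ZMod N) (ZMod N) ℂ) (v : ZMod N × ZMod N) :
    ‖co (star Fm * A * Fm) v‖ = ‖co A (-v.2, v.1)‖ := by
  obtain ⟨d, k⟩ := v
  have h1 : co (star Fm * A * Fm) (d, k) = ee (-(k * d)) * co A (-k, d) := by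
    unfold co
    dsimp only
    have h2 : ∀ x : ZMod N, (star Fm * A * Fm : Matrix (ZMod N) (ZMod N) ℂ) x (x - d) * ee (-(k * x)) =
        ∑ u, ∑ w, (N : ℂ)⁻¹ * A u w * ee (-(w * d)) * ee (x * (w - u - k)) := by
      intro x
      rw [Matrix.mul_apply, Finset.sum_mul]
      simp_rw [Matrix.mul_apply, Finset.sum_mul]
      rw [Finset.sum_comm]
      refine Finset.sum_congr rfl fun u _ => Finset.sum_congr rfl fun w _ => ?_
      have h3 : ee (-(w * d)) * ee (x * (w - u - k)) =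
          ee (-(u * x)) * ee (w * (x - d)) * ee (-(k * x)) := by
        rw [← ee_add, ← ee_add, ← ee_add]
        congr 1
        ring
      rw [mul_assoc _ (ee (-(w * d))), h3, ← sqrtN]
      rw [Matrix.star_apply]
      simp only [Fm, RCLike.star_def, map_mul, Complex.conj_ofReal, conj_ee]
      ring
    simp_rw [h2]
    rw [Finset.sum_comm, Finset.mul_sum]
    refine Finset.sum_congr rfl fun u _ => ?_
    rw [Finset.sum_comm]
    simp_rw [← Finset.mul_sum, sum_ee]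
    rw [Finset.sum_eq_single (u - -k)]
    · rw [if_pos (by ring)]
      have h4 : ee (-((u - -k) * d)) = ee (-(k * d)) * ee (-(d * u)) := by
        rw [← ee_add]
        congr 1
        ring
      rw [h4]
      field_simp [Nne (N := N)]
    · intro w _ hw
      rw [if_neg, mul_zero]
      intro g
      exact hw (by linear_combination g)
    · intro h
      exact absurd (Finset.mem_univ _) h
  rw [h1, norm_mul, norm_ee, one_mul]

end ZM

/-! ### Unitary invariance of the Frobenius norm -/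

section inv

variable {m : Type*} [Fintype m] [DecidableEq m]

omit [DecidableEq m] in
theorem frob_trace (X : Matrix m m ℂ) : ((frob X : ℝ) : ℂ) = (star X * X).trace := by
  unfold frob Matrix.trace
  rw [Complex.ofReal_sum]
  simp_rw [Complex.ofReal_sum]
  rw [Finset.sum_comm]
  refine Finset.sum_congr rfl fun b _ => ?_
  rw [Matrix.diag_apply, Matrix.mul_apply]
  refine Finset.sum_congr rfl fun a _ => ?_
  rw [Matrix.star_apply, RCLike.star_def, mul_comm, Complex.mul_conj, Complex.normSq_eq_norm_sq]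

theorem frob_conj (U : Matrix m m ℂ) (hU : U ∈ Matrix.unitaryGroup m ℂ) (X : Matrix m m ℂ) :
    frob (U * X * star U) = frob X := by
  have h1 := Matrix.mem_unitaryGroup_iff'.1 hU
  have : ((frob (U * X * star U) : ℝ) : ℂ) = ((frob X : ℝ) : ℂ) := by
    rw [frob_trace, frob_trace]
    rw [star_mul, star_mul, star_star]
    have : U * (star X * star U) * (U * X * star U) = U * (star X * X) * star U := by
      calc U * (star X * star U) * (U * X * star U) = U * star X * (star U * U) * X * star U := by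
            noncomm_ring
        _ = _ := by rw [h1]; noncomm_ring
    rw [this, Matrix.trace_mul_comm, ← mul_assoc, h1, one_mul]
  exact_mod_cast this

theorem comm_conj (U : Matrix m m ℂ) (hU : U ∈ Matrix.unitaryGroup m ℂ) (X Y : Matrix m m ℂ) :
    frob (U * Y * star U * X - X * (U * Y * star U)) =
      frob (Y * (star U * X * U) - (star U * X * U) * Y) := by
  have h1 := Matrix.mem_unitaryGroup_iff'.1 hU
  have h2 := Matrix.mem_unitaryGroup_iff.1 hU
  rw [← frob_conj U hU (Y * (star U * X * U) - (star U * X * U) * Y)]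
  congr 1
  have : U * (Y * (star U * X * U) - (star U * X * U) * Y) * star U =
      U * Y * star U * X * (U * star U) - (U * star U) * X * (U * Y * star U) := by
    noncomm_ring
  rw [this, h2, one_mul, mul_one]

end inv

/-! ### The paths -/

section paths

variable {N : ℕ} [NeZero N]

/-- Diagonal one parameter group. -/
def dg (f : ZMod N → ℝ) (s : ℝ) : Matrix.unitaryGroup (ZMod N) ℂ :=
  ⟨Matrix.diagonal fun x => Complex.exp (((s * f x : ℝ) : ℂ) * Complex.I), by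
    rw [Matrix.mem_unitaryGroup_iff', Matrix.star_eq_conjTranspose,
      Matrix.diagonal_conjTranspose, Matrix.diagonal_mul_diagonal, ← Matrix.diagonal_one]
    congr 1
    funext x
    rw [Pi.star_apply, RCLike.star_def, mul_comm, Complex.mul_conj, Complex.normSq_eq_norm_sq,
      Complex.norm_exp_ofReal_mul_I]
    simp⟩

theorem dg_cont (f : ZMod N → ℝ) : Continuous (dg f) := by
  refine Continuous.subtype_mk (Continuous.matrix_diagonal ?_) _
  refine continuous_pi fun x => ?_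
  fun_prop

theorem dg_zero (f : ZMod N → ℝ) : dg f 0 = 1 := by
  apply Subtype.ext
  change Matrix.diagonal _ = 1
  rw [← Matrix.diagonal_one]
  congr 1
  funext x
  simp

theorem dg_Z : ((dg (fun x : ZMod N => 2 * Real.pi * x.val / N) 1 :
    Matrix.unitaryGroup (ZMod N) ℂ) : Matrix (ZMod N) (ZMod N) ℂ) = Zm := by
  change Matrix.diagonal _ = Matrix.diagonal _
  congr 1
  funext x
  have hx : x = (((x.val : ℤ)) : ZMod N) := by simp
  unfold ee
  conv_rhs => rw [hx, ZMod.stdAddChar_coe]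
  congr 1
  push_cast
  ring

theorem dg_C : ((dg (fun x : ZMod N => 2 * Real.pi * x.val ^ 2 / N) 1 :
    Matrix.unitaryGroup (ZMod N) ℂ) : Matrix (ZMod N) (ZMod N) ℂ) = Cm := by
  change Matrix.diagonal _ = Matrix.diagonal _
  congr 1
  funext x
  have hx : x ^ 2 = (((x.val : ℤ) ^ 2 : ℤ) : ZMod N) := by simp
  unfold ee
  conv_rhs => rw [hx, ZMod.stdAddChar_coe]
  congr 1
  push_cast
  ring

/-- The Fourier unitary. -/
def Fu : Matrix.unitaryGroup (ZMod N) ℂ := ⟨Fm, Fm_mem⟩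

/-- The four paths. -/
def pth : Fin 4 → ℝ → Matrix.unitaryGroup (ZMod N) ℂ :=
  ![fun s => dg (fun x : ZMod N => 2 * Real.pi * x.val / N) s,
    fun s => dg (fun x : ZMod N => 2 * Real.pi * x.val ^ 2 / N) s,
    fun s => Fu * dg (fun x : ZMod N => 2 * Real.pi * x.val / N) s * Fu⁻¹,
    fun s => Fu * dg (fun x : ZMod N => 2 * Real.pi * x.val ^ 2 / N) s * Fu⁻¹]

theorem pth_cont (i : Fin 4) : Continuous (pth (N := N) i) := by
  fin_cases i
  · exact dg_cont _
  · exact dg_cont _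
  · exact (continuous_const.mul (dg_cont _)).mul continuous_const
  · exact (continuous_const.mul (dg_cont _)).mul continuous_const

theorem pth_zero (i : Fin 4) : pth (N := N) i 0 = 1 := by
  fin_cases i
  · exact dg_zero _
  · exact dg_zero _
  · change Fu * dg _ 0 * Fu⁻¹ = 1
    rw [dg_zero, mul_one, mul_inv_cancel]
  · change Fu * dg _ 0 * Fu⁻¹ = 1
    rw [dg_zero, mul_one, mul_inv_cancel]

/-- Rotation of the torus. -/
def rot : (ZMod N × ZMod N) ≃ (ZMod N × ZMod N) where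
  toFun v := (-v.2, v.1)
  invFun v := (v.2, -v.1)
  left_inv v := by simp
  right_inv v := by simp

theorem gap (X : Matrix (ZMod N) (ZMod N) ℂ) (hX : X.trace = 0) :
    (1 / 6 : ℝ) ^ 2 * frob X ≤ ∑ i, frob ((pth (N := N) i 1 : Matrix (ZMod N) (ZMod N) ℂ) * X -
      X * (pth (N := N) i 1 : Matrix (ZMod N) (ZMod N) ℂ)) := by
  have hN : (0 : ℝ) < N := by exact_mod_cast NeZero.pos N
  have e0 : ((pth 0 1 : Matrix.unitaryGroup (ZMod N) ℂ) : Matrix (ZMod N) (ZMod N) ℂ) = Zm :=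
    dg_Z
  have e1 : ((pth 1 1 : Matrix.unitaryGroup (ZMod N) ℂ) : Matrix (ZMod N) (ZMod N) ℂ) = Cm :=
    dg_C
  have e2 : ((pth 2 1 : Matrix.unitaryGroup (ZMod N) ℂ) : Matrix (ZMod N) (ZMod N) ℂ) =
      Fm * Zm * star Fm := by
    rw [← dg_Z]
    rfl
  have e3 : ((pth 3 1 : Matrix.unitaryGroup (ZMod N) ℂ) : Matrix (ZMod N) (ZMod N) ℂ) =
      Fm * Cm * star Fm := by
    rw [← dg_C]
    rfl
  rw [Fin.sum_univ_four, e0, e1, e2, e3, comm_conj _ Fm_mem, comm_conj _ Fm_mem]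
  set B := star Fm * X * Fm with hB
  have f0 := frob_Z X
  have f1 := frob_C X
  have f2 := frob_Z B
  have f3 := frob_C B
  have f4 := frob_co X
  have cg := comb_gap (fun v => ‖co X v‖) (by rw [co_zero, hX, norm_zero])
  have g2 : ∑ v : ZMod N × ZMod N, ‖ee v.1 - 1‖ ^ 2 * ‖co B v‖ ^ 2 =
      ∑ v : ZMod N × ZMod N, ‖ee v.2 - 1‖ ^ 2 * ‖co X v‖ ^ 2 := by
    rw [← Equiv.sum_comp rot (fun v : ZMod N × ZMod N => ‖ee v.2 - 1‖ ^ 2 * ‖co X v‖ ^ 2)]
    refine Finset.sum_congr rfl fun v _ => ?_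
    rw [hB, co_F]
    rfl
  have g3 : ∑ v : ZMod N × ZMod N, (‖co B (sh1 v)‖ - ‖co B v‖) ^ 2 =
      ∑ v : ZMod N × ZMod N, (‖co X (sh2 v)‖ - ‖co X v‖) ^ 2 := by
    have g4 : ∑ v : ZMod N × ZMod N, (‖co X (sh2 v)‖ - ‖co X v‖) ^ 2 =
        ∑ v : ZMod N × ZMod N, (‖co X (sh2.symm v)‖ - ‖co X v‖) ^ 2 := by
      rw [← Equiv.sum_comp sh2 (fun v => (‖co X (sh2.symm v)‖ - ‖co X v‖) ^ 2)]
      refine Finset.sum_congr rfl fun v _ => ?_
      rw [Equiv.symm_apply_apply]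
      ring
    rw [g4, ← Equiv.sum_comp rot (fun v => (‖co X (sh2.symm v)‖ - ‖co X v‖) ^ 2)]
    refine Finset.sum_congr rfl fun v _ => ?_
    rw [hB, co_F, co_F]
    have : sh2.symm (rot v) = (-(sh1 v).2, (sh1 v).1) := by
      obtain ⟨d, k⟩ := v
      simp only [sh1, sh2, rot, Equiv.coe_fn_mk, Equiv.coe_fn_symm_mk]
      congr 1
      ring
    rw [this]
    rfl
  have g5 : ∑ v : ZMod N × ZMod N, be v * ‖co X v‖ ^ 2 =
      ∑ v : ZMod N × ZMod N, ‖ee v.1 - 1‖ ^ 2 * ‖co X v‖ ^ 2 +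
      ∑ v : ZMod N × ZMod N, ‖ee v.2 - 1‖ ^ 2 * ‖co X v‖ ^ 2 := by
    rw [← Finset.sum_add_distrib]
    refine Finset.sum_congr rfl fun v _ => ?_
    unfold be
    ring
  rw [g5, ← g2, ← f0, ← f2, ← f4] at cg
  rw [← g3] at cg
  have p0 : 0 ≤ frob (Zm * X - X * Zm) := by unfold frob; positivity
  have p2 : 0 ≤ frob (Zm * B - B * Zm) := by unfold frob; positivity
  have p4 : 0 ≤ frob X := by unfold frob; positivity
  have : N * frob X ≤ N * (32 * (frob (Zm * X - X * Zm) + frob (Cm * X - X * Cm) +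
      frob (Zm * B - B * Zm) + frob (Cm * B - B * Cm))) := by
    nlinarith [mul_nonneg hN.le p0, mul_nonneg hN.le p2]
  have := le_of_mul_le_mul_left this hN
  linarith

end paths

end Exp

theorem exists_expander : ∃ c : ℝ, 0 < c ∧ c ≤ 1 ∧ ∀ N : ℕ, 1 ≤ N →
    ∃ p : Fin 4 → ℝ → UN N, (∀ i, Continuous (p i)) ∧ (∀ i, p i 0 = 1) ∧
      ∀ X : Matrix (Fin N) (Fin N) ℂ, X.trace = 0 →
        c ^ 2 * frob X ≤ ∑ i, frob ((p i 1 : Matrix (Fin N) (Fin N) ℂ) * X -
          X * (p i 1 : Matrix (Fin N) (Fin N) ℂ)) := by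
  refine ⟨1 / 6, by norm_num, by norm_num, fun N hN => ?_⟩
  obtain ⟨n, rfl⟩ : ∃ n, N = n + 1 := ⟨N - 1, by omega⟩
  exact ⟨Exp.pth (N := n + 1), Exp.pth_cont, Exp.pth_zero, Exp.gap (N := n + 1)⟩

end Pool.Agent.C8B
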