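import Pool.Agent.Lib.MP_c8b4d4_an.Seq

set_option autoImplicit false

noncomputable section

namespace Pool.Agent.C8B

open scoped InnerProductSpace

theorem final : ∃ (A : Type) (_ : NonUnitalCStarAlgebra A),
      TopologicalSpace.SeparableSpace A ∧
      Nontrivial A ∧
      (∀ I : TwoSidedIdeal A, IsClosed (I : Set A) → I = ⊥ ∨ I = ⊤) ∧
      (∃ a b : A, a * b ≠ b * a) ∧
      (∀ c d : A, c ≠ 0 → d ≠ 0 → ∀ ε : ℝ, 0 < ε →
        ∃ x : A, ‖star x * (star c * c) * x - star d * d‖ < ε) ∧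
      IsEmpty (A ≃⋆ₐ[ℂ] Aᵐᵒᵖ) := by
  obtain ⟨X, ω, h0, hX0, hemp⟩ := main_exists
  set D := Xr X ω with hD
  have hD0 : D ⟨0, h0⟩ = ⟨1, fun _ => 1⟩ := hX0
  have hcl : IsClosed ((Aalg D : StarSubalgebra ℂ (Fk D Set.univ →L[ℂ] Fk D Set.univ)) :
      Set (Fk D Set.univ →L[ℂ] Fk D Set.univ)) := StarSubalgebra.isClosed_topologicalClosure _
  -- a letter
  let l0 : Lett D Set.univ := ⟨(0, 0, 0), h0, by
    change 0 < (D ⟨0, h0⟩).1
    rw [hD0]
    exact Nat.one_pos, Set.mem_univ _⟩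
  have hmem : cr l0 ∈ Aalg D :=
    StarSubalgebra.le_topologicalClosure _ (StarAlgebra.subset_adjoin ℂ _ (Or.inl ⟨l0, rfl⟩))
  have hne1 : (1 : Fk D Set.univ →L[ℂ] Fk D Set.univ) ≠ 0 := by
    intro h
    have h1 : (1 : Fk D Set.univ →L[ℂ] Fk D Set.univ) (bas []) = 0 := by rw [h]; rfl
    have h2 := (bas_orthonormal (D := D) (q := Set.univ)).1 []
    rw [show (bas [] : Fk D Set.univ) = 0 from h1, norm_zero] at h2
    exact zero_ne_one h2
  have hpi : ∀ c : Aalg D, c ≠ 0 → ∀ ε : ℝ, 0 < ε →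
      ∃ z : Aalg D, ‖star z * (star c * c) * z - 1‖ < ε := by
    intro c hc ε hε
    obtain ⟨z, hz, hz2⟩ := Aalg_pi D h0 hD0 (c : Fk D Set.univ →L[ℂ] Fk D Set.univ) c.2
      (fun h => hc (Subtype.ext h)) ε hε
    exact ⟨⟨z, hz⟩, hz2⟩
  refine ⟨Aalg D, inferInstance, Aalg_separable D, ?_, ?_, ?_, ?_, hemp⟩
  · exact ⟨⟨0, 1, fun h => hne1 (congrArg Subtype.val h).symm⟩⟩
  · intro I hI
    by_cases h : I = ⊥
    · exact Or.inl h
    · right
      obtain ⟨c, hcI, hc⟩ : ∃ c ∈ I, c ≠ 0 := by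
        by_contra hcon
        push Not at hcon
        apply h
        rw [eq_bot_iff]
        intro x hx
        rw [TwoSidedIdeal.mem_bot]
        exact hcon x hx
      have h1 : (1 : Aalg D) ∈ I := by
        have h2 : (1 : Aalg D) ∈ closure (I : Set (Aalg D)) := by
          rw [Metric.mem_closure_iff]
          intro ε hε
          obtain ⟨z, hz⟩ := hpi c hc ε hε
          refine ⟨star z * (star c * c) * z, ?_, ?_⟩
          · exact I.mul_mem_right _ _ (I.mul_mem_left _ _ (I.mul_mem_left _ _ hcI))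
          · rw [dist_comm, dist_eq_norm]
            exact hz
        rwa [hI.closure_eq] at h2
      rw [eq_top_iff]
      intro x _
      have := I.mul_mem_left x 1 h1
      rwa [mul_one] at this
  · refine ⟨⟨cr l0, hmem⟩, star ⟨cr l0, hmem⟩, ?_⟩
    intro h
    have h1 : cr l0 * star (cr l0) = star (cr l0) * cr l0 := congrArg Subtype.val h
    rw [cr_star_mul_same] at h1
    have h2 : (cr l0 * star (cr l0)) (bas []) = (1 : Fk D Set.univ →L[ℂ] Fk D Set.univ) (bas []) := by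
      rw [h1]
    have h3 : (cr l0 * star (cr l0)) (bas []) = 0 := by
      change cr l0 (star (cr l0) (bas [])) = 0
      rw [cr_star_nil, map_zero]
    rw [h3] at h2
    have h4 := (bas_orthonormal (D := D) (q := Set.univ)).1 []
    rw [show (bas [] : Fk D Set.univ) = 0 from h2.symm, norm_zero] at h4
    exact zero_ne_one h4
  · intro c d hc hd ε hε
    have hdn : 0 < ‖d‖ := norm_pos_iff.2 hd
    obtain ⟨z, hz⟩ := hpi c hc (ε / (‖d‖ ^ 2)) (by positivity)
    refine ⟨z * d, ?_⟩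
    have e1 : star (z * d) * (star c * c) * (z * d) - star d * d =
        star d * (star z * (star c * c) * z - 1) * d := by
      rw [star_mul]
      noncomm_ring
    rw [e1]
    have hst : ‖star d‖ = ‖d‖ := norm_star (d : Fk D Set.univ →L[ℂ] Fk D Set.univ)
    calc _ ≤ ‖star d‖ * ‖star z * (star c * c) * z - 1‖ * ‖d‖ := norm_mul₃_le
      _ < ‖d‖ * (ε / ‖d‖ ^ 2) * ‖d‖ := by
          rw [hst]
          gcongr
      _ = ε := by
          field_simp

end Pool.Agent.C8B

end
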