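import Pool.Agent.Lib.MP_c8b4d4_an.Flat

/-!
# Module SEP of `MP_c8b4d4_an`

Two tuples with a spectral gap in very different dimensions have no near intertwiners.
-/

set_option autoImplicit false

noncomputable section

namespace Pool.Agent.C8B

open scoped InnerProductSpace

namespace Sep

open Matrix
open scoped ComplexOrder MatrixOrder

section Gen

variable {n k : Type*} [Fintype n] [Fintype k]

lemma frob_mul_unitary [DecidableEq k] (v : Matrix k k ℂ) (h : v * vᴴ = 1) (X : Matrix n k ℂ) :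
    frob (X * v) = frob X := by
  rw [← Flat.frob_conjTranspose (X * v), Matrix.conjTranspose_mul, Flat.frob_unitary_mul vᴴ
    (by rw [Matrix.conjTranspose_conjTranspose]; exact h), Flat.frob_conjTranspose]

/-- Young inequality for the trace pairing. -/
lemma trace_young (M L : Matrix n k ℂ) (t : ℝ) (ht : 0 < t) :
    (Matrix.trace (M * Lᴴ)).re ≤ t / 2 * frob M + 1 / (2 * t) * frob L := by
  have h1 : (Matrix.trace (M * Lᴴ)).re = ∑ a, ∑ b, (M a b * star (L a b)).re := by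
    simp only [Matrix.trace, Matrix.diag_apply, Matrix.mul_apply, Matrix.conjTranspose_apply,
      Complex.re_sum]
  rw [h1]
  unfold frob
  rw [Finset.mul_sum, Finset.mul_sum, ← Finset.sum_add_distrib]
  refine Finset.sum_le_sum fun a _ => ?_
  rw [Finset.mul_sum, Finset.mul_sum, ← Finset.sum_add_distrib]
  refine Finset.sum_le_sum fun b _ => ?_
  have h2 : (M a b * star (L a b)).re ≤ ‖M a b‖ * ‖L a b‖ := by
    refine (Complex.re_le_norm _).trans ?_
    rw [norm_mul, norm_star]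
  refine h2.trans ?_
  have h3 : t / 2 * ‖M a b‖ ^ 2 + 1 / (2 * t) * ‖L a b‖ ^ 2 - ‖M a b‖ * ‖L a b‖ =
      1 / (2 * t) * (t * ‖M a b‖ - ‖L a b‖) ^ 2 := by
    field_simp
    ring
  have h4 : 0 ≤ 1 / (2 * t) * (t * ‖M a b‖ - ‖L a b‖) ^ 2 := by positivity
  linarith

end Gen

section One

variable {N N' : ℕ}

/-- One step: the commutator of the absolute value. -/
lemma step (Y : Matrix (Fin N') (Fin N) ℂ) (A X : Matrix (Fin N') (Fin N') ℂ)
    (v : Matrix (Fin N) (Fin N) ℂ) (hX1 : Xᴴ * X = 1) (hX2 : X * Xᴴ = 1) (hv2 : v * vᴴ = 1)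
    (hA : A.PosSemidef) (hAA : A * A = Y * Yᴴ) (t : ℝ) (ht : 0 < t) :
    frob (X * A - A * X) ≤ t * frob Y + 1 / t * frob (X * Y - Y * v) := by
  have hB : (Xᴴ * A * X).PosSemidef := hA.conjTranspose_mul_mul_same X
  obtain ⟨u, hu1, hu2, hu3⟩ := powers_stormer A (Xᴴ * A * X) hA hB
  rw [Matrix.star_eq_conjTranspose] at hu1 hu2
  have e1 : frob (X * A - A * X) = frob (A - Xᴴ * A * X) := by
    have h1 : Xᴴ * (X * A - A * X) = A - Xᴴ * A * X := by
      rw [Matrix.mul_sub, ← Matrix.mul_assoc, hX1, Matrix.one_mul, ← Matrix.mul_assoc]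
    rw [← h1, Flat.frob_unitary_mul Xᴴ (by rw [Matrix.conjTranspose_conjTranspose]; exact hX2)]
  rw [e1]
  refine hu3.trans ?_
  set R : Matrix (Fin N') (Fin N) ℂ := X * Y - Y * v with hR
  have e2 : Xᴴ * A * X * (Xᴴ * A * X) = Xᴴ * (Y * Yᴴ) * X := by
    calc Xᴴ * A * X * (Xᴴ * A * X) = Xᴴ * A * (X * Xᴴ) * A * X := by
          simp only [Matrix.mul_assoc]
      _ = Xᴴ * (A * A) * X := by rw [hX2, Matrix.mul_one]; simp only [Matrix.mul_assoc]
      _ = Xᴴ * (Y * Yᴴ) * X := by rw [hAA]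
  have e3 : A * A - Xᴴ * A * X * (Xᴴ * A * X) =
      Xᴴ * ((X * Y) * Rᴴ + R * (Y * v)ᴴ) * X := by
    have h1 : (X * Y) * Rᴴ + R * (Y * v)ᴴ = X * (Y * Yᴴ) * Xᴴ - Y * Yᴴ := by
      rw [hR, Matrix.conjTranspose_sub, Matrix.conjTranspose_mul, Matrix.conjTranspose_mul,
        Matrix.mul_sub, Matrix.sub_mul]
      have h2 : Y * v * (vᴴ * Yᴴ) = Y * Yᴴ := by
        calc Y * v * (vᴴ * Yᴴ) = Y * (v * vᴴ) * Yᴴ := by simp only [Matrix.mul_assoc]
          _ = Y * Yᴴ := by rw [hv2, Matrix.mul_one]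
      rw [h2]
      simp only [Matrix.mul_assoc]
      abel
    rw [h1, e2, hAA, Matrix.mul_sub, Matrix.sub_mul]
    congr 1
    calc Y * Yᴴ = (Xᴴ * X) * (Y * Yᴴ) * (Xᴴ * X) := by
          rw [hX1, Matrix.one_mul, Matrix.mul_one]
      _ = Xᴴ * (X * (Y * Yᴴ) * Xᴴ) * X := by simp only [Matrix.mul_assoc]
  rw [e3]
  set u' : Matrix (Fin N') (Fin N') ℂ := X * u * Xᴴ with hu'
  have hu'1 : u'ᴴ * u' = 1 := by
    rw [hu', Matrix.conjTranspose_mul, Matrix.conjTranspose_mul, Matrix.conjTranspose_conjTranspose]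
    calc X * (uᴴ * Xᴴ) * (X * u * Xᴴ) = X * (uᴴ * (Xᴴ * X) * u) * Xᴴ := by
          simp only [Matrix.mul_assoc]
      _ = 1 := by rw [hX1, Matrix.mul_one, hu1, Matrix.mul_one, hX2]
  have e4 : Matrix.trace (u * (Xᴴ * ((X * Y) * Rᴴ + R * (Y * v)ᴴ) * X)) =
      Matrix.trace ((u' * (X * Y)) * Rᴴ) + Matrix.trace ((u' * R) * (Y * v)ᴴ) := by
    calc Matrix.trace (u * (Xᴴ * ((X * Y) * Rᴴ + R * (Y * v)ᴴ) * X))
        = Matrix.trace ((u * Xᴴ * ((X * Y) * Rᴴ + R * (Y * v)ᴴ)) * X) := by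
          simp only [Matrix.mul_assoc]
      _ = Matrix.trace (X * (u * Xᴴ * ((X * Y) * Rᴴ + R * (Y * v)ᴴ))) := Matrix.trace_mul_comm _ _
      _ = Matrix.trace (u' * ((X * Y) * Rᴴ + R * (Y * v)ᴴ)) := by
          rw [hu']
          simp only [Matrix.mul_assoc]
      _ = Matrix.trace ((u' * (X * Y)) * Rᴴ) + Matrix.trace ((u' * R) * (Y * v)ᴴ) := by
          rw [Matrix.mul_add, Matrix.trace_add]
          simp only [Matrix.mul_assoc]
  rw [e4, Complex.add_re]
  have h1 := trace_young (u' * (X * Y)) R t ht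
  have h2 := trace_young (u' * R) (Y * v) (1 / t) (by positivity)
  rw [Flat.frob_unitary_mul u' hu'1, Flat.frob_unitary_mul X hX1] at h1
  rw [Flat.frob_unitary_mul u' hu'1, frob_mul_unitary v hv2] at h2
  have e5 : 1 / (2 * (1 / t)) = t / 2 := by field_simp
  have e6 : 1 / t / 2 = 1 / (2 * t) := by field_simp
  rw [e5, e6] at h2
  have e7 : 1 / t * frob R = 1 / (2 * t) * frob R + 1 / (2 * t) * frob R := by
    field_simp
    ring
  rw [e7]
  linarith

lemma trace_FC {n : Type} [Fintype n] [DecidableEq n] {U : Matrix n n ℂ} (hU : Uᴴ * U = 1)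
    (d : n → ℝ) : Matrix.trace (Flat.FC U d) = ((∑ i, d i : ℝ) : ℂ) := by
  unfold Flat.FC
  rw [Matrix.trace_mul_comm, ← Matrix.mul_assoc, hU, Matrix.one_mul, Matrix.trace_diagonal]
  push_cast
  rfl

lemma frob_FC {n : Type} [Fintype n] [DecidableEq n] {U : Matrix n n ℂ} (hU : Uᴴ * U = 1)
    (d : n → ℝ) : frob (Flat.FC U d) = ∑ i, d i ^ 2 := by
  rw [Flat.frob_eq, Flat.FC_star, Flat.FC_mul hU, trace_FC hU, Complex.ofReal_re]
  exact Finset.sum_congr rfl fun i _ => by ring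

/-- The absolute value of `Y` and its distance to the scalars. -/
lemma absval (Y : Matrix (Fin N') (Fin N) ℂ) (h : 2 * N ≤ N') :
    ∃ (A : Matrix (Fin N') (Fin N') ℂ) (τ : ℂ), A.PosSemidef ∧ A * A = Y * Yᴴ ∧
      (A - τ • (1 : Matrix (Fin N') (Fin N') ℂ)).trace = 0 ∧
      frob Y ≤ 2 * frob (A - τ • (1 : Matrix (Fin N') (Fin N') ℂ)) := by
  have hP : (Y * Yᴴ).PosSemidef := Matrix.posSemidef_self_mul_conjTranspose Y
  set U : Matrix (Fin N') (Fin N') ℂ := (hP.1.eigenvectorUnitary : Matrix (Fin N') (Fin N') ℂ)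
    with hUdef
  have hU1 : Uᴴ * U = 1 := by
    have := (hP.1.eigenvectorUnitary).2
    rw [Matrix.mem_unitaryGroup_iff', Matrix.star_eq_conjTranspose] at this
    exact this
  have hU2 : U * Uᴴ = 1 := by
    have := (hP.1.eigenvectorUnitary).2
    rw [Matrix.mem_unitaryGroup_iff, Matrix.star_eq_conjTranspose] at this
    exact this
  set l : Fin N' → ℝ := hP.1.eigenvalues with hl
  have hl0 : ∀ i, 0 ≤ l i := fun i => hP.eigenvalues_nonneg i
  have hspec : Y * Yᴴ = Flat.FC U l := by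
    have := hP.1.spectral_theorem
    rw [Unitary.conjStarAlgAut_apply] at this
    exact this
  set d : Fin N' → ℝ := fun i => Real.sqrt (l i) with hd
  have hdd : ∀ i, d i ^ 2 = l i := fun i => Real.sq_sqrt (hl0 i)
  set A : Matrix (Fin N') (Fin N') ℂ := Flat.FC U d with hA
  have hApsd : A.PosSemidef := Flat.FC_psd U fun i => Real.sqrt_nonneg _
  have hAA : A * A = Y * Yᴴ := by
    rw [hA, Flat.FC_mul hU1, hspec]
    congr 1
    funext i
    rw [← hdd i, pow_two]
  have hfY : frob Y = ∑ i, d i ^ 2 := by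
    rw [Flat.frob_eq', hspec, trace_FC hU1, Complex.ofReal_re]
    exact Finset.sum_congr rfl fun i _ => (hdd i).symm
  -- the rank
  have hrank : (Finset.univ.filter fun i => l i ≠ 0).card ≤ N := by
    have h1 := hP.1.rank_eq_card_non_zero_eigs
    rw [Matrix.rank_self_mul_conjTranspose] at h1
    have h2 := Matrix.rank_le_width Y
    rw [h1, Fintype.card_subtype] at h2
    exact h2
  have hsum : (∑ i, d i) ^ 2 ≤ N * ∑ i, d i ^ 2 := by
    have h1 : ∑ i, d i = ∑ i ∈ Finset.univ.filter (fun i => l i ≠ 0), d i := by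
      rw [Finset.sum_filter]
      refine Finset.sum_congr rfl fun i _ => ?_
      split_ifs with h0
      · rfl
      · have : l i = 0 := not_not.1 h0
        rw [hd]
        simp [this]
    have h2 : ∑ i ∈ Finset.univ.filter (fun i => l i ≠ 0), d i ^ 2 ≤ ∑ i, d i ^ 2 :=
      Finset.sum_le_sum_of_subset_of_nonneg (Finset.filter_subset _ _)
        fun i _ _ => by positivity
    rw [h1]
    refine (sq_sum_le_card_mul_sum_sq).trans ?_
    refine mul_le_mul (by exact_mod_cast hrank) h2 (Finset.sum_nonneg fun i _ => by positivity)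
      (Nat.cast_nonneg _)
  set τ : ℝ := (∑ i, d i) / N' with hτ
  have hone : A - (τ : ℂ) • (1 : Matrix (Fin N') (Fin N') ℂ) = Flat.FC U (fun i => d i - τ) := by
    rw [hA, ← Flat.FC_sub]
    congr 1
    rw [← Flat.FC_one hU2]
    unfold Flat.FC
    rw [← Matrix.smul_mul, ← Matrix.mul_smul]
    congr 2
    ext i j
    simp [Matrix.diagonal_apply, Matrix.one_apply]
  refine ⟨A, (τ : ℂ), hApsd, hAA, ?_, ?_⟩
  · rw [hone, trace_FC hU1]
    rcases Nat.eq_zero_or_pos N' with h0 | h0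
    · subst h0
      simp
    · have h1 : (N' : ℝ) ≠ 0 := by exact_mod_cast h0.ne'
      rw [Finset.sum_sub_distrib, Finset.sum_const, Finset.card_univ, Fintype.card_fin,
        nsmul_eq_mul, hτ, mul_div_cancel₀ _ h1, sub_self, Complex.ofReal_zero]
  · rw [hone, frob_FC hU1, hfY]
    rcases Nat.eq_zero_or_pos N' with h0 | h0
    · subst h0
      simp
    · have h1 : (0 : ℝ) < N' := by exact_mod_cast h0
      have h2 : ∑ i, (d i - τ) ^ 2 = ∑ i, d i ^ 2 - (∑ i, d i) ^ 2 / N' := by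
        have h3 : ∀ i, (d i - τ) ^ 2 = d i ^ 2 - 2 * τ * d i + τ ^ 2 := fun i => by ring
        simp only [h3]
        rw [Finset.sum_add_distrib, Finset.sum_sub_distrib, ← Finset.mul_sum, Finset.sum_const,
          Finset.card_univ, Fintype.card_fin, nsmul_eq_mul, hτ]
        field_simp
        ring
      rw [h2]
      have h4 : (∑ i, d i) ^ 2 / N' ≤ (∑ i, d i ^ 2) / 2 := by
        rw [div_le_div_iff₀ h1 (by norm_num)]
        have h5 : (2 * N : ℝ) ≤ N' := by exact_mod_cast h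
        have h6 : 0 ≤ ∑ i, d i ^ 2 := Finset.sum_nonneg fun i _ => by positivity
        nlinarith
      linarith

lemma one_sided {c : ℝ} (hc : 0 < c) (x : Tup N) (x' : Tup N')
    (hx' : Gap c x') (h : 2 * N ≤ N') (Y : Matrix (Fin N') (Fin N) ℂ) :
    c1 c ^ 2 * frob Y ≤ ∑ i, frob ((x' i : Matrix (Fin N') (Fin N') ℂ) * Y -
      Y * (x i : Matrix (Fin N) (Fin N) ℂ)) := by
  obtain ⟨A, τ, hA, hAA, htr, hfr⟩ := absval Y h
  have h1 := hx' _ htr
  have hfY := Flat.frob_nonneg Y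
  have h2 : ∀ i, frob ((x' i : Matrix (Fin N') (Fin N') ℂ) *
      (A - τ • (1 : Matrix (Fin N') (Fin N') ℂ)) -
      (A - τ • (1 : Matrix (Fin N') (Fin N') ℂ)) * (x' i : Matrix (Fin N') (Fin N') ℂ)) ≤
      c ^ 2 / 32 * frob Y + 1 / (c ^ 2 / 32) * frob ((x' i : Matrix (Fin N') (Fin N') ℂ) * Y -
      Y * (x i : Matrix (Fin N) (Fin N) ℂ)) := by
    intro i
    have e1 : (x' i : Matrix (Fin N') (Fin N') ℂ) *
      (A - τ • (1 : Matrix (Fin N') (Fin N') ℂ)) -
      (A - τ • (1 : Matrix (Fin N') (Fin N') ℂ)) * (x' i : Matrix (Fin N') (Fin N') ℂ) =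
      (x' i : Matrix (Fin N') (Fin N') ℂ) * A - A * (x' i : Matrix (Fin N') (Fin N') ℂ) := by
      rw [Matrix.mul_sub, Matrix.sub_mul, Matrix.mul_smul, Matrix.smul_mul, Matrix.mul_one,
        Matrix.one_mul]
      abel
    rw [e1]
    have hX1 := (Matrix.mem_unitaryGroup_iff').1 (x' i).2
    have hX2 := (Matrix.mem_unitaryGroup_iff).1 (x' i).2
    have hv2 := (Matrix.mem_unitaryGroup_iff).1 (x i).2
    rw [Matrix.star_eq_conjTranspose] at hX1 hX2 hv2
    exact step Y A _ _ hX1 hX2 hv2 hA hAA _ (by positivity)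
  have h3 := h1.trans (Finset.sum_le_sum fun i _ => h2 i)
  rw [Finset.sum_add_distrib, Finset.sum_const, ← Finset.mul_sum, Finset.card_univ] at h3
  have hcard : Fintype.card Ix = 8 := by simp [Ix]
  rw [hcard, nsmul_eq_mul] at h3
  push_cast at h3
  set S := ∑ i, frob ((x' i : Matrix (Fin N') (Fin N') ℂ) * Y -
      Y * (x i : Matrix (Fin N) (Fin N) ℂ)) with hS
  have hc2 : 0 < c ^ 2 := by positivity
  have h4 : c ^ 2 * (frob Y / 2) ≤ c ^ 2 * frob (A - τ • (1 : Matrix (Fin N') (Fin N') ℂ)) :=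
    mul_le_mul_of_nonneg_left (by linarith) hc2.le
  have h5 : c ^ 2 * (frob Y / 4) ≤ 1 / (c ^ 2 / 32) * S := by linarith
  have h6 : 1 / (c ^ 2 / 32) * S = 32 * S / c ^ 2 := by field_simp
  rw [h6, le_div_iff₀ hc2] at h5
  unfold c1
  have h7 : 0 ≤ c ^ 2 * c ^ 2 * frob Y := by positivity
  have h8 : (c ^ 2 / 40) ^ 2 * frob Y = c ^ 2 * c ^ 2 * frob Y / 1600 := by ring
  rw [h8]
  linarith

end One

end Sep

theorem separation {c : ℝ} (hc : 0 < c) (hc1 : c ≤ 1) {N N' : ℕ} (x : Tup N) (x' : Tup N')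
    (hx : Gap c x) (hx' : Gap c x') (h : 2 * N ≤ N' ∨ 2 * N' ≤ N)
    (Y : Matrix (Fin N') (Fin N) ℂ) :
    c1 c ^ 2 * frob Y ≤ ∑ i, frob ((x' i : Matrix (Fin N') (Fin N') ℂ) * Y -
      Y * (x i : Matrix (Fin N) (Fin N) ℂ)) := by
  rcases h with h | h
  · exact Sep.one_sided hc x x' hx' h Y
  · have h1 := Sep.one_sided hc x' x hx h Y.conjTranspose
    rw [Flat.frob_conjTranspose] at h1
    refine h1.trans (le_of_eq (Finset.sum_congr rfl fun i _ => ?_))
    have hX1 := (Matrix.mem_unitaryGroup_iff').1 (x' i).2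
    have hX2 := (Matrix.mem_unitaryGroup_iff).1 (x' i).2
    have hv1 := (Matrix.mem_unitaryGroup_iff').1 (x i).2
    have hv2 := (Matrix.mem_unitaryGroup_iff).1 (x i).2
    rw [Matrix.star_eq_conjTranspose] at hX1 hX2 hv1 hv2
    set X : Matrix (Fin N') (Fin N') ℂ := (x' i : Matrix (Fin N') (Fin N') ℂ) with hX
    set v : Matrix (Fin N) (Fin N) ℂ := (x i : Matrix (Fin N) (Fin N) ℂ) with hv
    rw [← Flat.frob_conjTranspose (v * Y.conjTranspose - Y.conjTranspose * X)]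
    have e1 : X * Y - Y * v = X * ((v * Y.conjTranspose - Y.conjTranspose * X).conjTranspose * v) := by
      rw [Matrix.conjTranspose_sub, Matrix.conjTranspose_mul, Matrix.conjTranspose_mul,
        Matrix.conjTranspose_conjTranspose, Matrix.sub_mul, Matrix.mul_sub]
      congr 1
      · rw [Matrix.mul_assoc, hv1, Matrix.mul_one]
      · calc Y * v = (X * X.conjTranspose) * Y * v := by rw [hX2, Matrix.one_mul]
          _ = X * (X.conjTranspose * Y * v) := by simp only [Matrix.mul_assoc]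
    rw [e1, Flat.frob_unitary_mul X hX1, Sep.frob_mul_unitary v hv2]

end Pool.Agent.C8B

end
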