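import Pool.Agent.Lib.MP_c8b4d4_an.Defs
import Pool.Agent.Lib.MP_c8b4d4_an.AmpB
import Pool.Agent.Lib.MP_c8b4d4_an.Fock
import Pool.Agent.Lib.MP_c8b4d4_an.Block
import Pool.Agent.Lib.MP_c8b4d4_an.Sep

set_option autoImplicit false
set_option linter.unusedVariables false

noncomputable section

namespace Pool.Agent.C8B

open scoped InnerProductSpace

namespace Glob

/-! ### Matrices as vectors -/

section Mat

variable {n m : ℕ}

/-- The operator of a matrix. -/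
def op (M : Matrix (Fin m) (Fin m) ℂ) : EuclideanSpace ℂ (Fin m) →L[ℂ] EuclideanSpace ℂ (Fin m) :=
  Matrix.toEuclideanCLM (n := Fin m) (𝕜 := ℂ) M

theorem op_apply (M : Matrix (Fin m) (Fin m) ℂ) (v : EuclideanSpace ℂ (Fin m)) (b : Fin m) :
    op M v b = ∑ c, M b c * v c := by
  have h : WithLp.ofLp (op M v) = M.mulVec (WithLp.ofLp v) := Matrix.ofLp_toEuclideanCLM M v
  have h2 := congrFun h b
  exact h2

theorem op_one : op (1 : Matrix (Fin m) (Fin m) ℂ) = 1 := map_one _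

theorem op_star (M : Matrix (Fin m) (Fin m) ℂ) : star (op M) = op (star M) :=
  (map_star _ M).symm

/-- The matrix of a vector. -/
def mat (u : Amp n (EuclideanSpace ℂ (Fin m))) : Matrix (Fin m) (Fin n) ℂ := fun b a => u a b

/-- The vector of a matrix. -/
def unmat (Y : Matrix (Fin m) (Fin n) ℂ) : Amp n (EuclideanSpace ℂ (Fin m)) :=
  WithLp.toLp 2 fun a => WithLp.toLp 2 fun b => Y b a

theorem mat_unmat (Y : Matrix (Fin m) (Fin n) ℂ) : mat (unmat Y) = Y := rfl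

theorem unmat_mat (u : Amp n (EuclideanSpace ℂ (Fin m))) : unmat (mat u) = u := rfl

theorem mat_inj {u v : Amp n (EuclideanSpace ℂ (Fin m))} (h : mat u = mat v) : u = v := by
  rw [← unmat_mat u, ← unmat_mat v, h]

theorem mat_sub (u v : Amp n (EuclideanSpace ℂ (Fin m))) : mat (u - v) = mat u - mat v := rfl

theorem mat_add (u v : Amp n (EuclideanSpace ℂ (Fin m))) : mat (u + v) = mat u + mat v := rfl

theorem mat_smul (t : ℂ) (u : Amp n (EuclideanSpace ℂ (Fin m))) : mat (t • u) = t • mat u := rfl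

theorem mat_sum {ι : Type*} (s : Finset ι) (u : ι → Amp n (EuclideanSpace ℂ (Fin m))) :
    mat (∑ i ∈ s, u i) = ∑ i ∈ s, mat (u i) := by
  classical
  induction s using Finset.induction_on with
  | empty => rfl
  | insert a s ha ih => rw [Finset.sum_insert ha, Finset.sum_insert ha, mat_add, ih]

theorem norm_sq_eq (u : Amp n (EuclideanSpace ℂ (Fin m))) : ‖u‖ ^ 2 = frob (mat u) := by
  rw [PiLp.norm_sq_eq_of_L2, frob, Finset.sum_comm]
  apply Finset.sum_congr rfl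
  intro a _
  rw [EuclideanSpace.norm_sq_eq]
  rfl

theorem mat_amp (A : Matrix (Fin n) (Fin n) ℂ) (M : Matrix (Fin m) (Fin m) ℂ)
    (u : Amp n (EuclideanSpace ℂ (Fin m))) :
    mat (amp A (op M) u) = M * mat u * A.transpose := by
  ext b a
  have h1 : mat (amp A (op M) u) b a = (amp A (op M) u a) b := rfl
  rw [h1, amp_apply, Matrix.mul_apply]
  rw [WithLp.ofLp_sum, Finset.sum_apply]
  apply Finset.sum_congr rfl
  intro d _
  have h2 : (A a d • op M (u d)) b = A a d * op M (u d) b := rfl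
  rw [h2, op_apply, Matrix.mul_apply, Matrix.transpose_apply, mul_comm]
  rfl

theorem frob_eq_trace {k l : ℕ} (Y : Matrix (Fin k) (Fin l) ℂ) :
    (frob Y : ℂ) = (Y.conjTranspose * Y).trace := by
  rw [frob, Matrix.trace, Finset.sum_comm]
  push_cast
  apply Finset.sum_congr rfl
  intro a _
  rw [Matrix.diag_apply, Matrix.mul_apply]
  apply Finset.sum_congr rfl
  intro b _
  rw [Matrix.conjTranspose_apply, Complex.star_def, ← Complex.normSq_eq_conj_mul_self,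
    Complex.normSq_eq_norm_sq]
  push_cast
  rfl

theorem frob_unitary (U : UN m) (Y : Matrix (Fin m) (Fin n) ℂ) :
    frob ((U : Matrix (Fin m) (Fin m) ℂ) * Y) = frob Y := by
  have h : (frob ((U : Matrix (Fin m) (Fin m) ℂ) * Y) : ℂ) = frob Y := by
    rw [frob_eq_trace, frob_eq_trace, Matrix.conjTranspose_mul, Matrix.mul_assoc,
      ← Matrix.mul_assoc (Matrix.conjTranspose (U : Matrix (Fin m) (Fin m) ℂ))]
    have h1 : Matrix.conjTranspose (U : Matrix (Fin m) (Fin m) ℂ) * U = 1 :=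
      Matrix.mem_unitaryGroup_iff'.1 U.2
    rw [h1, Matrix.one_mul]
  exact_mod_cast h

/-- The block operator. -/
def Tb (y : Tup n) (x' : Tup m) : Amp n (EuclideanSpace ℂ (Fin m)) →L[ℂ]
    Amp n (EuclideanSpace ℂ (Fin m)) :=
  Del (trT y) (fun i => op (x' i : Matrix (Fin m) (Fin m) ℂ))

theorem form_eq (y : Tup n) (x' : Tup m) (u : Amp n (EuclideanSpace ℂ (Fin m))) :
    (⟪Tb y x' u, u⟫_ℂ).re = ∑ i, frob ((x' i : Matrix (Fin m) (Fin m) ℂ) * mat u -
      mat u * (y i : Matrix (Fin n) (Fin n) ℂ)) := by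
  rw [Tb, del_quad]
  apply Finset.sum_congr rfl
  intro i _
  have h1 : mat (amp 1 (op (x' i : Matrix (Fin m) (Fin m) ℂ)) u) =
      (x' i : Matrix (Fin m) (Fin m) ℂ) * mat u := by
    rw [mat_amp, Matrix.transpose_one, Matrix.mul_one]
  have h2 : mat (amp (trT y i : Matrix (Fin n) (Fin n) ℂ) 1 u) =
      mat u * (y i : Matrix (Fin n) (Fin n) ℂ) := by
    rw [← op_one, mat_amp, Matrix.one_mul]
    rfl
  rw [norm_sq_eq, norm_sq_eq, norm_sq_eq, mat_sub, h1, h2, frob_unitary]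
  ring

theorem T_unmat_one (y : Tup n) : Tb y y (unmat 1) = 0 := by
  apply mat_inj
  have h0 : mat (0 : Amp n (EuclideanSpace ℂ (Fin n))) = 0 := rfl
  rw [h0, Tb, Del]
  have h1 : ((16 : ℂ) • (1 : Amp n (EuclideanSpace ℂ (Fin n)) →L[ℂ] Amp n (EuclideanSpace ℂ (Fin n))) -
      ∑ i, (amp (star (trT y i : Matrix (Fin n) (Fin n) ℂ)) (op (y i : Matrix (Fin n) (Fin n) ℂ)) +
      amp (trT y i : Matrix (Fin n) (Fin n) ℂ) (star (op (y i : Matrix (Fin n) (Fin n) ℂ)))))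
      (unmat 1) = (16 : ℂ) • unmat 1 -
      ∑ i, (amp (star (trT y i : Matrix (Fin n) (Fin n) ℂ)) (op (y i : Matrix (Fin n) (Fin n) ℂ))
        (unmat 1) +
      amp (trT y i : Matrix (Fin n) (Fin n) ℂ) (star (op (y i : Matrix (Fin n) (Fin n) ℂ)))
        (unmat 1)) := by
    simp only [sub_apply, smul_apply, one_apply_eq_self, sum_apply, add_apply]
  rw [h1, mat_sub, mat_smul, mat_sum, mat_unmat]
  have h2 : ∀ i : Ix, mat (amp (star (trT y i : Matrix (Fin n) (Fin n) ℂ))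
      (op (y i : Matrix (Fin n) (Fin n) ℂ)) (unmat 1) +
      amp (trT y i : Matrix (Fin n) (Fin n) ℂ) (star (op (y i : Matrix (Fin n) (Fin n) ℂ)))
        (unmat 1)) = (2 : ℂ) • 1 := by
    intro i
    rw [mat_add, op_star, mat_amp, mat_amp, mat_unmat, Matrix.mul_one, Matrix.mul_one]
    have h3 : (star (trT y i : Matrix (Fin n) (Fin n) ℂ)).transpose =
        star (y i : Matrix (Fin n) (Fin n) ℂ) := by
      ext a b
      rfl
    have h4 : (trT y i : Matrix (Fin n) (Fin n) ℂ).transpose = (y i : Matrix (Fin n) (Fin n) ℂ) := by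
      ext a b
      rfl
    have h5 : (y i : Matrix (Fin n) (Fin n) ℂ) * star (y i : Matrix (Fin n) (Fin n) ℂ) = 1 :=
      Matrix.mem_unitaryGroup_iff.1 (y i).2
    have h6 : star (y i : Matrix (Fin n) (Fin n) ℂ) * (y i : Matrix (Fin n) (Fin n) ℂ) = 1 :=
      Matrix.mem_unitaryGroup_iff'.1 (y i).2
    rw [h3, h4, h5, h6, two_smul]
  rw [Finset.sum_congr rfl (fun i _ => h2 i), Finset.sum_const, Finset.card_univ]
  have h7 : Fintype.card Ix = 8 := by simp [Ix]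
  rw [h7, ← Nat.cast_smul_eq_nsmul ℂ, smul_smul, ← sub_smul]
  norm_num

/-- `T ≥ k` implies `T² ≥ k T`. -/
theorem sq_of_lower {V : Type*} [NormedAddCommGroup V] [InnerProductSpace ℂ V] (a u : V) {k : ℝ}
    (hk : 0 ≤ k) (h : k * ‖u‖ ^ 2 ≤ (⟪a, u⟫_ℂ).re) : k * (⟪a, u⟫_ℂ).re ≤ ‖a‖ ^ 2 := by
  have h1 : ‖a - (k : ℂ) • u‖ ^ 2 = ‖a‖ ^ 2 - 2 * (k * (⟪a, u⟫_ℂ).re) + k ^ 2 * ‖u‖ ^ 2 := by
    rw [@norm_sub_sq ℂ, inner_smul_right, norm_smul, Complex.norm_real, mul_pow, Real.norm_eq_abs,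
      sq_abs]
    congr 3
    simp
  have h2 := sq_nonneg ‖a - (k : ℂ) • u‖
  rw [h1] at h2
  nlinarith [mul_le_mul_of_nonneg_left h hk]

theorem c1_le {c : ℝ} (hc : 0 < c) (hc1 : c ≤ 1) : c1 c ^ 2 ≤ c ^ 2 := by
  have h1 : c1 c ≤ c := by
    rw [c1]
    nlinarith
  have h2 : 0 ≤ c1 c := by
    rw [c1]
    positivity
  exact pow_le_pow_left₀ h2 h1 2

theorem frob_nonneg {k l : ℕ} (Y : Matrix (Fin k) (Fin l) ℂ) : 0 ≤ frob Y :=
  Finset.sum_nonneg fun _ _ => Finset.sum_nonneg fun _ _ => sq_nonneg _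

/-- Case of different sizes. -/
theorem lower_ne {c : ℝ} (hc : 0 < c) (hc1 : c ≤ 1) (y : Tup n) (x' : Tup m) (hy : Gap c y)
    (hx' : Gap c x') (h : 2 * n ≤ m ∨ 2 * m ≤ n) (u : Amp n (EuclideanSpace ℂ (Fin m))) :
    c1 c ^ 2 * ‖u‖ ^ 2 ≤ (⟪Tb y x' u, u⟫_ℂ).re := by
  rw [form_eq, norm_sq_eq]
  exact separation hc hc1 y x' hy hx' h (mat u)

/-- Case of equal data. -/
theorem dich_eq {c : ℝ} (hc : 0 < c) (hc1 : c ≤ 1) (y : Tup n) (hy : Gap c y)
    (u : Amp n (EuclideanSpace ℂ (Fin n))) :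
    c1 c ^ 2 * (⟪Tb y y u, u⟫_ℂ).re ≤ ‖Tb y y u‖ ^ 2 := by
  rcases Nat.eq_zero_or_pos n with hn | hn
  · subst hn
    have : u = 0 := by
      apply mat_inj
      ext b a
      exact b.elim0
    rw [this]
    simp
  set t : ℂ := (mat u).trace / n with ht
  set u0 := u - t • unmat 1 with hu0
  have htr : (mat u0).trace = 0 := by
    rw [hu0, mat_sub, mat_smul, mat_unmat, Matrix.trace_sub, Matrix.trace_smul, Matrix.trace_one,
      Fintype.card_fin, ht, smul_eq_mul]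
    have : (n : ℂ) ≠ 0 := by exact_mod_cast hn.ne'
    field_simp
    ring
  have hT : Tb y y u = Tb y y u0 := by
    rw [hu0, map_sub, map_smul, T_unmat_one, smul_zero, sub_zero]
  have hsa : star (Tb y y) = Tb y y := del_selfAdjoint _ _
  have horth : ⟪Tb y y u0, unmat (1 : Matrix (Fin n) (Fin n) ℂ)⟫_ℂ = 0 := by
    rw [← hsa, ContinuousLinearMap.star_eq_adjoint, ContinuousLinearMap.adjoint_inner_left,
      T_unmat_one, inner_zero_right]
  have hin : ⟪Tb y y u, u⟫_ℂ = ⟪Tb y y u0, u0⟫_ℂ := by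
    rw [hT]
    have : u = u0 + t • unmat 1 := by rw [hu0]; abel
    conv_lhs => rw [this, inner_add_right, inner_smul_right, horth, mul_zero, add_zero]
  rw [hin, hT]
  apply sq_of_lower _ _ (sq_nonneg _)
  rw [form_eq, norm_sq_eq]
  calc c1 c ^ 2 * frob (mat u0) ≤ c ^ 2 * frob (mat u0) :=
        mul_le_mul_of_nonneg_right (c1_le hc hc1) (frob_nonneg _)
    _ ≤ _ := hy (mat u0) htr

end Mat

/-! ### Isometries given by words -/

section Emb

variable {ω : Set ℕ} {D : ω → Dat} {q : Set ℕ} {m : ℕ}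

/-- The isometry `e_a ↦ bas (w a)`. -/
def Vw (w : Fin m → List (Lett D q)) (hw : Function.Injective w) :
    EuclideanSpace ℂ (Fin m) →ₗᵢ[ℂ] Fk D q :=
  ((EuclideanSpace.basisFun (Fin m) ℂ).toBasis.constr ℂ
    (fun a => bas (w a))).isometryOfOrthonormal
    (v := (EuclideanSpace.basisFun (Fin m) ℂ).toBasis)
    (by simp)
    (by
      have h : (((EuclideanSpace.basisFun (Fin m) ℂ).toBasis.constr ℂ
          (fun a => (bas (w a) : Fk D q))) ∘ (EuclideanSpace.basisFun (Fin m) ℂ).toBasis) =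
          bas ∘ w := by
        funext a
        simp only [Function.comp_apply, Module.Basis.constr_basis]
      rw [h]
      exact bas_orthonormal.comp w hw)

theorem Vw_apply (w : Fin m → List (Lett D q)) (hw : Function.Injective w)
    (u : EuclideanSpace ℂ (Fin m)) : Vw w hw u = ∑ a, u a • (bas (w a) : Fk D q) := by
  have h : Vw w hw u = (EuclideanSpace.basisFun (Fin m) ℂ).toBasis.constr ℂ
    (fun a => (bas (w a) : Fk D q)) u := rfl
  rw [h, Module.Basis.constr_apply_fintype]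
  apply Finset.sum_congr rfl
  intro a _
  congr 1

theorem Vw_intertwine (w : Fin m → List (Lett D q)) (hw : Function.Injective w)
    (S : Fk D q →L[ℂ] Fk D q) (M : Matrix (Fin m) (Fin m) ℂ)
    (h : ∀ a, S (bas (w a)) = ∑ b, M b a • (bas (w b) : Fk D q)) (u : EuclideanSpace ℂ (Fin m)) :
    S (Vw w hw u) = Vw w hw (op M u) := by
  rw [Vw_apply, Vw_apply, map_sum]
  have h1 : ∀ a, S (u a • (bas (w a) : Fk D q)) = ∑ b, (M b a * u a) • (bas (w b) : Fk D q) := by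
    intro a
    rw [map_smul, h, Finset.smul_sum]
    apply Finset.sum_congr rfl
    intro b _
    rw [smul_smul, mul_comm]
  rw [Finset.sum_congr rfl (fun a _ => h1 a), Finset.sum_comm]
  apply Finset.sum_congr rfl
  intro b _
  rw [op_apply, Finset.sum_smul]

theorem Vw_orth {m' : ℕ} (w : Fin m → List (Lett D q)) (hw : Function.Injective w)
    (w' : Fin m' → List (Lett D q)) (hw' : Function.Injective w') (h : ∀ a b, w a ≠ w' b)
    (u : EuclideanSpace ℂ (Fin m)) (v : EuclideanSpace ℂ (Fin m')) :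
    ⟪Vw w hw u, Vw w' hw' v⟫_ℂ = 0 := by
  rw [Vw_apply, Vw_apply, sum_inner]
  apply Finset.sum_eq_zero
  intro a _
  rw [inner_sum]
  apply Finset.sum_eq_zero
  intro b _
  rw [inner_smul_left, inner_smul_right, bas_orthonormal.2 (h a b)]
  simp

theorem bas_mem_range (w : Fin m → List (Lett D q)) (hw : Function.Injective w) (a : Fin m) :
    bas (w a) ∈ LinearMap.range (Vw w hw).toLinearMap := by
  refine ⟨EuclideanSpace.basisFun (Fin m) ℂ a, ?_⟩
  change Vw w hw (EuclideanSpace.basisFun (Fin m) ℂ a) = _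
  rw [Vw_apply, Finset.sum_eq_single a]
  · simp
  · intro b _ hb
    simp [hb]
  · intro h
    exact absurd (Finset.mem_univ a) h

end Emb

section Blocks

variable (X : ℕ → Dat) (ω : Set ℕ)

/-- Letters by level, index and copy. -/
def mkL (j : ω) (a : Fin (X j).1) (q : ℕ) : Lett (Xr X ω) Set.univ :=
  ⟨((j : ℕ), (a : ℕ), q), j.2, a.2, trivial⟩

/-- Index set of the blocks. -/
abbrev Bl : Type := Option (ω × ℕ × List (Lett (Xr X ω) Set.univ))

variable {X ω}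

/-- Level of a block. -/
def lev : Bl X ω → ℕ
  | none => 0
  | some r => r.1

/-- The words of a block. -/
def wd : (r : Bl X ω) → Fin (X (lev r)).1 → List (Lett (Xr X ω) Set.univ)
  | none => fun _ => []
  | some r => fun a => mkL X ω r.1 a r.2.1 :: r.2.2

theorem mkL_inj {j j' : ω} {a : Fin (X j).1} {a' : Fin (X j').1} {q q' : ℕ}
    (h : mkL X ω j a q = mkL X ω j' a' q') : j = j' ∧ (a : ℕ) = a' ∧ q = q' := by
  have h1 := congrArg Subtype.val h
  simp only [mkL, Prod.mk.injEq] at h1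
  exact ⟨Subtype.ext h1.1, h1.2.1, h1.2.2⟩

theorem exists_mkL (l : Lett (Xr X ω) Set.univ) : ∃ (j : ω) (a : Fin (X j).1) (q : ℕ),
    l = mkL X ω j a q := by
  obtain ⟨h, h2, -⟩ := l.2
  exact ⟨⟨l.1.1, h⟩, ⟨l.1.2.1, h2⟩, l.1.2.2, rfl⟩

theorem wd_inj (hX : (X 0).1 = 1) (r : Bl X ω) : Function.Injective (wd r) := by
  cases r with
  | none =>
    intro a b _
    apply Fin.ext
    have h1 := a.2
    have h2 := b.2
    have h3 : (X (lev (none : Bl X ω))).1 = 1 := hX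
    omega
  | some r =>
    intro a b h
    have h1 := (List.cons.inj h).1
    exact Fin.ext (mkL_inj h1).2.1

theorem wd_ne {r r' : Bl X ω} (h : r ≠ r') (a : Fin (X (lev r)).1) (b : Fin (X (lev r')).1) :
    wd r a ≠ wd r' b := by
  intro he
  cases r with
  | none =>
    cases r' with
    | none => exact h rfl
    | some r' => exact List.cons_ne_nil _ _ he.symm
  | some r =>
    cases r' with
    | none => exact List.cons_ne_nil _ _ he
    | some r' =>
      have h1 := List.cons.inj he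
      have h2 := mkL_inj h1.1
      apply h
      obtain ⟨r1, r2, r3⟩ := r
      obtain ⟨r1', r2', r3'⟩ := r'
      simp only at h1 h2
      rw [h2.1, h2.2.2, h1.2]

theorem wd_surj (hX : (X 0).1 = 1) (γ : List (Lett (Xr X ω) Set.univ)) :
    ∃ (r : Bl X ω) (a : Fin (X (lev r)).1), wd r a = γ := by
  cases γ with
  | nil => exact ⟨none, ⟨0, by change 0 < (X 0).1; omega⟩, rfl⟩
  | cons l γ =>
    obtain ⟨j, a, q, rfl⟩ := exists_mkL l
    exact ⟨some (j, q, γ), a, rfl⟩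

theorem none_aux {E : Type*} [AddCommGroup E] [Module ℂ E] {m : ℕ} {v : E}
    (M : Matrix (Fin m) (Fin m) ℂ) (hM : M = 1) (a : Fin m) : v = ∑ b, M b a • v := by
  rw [Finset.sum_eq_single a, hM, Matrix.one_apply_eq, one_smul]
  · intro b _ hb
    rw [hM, Matrix.one_apply_ne hb, zero_smul]
  · intro h
    exact absurd (Finset.mem_univ a) h

theorem xop_wd (hX0 : X 0 = ⟨1, fun _ => 1⟩) (i : Ix) (r : Bl X ω) (a : Fin (X (lev r)).1) :
    xop (Xr X ω) Set.univ i (bas (wd r a)) =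
      ∑ b, ((X (lev r)).2 i : Matrix (Fin (X (lev r)).1) (Fin (X (lev r)).1) ℂ) b a •
        (bas (wd r b) : Fk (Xr X ω) Set.univ) := by
  cases r with
  | none =>
    have h1 : ((X 0).2 i : Matrix (Fin (X 0).1) (Fin (X 0).1) ℂ) = 1 := by
      rw [hX0]; rfl
    have h3 : xop (Xr X ω) Set.univ i (bas (wd (none : Bl X ω) a)) = bas [] := by
      change xop (Xr X ω) Set.univ i (bas []) = bas []
      rw [xop_bas]
      rfl
    rw [h3]
    exact none_aux _ h1 a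
  | some r =>
    rw [xop_bas]
    rfl

theorem xop_star_wd (hX0 : X 0 = ⟨1, fun _ => 1⟩) (i : Ix) (r : Bl X ω)
    (a : Fin (X (lev r)).1) :
    star (xop (Xr X ω) Set.univ i) (bas (wd r a)) =
      ∑ b, (star ((X (lev r)).2 i : Matrix (Fin (X (lev r)).1) (Fin (X (lev r)).1) ℂ)) b a •
        (bas (wd r b) : Fk (Xr X ω) Set.univ) := by
  cases r with
  | none =>
    have h1 : ((X 0).2 i : Matrix (Fin (X 0).1) (Fin (X 0).1) ℂ) = 1 := by
      rw [hX0]; rfl
    have h3 : star (xop (Xr X ω) Set.univ i) (bas (wd (none : Bl X ω) a)) = bas [] :=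
      xop_star_nil i
    rw [h3]
    exact none_aux _ (show star ((X 0).2 i : Matrix (Fin (X 0).1) (Fin (X 0).1) ℂ) = 1 by
      rw [h1, star_one]) a
  | some r =>
    change star (xop (Xr X ω) Set.univ i) (bas (mkL X ω r.1 a r.2.1 :: r.2.2)) = _
    rw [xop_star_cons]
    rfl

/-- The isometry of a block. -/
def Vb (hX : (X 0).1 = 1) (r : Bl X ω) :
    EuclideanSpace ℂ (Fin (X (lev r)).1) →ₗᵢ[ℂ] Fk (Xr X ω) Set.univ :=
  Vw (wd r) (wd_inj hX r)

theorem Vb_xop (hX : (X 0).1 = 1) (hX0 : X 0 = ⟨1, fun _ => 1⟩) (r : Bl X ω) (i : Ix)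
    (u : EuclideanSpace ℂ (Fin (X (lev r)).1)) :
    xop (Xr X ω) Set.univ i (Vb hX r u) = Vb hX r (op ((X (lev r)).2 i :
      Matrix (Fin (X (lev r)).1) (Fin (X (lev r)).1) ℂ) u) :=
  Vw_intertwine _ _ _ _ (fun a => xop_wd hX0 i r a) u

theorem Vb_xop_star (hX : (X 0).1 = 1) (hX0 : X 0 = ⟨1, fun _ => 1⟩) (r : Bl X ω) (i : Ix)
    (u : EuclideanSpace ℂ (Fin (X (lev r)).1)) :
    star (xop (Xr X ω) Set.univ i) (Vb hX r u) = Vb hX r (star (op ((X (lev r)).2 i :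
      Matrix (Fin (X (lev r)).1) (Fin (X (lev r)).1) ℂ)) u) := by
  rw [op_star]
  exact Vw_intertwine _ _ _ _ (fun a => xop_star_wd hX0 i r a) u

theorem block_form (hX0 : X 0 = ⟨1, fun _ => 1⟩) {n : ℕ} (y : Tup n) (α β κ : ℝ)
    (hq : ∀ r : Bl X ω, ∀ u : Amp n (EuclideanSpace ℂ (Fin (X (lev r)).1)),
      0 ≤ α * ‖u‖ ^ 2 + β * (⟪Tb y (X (lev r)).2 u, u⟫_ℂ).re + κ * ‖Tb y (X (lev r)).2 u‖ ^ 2)
    (ξ : Amp n (Fk (Xr X ω) Set.univ)) :
    0 ≤ α * ‖ξ‖ ^ 2 + β * (⟪Del (trT y) (xop (Xr X ω) Set.univ) ξ, ξ⟫_ℂ).re +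
      κ * ‖Del (trT y) (xop (Xr X ω) Set.univ) ξ‖ ^ 2 := by
  have hX : (X 0).1 = 1 := by rw [hX0]
  refine block_del (fun r : Bl X ω => EuclideanSpace ℂ (Fin (X (lev r)).1)) (Vb hX) ?_ ?_
    (xop (Xr X ω) Set.univ) (fun r i => op ((X (lev r)).2 i :
      Matrix (Fin (X (lev r)).1) (Fin (X (lev r)).1) ℂ)) (fun r i u => Vb_xop hX hX0 r i u)
    (fun r i u => Vb_xop_star hX hX0 r i u) (trT y) α β κ hq ξ
  · intro r r' h u v
    exact Vw_orth _ _ _ _ (wd_ne h) u v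
  · rw [eq_top_iff, ← bas_span_dense]
    apply Submodule.topologicalClosure_mono
    rw [Submodule.span_le]
    rintro _ ⟨γ, rfl⟩
    obtain ⟨r, a, rfl⟩ := wd_surj hX γ
    exact Submodule.mem_iSup_of_mem r (bas_mem_range _ _ a)

end Blocks

end Glob

open Glob

theorem glob_mem {c : ℝ} (hc : 0 < c) (hc1 : c ≤ 1) (X : ℕ → Dat) (ω : Set ℕ) (h0 : 0 ∈ ω)
    (hX0 : X 0 = ⟨1, fun _ => 1⟩) (hgap : ∀ j, Gap c (X j).2)
    (hgrow : ∀ i j, i < j → 2 * (X i).1 ≤ (X j).1) (j : ℕ) (hj : j ∈ ω) :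
    (∃ ξ : Amp (X j).1 (Fk (Xr X ω) Set.univ), ξ ≠ 0 ∧
      Del (trT (X j).2) (xop (Xr X ω) Set.univ) ξ = 0) ∧
    ∀ ξ : Amp (X j).1 (Fk (Xr X ω) Set.univ),
      c1 c ^ 2 * (⟪Del (trT (X j).2) (xop (Xr X ω) Set.univ) ξ, ξ⟫_ℂ).re ≤
        ‖Del (trT (X j).2) (xop (Xr X ω) Set.univ) ξ‖ ^ 2 := by
  have hX : (X 0).1 = 1 := by rw [hX0]
  constructor
  · obtain ⟨V, hV1, hV2⟩ : ∃ V : EuclideanSpace ℂ (Fin (X j).1) →ₗᵢ[ℂ] Fk (Xr X ω) Set.univ,
        (∀ i u, xop (Xr X ω) Set.univ i (V u) = V (op ((X j).2 i :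
          Matrix (Fin (X j).1) (Fin (X j).1) ℂ) u)) ∧
        (∀ i u, star (xop (Xr X ω) Set.univ i) (V u) = V (star (op ((X j).2 i :
          Matrix (Fin (X j).1) (Fin (X j).1) ℂ)) u)) :=
      ⟨Vb hX (some (⟨j, hj⟩, 0, []) : Bl X ω),
        fun i u => Vb_xop hX hX0 (some (⟨j, hj⟩, 0, []) : Bl X ω) i u,
        fun i u => Vb_xop_star hX hX0 (some (⟨j, hj⟩, 0, []) : Bl X ω) i u⟩
    refine ⟨ampIso (X j).1 V (unmat (1 : Matrix (Fin (X j).1) (Fin (X j).1) ℂ)), ?_, ?_⟩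
    · intro h
      have h1 : unmat (1 : Matrix (Fin (X j).1) (Fin (X j).1) ℂ) = 0 := by
        apply (ampIso (X j).1 V).injective
        rw [h, map_zero]
      have hpos : 0 < (X j).1 := by
        rcases Nat.eq_zero_or_pos j with hj0 | hj0
        · rw [hj0, hX]; exact one_pos
        · have := hgrow 0 j hj0
          omega
      have h2 := congrArg mat h1
      have h3 := congrFun (congrFun h2 ⟨0, hpos⟩) ⟨0, hpos⟩
      rw [mat_unmat, Matrix.one_apply_eq] at h3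
      exact one_ne_zero h3
    · rw [del_ampIso V (xop (Xr X ω) Set.univ) (fun i => op ((X j).2 i :
        Matrix (Fin (X j).1) (Fin (X j).1) ℂ)) hV1 hV2]
      have h1 := T_unmat_one (X j).2
      rw [Tb] at h1
      rw [h1, map_zero]
  · intro ξ
    have h := block_form (ω := ω) hX0 (X j).2 0 (-(c1 c ^ 2)) 1 (fun r u => ?_) ξ
    · linarith
    have key : c1 c ^ 2 * (⟪Tb (X j).2 (X (lev r)).2 u, u⟫_ℂ).re ≤
        ‖Tb (X j).2 (X (lev r)).2 u‖ ^ 2 := by
      rcases lt_trichotomy (lev r) j with hlt | heq | hgt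
      · exact sq_of_lower _ _ (sq_nonneg _) (lower_ne hc hc1 _ _ (hgap _) (hgap _)
          (Or.inr (hgrow _ _ hlt)) u)
      · revert u
        rw [heq]
        intro u
        exact dich_eq hc hc1 _ (hgap _) u
      · exact sq_of_lower _ _ (sq_nonneg _) (lower_ne hc hc1 _ _ (hgap _) (hgap _)
          (Or.inl (hgrow _ _ hgt)) u)
    linarith

theorem glob_not_mem {c : ℝ} (hc : 0 < c) (hc1 : c ≤ 1) (X : ℕ → Dat) (ω : Set ℕ) (h0 : 0 ∈ ω)
    (hX0 : X 0 = ⟨1, fun _ => 1⟩) (hgap : ∀ j, Gap c (X j).2)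
    (hgrow : ∀ i j, i < j → 2 * (X i).1 ≤ (X j).1) (j : ℕ) (hj : j ∉ ω)
    (ξ : Amp (X j).1 (Fk (Xr X ω) Set.univ)) :
    c1 c ^ 2 * ‖ξ‖ ^ 2 ≤ (⟪Del (trT (X j).2) (xop (Xr X ω) Set.univ) ξ, ξ⟫_ℂ).re := by
  have h := block_form (ω := ω) hX0 (X j).2 (-(c1 c ^ 2)) 1 0 (fun r u => ?_) ξ
  · linarith
  have hne : lev r ≠ j := by
    cases r with
    | none =>
      intro h
      have h' : (0 : ℕ) = j := h
      rw [← h'] at hj
      exact hj h0
    | some r =>
      intro h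
      have h' : (r.1 : ℕ) = j := h
      rw [← h'] at hj
      exact hj r.1.2
  have key : c1 c ^ 2 * ‖u‖ ^ 2 ≤ (⟪Tb (X j).2 (X (lev r)).2 u, u⟫_ℂ).re := by
    rcases lt_or_gt_of_ne hne with hlt | hgt
    · exact lower_ne hc hc1 _ _ (hgap _) (hgap _) (Or.inr (hgrow _ _ hlt)) u
    · exact lower_ne hc hc1 _ _ (hgap _) (hgap _) (Or.inl (hgrow _ _ hgt)) u
  linarith

end Pool.Agent.C8B

end
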