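import Pool.Agent.Lib.MP_c8b4d4_an.Defs
import Pool.Agent.Lib.MP_c8b4d4_an.AmpB
import Pool.Agent.Lib.MP_c8b4d4_an.Fock
import Pool.Agent.Lib.MP_c8b4d4_an.Block

/-!
Module LOC for `MP_c8b4d4_an`: restriction of the big Fock space to finitely many letters.
-/

set_option autoImplicit false

noncomputable section

namespace Pool.Agent.C8B

open scoped InnerProductSpace

namespace Loc

open Fock

/-! ### Intertwining -/

section Inter

variable {A H : Type} [NormedAddCommGroup A] [InnerProductSpace ℂ A] [CompleteSpace A]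
  [NormedAddCommGroup H] [InnerProductSpace ℂ H] [CompleteSpace H]

/-- `V` intertwines `T'` and `T`, and their adjoints. -/
def Int (V : A →ₗᵢ[ℂ] H) (T : H →L[ℂ] H) (T' : A →L[ℂ] A) : Prop :=
  (∀ u, T (V u) = V (T' u)) ∧ (∀ u, star T (V u) = V (star T' u))

theorem Int.star {V : A →ₗᵢ[ℂ] H} {T : H →L[ℂ] H} {T' : A →L[ℂ] A} (h : Int V T T') :
    Int V (star T) (star T') := by
  refine ⟨h.2, ?_⟩
  rw [star_star, star_star]
  exact h.1

theorem Int.add {V : A →ₗᵢ[ℂ] H} {T S : H →L[ℂ] H} {T' S' : A →L[ℂ] A} (h : Int V T T')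
    (h2 : Int V S S') : Int V (T + S) (T' + S') := by
  constructor
  · intro u
    rw [add_apply, add_apply, map_add, h.1, h2.1]
  · intro u
    rw [star_add, star_add, add_apply, add_apply, map_add, h.2, h2.2]

theorem Int.mul {V : A →ₗᵢ[ℂ] H} {T S : H →L[ℂ] H} {T' S' : A →L[ℂ] A} (h : Int V T T')
    (h2 : Int V S S') : Int V (T * S) (T' * S') := by
  constructor
  · intro u
    rw [mul_apply_eq_comp, mul_apply_eq_comp, h2.1, h.1]
  · intro u
    rw [star_mul, star_mul, mul_apply_eq_comp, mul_apply_eq_comp, h.2, h2.2]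

theorem Int.const {V : A →ₗᵢ[ℂ] H} (z : ℂ) : Int V (algebraMap ℂ (H →L[ℂ] H) z)
    (algebraMap ℂ (A →L[ℂ] A) z) := by
  have h1 : ∀ z : ℂ, ∀ u, (algebraMap ℂ (H →L[ℂ] H) z) (V u) =
      V ((algebraMap ℂ (A →L[ℂ] A) z) u) := by
    intro z u
    rw [Algebra.algebraMap_eq_smul_one, Algebra.algebraMap_eq_smul_one, smul_apply,
      smul_apply, one_apply_eq_self, one_apply_eq_self, map_smul]
  refine ⟨h1 z, ?_⟩
  rw [← algebraMap_star_comm, ← algebraMap_star_comm]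
  exact h1 _

theorem Int.eval {V : A →ₗᵢ[ℂ] H} {S : LL → (H →L[ℂ] H)} {X : Ix → (H →L[ℂ] H)}
    {S' : LL → (A →L[ℂ] A)} {X' : Ix → (A →L[ℂ] A)} {j₀ Q : ℕ}
    (hS : ∀ l : LL, l.1 < j₀ → l.2.2 < Q → Int V (S l) (S' l))
    (hX : ∀ i, Int V (X i) (X' i)) (e : Expr) (he : e.Bdd j₀ Q) :
    Int V (e.eval S X) (e.eval S' X') := by
  induction e with
  | lit l => exact hS l he.1 he.2
  | gen i => exact hX i
  | st e ih => exact (ih he).star
  | cst p q => exact Int.const _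
  | add e f ihe ihf => exact (ihe he.1).add (ihf he.2)
  | mul e f ihe ihf => exact (ihe he.1).mul (ihf he.2)

end Inter

/-! ### Sums of isometries with orthogonal ranges -/

section SumIso

variable {A H : Type} [NormedAddCommGroup A] [InnerProductSpace ℂ A]
  [NormedAddCommGroup H] [InnerProductSpace ℂ H]

/-- Sum of isometries with pairwise orthogonal ranges. -/
def sumIso {n : ℕ} (J : Fin n → A →ₗᵢ[ℂ] H)
    (h : ∀ a b, a ≠ b → ∀ u v, ⟪J a u, J b v⟫_ℂ = 0) : Amp n A →ₗᵢ[ℂ] H where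
  toFun ξ := ∑ a, J a (ξ a)
  map_add' ξ η := by
    simp only [PiLp.add_apply, map_add, Finset.sum_add_distrib]
  map_smul' z ξ := by
    simp only [PiLp.smul_apply, map_smul, Finset.smul_sum, RingHom.id_apply]
  norm_map' ξ := by
    have h1 : ‖∑ a, J a (ξ a)‖ ^ 2 = ‖ξ‖ ^ 2 := by
      rw [PiLp.norm_sq_eq_of_L2]
      have h2 : ((‖∑ a, J a (ξ a)‖ ^ 2 : ℝ) : ℂ) = ((∑ a, ‖ξ a‖ ^ 2 : ℝ) : ℂ) := by
        have h3 := inner_self_eq_norm_sq_to_K (𝕜 := ℂ) (∑ a, J a (ξ a))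
        have h4 : ⟪∑ a, J a (ξ a), ∑ a, J a (ξ a)⟫_ℂ = ∑ a, ⟪ξ a, ξ a⟫_ℂ := by
          rw [sum_inner]
          refine Finset.sum_congr rfl fun a _ => ?_
          rw [inner_sum, Finset.sum_eq_single a]
          · exact (J a).inner_map_map _ _
          · intro b _ hb
            exact h a b (Ne.symm hb) _ _
          · intro hn
            exact absurd (Finset.mem_univ _) hn
        rw [h4] at h3
        simp only [inner_self_eq_norm_sq_to_K] at h3
        push_cast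
        exact h3.symm
      exact_mod_cast h2
    exact (sq_eq_sq₀ (norm_nonneg _) (norm_nonneg _)).1 h1

theorem sumIso_apply {n : ℕ} (J : Fin n → A →ₗᵢ[ℂ] H)
    (h : ∀ a b, a ≠ b → ∀ u v, ⟪J a u, J b v⟫_ℂ = 0) (ξ : Amp n A) :
    sumIso J h ξ = ∑ a, J a (ξ a) := rfl

theorem sumIso_sg {n : ℕ} (J : Fin n → A →ₗᵢ[ℂ] H)
    (h : ∀ a b, a ≠ b → ∀ u v, ⟪J a u, J b v⟫_ℂ = 0) (a : Fin n) (v : A) :
    sumIso J h (sg a v) = J a v := by
  rw [sumIso_apply, Finset.sum_eq_single a]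
  · rw [sg_apply, if_pos rfl]
  · intro b _ hb
    rw [sg_apply, if_neg hb, map_zero]
  · intro hn
    exact absurd (Finset.mem_univ _) hn

theorem sum_sg {n : ℕ} (ξ : Amp n A) : ξ = ∑ a, sg a (ξ a) := by
  ext b
  have h1 : (∑ a, sg a (ξ a) : Amp n A) b = ∑ a, (sg a (ξ a) : Amp n A) b := by
    simp
  rw [h1, Finset.sum_eq_single b]
  · rw [sg_apply, if_pos rfl]
  · intro a _ ha
    rw [sg_apply, if_neg (Ne.symm ha)]
  · intro hn
    exact absurd (Finset.mem_univ _) hn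

theorem amp_sg {n : ℕ} (B : Matrix (Fin n) (Fin n) ℂ) (T : A →L[ℂ] A) (a : Fin n) (v : A) :
    amp B T (sg a v) = ∑ b, B b a • (sg b (T v) : Amp n A) := by
  ext c
  rw [amp_apply]
  have h1 : (∑ b, B b a • (sg b (T v) : Amp n A)) c =
      ∑ b, B b a • (sg b (T v) : Amp n A) c := by
    simp
  rw [h1, Finset.sum_eq_single a, Finset.sum_eq_single c]
  · rw [sg_apply, sg_apply, if_pos rfl, if_pos rfl]
  · intro b _ hb
    rw [sg_apply, if_neg (Ne.symm hb), smul_zero]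
  · intro hn
    exact absurd (Finset.mem_univ _) hn
  · intro b _ hb
    rw [sg_apply, if_neg hb, map_zero, smul_zero]
  · intro hn
    exact absurd (Finset.mem_univ _) hn

theorem amp_one_sg {n : ℕ} (T : A →L[ℂ] A) (a : Fin n) (v : A) :
    amp 1 T (sg a v) = (sg a (T v) : Amp n A) := by
  rw [amp_sg, Finset.sum_eq_single a]
  · rw [Matrix.one_apply_eq, one_smul]
  · intro b _ hb
    rw [Matrix.one_apply_ne hb, zero_smul]
  · intro hn
    exact absurd (Finset.mem_univ _) hn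

end SumIso

/-! ### The embedding of letters -/

section Emb

variable (X : ℕ → Dat) (ω : Set ℕ) (j₀ Q : ℕ)

/-- Letters of the big space. -/
abbrev LB : Type := Lett (Xr X ω) (Set.univ : Set ℕ)

/-- Letters of the small space. -/
abbrev LS : Type := Lett (Xr X (ω ∩ Set.Iio j₀)) (Set.Iio Q)

/-- The big space. -/
abbrev FB : Type := Fk (Xr X ω) (Set.univ : Set ℕ)

/-- The small space. -/
abbrev FS : Type := Fk (Xr X (ω ∩ Set.Iio j₀)) (Set.Iio Q)

variable {X ω j₀ Q}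

/-- The inclusion of letters. -/
def inc (l : LS X ω j₀ Q) : LB X ω :=
  ⟨l.1, l.2.choose.1, l.2.choose_spec.1, trivial⟩

theorem inc_inj : Function.Injective (inc (X := X) (ω := ω) (j₀ := j₀) (Q := Q)) := by
  intro l l' h
  exact Subtype.ext (congrArg (fun m : LB X ω => m.1) h)

theorem inc_of {m : LB X ω} (h1 : m.1.1 < j₀) (h2 : m.1.2.2 < Q) :
    ∃ l : LS X ω j₀ Q, inc l = m :=
  ⟨⟨m.1, ⟨m.2.choose, h1⟩, m.2.choose_spec.1, h2⟩, rfl⟩

theorem inc_level (l : LS X ω j₀ Q) : (inc l).1.1 < j₀ := l.2.choose.2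

theorem inc_copy (l : LS X ω j₀ Q) : (inc l).1.2.2 < Q := l.2.choose_spec.2

variable (j₀ Q) in
/-- Admissible tails: empty or beginning with a new letter. -/
def Adm (t : List (LB X ω)) : Prop :=
  ∀ m t', t = m :: t' → ∀ l : LS X ω j₀ Q, inc l ≠ m

theorem adm_nil : Adm j₀ Q ([] : List (LB X ω)) := by
  intro m t' h
  cases h

theorem adm_cons {m : LB X ω} (h : j₀ ≤ m.1.1 ∨ Q ≤ m.1.2.2) (t : List (LB X ω)) :
    Adm j₀ Q (m :: t) := by
  intro m' t' h' l hl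
  have h1 : m = m' := (List.cons.inj h').1
  subst h1
  subst hl
  have h2 := inc_level l
  have h3 := inc_copy l
  omega

theorem decomp_unique {t t' : List (LB X ω)} (ht : Adm j₀ Q t) (ht' : Adm j₀ Q t')
    (g g' : List (LS X ω j₀ Q)) (h : g.map inc ++ t = g'.map inc ++ t') : g = g' ∧ t = t' := by
  induction g generalizing g' with
  | nil =>
    cases g' with
    | nil => exact ⟨rfl, h⟩
    | cons l' g' => exact absurd rfl (ht (inc l') (g'.map inc ++ t') h l')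
  | cons l g ih =>
    cases g' with
    | nil => exact absurd rfl (ht' (inc l) (g.map inc ++ t) h.symm l)
    | cons l' g' =>
      have h1 := List.cons.inj h
      obtain ⟨h2, h3⟩ := ih g' h1.2
      exact ⟨by rw [h2, inc_inj h1.1], h3⟩

theorem decomp_exists (γ : List (LB X ω)) :
    ∃ (g : List (LS X ω j₀ Q)) (t : List (LB X ω)), Adm j₀ Q t ∧ γ = g.map inc ++ t := by
  induction γ with
  | nil => exact ⟨[], [], adm_nil, rfl⟩
  | cons m γ ih =>
    by_cases h : ∃ l : LS X ω j₀ Q, inc l = m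
    · obtain ⟨l, rfl⟩ := h
      obtain ⟨g, t, ht, rfl⟩ := ih
      exact ⟨l :: g, t, ht, rfl⟩
    · refine ⟨[], m :: γ, ?_, rfl⟩
      intro m' t' h' l hl
      exact h ⟨l, hl.trans (List.cons.inj h').1.symm⟩

variable (j₀ Q) in
theorem tail_orthonormal (t : List (LB X ω)) :
    Orthonormal ℂ (fun g : List (LS X ω j₀ Q) => (bas (g.map inc ++ t) : FB X ω)) := by
  have h := bas_orthonormal (D := Xr X ω) (q := Set.univ)
  refine h.comp (fun g : List (LS X ω j₀ Q) => g.map inc ++ t) ?_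
  intro g g' h
  have h1 : g.map inc ++ t = g'.map inc ++ t := h
  exact List.map_injective_iff.2 inc_inj (List.append_cancel_right h1)

variable (j₀ Q) in
/-- The isometry which appends the tail `t`. -/
def tailIso (t : List (LB X ω)) : FS X ω j₀ Q →ₗᵢ[ℂ] FB X ω :=
  (tail_orthonormal j₀ Q t).orthogonalFamily.linearIsometry

theorem tailIso_bas (t : List (LB X ω)) (g : List (LS X ω j₀ Q)) :
    tailIso j₀ Q t (bas g) = bas (g.map inc ++ t) := by
  classical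
  unfold tailIso
  have h : (bas g : FS X ω j₀ Q) = lp.single 2 g (1 : ℂ) := by
    unfold bas
    congr!
  rw [h, (tail_orthonormal j₀ Q t).orthogonalFamily.linearIsometry_apply_single]
  simp

theorem tail_orth {t t' : List (LB X ω)} (h : ∀ g g' : List (LS X ω j₀ Q),
    g.map inc ++ t ≠ g'.map inc ++ t') (u v : FS X ω j₀ Q) :
    ⟪tailIso j₀ Q t u, tailIso j₀ Q t' v⟫_ℂ = 0 := by
  have h1 : ContinuousLinearMap.adjoint (tailIso j₀ Q t).toContinuousLinearMap ∘L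
      (tailIso j₀ Q t').toContinuousLinearMap = 0 := by
    apply fk_ext
    intro g'
    apply inner_ext
    intro g
    rw [ContinuousLinearMap.comp_apply, ContinuousLinearMap.adjoint_inner_right]
    change ⟪tailIso j₀ Q t (bas g), tailIso j₀ Q t' (bas g')⟫_ℂ = _
    rw [tailIso_bas, tailIso_bas, inner_bas_ne (h g g')]
    simp
  have h2 := ContinuousLinearMap.adjoint_inner_right (tailIso j₀ Q t).toContinuousLinearMap u
    (tailIso j₀ Q t' v)
  change _ = ⟪tailIso j₀ Q t u, tailIso j₀ Q t' v⟫_ℂ at h2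
  rw [← h2]
  have h3 := congrArg (fun T : FS X ω j₀ Q →L[ℂ] FS X ω j₀ Q => T v) h1
  change ContinuousLinearMap.adjoint (tailIso j₀ Q t).toContinuousLinearMap
    (tailIso j₀ Q t' v) = 0 at h3
  rw [h3, inner_zero_right]

theorem tail_orth_adm {t t' : List (LB X ω)} (ht : Adm j₀ Q t) (ht' : Adm j₀ Q t')
    (h : t ≠ t') (u v : FS X ω j₀ Q) :
    ⟪tailIso j₀ Q t u, tailIso j₀ Q t' v⟫_ℂ = 0 :=
  tail_orth (fun g g' hg => h (decomp_unique ht ht' g g' hg).2) u v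

/-! ### Letters -/

theorem letter_iff (l : LL) (h1 : l.1 < j₀) (h2 : l.2.2 < Q) :
    (∃ h : l.1 ∈ ω, l.2.1 < (Xr X ω ⟨l.1, h⟩).1 ∧ l.2.2 ∈ (Set.univ : Set ℕ)) ↔
    (∃ h : l.1 ∈ ω ∩ Set.Iio j₀, l.2.1 < (Xr X (ω ∩ Set.Iio j₀) ⟨l.1, h⟩).1 ∧
      l.2.2 ∈ Set.Iio Q) := by
  constructor
  · rintro ⟨h, h3, -⟩
    exact ⟨⟨h, h1⟩, h3, h2⟩
  · rintro ⟨h, h3, -⟩
    exact ⟨h.1, h3, trivial⟩

theorem cr_tail (t : List (LB X ω)) (l : LS X ω j₀ Q) (u : FS X ω j₀ Q) :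
    cr (inc l) (tailIso j₀ Q t u) = tailIso j₀ Q t (cr l u) := by
  have h1 : cr (inc l) ∘L (tailIso j₀ Q t).toContinuousLinearMap =
      (tailIso j₀ Q t).toContinuousLinearMap ∘L cr l := by
    apply fk_ext
    intro g
    change cr (inc l) (tailIso j₀ Q t (bas g)) = tailIso j₀ Q t (cr l (bas g))
    rw [tailIso_bas, cr_bas, cr_bas, tailIso_bas]
    rfl
  exact congrArg (fun T : FS X ω j₀ Q →L[ℂ] FB X ω => T u) h1

theorem cr_star_tail {t : List (LB X ω)} (ht : Adm j₀ Q t) (l : LS X ω j₀ Q)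
    (u : FS X ω j₀ Q) :
    star (cr (inc l)) (tailIso j₀ Q t u) = tailIso j₀ Q t (star (cr l) u) := by
  have h1 : star (cr (inc l)) ∘L (tailIso j₀ Q t).toContinuousLinearMap =
      (tailIso j₀ Q t).toContinuousLinearMap ∘L star (cr l) := by
    apply fk_ext
    intro g
    change star (cr (inc l)) (tailIso j₀ Q t (bas g)) = tailIso j₀ Q t (star (cr l) (bas g))
    rw [tailIso_bas]
    cases g with
    | nil =>
      rw [cr_star_nil, map_zero]
      cases t with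
      | nil => exact cr_star_nil _
      | cons m t' => exact cr_star_cons_ne _ _ (ht m t' rfl l) _
    | cons l1 g =>
      by_cases h2 : l = l1
      · subst h2
        rw [cr_star_cons_same, tailIso_bas]
        exact cr_star_cons_same _ _
      · rw [cr_star_cons_ne l l1 h2, map_zero]
        exact cr_star_cons_ne _ _ (fun h3 => h2 (inc_inj h3)) _
  exact congrArg (fun T : FS X ω j₀ Q →L[ℂ] FB X ω => T u) h1

theorem Sop_tail {t : List (LB X ω)} (ht : Adm j₀ Q t) (l : LL) (h1 : l.1 < j₀)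
    (h2 : l.2.2 < Q) :
    Int (tailIso j₀ Q t) (Sop (Xr X ω) Set.univ l)
      (Sop (Xr X (ω ∩ Set.Iio j₀)) (Set.Iio Q) l) := by
  by_cases h : ∃ h : l.1 ∈ ω ∩ Set.Iio j₀, l.2.1 < (Xr X (ω ∩ Set.Iio j₀) ⟨l.1, h⟩).1 ∧
      l.2.2 ∈ Set.Iio Q
  · have h' := (letter_iff l h1 h2).2 h
    rw [Sop_mem l h, Sop_mem l h']
    exact ⟨fun u => cr_tail t ⟨l, h⟩ u, fun u => cr_star_tail ht ⟨l, h⟩ u⟩
  · have h' := fun h3 => h ((letter_iff (X := X) l h1 h2).1 h3)
    rw [Sop_not_mem l h, Sop_not_mem l h']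
    constructor
    · intro u
      rw [zero_apply, zero_apply, map_zero]
    · intro u
      rw [star_zero, star_zero, zero_apply, zero_apply, map_zero]

theorem xop_tail_cons (t : List (LB X ω)) (i : Ix) (l : LS X ω j₀ Q)
    (g : List (LS X ω j₀ Q)) :
    xop (Xr X ω) Set.univ i (tailIso j₀ Q t (bas (l :: g))) =
      tailIso j₀ Q t (xop (Xr X (ω ∩ Set.Iio j₀)) (Set.Iio Q) i (bas (l :: g))) := by
  rw [tailIso_bas]
  change xop (Xr X ω) Set.univ i (bas (inc l :: (g.map inc ++ t))) = _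
  rw [xop_bas, xop_bas]
  simp only [xcol]
  rw [map_sum]
  refine Finset.sum_congr rfl fun b _ => ?_
  rw [map_smul, tailIso_bas]
  rfl

theorem xop_star_tail_cons (t : List (LB X ω)) (i : Ix) (l : LS X ω j₀ Q)
    (g : List (LS X ω j₀ Q)) :
    star (xop (Xr X ω) Set.univ i) (tailIso j₀ Q t (bas (l :: g))) =
      tailIso j₀ Q t (star (xop (Xr X (ω ∩ Set.Iio j₀)) (Set.Iio Q) i) (bas (l :: g))) := by
  rw [tailIso_bas, xop_star_cons]
  change star (xop (Xr X ω) Set.univ i) (bas (inc l :: (g.map inc ++ t))) = _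
  rw [xop_star_cons, map_sum]
  refine Finset.sum_congr rfl fun b _ => ?_
  rw [map_smul, tailIso_bas]
  rfl

theorem xop_tail_nil (i : Ix) :
    Int (tailIso j₀ Q ([] : List (LB X ω))) (xop (Xr X ω) Set.univ i)
      (xop (Xr X (ω ∩ Set.Iio j₀)) (Set.Iio Q) i) := by
  constructor
  · have h1 : xop (Xr X ω) Set.univ i ∘L
        (tailIso j₀ Q ([] : List (LB X ω))).toContinuousLinearMap =
        (tailIso j₀ Q ([] : List (LB X ω))).toContinuousLinearMap ∘L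
          xop (Xr X (ω ∩ Set.Iio j₀)) (Set.Iio Q) i := by
      apply fk_ext
      intro g
      change xop (Xr X ω) Set.univ i (tailIso j₀ Q [] (bas g)) =
        tailIso j₀ Q [] (xop (Xr X (ω ∩ Set.Iio j₀)) (Set.Iio Q) i (bas g))
      cases g with
      | nil =>
        rw [tailIso_bas, xop_bas]
        change xcol i [] = tailIso j₀ Q [] (xop (Xr X (ω ∩ Set.Iio j₀)) (Set.Iio Q) i (bas []))
        rw [xop_bas]
        change bas [] = tailIso j₀ Q [] (bas [])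
        rw [tailIso_bas]
        rfl
      | cons l g => exact xop_tail_cons _ _ _ _
    intro u
    exact congrArg (fun T : FS X ω j₀ Q →L[ℂ] FB X ω => T u) h1
  · have h1 : star (xop (Xr X ω) Set.univ i) ∘L
        (tailIso j₀ Q ([] : List (LB X ω))).toContinuousLinearMap =
        (tailIso j₀ Q ([] : List (LB X ω))).toContinuousLinearMap ∘L
          star (xop (Xr X (ω ∩ Set.Iio j₀)) (Set.Iio Q) i) := by
      apply fk_ext
      intro g
      change star (xop (Xr X ω) Set.univ i) (tailIso j₀ Q [] (bas g)) =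
        tailIso j₀ Q [] (star (xop (Xr X (ω ∩ Set.Iio j₀)) (Set.Iio Q) i) (bas g))
      cases g with
      | nil =>
        rw [xop_star_nil, tailIso_bas]
        exact xop_star_nil _
      | cons l g => exact xop_star_tail_cons _ _ _ _
    intro u
    exact congrArg (fun T : FS X ω j₀ Q →L[ℂ] FB X ω => T u) h1

/-- The isometry for the vacuum block. -/
theorem vac_int (e : Expr) (he : e.Bdd j₀ Q) :
    Int (tailIso j₀ Q ([] : List (LB X ω))) (Ev (Xr X ω) Set.univ e)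
      (Ev (Xr X (ω ∩ Set.Iio j₀)) (Set.Iio Q) e) :=
  Int.eval (fun l h1 h2 => Sop_tail adm_nil l h1 h2) xop_tail_nil e he

/-! ### The block of a new letter -/

/-- The letter `(j, a, q')`. -/
def lt {j : ℕ} (hj : j ∈ ω) (q' : ℕ) (a : Fin (X j).1) : LB X ω :=
  ⟨(j, (a : ℕ), q'), hj, a.2, trivial⟩

variable (j₀ Q) in
/-- The isometries `J a`. -/
def J {j : ℕ} (hj : j ∈ ω) (q' : ℕ) (t : List (LB X ω)) (a : Fin (X j).1) :
    FS X ω j₀ Q →ₗᵢ[ℂ] FB X ω :=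
  tailIso j₀ Q (lt hj q' a :: t)

theorem J_orth {j : ℕ} (hj : j ∈ ω) (q' : ℕ) (t : List (LB X ω)) (hq : j₀ ≤ j ∨ Q ≤ q')
    (a b : Fin (X j).1) (hab : a ≠ b) (u v : FS X ω j₀ Q) :
    ⟪J j₀ Q hj q' t a u, J j₀ Q hj q' t b v⟫_ℂ = 0 := by
  refine tail_orth_adm (adm_cons hq t) (adm_cons hq t) ?_ u v
  intro h
  apply hab
  have h1 := (List.cons.inj h).1
  have h2 : (lt hj q' a).1.2.1 = (lt hj q' b).1.2.1 := by rw [h1]
  exact Fin.ext h2

variable (j₀ Q) in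
/-- The isometry of a block. -/
def blockIso {j : ℕ} (hj : j ∈ ω) (q' : ℕ) (t : List (LB X ω)) (hq : j₀ ≤ j ∨ Q ≤ q') :
    Amp (X j).1 (FS X ω j₀ Q) →ₗᵢ[ℂ] FB X ω :=
  sumIso (J j₀ Q hj q' t) (J_orth hj q' t hq)

theorem int_of_sg {n : ℕ} (K : Fin n → FS X ω j₀ Q →ₗᵢ[ℂ] FB X ω)
    (h : ∀ a b, a ≠ b → ∀ u v, ⟪K a u, K b v⟫_ℂ = 0)
    (T : FB X ω →L[ℂ] FB X ω) (T' : Amp n (FS X ω j₀ Q) →L[ℂ] Amp n (FS X ω j₀ Q))
    (hT : ∀ a g, T (K a (bas g)) = sumIso K h (T' (sg a (bas g)))) (u : Amp n (FS X ω j₀ Q)) :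
    T (sumIso K h u) = sumIso K h (T' u) := by
  have h0 : ∀ a : Fin n, ∀ v : FS X ω j₀ Q, T (K a v) = sumIso K h (T' (sg a v)) := by
    intro a
    let sgL : FS X ω j₀ Q →L[ℂ] Amp n (FS X ω j₀ Q) :=
      ((PiLp.continuousLinearEquiv 2 ℂ (fun _ : Fin n => FS X ω j₀ Q)).symm :
        (Fin n → FS X ω j₀ Q) →L[ℂ] Amp n (FS X ω j₀ Q)) ∘L
        (ContinuousLinearMap.single ℂ (fun _ : Fin n => FS X ω j₀ Q) a)
    have hsg : ∀ v, sgL v = sg a v := fun v => rfl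
    have h1 : T ∘L (K a).toContinuousLinearMap =
        (sumIso K h).toContinuousLinearMap ∘L T' ∘L sgL := by
      apply fk_ext
      intro g
      exact hT a g
    intro v
    exact congrArg (fun T : FS X ω j₀ Q →L[ℂ] FB X ω => T v) h1
  conv_lhs => rw [sumIso_apply, map_sum]
  conv_rhs => rw [sum_sg u, map_sum, map_sum]
  exact Finset.sum_congr rfl fun a _ => h0 a (u a)

theorem block_Sop {j : ℕ} (hj : j ∈ ω) (q' : ℕ) (t : List (LB X ω)) (hq : j₀ ≤ j ∨ Q ≤ q')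
    (l : LL) (h1 : l.1 < j₀) (h2 : l.2.2 < Q) :
    Int (blockIso j₀ Q hj q' t hq) (Sop (Xr X ω) Set.univ l)
      (amp 1 (Sop (Xr X (ω ∩ Set.Iio j₀)) (Set.Iio Q) l)) := by
  constructor
  · apply int_of_sg
    intro a g
    rw [amp_one_sg, sumIso_sg]
    exact (Sop_tail (adm_cons hq t) l h1 h2).1 _
  · apply int_of_sg
    intro a g
    rw [amp_star, star_one, amp_one_sg, sumIso_sg]
    exact (Sop_tail (adm_cons hq t) l h1 h2).2 _

theorem xop_new {j : ℕ} (hj : j ∈ ω) (q' : ℕ) (t : List (LB X ω)) (a : Fin (X j).1) (i : Ix) :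
    xop (Xr X ω) Set.univ i (bas (lt hj q' a :: t)) =
      ∑ b, ((X j).2 i : Matrix (Fin (X j).1) (Fin (X j).1) ℂ) b a •
        (bas (lt hj q' b :: t) : FB X ω) := by
  rw [xop_bas]
  rfl

theorem xop_star_new {j : ℕ} (hj : j ∈ ω) (q' : ℕ) (t : List (LB X ω)) (a : Fin (X j).1)
    (i : Ix) :
    star (xop (Xr X ω) Set.univ i) (bas (lt hj q' a :: t)) =
      ∑ b, (star ((X j).2 i : Matrix (Fin (X j).1) (Fin (X j).1) ℂ)) b a •
        (bas (lt hj q' b :: t) : FB X ω) := by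
  rw [xop_star_cons]
  rfl

theorem block_xop {j : ℕ} (hj : j ∈ ω) (q' : ℕ) (t : List (LB X ω)) (hq : j₀ ≤ j ∨ Q ≤ q')
    (i : Ix) :
    Int (blockIso j₀ Q hj q' t hq) (xop (Xr X ω) Set.univ i)
      (locX (Xr X (ω ∩ Set.Iio j₀)) (Set.Iio Q) (X j).2 i) := by
  constructor
  · apply int_of_sg
    intro a g
    unfold locX
    rw [add_apply, amp_sg, amp_one_sg, map_add, sumIso_sg, map_sum]
    simp only [map_smul, sumIso_sg]
    cases g with
    | nil =>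
      rw [Pvac_nil, sub_apply, xop_bas, Pvac_nil]
      change xop (Xr X ω) Set.univ i (tailIso j₀ Q (lt hj q' a :: t) (bas [])) = _
      rw [show xcol (D := Xr X (ω ∩ Set.Iio j₀)) (q := Set.Iio Q) i [] = bas [] from rfl,
        sub_self, map_zero, add_zero, tailIso_bas]
      change xop (Xr X ω) Set.univ i (bas (lt hj q' a :: t)) = _
      rw [xop_new]
      refine Finset.sum_congr rfl fun b _ => ?_
      change _ = _ • tailIso j₀ Q (lt hj q' b :: t) (bas [])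
      rw [tailIso_bas]
      rfl
    | cons l g =>
      rw [Pvac_cons, sub_apply, Pvac_cons, sub_zero]
      simp only [map_zero, smul_zero]
      rw [Finset.sum_const_zero, zero_add]
      exact xop_tail_cons _ _ _ _
  · apply int_of_sg
    intro a g
    unfold locX
    rw [star_add, amp_star, amp_star, star_one, star_sub, Pvac_star,
      add_apply, amp_sg, amp_one_sg, map_add, sumIso_sg, map_sum]
    simp only [map_smul, sumIso_sg]
    cases g with
    | nil =>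
      rw [Pvac_nil, sub_apply, xop_star_nil, Pvac_nil]
      change star (xop (Xr X ω) Set.univ i) (tailIso j₀ Q (lt hj q' a :: t) (bas [])) = _
      rw [sub_self, map_zero, add_zero, tailIso_bas]
      change star (xop (Xr X ω) Set.univ i) (bas (lt hj q' a :: t)) = _
      rw [xop_star_new]
      refine Finset.sum_congr rfl fun b _ => ?_
      change _ = _ • tailIso j₀ Q (lt hj q' b :: t) (bas [])
      rw [tailIso_bas]
      rfl
    | cons l g =>
      rw [Pvac_cons, sub_apply, Pvac_cons, sub_zero]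
      simp only [map_zero, smul_zero]
      rw [Finset.sum_const_zero, zero_add]
      exact xop_star_tail_cons _ _ _ _

theorem block_int {j : ℕ} (hj : j ∈ ω) (q' : ℕ) (t : List (LB X ω)) (hq : j₀ ≤ j ∨ Q ≤ q')
    (e : Expr) (he : e.Bdd j₀ Q) :
    Int (blockIso j₀ Q hj q' t hq) (Ev (Xr X ω) Set.univ e)
      (locE (Xr X (ω ∩ Set.Iio j₀)) (Set.Iio Q) (X j).2 e) :=
  Int.eval (fun l h1 h2 => block_Sop hj q' t hq l h1 h2) (block_xop hj q' t hq) e he

theorem blockIso_sg {j : ℕ} (hj : j ∈ ω) (q' : ℕ) (t : List (LB X ω)) (hq : j₀ ≤ j ∨ Q ≤ q')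
    (a : Fin (X j).1) (g : List (LS X ω j₀ Q)) :
    blockIso j₀ Q hj q' t hq (sg a (bas g)) = bas (g.map inc ++ lt hj q' a :: t) := by
  unfold blockIso
  rw [sumIso_sg]
  exact tailIso_bas _ _

theorem vac_block_orth {j : ℕ} (hj : j ∈ ω) (q' : ℕ) (t : List (LB X ω)) (hq : j₀ ≤ j ∨ Q ≤ q')
    (u : FS X ω j₀ Q) (v : Amp (X j).1 (FS X ω j₀ Q)) :
    ⟪tailIso j₀ Q [] u, blockIso j₀ Q hj q' t hq v⟫_ℂ = 0 := by
  unfold blockIso
  rw [sumIso_apply, inner_sum]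
  refine Finset.sum_eq_zero fun a _ => ?_
  exact tail_orth_adm adm_nil (adm_cons hq _) (by simp) _ _

theorem block_vac_orth {j : ℕ} (hj : j ∈ ω) (q' : ℕ) (t : List (LB X ω)) (hq : j₀ ≤ j ∨ Q ≤ q')
    (u : FS X ω j₀ Q) (v : Amp (X j).1 (FS X ω j₀ Q)) :
    ⟪blockIso j₀ Q hj q' t hq v, tailIso j₀ Q [] u⟫_ℂ = 0 := by
  rw [← inner_conj_symm, vac_block_orth, map_zero]

theorem block_block_orth {j : ℕ} (hj : j ∈ ω) (q' : ℕ) (t : List (LB X ω))
    (hq : j₀ ≤ j ∨ Q ≤ q') {j' : ℕ} (hj' : j' ∈ ω) (q'' : ℕ) (t' : List (LB X ω))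
    (hq' : j₀ ≤ j' ∨ Q ≤ q'') (h : (j, q', t) ≠ (j', q'', t'))
    (u : Amp (X j).1 (FS X ω j₀ Q)) (v : Amp (X j').1 (FS X ω j₀ Q)) :
    ⟪blockIso j₀ Q hj q' t hq u, blockIso j₀ Q hj' q'' t' hq' v⟫_ℂ = 0 := by
  unfold blockIso
  rw [sumIso_apply, sum_inner]
  refine Finset.sum_eq_zero fun a _ => ?_
  rw [sumIso_apply, inner_sum]
  refine Finset.sum_eq_zero fun b _ => ?_
  refine tail_orth_adm (adm_cons hq _) (adm_cons hq' _) ?_ _ _
  intro h1
  apply h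
  have h2 := List.cons.inj h1
  have h3 : (lt hj q' a).1 = (lt hj' q'' b).1 := by rw [h2.1]
  have h4 : j = j' := congrArg (fun l : LL => l.1) h3
  have h5 : q' = q'' := congrArg (fun l : LL => l.2.2) h3
  exact Prod.ext h4 (Prod.ext h5 h2.2)

/-! ### The covering -/

variable (X ω j₀ Q) in
/-- Index set of the blocks of new letters. -/
def P : Type := {p : ℕ × ℕ × List (LB X ω) // p.1 ∈ ω ∧ (j₀ ≤ p.1 ∨ Q ≤ p.2.1)}

variable (X ω j₀ Q) in
/-- The spaces of the blocks. -/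
def Kr : Option (P X ω j₀ Q) → Type
  | none => FS X ω j₀ Q
  | some p => Amp (X p.1.1).1 (FS X ω j₀ Q)

instance : ∀ r, NormedAddCommGroup (Kr X ω j₀ Q r)
  | none => inferInstanceAs (NormedAddCommGroup (FS X ω j₀ Q))
  | some p => inferInstanceAs (NormedAddCommGroup (Amp (X p.1.1).1 (FS X ω j₀ Q)))

instance : ∀ r, InnerProductSpace ℂ (Kr X ω j₀ Q r)
  | none => inferInstanceAs (InnerProductSpace ℂ (FS X ω j₀ Q))
  | some p => inferInstanceAs (InnerProductSpace ℂ (Amp (X p.1.1).1 (FS X ω j₀ Q)))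

instance : ∀ r, CompleteSpace (Kr X ω j₀ Q r)
  | none => inferInstanceAs (CompleteSpace (FS X ω j₀ Q))
  | some p => inferInstanceAs (CompleteSpace (Amp (X p.1.1).1 (FS X ω j₀ Q)))

variable (X ω j₀ Q) in
/-- The isometries of the blocks. -/
def Vr : ∀ r, Kr X ω j₀ Q r →ₗᵢ[ℂ] FB X ω
  | none => tailIso j₀ Q []
  | some p => blockIso j₀ Q p.2.1 p.1.2.1 p.1.2.2 p.2.2

variable (X ω j₀ Q) in
/-- The operators of the blocks. -/
def Wr (e : Ix → Expr) : ∀ r, Ix → Kr X ω j₀ Q r →L[ℂ] Kr X ω j₀ Q r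
  | none => fun i => Ev (Xr X (ω ∩ Set.Iio j₀)) (Set.Iio Q) (e i)
  | some p => fun i => locE (Xr X (ω ∩ Set.Iio j₀)) (Set.Iio Q) (X p.1.1).2 (e i)

theorem Vr_orth (r r' : Option (P X ω j₀ Q)) (h : r ≠ r') (u : Kr X ω j₀ Q r)
    (v : Kr X ω j₀ Q r') : ⟪Vr X ω j₀ Q r u, Vr X ω j₀ Q r' v⟫_ℂ = 0 := by
  cases r with
  | none =>
    cases r' with
    | none => exact absurd rfl h
    | some p => exact vac_block_orth p.2.1 p.1.2.1 p.1.2.2 p.2.2 u v
  | some p =>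
    cases r' with
    | none => exact block_vac_orth p.2.1 p.1.2.1 p.1.2.2 p.2.2 v u
    | some p' =>
      refine block_block_orth p.2.1 p.1.2.1 p.1.2.2 p.2.2 p'.2.1 p'.1.2.1 p'.1.2.2 p'.2.2 ?_ u v
      intro h1
      apply h
      congr 1
      exact Subtype.ext h1

theorem Vr_dense :
    (⨆ r, LinearMap.range ((Vr X ω j₀ Q r).toLinearMap)).topologicalClosure = ⊤ := by
  rw [eq_top_iff, ← bas_span_dense]
  apply Submodule.topologicalClosure_mono
  rw [Submodule.span_le]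
  rintro _ ⟨γ, rfl⟩
  obtain ⟨g, t, ht, rfl⟩ := decomp_exists (j₀ := j₀) (Q := Q) γ
  cases t with
  | nil =>
    refine Submodule.mem_iSup_of_mem none ?_
    exact ⟨(bas g : FS X ω j₀ Q), tailIso_bas _ _⟩
  | cons m t =>
    have h1 : j₀ ≤ m.1.1 ∨ Q ≤ m.1.2.2 := by
      by_contra hc
      rw [not_or, not_le, not_le] at hc
      obtain ⟨l, hl⟩ := inc_of hc.1 hc.2
      exact ht m t rfl l hl
    refine Submodule.mem_iSup_of_mem (some ⟨(m.1.1, m.1.2.2, t), m.2.choose, h1⟩) ?_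
    refine ⟨(sg ⟨m.1.2.1, m.2.choose_spec.1⟩ (bas g) : Amp (X m.1.1).1 (FS X ω j₀ Q)), ?_⟩
    exact blockIso_sg m.2.choose m.1.2.2 t h1 ⟨m.1.2.1, m.2.choose_spec.1⟩ g

theorem Vr_int (e : Ix → Expr) (he : ∀ i, (e i).Bdd j₀ Q) (r : Option (P X ω j₀ Q)) (i : Ix) :
    Int (Vr X ω j₀ Q r) (Ev (Xr X ω) Set.univ (e i)) (Wr X ω j₀ Q e r i) := by
  cases r with
  | none => exact vac_int (e i) (he i)
  | some p => exact block_int p.2.1 p.1.2.1 p.1.2.2 p.2.2 (e i) (he i)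

end Emb

end Loc

section LOC

theorem loc_embed (X : ℕ → Dat) (ω : Set ℕ) (j₀ Q : ℕ) (j : ℕ) (hj : j ∈ ω) :
    ∃ ι : Amp (X j).1 (Fk (Xr X (ω ∩ Set.Iio j₀)) (Set.Iio Q)) →ₗᵢ[ℂ] Fk (Xr X ω) Set.univ,
      ∀ e : Expr, e.Bdd j₀ Q → ∀ ξ,
        Ev (Xr X ω) Set.univ e (ι ξ) =
          ι (locE (Xr X (ω ∩ Set.Iio j₀)) (Set.Iio Q) (X j).2 e ξ) := by
  refine ⟨Loc.blockIso j₀ Q hj Q [] (Or.inr le_rfl), fun e he ξ => ?_⟩
  exact (Loc.block_int hj Q [] (Or.inr le_rfl) e he).1 ξ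

theorem loc_embed_vac (X : ℕ → Dat) (ω : Set ℕ) (j₀ Q : ℕ) :
    ∃ ι : Fk (Xr X (ω ∩ Set.Iio j₀)) (Set.Iio Q) →ₗᵢ[ℂ] Fk (Xr X ω) Set.univ,
      ∀ e : Expr, e.Bdd j₀ Q → ∀ ξ,
        Ev (Xr X ω) Set.univ e (ι ξ) = ι (Ev (Xr X (ω ∩ Set.Iio j₀)) (Set.Iio Q) e ξ) := by
  refine ⟨Loc.tailIso j₀ Q [], fun e he ξ => ?_⟩
  exact (Loc.vac_int e he).1 ξ

theorem loc_cover (X : ℕ → Dat) (ω : Set ℕ) (j₀ Q : ℕ) (e : Ix → Expr)
    (he : ∀ i, (e i).Bdd j₀ Q) {n : ℕ} (y : Tup n) (κ : ℝ)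
    (h1 : ∀ j ∈ ω, ∀ ξ : Amp n (Amp (X j).1 (Fk (Xr X (ω ∩ Set.Iio j₀)) (Set.Iio Q))),
      κ * ‖ξ‖ ^ 2 ≤ (⟪Del y (fun i => locE (Xr X (ω ∩ Set.Iio j₀)) (Set.Iio Q) (X j).2 (e i)) ξ,
        ξ⟫_ℂ).re)
    (h2 : ∀ ξ : Amp n (Fk (Xr X (ω ∩ Set.Iio j₀)) (Set.Iio Q)),
      κ * ‖ξ‖ ^ 2 ≤ (⟪Del y (fun i => Ev (Xr X (ω ∩ Set.Iio j₀)) (Set.Iio Q) (e i)) ξ, ξ⟫_ℂ).re)
    (ξ : Amp n (Fk (Xr X ω) Set.univ)) :
    κ * ‖ξ‖ ^ 2 ≤ (⟪Del y (fun i => Ev (Xr X ω) Set.univ (e i)) ξ, ξ⟫_ℂ).re := by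
  have hb := block_del (Loc.Kr X ω j₀ Q) (Loc.Vr X ω j₀ Q) Loc.Vr_orth Loc.Vr_dense
    (fun i => Ev (Xr X ω) Set.univ (e i)) (Loc.Wr X ω j₀ Q e)
    (fun r i u => (Loc.Vr_int e he r i).1 u) (fun r i u => (Loc.Vr_int e he r i).2 u)
    y (-κ) 1 0 ?_ ξ
  · linarith
  · intro r
    cases r with
    | none =>
      intro u
      have h3 := h2 u
      have h4 : κ * ‖u‖ ^ 2 ≤ (⟪Del y (Loc.Wr X ω j₀ Q e none) u, u⟫_ℂ).re := h3
      linarith
    | some p =>
      intro u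
      have h3 := h1 p.1.1 p.2.1 u
      have h4 : κ * ‖u‖ ^ 2 ≤ (⟪Del y (Loc.Wr X ω j₀ Q e (some p)) u, u⟫_ℂ).re := h3
      linarith

end LOC

end Pool.Agent.C8B

end
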