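import Pool.Agent.Lib.MP_c8b4d4_an.Defs
import Pool.Agent.Lib.MP_c8b4d4_an.Fock

/-!
Module PI: the algebra of words is separable and purely infinite.
-/

set_option autoImplicit false

noncomputable section

namespace Pool.Agent.C8B

open scoped InnerProductSpace

/-! ### Density of the polynomials -/

theorem Ev_mem_Aalg {ω : Set ℕ} (D : ω → Dat) (e : Expr) : Ev D Set.univ e ∈ Aalg D := by
  have hsub : ∀ T ∈ (Set.range (cr (D := D) (q := Set.univ)) ∪ Set.range (xop D Set.univ)),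
      T ∈ Aalg D := fun T hT =>
    StarSubalgebra.le_topologicalClosure _ (StarAlgebra.subset_adjoin ℂ _ hT)
  induction e with
  | lit l =>
    show Sop D Set.univ l ∈ Aalg D
    by_cases h : ∃ h : l.1 ∈ ω, l.2.1 < (D ⟨l.1, h⟩).1 ∧ l.2.2 ∈ Set.univ
    · rw [Sop_mem l h]
      exact hsub _ (Or.inl ⟨_, rfl⟩)
    · rw [Sop_not_mem l h]
      exact zero_mem _
  | gen i => exact hsub _ (Or.inr ⟨i, rfl⟩)
  | st e ih => exact star_mem ih
  | cst p q => exact (Aalg D).algebraMap_mem _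
  | add e f ihe ihf => exact add_mem ihe ihf
  | mul e f ihe ihf => exact mul_mem ihe ihf

namespace PIm

variable {ω : Set ℕ} {D : ω → Dat}

theorem mem_closure_Ev (a : Fk D Set.univ →L[ℂ] Fk D Set.univ) (ha : a ∈ Aalg D) :
    a ∈ closure (Set.range (Ev D Set.univ)) := by
  have hst : ∀ T ∈ closure (Set.range (Ev D Set.univ)),
      star T ∈ closure (Set.range (Ev D Set.univ)) := fun T hT =>
    map_mem_closure continuous_star hT (by
      rintro _ ⟨e, rfl⟩
      exact ⟨.st e, rfl⟩)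
  have key : (StarAlgebra.adjoin ℂ (Set.range (cr (D := D) (q := Set.univ)) ∪
      Set.range (xop D Set.univ)) : Set (Fk D Set.univ →L[ℂ] Fk D Set.univ)) ⊆
      closure (Set.range (Ev D Set.univ)) := by
    intro T hT
    induction hT using StarAlgebra.adjoin_induction with
    | mem T hT =>
      refine subset_closure ?_
      rcases hT with ⟨l, rfl⟩ | ⟨i, rfl⟩
      · exact ⟨.lit l.1, Sop_mem l.1 l.2⟩
      · exact ⟨.gen i, rfl⟩
    | algebraMap r =>
      have h1 : ∀ x : ℝ, x ∈ closure (Set.range ((↑) : ℚ → ℝ)) := fun x =>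
        Rat.denseRange_cast x
      have h2 := map_mem_closure₂ (f := fun x y : ℝ => algebraMap ℂ
        (Fk D Set.univ →L[ℂ] Fk D Set.univ) ((x : ℂ) + (y : ℂ) * Complex.I))
        (u := Set.range (Ev D Set.univ)) (by
          have h3 : Continuous (algebraMap ℂ (Fk D Set.univ →L[ℂ] Fk D Set.univ)) :=
            continuous_algebraMap _ _
          refine h3.comp ?_
          fun_prop) (h1 r.re) (h1 r.im) (by
          rintro _ ⟨p, rfl⟩ _ ⟨q, rfl⟩
          refine ⟨.cst p q, ?_⟩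
          show algebraMap ℂ _ _ = algebraMap ℂ _ _
          congr 1)
      beta_reduce at h2
      rwa [Complex.re_add_im] at h2
    | add x y _ _ hx hy =>
      exact map_mem_closure₂ continuous_add hx hy (by
        rintro _ ⟨e, rfl⟩ _ ⟨f, rfl⟩
        exact ⟨.add e f, rfl⟩)
    | mul x y _ _ hx hy =>
      exact map_mem_closure₂ continuous_mul hx hy (by
        rintro _ ⟨e, rfl⟩ _ ⟨f, rfl⟩
        exact ⟨.mul e f, rfl⟩)
    | star x _ hx => exact hst x hx
  exact closure_minimal key isClosed_closure ha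

end PIm

theorem Aalg_approx {ω : Set ℕ} (D : ω → Dat) (a : Fk D Set.univ →L[ℂ] Fk D Set.univ)
    (ha : a ∈ Aalg D) (ε : ℝ) (hε : 0 < ε) : ∃ e : Expr, ‖Ev D Set.univ e - a‖ < ε := by
  obtain ⟨_, ⟨e, rfl⟩, h⟩ := Metric.mem_closure_iff.1 (PIm.mem_closure_Ev a ha) ε hε
  exact ⟨e, by rwa [← dist_eq_norm, dist_comm]⟩

namespace PIm

/-- Depth of a formal polynomial. -/
def depth : Expr → ℕ
  | .lit _ => 0
  | .gen _ => 0
  | .st e => depth e + 1
  | .cst _ _ => 0
  | .add e f => max (depth e) (depth f) + 1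
  | .mul e f => max (depth e) (depth f) + 1

theorem countable_depth (n : ℕ) : {e : Expr | depth e < n}.Countable := by
  induction n with
  | zero => simp
  | succ n ih =>
    have h : {e : Expr | depth e < n + 1} ⊆
        Set.range Expr.lit ∪ Set.range Expr.gen ∪
          Expr.st '' {e : Expr | depth e < n} ∪
          Set.range (fun p : ℚ × ℚ => Expr.cst p.1 p.2) ∪
          Set.image2 Expr.add {e : Expr | depth e < n} {e : Expr | depth e < n} ∪
          Set.image2 Expr.mul {e : Expr | depth e < n} {e : Expr | depth e < n} := by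
      intro e he
      rw [Set.mem_ofPred_eq] at he
      cases e with
      | lit l => exact Or.inl (Or.inl (Or.inl (Or.inl (Or.inl ⟨l, rfl⟩))))
      | gen i => exact Or.inl (Or.inl (Or.inl (Or.inl (Or.inr ⟨i, rfl⟩))))
      | st e =>
        refine Or.inl (Or.inl (Or.inl (Or.inr ⟨e, ?_, rfl⟩)))
        simp only [depth] at he
        simpa using he
      | cst p q => exact Or.inl (Or.inl (Or.inr ⟨(p, q), rfl⟩))
      | add e f =>
        simp only [depth] at he
        refine Or.inl (Or.inr ⟨e, ?_, f, ?_, rfl⟩) <;> simp only [Set.mem_ofPred_eq] <;> omega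
      | mul e f =>
        simp only [depth] at he
        refine Or.inr ⟨e, ?_, f, ?_, rfl⟩ <;> simp only [Set.mem_ofPred_eq] <;> omega
    refine Set.Countable.mono h ?_
    refine ((((((Set.countable_range _).union (Set.countable_range _)).union
      (ih.image _)).union (Set.countable_range _)).union (ih.image2 ih _)).union
      (ih.image2 ih _))

end PIm

instance countable_expr : Countable Expr := by
  rw [← Set.countable_univ_iff]
  have h : (Set.univ : Set Expr) = ⋃ n : ℕ, {e : Expr | PIm.depth e < n} := by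
    ext e
    simp only [Set.mem_univ, Set.mem_iUnion, Set.mem_ofPred_eq, true_iff]
    exact ⟨PIm.depth e + 1, Nat.lt_succ_self _⟩
  rw [h]
  exact Set.countable_iUnion PIm.countable_depth

theorem Aalg_separable {ω : Set ℕ} (D : ω → Dat) :
    TopologicalSpace.SeparableSpace (Aalg D) := by
  refine ⟨⟨Set.range fun e : Expr => (⟨Ev D Set.univ e, Ev_mem_Aalg D e⟩ : Aalg D),
    Set.countable_range _, ?_⟩⟩
  intro a
  rw [Metric.mem_closure_iff]
  intro ε hε
  obtain ⟨e, he⟩ := Aalg_approx D a.1 a.2 ε hε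
  refine ⟨_, ⟨e, rfl⟩, ?_⟩
  rw [Subtype.dist_eq, dist_comm, dist_eq_norm]
  exact he

/-! ### Pure infiniteness -/

namespace PIm

variable {ω : Set ℕ} {D : ω → Dat}

/-- Words with copy numbers `< Q`. -/
def W (D : ω → Dat) (Q : ℕ) : Set (List (Lett D Set.univ)) := {d | ∀ l ∈ d, l.1.2.2 < Q}

/-- Closed span of the words with copy numbers `< Q`. -/
def HQ (D : ω → Dat) (Q : ℕ) : Submodule ℂ (Fk D Set.univ) :=
  (Submodule.span ℂ (bas '' W D Q)).topologicalClosure

/-- Append `l₀ :: t`. -/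
def J (l₀ : Lett D Set.univ) (t : List (Lett D Set.univ)) : Fk D Set.univ →L[ℂ] Fk D Set.univ :=
  opOf (fun d => bas (d ++ l₀ :: t))

theorem J_bas (l₀ : Lett D Set.univ) (t d : List (Lett D Set.univ)) :
    J l₀ t (bas d) = bas (d ++ l₀ :: t) := by
  classical
  have h : Orthonormal ℂ (fun d : List (Lett D Set.univ) => bas (d ++ l₀ :: t)) :=
    bas_orthonormal.comp (fun d => d ++ l₀ :: t) (List.append_left_injective _)
  exact opOf_single _ h d

theorem nil_mem_W (Q : ℕ) : ([] : List (Lett D Set.univ)) ∈ W D Q := by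
  intro l hl
  simp at hl

theorem cons_mem_W {Q : ℕ} {l : Lett D Set.univ} {d : List (Lett D Set.univ)} :
    l :: d ∈ W D Q ↔ l.1.2.2 < Q ∧ d ∈ W D Q := by
  simp [W]

theorem bas_mem_HQ {Q : ℕ} {d : List (Lett D Set.univ)} (hd : d ∈ W D Q) :
    bas d ∈ HQ D Q :=
  Submodule.le_topologicalClosure _ (Submodule.subset_span ⟨d, hd, rfl⟩)

theorem HQ_closed (Q : ℕ) : IsClosed (HQ D Q : Set (Fk D Set.univ)) :=
  Submodule.isClosed_topologicalClosure _

/-- `T` preserves `HQ` and commutes with `J` on it. -/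
def Half (Q : ℕ) (l₀ : Lett D Set.univ) (t : List (Lett D Set.univ))
    (T : Fk D Set.univ →L[ℂ] Fk D Set.univ) : Prop :=
  ∀ v ∈ HQ D Q, T v ∈ HQ D Q ∧ T (J l₀ t v) = J l₀ t (T v)

theorem half_of_bas {Q : ℕ} {l₀ : Lett D Set.univ} {t : List (Lett D Set.univ)}
    {T : Fk D Set.univ →L[ℂ] Fk D Set.univ}
    (h : ∀ d ∈ W D Q, T (bas d) ∈ HQ D Q ∧ T (bas (d ++ l₀ :: t)) = J l₀ t (T (bas d))) :
    Half Q l₀ t T := by
  have h1 : HQ D Q ≤ (HQ D Q).comap (T : Fk D Set.univ →ₗ[ℂ] Fk D Set.univ) := by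
    refine Submodule.topologicalClosure_minimal _ ?_ ?_
    · rw [Submodule.span_le]
      rintro _ ⟨d, hd, rfl⟩
      exact (h d hd).1
    · exact (HQ_closed Q).preimage T.continuous
  have h2 : HQ D Q ≤ LinearMap.ker ((T ∘L J l₀ t - J l₀ t ∘L T :
      Fk D Set.univ →L[ℂ] Fk D Set.univ) : Fk D Set.univ →ₗ[ℂ] Fk D Set.univ) := by
    refine Submodule.topologicalClosure_minimal _ ?_ ?_
    · rw [Submodule.span_le]
      rintro _ ⟨d, hd, rfl⟩
      show (T ∘L J l₀ t - J l₀ t ∘L T) (bas d) = 0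
      rw [sub_apply, ContinuousLinearMap.comp_apply,
        ContinuousLinearMap.comp_apply, J_bas, (h d hd).2, sub_self]
    · exact (T ∘L J l₀ t - J l₀ t ∘L T).isClosed_ker
  intro v hv
  refine ⟨h1 hv, ?_⟩
  have h3 : (T ∘L J l₀ t - J l₀ t ∘L T) v = 0 := h2 hv
  rw [sub_apply, ContinuousLinearMap.comp_apply,
    ContinuousLinearMap.comp_apply, sub_eq_zero] at h3
  exact h3

theorem Half.mul {Q : ℕ} {l₀ : Lett D Set.univ} {t : List (Lett D Set.univ)}
    {T S : Fk D Set.univ →L[ℂ] Fk D Set.univ} (hT : Half Q l₀ t T) (hS : Half Q l₀ t S) :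
    Half Q l₀ t (T * S) := by
  intro v hv
  obtain ⟨h1, h2⟩ := hS v hv
  obtain ⟨h3, h4⟩ := hT _ h1
  exact ⟨h3, by rw [mul_apply_eq_comp, h2, h4, mul_apply_eq_comp]⟩

theorem Half.add {Q : ℕ} {l₀ : Lett D Set.univ} {t : List (Lett D Set.univ)}
    {T S : Fk D Set.univ →L[ℂ] Fk D Set.univ} (hT : Half Q l₀ t T) (hS : Half Q l₀ t S) :
    Half Q l₀ t (T + S) := by
  intro v hv
  obtain ⟨h1, h2⟩ := hS v hv
  obtain ⟨h3, h4⟩ := hT v hv
  refine ⟨add_mem h3 h1, ?_⟩
  rw [add_apply, add_apply, h2, h4, map_add]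

theorem half_algebraMap (Q : ℕ) (l₀ : Lett D Set.univ) (t : List (Lett D Set.univ)) (z : ℂ) :
    Half Q l₀ t (algebraMap ℂ (Fk D Set.univ →L[ℂ] Fk D Set.univ) z) := by
  intro v hv
  rw [Algebra.algebraMap_eq_smul_one]
  refine ⟨Submodule.smul_mem _ z hv, ?_⟩
  rw [smul_apply, smul_apply, map_smul]
  rfl

theorem half_zero (Q : ℕ) (l₀ : Lett D Set.univ) (t : List (Lett D Set.univ)) :
    Half Q l₀ t 0 := by
  intro v _
  exact ⟨zero_mem _, by simp⟩

/-- Both halves. -/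
def Full (Q : ℕ) (l₀ : Lett D Set.univ) (t : List (Lett D Set.univ))
    (T : Fk D Set.univ →L[ℂ] Fk D Set.univ) : Prop :=
  Half Q l₀ t T ∧ Half Q l₀ t (star T)

theorem full_cr {Q : ℕ} {l₀ : Lett D Set.univ} {t : List (Lett D Set.univ)}
    (h0 : l₀.1.2.2 = Q) (l : Lett D Set.univ) (hl : l.1.2.2 < Q) : Full Q l₀ t (cr l) := by
  have hne : l ≠ l₀ := by
    rintro rfl
    omega
  constructor
  · refine half_of_bas fun d hd => ?_
    rw [cr_bas, cr_bas, J_bas]
    exact ⟨bas_mem_HQ (cons_mem_W.2 ⟨hl, hd⟩), rfl⟩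
  · refine half_of_bas fun d hd => ?_
    cases d with
    | nil =>
      rw [cr_star_nil, List.nil_append, cr_star_cons_ne l l₀ hne, map_zero]
      exact ⟨zero_mem _, rfl⟩
    | cons l' d =>
      rw [cons_mem_W] at hd
      by_cases h : l = l'
      · subst h
        rw [List.cons_append, cr_star_cons_same, cr_star_cons_same, J_bas]
        exact ⟨bas_mem_HQ hd.2, rfl⟩
      · rw [List.cons_append, cr_star_cons_ne l l' h, cr_star_cons_ne l l' h, map_zero]
        exact ⟨zero_mem _, rfl⟩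

theorem sum_triv (B : Dat) (hB : B = ⟨1, fun _ => 1⟩) (a : Fin B.1) (i : Ix) :
    ∑ b : Fin B.1, (B.2 i : Matrix (Fin B.1) (Fin B.1) ℂ) b a = 1 := by
  subst hB
  have ha : a = 0 := Subsingleton.elim _ _
  subst ha
  simp

theorem sum_triv' (B : Dat) (hB : B = ⟨1, fun _ => 1⟩) (a : Fin B.1) (i : Ix) :
    ∑ b : Fin B.1, (star (B.2 i : Matrix (Fin B.1) (Fin B.1) ℂ)) b a = 1 := by
  subst hB
  have ha : a = 0 := Subsingleton.elim _ _
  subst ha
  simp

theorem chg_triv (l : Lett D Set.univ) (hl : l.blk = ⟨1, fun _ => 1⟩) (b : Fin l.blk.1) :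
    l.chg b = l := by
  have h1 : l.blk.1 = 1 := by rw [hl]
  have hb : (b : ℕ) = 0 := by
    have := b.2
    omega
  have ha : l.1.2.1 = 0 := by
    have : (l.idx : ℕ) < l.blk.1 := l.idx.2
    have h2 : (l.idx : ℕ) = l.1.2.1 := rfl
    omega
  apply Subtype.ext
  show (l.1.1, (b : ℕ), l.1.2.2) = l.1
  rw [hb, ← ha]

theorem xop_triv (l : Lett D Set.univ) (hl : l.blk = ⟨1, fun _ => 1⟩) (i : Ix)
    (t : List (Lett D Set.univ)) : xop D Set.univ i (bas (l :: t)) = bas (l :: t) := by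
  rw [xop_bas]
  show ∑ b : Fin l.blk.1,
      (l.blk.2 i : Matrix (Fin l.blk.1) (Fin l.blk.1) ℂ) b l.idx • bas (l.chg b :: t) = _
  simp_rw [chg_triv l hl]
  rw [← Finset.sum_smul, sum_triv _ hl, one_smul]

theorem xop_star_triv (l : Lett D Set.univ) (hl : l.blk = ⟨1, fun _ => 1⟩) (i : Ix)
    (t : List (Lett D Set.univ)) : star (xop D Set.univ i) (bas (l :: t)) = bas (l :: t) := by
  rw [xop_star_cons]
  simp_rw [chg_triv l hl]
  rw [← Finset.sum_smul, sum_triv' _ hl, one_smul]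

theorem full_xop {Q : ℕ} {l₀ : Lett D Set.univ} {t : List (Lett D Set.univ)}
    (hl : l₀.blk = ⟨1, fun _ => 1⟩) (i : Ix) : Full Q l₀ t (xop D Set.univ i) := by
  constructor
  · refine half_of_bas fun d hd => ?_
    cases d with
    | nil =>
      rw [List.nil_append, xop_triv l₀ hl, xop_bas]
      exact ⟨bas_mem_HQ (nil_mem_W Q), (J_bas l₀ t []).symm⟩
    | cons l d =>
      rw [cons_mem_W] at hd
      rw [List.cons_append, xop_bas, xop_bas]
      constructor
      · refine Submodule.sum_mem _ fun b _ => Submodule.smul_mem _ _ ?_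
        exact bas_mem_HQ (cons_mem_W.2 hd)
      · show ∑ b : Fin l.blk.1, (l.blk.2 i : Matrix (Fin l.blk.1) (Fin l.blk.1) ℂ) b l.idx •
          bas (l.chg b :: (d ++ l₀ :: t)) = J l₀ t (∑ b : Fin l.blk.1,
            (l.blk.2 i : Matrix (Fin l.blk.1) (Fin l.blk.1) ℂ) b l.idx • bas (l.chg b :: d))
        rw [map_sum]
        refine Finset.sum_congr rfl fun b _ => ?_
        rw [map_smul, J_bas, List.cons_append]
  · refine half_of_bas fun d hd => ?_
    cases d with
    | nil =>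
      rw [List.nil_append, xop_star_triv l₀ hl, xop_star_nil]
      exact ⟨bas_mem_HQ (nil_mem_W Q), (J_bas l₀ t []).symm⟩
    | cons l d =>
      rw [cons_mem_W] at hd
      rw [List.cons_append, xop_star_cons, xop_star_cons]
      constructor
      · refine Submodule.sum_mem _ fun b _ => Submodule.smul_mem _ _ ?_
        exact bas_mem_HQ (cons_mem_W.2 hd)
      · rw [map_sum]
        refine Finset.sum_congr rfl fun b _ => ?_
        rw [map_smul, J_bas, List.cons_append]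

theorem full_Ev (e : Expr) : ∃ Q₀ : ℕ, ∀ Q, Q₀ ≤ Q → ∀ l₀ : Lett D Set.univ, l₀.1.2.2 = Q →
    l₀.blk = ⟨1, fun _ => 1⟩ → ∀ t, Full Q l₀ t (Ev D Set.univ e) := by
  induction e with
  | lit l =>
    refine ⟨l.2.2 + 1, fun Q hQ l₀ h0 _ t => ?_⟩
    show Full Q l₀ t (Sop D Set.univ l)
    by_cases h : ∃ h : l.1 ∈ ω, l.2.1 < (D ⟨l.1, h⟩).1 ∧ l.2.2 ∈ Set.univ
    · rw [Sop_mem l h]
      exact full_cr h0 _ (by show l.2.2 < Q; omega)
    · rw [Sop_not_mem l h]
      exact ⟨half_zero _ _ _, by rw [star_zero]; exact half_zero _ _ _⟩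
  | gen i => exact ⟨0, fun Q _ l₀ _ hl t => full_xop hl i⟩
  | st e ih =>
    obtain ⟨Q₀, h⟩ := ih
    refine ⟨Q₀, fun Q hQ l₀ h0 hl t => ?_⟩
    obtain ⟨h1, h2⟩ := h Q hQ l₀ h0 hl t
    exact ⟨h2, by
      show Half Q l₀ t (star (star (Ev D Set.univ e)))
      rwa [star_star]⟩
  | cst p q =>
    refine ⟨0, fun Q _ l₀ _ _ t => ⟨half_algebraMap _ _ _ _, ?_⟩⟩
    show Half Q l₀ t (star (algebraMap ℂ (Fk D Set.univ →L[ℂ] Fk D Set.univ)
      ((p : ℂ) + (q : ℂ) * Complex.I)))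
    rw [← algebraMap_star_comm]
    exact half_algebraMap _ _ _ _
  | add e f ihe ihf =>
    obtain ⟨Q₁, h1⟩ := ihe
    obtain ⟨Q₂, h2⟩ := ihf
    refine ⟨max Q₁ Q₂, fun Q hQ l₀ h0 hl t => ?_⟩
    obtain ⟨h3, h4⟩ := h1 Q (le_trans (le_max_left _ _) hQ) l₀ h0 hl t
    obtain ⟨h5, h6⟩ := h2 Q (le_trans (le_max_right _ _) hQ) l₀ h0 hl t
    refine ⟨h3.add h5, ?_⟩
    show Half Q l₀ t (star (Ev D Set.univ e + Ev D Set.univ f))
    rw [star_add]
    exact h4.add h6
  | mul e f ihe ihf =>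
    obtain ⟨Q₁, h1⟩ := ihe
    obtain ⟨Q₂, h2⟩ := ihf
    refine ⟨max Q₁ Q₂, fun Q hQ l₀ h0 hl t => ?_⟩
    obtain ⟨h3, h4⟩ := h1 Q (le_trans (le_max_left _ _) hQ) l₀ h0 hl t
    obtain ⟨h5, h6⟩ := h2 Q (le_trans (le_max_right _ _) hQ) l₀ h0 hl t
    refine ⟨h3.mul h5, ?_⟩
    show Half Q l₀ t (star (Ev D Set.univ e * Ev D Set.univ f))
    rw [star_mul]
    exact h6.mul h4

theorem append_inj_aux {Q : ℕ} {l₀ : Lett D Set.univ} (h0 : l₀.1.2.2 = Q) :
    ∀ {d d' t t' : List (Lett D Set.univ)}, d ∈ W D Q → d' ∈ W D Q →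
      d ++ l₀ :: t = d' ++ l₀ :: t' → d = d' ∧ t = t'
  | [], [], t, t', _, _, h => ⟨rfl, (List.cons.inj h).2⟩
  | [], l' :: d', t, t', _, hd', h => by
    rw [cons_mem_W] at hd'
    have : l₀ = l' := (List.cons.inj h).1
    subst this
    omega
  | l :: d, [], t, t', hd, _, h => by
    rw [cons_mem_W] at hd
    have : l = l₀ := (List.cons.inj h).1
    subst this
    omega
  | l :: d, l' :: d', t, t', hd, hd', h => by
    rw [cons_mem_W] at hd hd'
    obtain ⟨h1, h2⟩ := List.cons.inj h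
    obtain ⟨h3, h4⟩ := append_inj_aux h0 hd.2 hd'.2 h2
    exact ⟨by rw [h1, h3], h4⟩

open Classical in
theorem inner_bas (d d' : List (Lett D Set.univ)) :
    ⟪bas d, bas d'⟫_ℂ = if d = d' then 1 else 0 := by
  have h := orthonormal_iff_ite.1 (bas_orthonormal (D := D) (q := Set.univ)) d d'
  exact h

open Classical in
theorem inner_J {Q : ℕ} {l₀ : Lett D Set.univ} (h0 : l₀.1.2.2 = Q)
    (t t' : List (Lett D Set.univ)) (u v : Fk D Set.univ) (hu : u ∈ HQ D Q) (hv : v ∈ HQ D Q) :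
    ⟪J l₀ t u, J l₀ t' v⟫_ℂ = if t = t' then ⟪u, v⟫_ℂ else 0 := by
  -- first on basis vectors, then `u` arbitrary, then `v` arbitrary
  have key : ∀ d ∈ W D Q, ∀ d' ∈ W D Q, ⟪J l₀ t (bas d), J l₀ t' (bas d')⟫_ℂ =
      if t = t' then ⟪bas d, bas d'⟫_ℂ else 0 := by
    intro d hd d' hd'
    rw [J_bas, J_bas, inner_bas, inner_bas]
    by_cases h : d ++ l₀ :: t = d' ++ l₀ :: t'
    · obtain ⟨h1, h2⟩ := append_inj_aux h0 hd hd' h
      simp [h1, h2]
    · by_cases h2 : t = t'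
      · subst h2
        have h3 : d ≠ d' := by
          rintro rfl
          exact h rfl
        rw [if_neg h, if_pos rfl, if_neg h3]
      · rw [if_neg h, if_neg h2]
  set c : ℂ := if t = t' then 1 else 0 with hc
  -- the operator `T = J_t^* J_t' - c`
  set T : Fk D Set.univ →L[ℂ] Fk D Set.univ :=
    ContinuousLinearMap.adjoint (J l₀ t) ∘L J l₀ t' - c • (1 : Fk D Set.univ →L[ℂ] Fk D Set.univ)
    with hT
  have hTin : ∀ x y : Fk D Set.univ, ⟪x, T y⟫_ℂ = ⟪J l₀ t x, J l₀ t' y⟫_ℂ - c * ⟪x, y⟫_ℂ := by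
    intro x y
    rw [hT, sub_apply, inner_sub_right, ContinuousLinearMap.comp_apply,
      ContinuousLinearMap.adjoint_inner_right, smul_apply, inner_smul_right]
    rfl
  have h1 : HQ D Q ≤ ((HQ D Q)ᗮ).comap (T : Fk D Set.univ →ₗ[ℂ] Fk D Set.univ) := by
    refine Submodule.topologicalClosure_minimal _ ?_ ?_
    · rw [Submodule.span_le]
      rintro _ ⟨d', hd', rfl⟩
      show T (bas d') ∈ (HQ D Q)ᗮ
      rw [HQ, Submodule.orthogonal_closure, Submodule.mem_orthogonal]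
      intro x hx
      induction hx using Submodule.span_induction with
      | mem x hx =>
        obtain ⟨d, hd, rfl⟩ := hx
        rw [hTin, key d hd d' hd', hc]
        split_ifs <;> simp
      | zero => rw [inner_zero_left]
      | add x y _ _ hx hy => rw [inner_add_left, hx, hy, add_zero]
      | smul z x _ hx => rw [inner_smul_left, hx, mul_zero]
    · exact (Submodule.isClosed_orthogonal _).preimage T.continuous
  have h2 : ⟪u, T v⟫_ℂ = 0 := (Submodule.mem_orthogonal _ _).1 (h1 hv) u hu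
  rw [hTin, sub_eq_zero] at h2
  rw [h2, hc]
  split_ifs <;> simp

theorem prod_cr_bas (m t : List (Lett D Set.univ)) : (m.map cr).prod (bas t) = bas (m ++ t) := by
  induction m with
  | nil => rfl
  | cons l m ih =>
    rw [List.map_cons, List.prod_cons, mul_apply_eq_comp, ih, cr_bas,
      List.cons_append]

theorem prod_cr_star (m : List (Lett D Set.univ)) :
    star (m.map cr).prod * (m.map cr).prod = (1 : Fk D Set.univ →L[ℂ] Fk D Set.univ) := by
  induction m with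
  | nil => simp
  | cons l m ih =>
    rw [List.map_cons, List.prod_cons, star_mul, mul_assoc, ← mul_assoc (star (cr l)),
      cr_star_mul_same, one_mul, ih]

theorem prod_cr_mem (m : List (Lett D Set.univ)) : (m.map cr).prod ∈ Aalg D := by
  induction m with
  | nil => exact one_mem _
  | cons l m ih =>
    rw [List.map_cons, List.prod_cons]
    refine mul_mem ?_ ih
    exact StarSubalgebra.le_topologicalClosure _
      (StarAlgebra.subset_adjoin ℂ _ (Or.inl ⟨l, rfl⟩))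

theorem norm_prod_cr (m : List (Lett D Set.univ)) :
    ‖((m.map cr).prod : Fk D Set.univ →L[ℂ] Fk D Set.univ)‖ ≤ 1 := by
  have h := CStarRing.norm_star_mul_self (x := ((m.map cr).prod :
    Fk D Set.univ →L[ℂ] Fk D Set.univ))
  rw [prod_cr_star] at h
  have h1 : ‖(1 : Fk D Set.univ →L[ℂ] Fk D Set.univ)‖ ≤ 1 := ContinuousLinearMap.norm_id_le
  nlinarith [norm_nonneg ((m.map cr).prod : Fk D Set.univ →L[ℂ] Fk D Set.univ)]

theorem exact_cut {Q : ℕ} {l₀ : Lett D Set.univ} (h0 : l₀.1.2.2 = Q)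
    {b : Fk D Set.univ →L[ℂ] Fk D Set.univ} (hb : ∀ t, Full Q l₀ t b)
    (γ : List (Lett D Set.univ)) (hγ : γ ∈ W D Q) :
    star (((γ ++ [l₀]).map cr).prod) * (star b * b) * ((γ ++ [l₀]).map cr).prod =
      ((‖b (bas γ)‖ ^ 2 : ℝ) : ℂ) • (1 : Fk D Set.univ →L[ℂ] Fk D Set.univ) := by
  classical
  set S : Fk D Set.univ →L[ℂ] Fk D Set.univ := ((γ ++ [l₀]).map cr).prod with hS
  have hSb : ∀ t, b (S (bas t)) = J l₀ t (b (bas γ)) := by
    intro t
    have h1 : S (bas t) = J l₀ t (bas γ) := by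
      rw [hS, prod_cr_bas, J_bas, List.append_assoc]
      rfl
    rw [h1]
    exact ((hb t).1 _ (bas_mem_HQ hγ)).2
  have hu : b (bas γ) ∈ HQ D Q := ((hb []).1 _ (bas_mem_HQ hγ)).1
  refine fk_ext fun t => ?_
  -- compare matrix coefficients
  have hco : ∀ x y : Fk D Set.univ, (∀ t', ⟪bas t', x⟫_ℂ = ⟪bas t', y⟫_ℂ) → x = y := by
    intro x y h
    have h1 : x - y ∈ (⊤ : Submodule ℂ (Fk D Set.univ))ᗮ := by
      rw [← bas_span_dense (D := D) (q := Set.univ), Submodule.orthogonal_closure,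
        Submodule.mem_orthogonal]
      intro z hz
      induction hz using Submodule.span_induction with
      | mem z hz =>
        obtain ⟨t', rfl⟩ := hz
        rw [inner_sub_right, h t', sub_self]
      | zero => rw [inner_zero_left]
      | add x y _ _ hx hy => rw [inner_add_left, hx, hy, add_zero]
      | smul z x _ hx => rw [inner_smul_left, hx, mul_zero]
    rw [Submodule.top_orthogonal_eq_bot, Submodule.mem_bot, sub_eq_zero] at h1
    exact h1
  refine hco _ _ fun t' => ?_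
  have h2 : ⟪bas t', (star S * (star b * b) * S) (bas t)⟫_ℂ =
      ⟪b (S (bas t')), b (S (bas t))⟫_ℂ := by
    rw [mul_apply_eq_comp, mul_apply_eq_comp,
      mul_apply_eq_comp, ContinuousLinearMap.star_eq_adjoint,
      ContinuousLinearMap.star_eq_adjoint, ContinuousLinearMap.adjoint_inner_right,
      ContinuousLinearMap.adjoint_inner_right]
  rw [h2, hSb, hSb, inner_J h0 t' t _ _ hu hu, smul_apply,
    ContinuousLinearMap.one_apply, inner_smul_right, inner_bas,
    inner_self_eq_norm_sq_to_K]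
  split_ifs <;> simp

end PIm

theorem Aalg_pi {ω : Set ℕ} (D : ω → Dat) (h0 : 0 ∈ ω) (hD : D ⟨0, h0⟩ = ⟨1, fun _ => 1⟩)
    (a : Fk D Set.univ →L[ℂ] Fk D Set.univ) (ha : a ∈ Aalg D) (ha0 : a ≠ 0)
    (ε : ℝ) (hε : 0 < ε) :
    ∃ z ∈ Aalg D, ‖star z * (star a * a) * z - 1‖ < ε := by
  -- a basis word with non-zero image
  obtain ⟨γ, hγ⟩ : ∃ γ, a (bas γ) ≠ 0 := by
    by_contra hcon
    push Not at hcon
    exact ha0 (fk_ext (S := 0) fun γ => by rw [hcon γ]; rfl)
  set k₀ : ℝ := ‖a (bas γ)‖ ^ 2 with hk₀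
  have hk₀pos : 0 < k₀ := by positivity
  -- approximate by a polynomial
  have hopen : IsOpen {T : Fk D Set.univ →L[ℂ] Fk D Set.univ |
      ‖star a * a - star T * T‖ < ε * (k₀ / 2) ∧ k₀ / 2 < ‖T (bas γ)‖ ^ 2} := by
    have c1 : Continuous fun T : Fk D Set.univ →L[ℂ] Fk D Set.univ =>
        ‖star a * a - star T * T‖ :=
      (continuous_const.sub (continuous_star.mul continuous_id)).norm
    have c2 : Continuous fun T : Fk D Set.univ →L[ℂ] Fk D Set.univ => ‖T (bas γ)‖ ^ 2 :=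
      ((ContinuousLinearMap.apply ℂ (Fk D Set.univ) (bas γ)).continuous.norm).pow 2
    have o1 := isOpen_lt c1 (continuous_const (y := ε * (k₀ / 2)))
    have o2 := isOpen_lt (continuous_const (y := k₀ / 2)) c2
    exact o1.inter o2
  have hmem : a ∈ {T : Fk D Set.univ →L[ℂ] Fk D Set.univ |
      ‖star a * a - star T * T‖ < ε * (k₀ / 2) ∧ k₀ / 2 < ‖T (bas γ)‖ ^ 2} := by
    refine ⟨?_, ?_⟩
    · rw [sub_self, norm_zero]
      positivity
    · rw [← hk₀]
      linarith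
  obtain ⟨_, ⟨h1, h2⟩, ⟨e, rfl⟩⟩ :=
    mem_closure_iff.1 (PIm.mem_closure_Ev a ha) _ hopen hmem
  set b := Ev D Set.univ e with hb
  obtain ⟨Q₀, hQ₀⟩ := PIm.full_Ev (D := D) e
  -- the word `γ` has bounded copy numbers
  obtain ⟨Q₁, hQ₁⟩ : ∃ Q₁ : ℕ, ∀ l ∈ γ, l.1.2.2 < Q₁ := by
    clear_value k₀ b
    clear hγ hk₀ hopen hmem h1 h2
    induction γ with
    | nil => exact ⟨0, by simp⟩
    | cons l γ ih =>
      obtain ⟨Q₁, h⟩ := ih
      refine ⟨max Q₁ (l.1.2.2 + 1), fun l' hl' => ?_⟩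
      rcases List.mem_cons.1 hl' with rfl | hl'
      · omega
      · have := h l' hl'
        omega
  set Q := max Q₀ Q₁ with hQ
  have hlt : (0 : ℕ) < (D ⟨0, h0⟩).1 := by rw [hD]; exact Nat.one_pos
  let l₀ : Lett D Set.univ := ⟨(0, 0, Q), h0, hlt, Set.mem_univ _⟩
  have hblk : l₀.blk = ⟨1, fun _ => 1⟩ := hD
  have hfull := hQ₀ Q (le_max_left _ _) l₀ rfl hblk
  have hγW : γ ∈ PIm.W D Q := fun l hl => lt_of_lt_of_le (hQ₁ l hl) (le_max_right _ _)
  have hcut := PIm.exact_cut (l₀ := l₀) rfl hfull γ hγW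
  set S : Fk D Set.univ →L[ℂ] Fk D Set.univ := ((γ ++ [l₀]).map cr).prod with hS
  have hSn : ‖S‖ ≤ 1 := PIm.norm_prod_cr _
  have hSm : S ∈ Aalg D := PIm.prod_cr_mem _
  set k : ℝ := ‖b (bas γ)‖ with hk
  have hk2 : k₀ / 2 < k ^ 2 := h2
  have hkpos : 0 < k := by
    have : k ≠ 0 := by
      intro h
      rw [h] at hk2
      simp at hk2
      linarith
    exact lt_of_le_of_ne (norm_nonneg _) (Ne.symm this)
  refine ⟨((k⁻¹ : ℝ) : ℂ) • S, (Aalg D).smul_mem hSm _, ?_⟩
  have hone : star (((k⁻¹ : ℝ) : ℂ) • S) * (star b * b) * (((k⁻¹ : ℝ) : ℂ) • S) = 1 := by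
    rw [star_smul, Complex.star_def, Complex.conj_ofReal, smul_mul_assoc, smul_mul_assoc,
      mul_smul_comm, hcut, smul_smul, smul_smul]
    have : (((k⁻¹ : ℝ) : ℂ) * ((k⁻¹ : ℝ) : ℂ) * ((k ^ 2 : ℝ) : ℂ)) = 1 := by
      push_cast
      have hk0 : (k : ℂ) ≠ 0 := by exact_mod_cast hkpos.ne'
      field_simp
    rw [this, one_smul]
  have hz : ‖((k⁻¹ : ℝ) : ℂ) • S‖ ≤ k⁻¹ := by
    rw [norm_smul, Complex.norm_real, Real.norm_of_nonneg (inv_nonneg.2 hkpos.le)]
    calc k⁻¹ * ‖S‖ ≤ k⁻¹ * 1 := by gcongr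
      _ = k⁻¹ := mul_one _
  generalize ((k⁻¹ : ℝ) : ℂ) • S = z at hone hz ⊢
  have hdiff : star z * (star a * a) * z - 1 = star z * (star a * a - star b * b) * z := by
    rw [mul_sub, sub_mul, hone]
  have hz' : ‖star z‖ ≤ k⁻¹ := by
    have : ‖star z‖ = ‖z‖ := LinearIsometryEquiv.norm_map ContinuousLinearMap.adjoint z
    rw [this]
    exact hz
  rw [hdiff]
  calc _ ≤ ‖star z * (star a * a - star b * b)‖ * ‖z‖ := norm_mul_le _ _
    _ ≤ (‖star z‖ * ‖star a * a - star b * b‖) * ‖z‖ := by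
      gcongr
      exact norm_mul_le _ _
    _ ≤ (k⁻¹ * ‖star a * a - star b * b‖) * k⁻¹ := by
      gcongr
    _ = ‖star a * a - star b * b‖ / k ^ 2 := by
      field_simp
    _ < ε := by
      rw [div_lt_iff₀ (by positivity)]
      calc ‖star a * a - star b * b‖ < ε * (k₀ / 2) := h1
        _ ≤ ε * k ^ 2 := by gcongr

end Pool.Agent.C8B

end
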