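import Pool.Agent.Lib.MP_c8b4d4_an.Defs
import Pool.Agent.Lib.MP_c8b4d4_an.AmpB
import Pool.Agent.Lib.MP_c8b4d4_an.Fock

/-!
# MP_c8b4d4_an, module TRA

Transfer of the two quadratic form conditions along an anti-automorphism of the C*-algebra.
-/

set_option autoImplicit false

noncomputable section

namespace Pool.Agent.C8B

open scoped InnerProductSpace

namespace Tra

section Abstract

variable {H : Type*} [NormedAddCommGroup H] [InnerProductSpace ℂ H] [CompleteSpace H]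

/-- Positivity of a self-adjoint operator in terms of the norm. -/
theorem pos_iff_norm (z : H →L[ℂ] H) (hz : star z = z) (C : ℝ) (hC : ‖z‖ ≤ C) :
    (∀ u, 0 ≤ (⟪z u, u⟫_ℂ).re) ↔ ‖(C : ℂ) • (1 : H →L[ℂ] H) - z‖ ≤ C := by
  have hC0 : 0 ≤ C := le_trans (norm_nonneg _) hC
  have hsC : IsSelfAdjoint ((C : ℂ) • (1 : H →L[ℂ] H)) := by
    rw [IsSelfAdjoint, star_smul, star_one]
    simp
  have hsz : IsSelfAdjoint z := hz
  have hinC : ∀ u : H, (⟪((C : ℂ) • (1 : H →L[ℂ] H)) u, u⟫_ℂ).re = C * ‖u‖ ^ 2 := by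
    intro u
    rw [smul_apply, one_apply_eq_self, inner_smul_left, inner_self_eq_norm_sq_to_K]
    simp only [Complex.conj_ofReal]
    norm_cast
    exact Complex.re_ofReal_mul C _
  have hup : ∀ u : H, (⟪z u, u⟫_ℂ).re ≤ C * ‖u‖ ^ 2 := by
    intro u
    calc (⟪z u, u⟫_ℂ).re ≤ ‖⟪z u, u⟫_ℂ‖ := Complex.re_le_norm _
      _ ≤ ‖z u‖ * ‖u‖ := norm_inner_le_norm _ _
      _ ≤ (‖z‖ * ‖u‖) * ‖u‖ := by gcongr; exact z.le_opNorm u
      _ ≤ (C * ‖u‖) * ‖u‖ := by gcongr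
      _ = C * ‖u‖ ^ 2 := by ring
  constructor
  · intro h
    have h1 : 0 ≤ (C : ℂ) • (1 : H →L[ℂ] H) - z := by
      rw [ContinuousLinearMap.nonneg_iff_isPositive, ContinuousLinearMap.isPositive_def']
      refine ⟨hsC.sub hsz, fun u => ?_⟩
      rw [ContinuousLinearMap.reApplyInnerSelf_apply]
      show 0 ≤ (⟪((C : ℂ) • (1 : H →L[ℂ] H) - z) u, u⟫_ℂ).re
      rw [sub_apply, inner_sub_left, Complex.sub_re, hinC u]
      linarith [hup u]
    have h2 : (C : ℂ) • (1 : H →L[ℂ] H) - z ≤ (C : ℂ) • (1 : H →L[ℂ] H) := by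
      rw [← sub_nonneg, ContinuousLinearMap.nonneg_iff_isPositive,
        ContinuousLinearMap.isPositive_def']
      have he : (C : ℂ) • (1 : H →L[ℂ] H) - ((C : ℂ) • (1 : H →L[ℂ] H) - z) = z := by abel
      rw [he]
      refine ⟨hsz, fun u => ?_⟩
      rw [ContinuousLinearMap.reApplyInnerSelf_apply]
      exact h u
    have h3 := CStarAlgebra.norm_le_norm_of_nonneg_of_le h1 h2
    refine h3.trans ?_
    rw [norm_smul]
    have h4 : ‖(1 : H →L[ℂ] H)‖ ≤ 1 := ContinuousLinearMap.norm_id_le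
    have h5 : ‖(C : ℂ)‖ = C := by simp [abs_of_nonneg hC0]
    rw [h5]
    nlinarith
  · intro h u
    have h1 : (⟪((C : ℂ) • (1 : H →L[ℂ] H) - z) u, u⟫_ℂ).re ≤ C * ‖u‖ ^ 2 := by
      calc (⟪((C : ℂ) • (1 : H →L[ℂ] H) - z) u, u⟫_ℂ).re
          ≤ ‖⟪((C : ℂ) • (1 : H →L[ℂ] H) - z) u, u⟫_ℂ‖ := Complex.re_le_norm _
        _ ≤ ‖((C : ℂ) • (1 : H →L[ℂ] H) - z) u‖ * ‖u‖ := norm_inner_le_norm _ _
        _ ≤ (‖(C : ℂ) • (1 : H →L[ℂ] H) - z‖ * ‖u‖) * ‖u‖ := by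
            gcongr
            exact ContinuousLinearMap.le_opNorm _ u
        _ ≤ (C * ‖u‖) * ‖u‖ := by gcongr
        _ = C * ‖u‖ ^ 2 := by ring
    rw [sub_apply, inner_sub_left, Complex.sub_re, hinC u] at h1
    linarith

theorem inner_star_right' (T : H →L[ℂ] H) (x y : H) : ⟪T x, y⟫_ℂ = ⟪x, star T y⟫_ℂ := by
  rw [ContinuousLinearMap.star_eq_adjoint, ContinuousLinearMap.adjoint_inner_right]

/-- Sandwiching a matrix of operators between isometries with orthogonal ranges. -/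
theorem sandwich_iff {n : ℕ} (s : Fin n → H →L[ℂ] H)
    (hs : ∀ a b, star (s a) * s b = if a = b then 1 else 0)
    (M : Fin n → Fin n → H →L[ℂ] H) :
    (∀ ξ : Fin n → H, 0 ≤ (∑ a, ∑ b, ⟪M a b (ξ b), ξ a⟫_ℂ).re) ↔
      ∀ u, 0 ≤ (⟪(∑ a, ∑ b, s a * M a b * star (s b)) u, u⟫_ℂ).re := by
  have key : ∀ u : H, ⟪(∑ a, ∑ b, s a * M a b * star (s b)) u, u⟫_ℂ =
      ∑ a, ∑ b, ⟪M a b (star (s b) u), star (s a) u⟫_ℂ := by
    intro u
    rw [sum_apply, sum_inner]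
    refine Finset.sum_congr rfl fun a _ => ?_
    rw [sum_apply, sum_inner]
    refine Finset.sum_congr rfl fun b _ => ?_
    rw [mul_apply_eq_comp, mul_apply_eq_comp, inner_star_right']
  constructor
  · intro h u
    rw [key u]
    exact h fun a => star (s a) u
  · intro h ξ
    have h1 := h (∑ c, s c (ξ c))
    rw [key] at h1
    have h2 : ∀ a, star (s a) (∑ c, s c (ξ c)) = ξ a := by
      intro a
      rw [map_sum, Finset.sum_eq_single a]
      · rw [← mul_apply_eq_comp, hs a a, if_pos rfl, one_apply_eq_self]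
      · intro b _ hb
        rw [← mul_apply_eq_comp, hs a b, if_neg (Ne.symm hb)]
        simp
      · intro ha
        exact absurd (Finset.mem_univ a) ha
    simpa only [h2] using h1

/-- An anti-automorphism in the form used here. -/
structure Anti (A : StarSubalgebra ℂ (H →L[ℂ] H)) (χ : A →ₗ[ℂ] (H →L[ℂ] H)) : Prop where
  one : χ 1 = 1
  st : ∀ a, χ (star a) = star (χ a)
  mul : ∀ a b, χ (a * b) = χ b * χ a
  norm : ∀ a, ‖χ a‖ = ‖(a : H →L[ℂ] H)‖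

variable {A : StarSubalgebra ℂ (H →L[ℂ] H)} {χ : A →ₗ[ℂ] (H →L[ℂ] H)}

theorem Anti.pos_iff (hχ : Anti A χ) (z : A) (hz : star z = z) :
    (∀ u, 0 ≤ (⟪(z : H →L[ℂ] H) u, u⟫_ℂ).re) ↔ ∀ u, 0 ≤ (⟪χ z u, u⟫_ℂ).re := by
  have h1 : star (z : H →L[ℂ] H) = z := congrArg Subtype.val hz
  have h2 : star (χ z) = χ z := by rw [← hχ.st, hz]
  rw [pos_iff_norm (z : H →L[ℂ] H) h1 _ le_rfl,
    pos_iff_norm (χ z) h2 ‖(z : H →L[ℂ] H)‖ (hχ.norm z).le]
  have h3 : ‖((‖(z : H →L[ℂ] H)‖ : ℝ) : ℂ) • (1 : H →L[ℂ] H) - χ z‖ =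
      ‖((‖(z : H →L[ℂ] H)‖ : ℝ) : ℂ) • (1 : H →L[ℂ] H) - z‖ := by
    have h4 := hχ.norm (((‖(z : H →L[ℂ] H)‖ : ℝ) : ℂ) • (1 : A) - z)
    rw [map_sub, map_smul, hχ.one] at h4
    exact h4
  rw [h3]

/-- Transfer of positivity of a matrix with entries in the algebra. -/
theorem Anti.matrix_iff (hχ : Anti A χ) {n : ℕ} (s : Fin n → A)
    (hs : ∀ a b, star (s a) * s b = if a = b then 1 else 0)
    (M : Fin n → Fin n → A) (hM : ∀ a b, star (M a b) = M b a) :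
    (∀ ξ : Fin n → H, 0 ≤ (∑ a, ∑ b, ⟪(M a b : H →L[ℂ] H) (ξ b), ξ a⟫_ℂ).re) ↔
      ∀ ξ : Fin n → H, 0 ≤ (∑ a, ∑ b, ⟪χ (M b a) (ξ b), ξ a⟫_ℂ).re := by
  have hs1 : ∀ a b, star ((s a : A) : H →L[ℂ] H) * ((s b : A) : H →L[ℂ] H) =
      if a = b then 1 else 0 := by
    intro a b
    have h := congrArg (Subtype.val : A → (H →L[ℂ] H)) (hs a b)
    by_cases hab : a = b
    · rw [if_pos hab] at h ⊢
      exact h
    · rw [if_neg hab] at h ⊢
      exact h
  have hr : ∀ a b, star (star (χ (s a))) * star (χ (s b)) = if a = b then 1 else 0 := by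
    intro a b
    rw [star_star, ← hχ.st, ← hχ.mul, hs b a]
    by_cases hab : a = b
    · rw [if_pos hab, if_pos hab.symm, hχ.one]
    · rw [if_neg hab, if_neg (Ne.symm hab), map_zero]
  rw [sandwich_iff (fun a => ((s a : A) : H →L[ℂ] H)) hs1 (fun a b => (M a b : H →L[ℂ] H)),
    sandwich_iff (fun a => star (χ (s a))) hr (fun a b => χ (M b a))]
  have hz : star (∑ a, ∑ b, s a * M a b * star (s b)) = ∑ a, ∑ b, s a * M a b * star (s b) := by
    rw [star_sum]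
    simp only [star_sum, star_mul, star_star, hM]
    rw [Finset.sum_comm]
    refine Finset.sum_congr rfl fun a _ => Finset.sum_congr rfl fun b _ => ?_
    rw [mul_assoc]
  have h1 := hχ.pos_iff (∑ a, ∑ b, s a * M a b * star (s b)) hz
  have h2 : ((∑ a, ∑ b, s a * M a b * star (s b) : A) : H →L[ℂ] H) =
      ∑ a, ∑ b, ((s a : A) : H →L[ℂ] H) * (M a b : H →L[ℂ] H) * star ((s b : A) : H →L[ℂ] H) := by
    have h3 : ∀ (t : Finset (Fin n)) (f : Fin n → A),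
        ((∑ a ∈ t, f a : A) : H →L[ℂ] H) = ∑ a ∈ t, ((f a : A) : H →L[ℂ] H) := by
      intro t f
      exact map_sum A.subtype f t
    rw [h3]
    refine Finset.sum_congr rfl fun a _ => ?_
    rw [h3]
    rfl
  have h4 : χ (∑ a, ∑ b, s a * M a b * star (s b)) =
      ∑ a, ∑ b, star (χ (s a)) * χ (M b a) * star (star (χ (s b))) := by
    rw [map_sum]
    simp only [map_sum, hχ.mul, hχ.st, star_star]
    rw [Finset.sum_comm]
    refine Finset.sum_congr rfl fun a _ => Finset.sum_congr rfl fun b _ => ?_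
    rw [mul_assoc]
  rw [h2, h4] at h1
  exact h1

end Abstract

section Entries

variable {K : Type} [NormedAddCommGroup K] [InnerProductSpace ℂ K] [CompleteSpace K]

/-- The entries of `Del y w`. -/
def ent {n : ℕ} (y : Tup n) (w : Ix → K →L[ℂ] K) (a b : Fin n) : K →L[ℂ] K :=
  (if a = b then (16 : ℂ) else 0) • (1 : K →L[ℂ] K) -
    ∑ i, ((star (y i : Matrix (Fin n) (Fin n) ℂ)) a b • w i +
      (y i : Matrix (Fin n) (Fin n) ℂ) a b • star (w i))

theorem del_apply {n : ℕ} (y : Tup n) (w : Ix → K →L[ℂ] K) (ξ : Amp n K) (a : Fin n) :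
    Del y w ξ a = ∑ b, ent y w a b (ξ b) := by
  unfold Del ent
  simp only [sub_apply, smul_apply, sum_apply, add_apply, one_apply_eq_self, PiLp.sub_apply,
    PiLp.smul_apply, Finset.sum_sub_distrib]
  congr 1
  · simp only [ite_smul, zero_smul, Finset.sum_ite_eq, Finset.mem_univ, if_true]
  have h : ∀ (t : Finset Ix) (f : Ix → Amp n K), (∑ i ∈ t, f i) a = ∑ i ∈ t, f i a := by
    intro t f
    induction t using Finset.induction_on with
    | empty => simp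
    | insert i t hi ih => rw [Finset.sum_insert hi, Finset.sum_insert hi, PiLp.add_apply, ih]
  rw [h, Finset.sum_comm]
  refine Finset.sum_congr rfl fun i _ => ?_
  rw [PiLp.add_apply, amp_apply, amp_apply, ← Finset.sum_add_distrib]

theorem inner_del {n : ℕ} (y : Tup n) (w : Ix → K →L[ℂ] K) (ξ : Amp n K) :
    ⟪Del y w ξ, ξ⟫_ℂ = ∑ a, ∑ b, ⟪ent y w a b (ξ b), ξ a⟫_ℂ := by
  rw [PiLp.inner_apply]
  refine Finset.sum_congr rfl fun a _ => ?_
  rw [del_apply, sum_inner]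

omit [CompleteSpace K] in
theorem norm_sq_amp {n : ℕ} (ξ : Amp n K) : ‖ξ‖ ^ 2 = ∑ a, ‖ξ a‖ ^ 2 := by
  rw [PiLp.norm_sq_eq_of_L2]

/-- Quadratic form of `Del - κ`. -/
theorem form1 {n : ℕ} (y : Tup n) (w : Ix → K →L[ℂ] K) (κ : ℝ) (ξ : Amp n K) :
    (∑ a, ∑ b, ⟪(ent y w a b - (if a = b then (κ : ℂ) else 0) • (1 : K →L[ℂ] K)) (ξ b),
      ξ a⟫_ℂ).re = (⟪Del y w ξ, ξ⟫_ℂ).re - κ * ‖ξ‖ ^ 2 := by
  have h : ∑ a, ∑ b, ⟪(ent y w a b - (if a = b then (κ : ℂ) else 0) • (1 : K →L[ℂ] K)) (ξ b),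
      ξ a⟫_ℂ = ⟪Del y w ξ, ξ⟫_ℂ - ((κ * ‖ξ‖ ^ 2 : ℝ) : ℂ) := by
    rw [inner_del]
    simp only [sub_apply, inner_sub_left, Finset.sum_sub_distrib, smul_apply, one_apply_eq_self]
    congr 1
    rw [norm_sq_amp, Finset.mul_sum]
    push_cast
    refine Finset.sum_congr rfl fun a _ => ?_
    rw [Finset.sum_eq_single a]
    · rw [if_pos rfl, inner_smul_left, inner_self_eq_norm_sq_to_K, Complex.conj_ofReal]
      rfl
    · intro b _ hb
      rw [if_neg (Ne.symm hb), zero_smul, inner_zero_left]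
    · intro ha
      exact absurd (Finset.mem_univ a) ha
  rw [h, Complex.sub_re, Complex.ofReal_re]

/-- Quadratic form of `Del ^ 2 - κ Del`. -/
theorem form2 {n : ℕ} (y : Tup n) (w : Ix → K →L[ℂ] K) (κ : ℝ) (ξ : Amp n K) :
    (∑ a, ∑ b, ⟪(∑ c, ent y w a c * ent y w c b - (κ : ℂ) • ent y w a b) (ξ b),
      ξ a⟫_ℂ).re = ‖Del y w ξ‖ ^ 2 - κ * (⟪Del y w ξ, ξ⟫_ℂ).re := by
  have h0 : ⟪Del y w (Del y w ξ), ξ⟫_ℂ = ((‖Del y w ξ‖ ^ 2 : ℝ) : ℂ) := by
    rw [inner_star_right', del_selfAdjoint, inner_self_eq_norm_sq_to_K]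
    push_cast
    rfl
  have h1 : ⟪Del y w (Del y w ξ), ξ⟫_ℂ =
      ∑ a, ∑ b, ⟪(∑ c, ent y w a c * ent y w c b) (ξ b), ξ a⟫_ℂ := by
    rw [PiLp.inner_apply]
    refine Finset.sum_congr rfl fun a _ => ?_
    rw [del_apply, ← sum_inner]
    congr 1
    simp only [sum_apply]
    rw [Finset.sum_comm]
    refine Finset.sum_congr rfl fun c _ => ?_
    rw [del_apply, map_sum]
    refine Finset.sum_congr rfl fun b _ => ?_
    rw [mul_apply_eq_comp]
  have h : ∑ a, ∑ b, ⟪(∑ c, ent y w a c * ent y w c b - (κ : ℂ) • ent y w a b) (ξ b),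
      ξ a⟫_ℂ = ((‖Del y w ξ‖ ^ 2 : ℝ) : ℂ) - (κ : ℂ) * ⟪Del y w ξ, ξ⟫_ℂ := by
    rw [← h0, h1, inner_del, Finset.mul_sum, ← Finset.sum_sub_distrib]
    refine Finset.sum_congr rfl fun a _ => ?_
    rw [Finset.mul_sum, ← Finset.sum_sub_distrib]
    refine Finset.sum_congr rfl fun b _ => ?_
    rw [sub_apply, inner_sub_left, smul_apply, inner_smul_left, Complex.conj_ofReal]
  rw [h, Complex.sub_re, Complex.ofReal_re, Complex.re_ofReal_mul]

theorem ent_star {n : ℕ} (y : Tup n) (w : Ix → K →L[ℂ] K) (a b : Fin n) :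
    star (ent y w a b) = ent y w b a := by
  unfold ent
  rw [star_sub, star_sum, star_smul, star_one]
  congr 1
  · by_cases hab : a = b
    · rw [if_pos hab, if_pos hab.symm]
      congr 1
      simp
    · rw [if_neg hab, if_neg (Ne.symm hab)]
      simp
  · refine Finset.sum_congr rfl fun i _ => ?_
    rw [star_add, star_smul, star_smul, star_star, add_comm, Matrix.star_apply, Matrix.star_apply,
      star_star]

end Entries

section Alg

variable {H : Type} [NormedAddCommGroup H] [InnerProductSpace ℂ H] [CompleteSpace H]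
variable {A : StarSubalgebra ℂ (H →L[ℂ] H)} {χ : A →ₗ[ℂ] (H →L[ℂ] H)}

/-- The entries of `Del y w` in the algebra. -/
def entA {n : ℕ} (y : Tup n) (w : Ix → A) (a b : Fin n) : A :=
  (if a = b then (16 : ℂ) else 0) • (1 : A) -
    ∑ i, ((star (y i : Matrix (Fin n) (Fin n) ℂ)) a b • w i +
      (y i : Matrix (Fin n) (Fin n) ℂ) a b • star (w i))

theorem entA_coe {n : ℕ} (y : Tup n) (w : Ix → A) (a b : Fin n) :
    (entA y w a b : H →L[ℂ] H) = ent y (fun i => (w i : H →L[ℂ] H)) a b := by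
  unfold entA ent
  have h3 : ∀ (t : Finset Ix) (f : Ix → A),
      ((∑ a ∈ t, f a : A) : H →L[ℂ] H) = ∑ a ∈ t, ((f a : A) : H →L[ℂ] H) := by
    intro t f
    exact map_sum A.subtype f t
  rw [AddSubgroupClass.coe_sub, h3]
  rfl

theorem entA_star {n : ℕ} (y : Tup n) (w : Ix → A) (a b : Fin n) :
    star (entA y w a b) = entA y w b a := by
  apply Subtype.ext
  rw [entA_coe, ← ent_star, ← entA_coe]
  rfl

theorem Anti.entA (hχ : Anti A χ) {n : ℕ} (y : Tup n) (w : Ix → A) (a b : Fin n) :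
    χ (entA (trT y) w b a) = ent y (fun i => χ (w i)) a b := by
  unfold Tra.entA ent
  rw [map_sub, map_smul, hχ.one, map_sum]
  congr 1
  · by_cases hab : a = b
    · rw [if_pos hab, if_pos hab.symm]
    · rw [if_neg hab, if_neg (Ne.symm hab)]
  · refine Finset.sum_congr rfl fun i _ => ?_
    rw [map_add, map_smul, map_smul, hχ.st]
    rfl

/-- First transfer statement. -/
theorem Anti.first (hχ : Anti A χ) {n : ℕ} (s : Fin n → A)
    (hs : ∀ a b, star (s a) * s b = if a = b then 1 else 0) (w : Ix → A) (y : Tup n) (κ : ℝ) :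
    (∀ ξ : Amp n H, κ * ‖ξ‖ ^ 2 ≤ (⟪Del (trT y) (fun i => (w i : H →L[ℂ] H)) ξ, ξ⟫_ℂ).re) ↔
      ∀ ξ : Amp n H, κ * ‖ξ‖ ^ 2 ≤ (⟪Del y (fun i => χ (w i)) ξ, ξ⟫_ℂ).re := by
  have hM : ∀ a b : Fin n,
      star (Tra.entA (trT y) w a b - (if a = b then (κ : ℂ) else 0) • (1 : A)) =
        Tra.entA (trT y) w b a - (if b = a then (κ : ℂ) else 0) • (1 : A) := by
    intro a b
    rw [star_sub, entA_star, star_smul, star_one]
    congr 1
    by_cases hab : a = b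
    · rw [if_pos hab, if_pos hab.symm]
      congr 1
      simp
    · rw [if_neg hab, if_neg (Ne.symm hab)]
      simp
  have h := hχ.matrix_iff s hs
    (fun a b => Tra.entA (trT y) w a b - (if a = b then (κ : ℂ) else 0) • (1 : A)) hM
  have e1 : ∀ ξ : Amp n H,
      (∑ a, ∑ b, ⟪((Tra.entA (trT y) w a b - (if a = b then (κ : ℂ) else 0) • (1 : A) : A) :
        H →L[ℂ] H) (ξ b), ξ a⟫_ℂ).re =
      (⟪Del (trT y) (fun i => (w i : H →L[ℂ] H)) ξ, ξ⟫_ℂ).re - κ * ‖ξ‖ ^ 2 := by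
    intro ξ
    rw [← form1]
    simp only [← entA_coe]
    rfl
  have e2 : ∀ ξ : Amp n H,
      (∑ a, ∑ b, ⟪χ (Tra.entA (trT y) w b a - (if b = a then (κ : ℂ) else 0) • (1 : A)) (ξ b),
        ξ a⟫_ℂ).re = (⟪Del y (fun i => χ (w i)) ξ, ξ⟫_ℂ).re - κ * ‖ξ‖ ^ 2 := by
    intro ξ
    rw [← form1]
    congr 1
    refine Finset.sum_congr rfl fun a _ => Finset.sum_congr rfl fun b _ => ?_
    rw [map_sub, hχ.entA, map_smul, hχ.one]
    by_cases hab : a = b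
    · rw [if_pos hab, if_pos hab.symm]
    · rw [if_neg hab, if_neg (Ne.symm hab)]
  constructor
  · intro h1 ξ
    have h2 := h.1 (fun ξ => by
      have h3 := e1 (WithLp.toLp 2 ξ)
      have h4 := h1 (WithLp.toLp 2 ξ)
      simp only at h3 ⊢
      rw [h3]
      linarith) (fun a => ξ a)
    have h5 := e2 ξ
    simp only at h2
    rw [h5] at h2
    linarith
  · intro h1 ξ
    have h2 := h.2 (fun ξ => by
      have h3 := e2 (WithLp.toLp 2 ξ)
      have h4 := h1 (WithLp.toLp 2 ξ)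
      simp only at h3 ⊢
      rw [h3]
      linarith) (fun a => ξ a)
    have h5 := e1 ξ
    simp only at h2
    rw [h5] at h2
    linarith

/-- Second transfer statement. -/
theorem Anti.second (hχ : Anti A χ) {n : ℕ} (s : Fin n → A)
    (hs : ∀ a b, star (s a) * s b = if a = b then 1 else 0) (w : Ix → A) (y : Tup n) (κ : ℝ)
    (h1 : ∀ ξ : Amp n H, κ * (⟪Del (trT y) (fun i => (w i : H →L[ℂ] H)) ξ, ξ⟫_ℂ).re ≤
      ‖Del (trT y) (fun i => (w i : H →L[ℂ] H)) ξ‖ ^ 2) (ξ : Amp n H) :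
    κ * (⟪Del y (fun i => χ (w i)) ξ, ξ⟫_ℂ).re ≤ ‖Del y (fun i => χ (w i)) ξ‖ ^ 2 := by
  have hM : ∀ a b : Fin n,
      star (∑ c, Tra.entA (trT y) w a c * Tra.entA (trT y) w c b -
          (κ : ℂ) • Tra.entA (trT y) w a b) =
        ∑ c, Tra.entA (trT y) w b c * Tra.entA (trT y) w c a -
          (κ : ℂ) • Tra.entA (trT y) w b a := by
    intro a b
    rw [star_sub, star_sum, star_smul, entA_star]
    congr 1
    · refine Finset.sum_congr rfl fun c _ => ?_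
      rw [star_mul, entA_star, entA_star]
    · congr 1
      simp
  have h := hχ.matrix_iff s hs
    (fun a b => ∑ c, Tra.entA (trT y) w a c * Tra.entA (trT y) w c b -
      (κ : ℂ) • Tra.entA (trT y) w a b) hM
  have h3 : ∀ (t : Finset (Fin n)) (f : Fin n → A),
      ((∑ a ∈ t, f a : A) : H →L[ℂ] H) = ∑ a ∈ t, ((f a : A) : H →L[ℂ] H) := by
    intro t f
    exact map_sum A.subtype f t
  have e1 : ∀ ξ : Amp n H,
      (∑ a, ∑ b, ⟪((∑ c, Tra.entA (trT y) w a c * Tra.entA (trT y) w c b -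
          (κ : ℂ) • Tra.entA (trT y) w a b : A) : H →L[ℂ] H) (ξ b), ξ a⟫_ℂ).re =
      ‖Del (trT y) (fun i => (w i : H →L[ℂ] H)) ξ‖ ^ 2 -
        κ * (⟪Del (trT y) (fun i => (w i : H →L[ℂ] H)) ξ, ξ⟫_ℂ).re := by
    intro ξ
    rw [← form2]
    congr 1
    refine Finset.sum_congr rfl fun a _ => Finset.sum_congr rfl fun b _ => ?_
    simp only [← entA_coe]
    rw [AddSubgroupClass.coe_sub, h3]
    rfl
  have e2 : ∀ ξ : Amp n H,
      (∑ a, ∑ b, ⟪χ (∑ c, Tra.entA (trT y) w b c * Tra.entA (trT y) w c a -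
          (κ : ℂ) • Tra.entA (trT y) w b a) (ξ b), ξ a⟫_ℂ).re =
      ‖Del y (fun i => χ (w i)) ξ‖ ^ 2 - κ * (⟪Del y (fun i => χ (w i)) ξ, ξ⟫_ℂ).re := by
    intro ξ
    rw [← form2]
    congr 1
    refine Finset.sum_congr rfl fun a _ => Finset.sum_congr rfl fun b _ => ?_
    rw [map_sub, map_smul, hχ.entA, map_sum]
    simp only [hχ.mul, hχ.entA]
  have h2 := h.1 (fun ξ => by
    have h3 := e1 (WithLp.toLp 2 ξ)
    have h4 := h1 (WithLp.toLp 2 ξ)
    simp only at h3 ⊢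
    rw [h3]
    linarith) (fun a => ξ a)
  have h5 := e2 ξ
  simp only at h2
  rw [h5] at h2
  linarith

end Alg

section Final

variable {ω : Set ℕ} {D : ω → Dat}

instance : IsClosed ((Aalg D : StarSubalgebra ℂ (Fk D Set.univ →L[ℂ] Fk D Set.univ)) :
    Set (Fk D Set.univ →L[ℂ] Fk D Set.univ)) :=
  StarSubalgebra.isClosed_topologicalClosure _

/-- The linear map given by a star isomorphism onto the opposite algebra. -/
def chi (ψ : Aalg D ≃⋆ₐ[ℂ] (Aalg D)ᵐᵒᵖ) :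
    Aalg D →ₗ[ℂ] (Fk D Set.univ →L[ℂ] Fk D Set.univ) where
  toFun a := ((MulOpposite.unop (ψ a) : Aalg D) : Fk D Set.univ →L[ℂ] Fk D Set.univ)
  map_add' a b := by rw [map_add]; rfl
  map_smul' z a := by rw [map_smul]; rfl

theorem chi_anti (ψ : Aalg D ≃⋆ₐ[ℂ] (Aalg D)ᵐᵒᵖ) : Anti (Aalg D) (chi ψ) where
  one := by
    show ((MulOpposite.unop (ψ 1) : Aalg D) : Fk D Set.univ →L[ℂ] Fk D Set.univ) = 1
    rw [map_one]
    rfl
  st a := by
    show ((MulOpposite.unop (ψ (star a)) : Aalg D) : Fk D Set.univ →L[ℂ] Fk D Set.univ) =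
      star ((MulOpposite.unop (ψ a) : Aalg D) : Fk D Set.univ →L[ℂ] Fk D Set.univ)
    rw [map_star]
    rfl
  mul a b := by
    show ((MulOpposite.unop (ψ (a * b)) : Aalg D) : Fk D Set.univ →L[ℂ] Fk D Set.univ) =
      ((MulOpposite.unop (ψ b) : Aalg D) : Fk D Set.univ →L[ℂ] Fk D Set.univ) *
      ((MulOpposite.unop (ψ a) : Aalg D) : Fk D Set.univ →L[ℂ] Fk D Set.univ)
    rw [map_mul]
    rfl
  norm a := StarAlgEquiv.norm_map ψ a

end Final

end Tra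

theorem transfer {ω : Set ℕ} (D : ω → Dat) (h0 : 0 ∈ ω) (hD : D ⟨0, h0⟩ = ⟨1, fun _ => 1⟩)
    (ψ : Aalg D ≃⋆ₐ[ℂ] (Aalg D)ᵐᵒᵖ) :
    ∃ v : Ix → (Fk D Set.univ →L[ℂ] Fk D Set.univ),
      (∀ i, v i ∈ Aalg D) ∧ (∀ i, star (v i) * v i = 1) ∧
      (∀ (n : ℕ) (y : Tup n) (κ : ℝ),
        (∀ ξ : Amp n (Fk D Set.univ),
          κ * ‖ξ‖ ^ 2 ≤ (⟪Del (trT y) (xop D Set.univ) ξ, ξ⟫_ℂ).re) ↔
        (∀ ξ : Amp n (Fk D Set.univ), κ * ‖ξ‖ ^ 2 ≤ (⟪Del y v ξ, ξ⟫_ℂ).re)) ∧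
      (∀ (n : ℕ) (y : Tup n) (κ : ℝ),
        (∀ ξ : Amp n (Fk D Set.univ),
          κ * (⟪Del (trT y) (xop D Set.univ) ξ, ξ⟫_ℂ).re ≤
            ‖Del (trT y) (xop D Set.univ) ξ‖ ^ 2) →
        (∀ ξ : Amp n (Fk D Set.univ),
          κ * (⟪Del y v ξ, ξ⟫_ℂ).re ≤ ‖Del y v ξ‖ ^ 2)) := by
  have hcr : ∀ l : Lett D Set.univ, cr l ∈ Aalg D := fun l =>
    StarSubalgebra.le_topologicalClosure _
      (StarAlgebra.subset_adjoin ℂ _ (Or.inl ⟨l, rfl⟩))
  have hx : ∀ i, xop D Set.univ i ∈ Aalg D := fun i =>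
    StarSubalgebra.le_topologicalClosure _
      (StarAlgebra.subset_adjoin ℂ _ (Or.inr ⟨i, rfl⟩))
  have hL : ∀ a : ℕ, ∃ h : (0, 0, a).1 ∈ ω,
      (0, 0, a).2.1 < (D ⟨(0, 0, a).1, h⟩).1 ∧ (0, 0, a).2.2 ∈ (Set.univ : Set ℕ) := by
    intro a
    refine ⟨h0, ?_, Set.mem_univ _⟩
    show 0 < (D ⟨0, h0⟩).1
    rw [hD]
    exact Nat.one_pos
  have hs : ∀ (n : ℕ), ∃ s : Fin n → Aalg D,
      ∀ a b, star (s a) * s b = if a = b then 1 else 0 := by
    intro n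
    refine ⟨fun a => ⟨cr (⟨(0, 0, (a : ℕ)), hL a⟩ : Lett D Set.univ), hcr _⟩, ?_⟩
    intro a b
    apply Subtype.ext
    by_cases hab : a = b
    · subst hab
      rw [if_pos rfl]
      exact cr_star_mul_same _
    · rw [if_neg hab]
      refine cr_star_mul_ne _ _ ?_
      intro hc
      apply hab
      have h2 := congrArg Subtype.val hc
      simp only [Prod.mk.injEq, true_and] at h2
      exact Fin.ext h2
  have hχ := Tra.chi_anti ψ
  refine ⟨fun i => Tra.chi ψ ⟨xop D Set.univ i, hx i⟩, fun i => ?_, fun i => ?_, ?_, ?_⟩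
  · exact (MulOpposite.unop (ψ ⟨xop D Set.univ i, hx i⟩)).2
  · rw [← hχ.st, ← hχ.mul]
    have h1 : (⟨xop D Set.univ i, hx i⟩ : Aalg D) * star (⟨xop D Set.univ i, hx i⟩ : Aalg D) = 1 :=
      Subtype.ext (xop_unit2 i)
    rw [h1, hχ.one]
  · intro n y κ
    obtain ⟨s, hs⟩ := hs n
    exact hχ.first s hs (fun i => ⟨xop D Set.univ i, hx i⟩) y κ
  · intro n y κ h ξ
    obtain ⟨s, hs⟩ := hs n
    exact hχ.second s hs (fun i => ⟨xop D Set.univ i, hx i⟩) y κ h ξ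

end Pool.Agent.C8B

end
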