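import Pool.Agent.Lib.MP_c8b4d4_an.Chi
import Pool.Agent.Lib.MP_c8b4d4_an.Exp
import Pool.Agent.Lib.MP_c8b4d4_an.Loc
import Pool.Agent.Lib.MP_c8b4d4_an.PIm
import Pool.Agent.Lib.MP_c8b4d4_an.Tra
import Pool.Agent.Lib.MP_c8b4d4_an.Glob

set_option autoImplicit false

noncomputable section

namespace Pool.Agent.C8B

open scoped InnerProductSpace

namespace SeqM

/-! ### The master sequence -/

/-- the trivial block -/
def triv : Dat := ⟨1, fun _ => 1⟩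

theorem gap_one (c : ℝ) (x : Tup 1) : Gap c x := by
  intro Y hY
  have h : Y = 0 := by
    ext a b
    have ha : a = 0 := Subsingleton.elim _ _
    have hb : b = 0 := Subsingleton.elim _ _
    subst ha
    subst hb
    have h1 : Y.trace = Y 0 0 := by
      unfold Matrix.trace
      exact Fintype.sum_unique _
    rw [← h1, hY]
    rfl
  rw [h]
  have h0 : frob (0 : Matrix (Fin 1) (Fin 1) ℂ) = 0 := by
    simp [frob]
  rw [h0, mul_zero]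
  exact Finset.sum_nonneg fun _ _ => Fam.frob_nonneg _

theorem gap_triv (c : ℝ) : Gap c triv.2 := gap_one c _

/-- codes of the conditions -/
abbrev Code : Type := (Ix → Expr) × Finset ℕ × ℕ × ℕ

instance : Countable Code := by
  have : Countable Expr := countable_expr
  infer_instance

instance : Nonempty Code := ⟨(fun _ => Expr.cst 0 0, ∅, 0, 0)⟩

/-- requirement at stage `j` -/
def Req (c : ℝ) (cd : Code) (j : ℕ) (h : ℕ → Dat) (d : Dat) : Prop :=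
  Gap c d.2 ∧ (∀ i, i < j → 2 * (h i).1 ≤ d.1) ∧
    (cd.2.2.1 ≤ j → ¬ Good c (Xr h (cd.2.1 : Set ℕ)) (Set.Iio cd.2.2.2) cd.1 d.2)

theorem req_exists {c : ℝ} (hc : 0 < c) (hc1 : c ≤ 1)
    (hexp : ∀ N : ℕ, 1 ≤ N →
    ∃ p : Fin 4 → ℝ → UN N, (∀ i, Continuous (p i)) ∧ (∀ i, p i 0 = 1) ∧
      ∀ X : Matrix (Fin N) (Fin N) ℂ, X.trace = 0 →
        c ^ 2 * frob X ≤ ∑ i, frob ((p i 1 : Matrix (Fin N) (Fin N) ℂ) * X -
          X * (p i 1 : Matrix (Fin N) (Fin N) ℂ))) (cd : Code) (j : ℕ) (h : ℕ → Dat) :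
    ∃ d, Req c cd j h d := by
  obtain ⟨n₀, hn₀⟩ := chirality hc hc1 (Xr h (cd.2.1 : Set ℕ)) (Set.Iio cd.2.2.2)
    (Finset.finite_toSet _) (Set.finite_Iio _) cd.1
  set n := max n₀ (∑ i ∈ Finset.range j, 2 * (h i).1) + 1 with hn
  obtain ⟨p, hp, h0, hgap⟩ := hexp n (by omega)
  obtain ⟨g, t, hg⟩ := hn₀ n (by omega) p hp h0 hgap
  refine ⟨⟨n, fam p g t⟩, fam_gap p h0 hgap g t, ?_, fun _ => hg⟩
  intro i hi
  have h1 : 2 * (h i).1 ≤ ∑ i ∈ Finset.range j, 2 * (h i).1 :=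
    Finset.single_le_sum (f := fun i => 2 * (h i).1) (fun _ _ => Nat.zero_le _)
      (Finset.mem_range.2 hi)
  change 2 * (h i).1 ≤ n
  omega

end SeqM

open SeqM in
theorem master : ∃ (c : ℝ) (X : ℕ → Dat), 0 < c ∧ c ≤ 1 ∧ X 0 = ⟨1, fun _ => 1⟩ ∧
    (∀ j, Gap c (X j).2) ∧ (∀ i j, i < j → 2 * (X i).1 ≤ (X j).1) ∧
    ∀ (e : Ix → Expr) (σ : Set ℕ) (j₀ Q k : ℕ), σ ⊆ Set.Iio j₀ →
      ∃ j, k ≤ j ∧ j₀ ≤ j ∧ ¬ Good c (Xr X σ) (Set.Iio Q) e (X j).2 := by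
  classical
  obtain ⟨c, hc, hc1, hexp⟩ := exists_expander
  obtain ⟨g, hg⟩ := exists_surjective_nat Code
  let cd : ℕ → Code := fun j => g (Nat.unpair j).1
  let nx : ℕ → (ℕ → Dat) → Dat := fun j h =>
    if j = 0 then triv else (req_exists hc hc1 hexp (cd j) j h).choose
  let H : ℕ → (ℕ → Dat) := fun j => Nat.rec (fun _ => triv) (fun j h => Function.update h j (nx j h)) j
  let X : ℕ → Dat := fun j => nx j (H j)
  have hH : ∀ j i, i < j → H j i = X i := by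
    intro j
    induction j with
    | zero => intro i hi; omega
    | succ j ih =>
      intro i hi
      have e1 : H (j + 1) = Function.update (H j) j (nx j (H j)) := rfl
      rw [e1]
      by_cases hij : i = j
      · subst hij
        rw [Function.update_self]
      · rw [Function.update_of_ne hij]
        exact ih i (by omega)
  have hX0 : X 0 = triv := by
    change nx 0 (H 0) = triv
    simp only [nx, if_true]
  have hXs : ∀ j, j ≠ 0 → Req c (cd j) j (H j) (X j) := by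
    intro j hj
    change Req c (cd j) j (H j) (nx j (H j))
    simp only [nx, if_neg hj]
    exact (req_exists hc hc1 hexp (cd j) j (H j)).choose_spec
  refine ⟨c, X, hc, hc1, hX0, ?_, ?_, ?_⟩
  · intro j
    by_cases hj : j = 0
    · subst hj
      rw [hX0]
      exact gap_triv c
    · exact (hXs j hj).1
  · intro i j hij
    have h := (hXs j (by omega)).2.1 i hij
    rw [hH j i hij] at h
    exact h
  · intro e σ j₀ Q k hσ
    have hfin : σ.Finite := (Set.finite_Iio j₀).subset hσ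
    obtain ⟨m, hm⟩ := hg (e, hfin.toFinset, j₀, Q)
    set j := Nat.pair m (k + j₀ + 1) with hj
    have hj1 : k + j₀ + 1 ≤ j := Nat.right_le_pair _ _
    have hcd : cd j = (e, hfin.toFinset, j₀, Q) := by
      change g (Nat.unpair j).1 = _
      rw [hj, Nat.unpair_pair]
      exact hm
    refine ⟨j, by omega, by omega, ?_⟩
    have h := (hXs j (by omega)).2.2
    rw [hcd] at h
    have h2 := h (by dsimp only; omega)
    have h3 : Xr (H j) ((hfin.toFinset : Finset ℕ) : Set ℕ) =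
        Xr X ((hfin.toFinset : Finset ℕ) : Set ℕ) := by
      funext i
      have h4 : (i : ℕ) ∈ σ := by
        have := i.2
        simpa using this
      have h5 : (i : ℕ) < j₀ := hσ h4
      exact hH j i (by omega)
    dsimp only at h2
    rw [h3, hfin.coe_toFinset] at h2
    exact h2

namespace SeqM

open Chi

theorem exists_bdd (e : Expr) : ∃ j Q : ℕ, ∀ j' Q', j ≤ j' → Q ≤ Q' → e.Bdd j' Q' := by
  induction e with
  | lit l => exact ⟨l.1 + 1, l.2.2 + 1, fun j' Q' h1 h2 => ⟨by omega, by omega⟩⟩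
  | gen i => exact ⟨0, 0, fun _ _ _ _ => trivial⟩
  | st e ih => exact ih
  | cst p q => exact ⟨0, 0, fun _ _ _ _ => trivial⟩
  | add e f ih1 ih2 =>
    obtain ⟨j1, Q1, h1⟩ := ih1
    obtain ⟨j2, Q2, h2⟩ := ih2
    exact ⟨max j1 j2, max Q1 Q2, fun j' Q' h h' => ⟨h1 _ _ (by omega) (by omega),
      h2 _ _ (by omega) (by omega)⟩⟩
  | mul e f ih1 ih2 =>
    obtain ⟨j1, Q1, h1⟩ := ih1
    obtain ⟨j2, Q2, h2⟩ := ih2
    exact ⟨max j1 j2, max Q1 Q2, fun j' Q' h h' => ⟨h1 _ _ (by omega) (by omega),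
      h2 _ _ (by omega) (by omega)⟩⟩

theorem exists_bdd_all (e : Ix → Expr) : ∃ j Q : ℕ, ∀ i j' Q', j ≤ j' → Q ≤ Q' →
    (e i).Bdd j' Q' := by
  choose j Q h using fun i => exists_bdd (e i)
  refine ⟨Finset.univ.sup j, Finset.univ.sup Q, fun i j' Q' h1 h2 => h i _ _ ?_ ?_⟩
  · exact (Finset.le_sup (Finset.mem_univ i)).trans h1
  · exact (Finset.le_sup (Finset.mem_univ i)).trans h2

section loc

variable {n : ℕ}

/-- restriction of a quadratic inequality along an intertwining isometry -/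
theorem restrict {K K' : Type} [NormedAddCommGroup K] [InnerProductSpace ℂ K] [CompleteSpace K]
    [NormedAddCommGroup K'] [InnerProductSpace ℂ K'] [CompleteSpace K']
    (V : K' →ₗᵢ[ℂ] K) (w : Ix → K →L[ℂ] K) (w' : Ix → K' →L[ℂ] K')
    (h : ∀ i u, w i (V u) = V (w' i u)) (h' : ∀ i u, star (w i) (V u) = V (star (w' i) u))
    (y : Tup n) (ξ : Amp n K') :
    ‖ampIso n V ξ‖ = ‖ξ‖ ∧
    (⟪Del y w (ampIso n V ξ), ampIso n V ξ⟫_ℂ).re = (⟪Del y w' ξ, ξ⟫_ℂ).re ∧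
    ‖Del y w (ampIso n V ξ)‖ = ‖Del y w' ξ‖ := by
  refine ⟨LinearIsometry.norm_map _ _, ?_, ?_⟩
  · rw [del_ampIso V w w' h h', LinearIsometry.inner_map_map]
  · rw [del_ampIso V w w' h h', LinearIsometry.norm_map]

theorem embed_star (X : ℕ → Dat) (ω : Set ℕ) (j₀ Q : ℕ) (j : ℕ) (hj : j ∈ ω)
    (e : Ix → Expr) (he : ∀ i, (e i).Bdd j₀ Q) :
    ∃ V : Amp (X j).1 (Fk (Xr X (ω ∩ Set.Iio j₀)) (Set.Iio Q)) →ₗᵢ[ℂ] Fk (Xr X ω) Set.univ,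
      (∀ i u, Ev (Xr X ω) Set.univ (e i) (V u) =
          V (locE (Xr X (ω ∩ Set.Iio j₀)) (Set.Iio Q) (X j).2 (e i) u)) ∧
      (∀ i u, star (Ev (Xr X ω) Set.univ (e i)) (V u) =
          V (star (locE (Xr X (ω ∩ Set.Iio j₀)) (Set.Iio Q) (X j).2 (e i)) u)) := by
  obtain ⟨V, hV⟩ := loc_embed X ω j₀ Q j hj
  exact ⟨V, fun i u => hV (e i) (he i) u, fun i u => hV (Expr.st (e i)) (he i) u⟩

theorem embed_vac_star (X : ℕ → Dat) (ω : Set ℕ) (j₀ Q : ℕ)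
    (e : Ix → Expr) (he : ∀ i, (e i).Bdd j₀ Q) :
    ∃ V : Fk (Xr X (ω ∩ Set.Iio j₀)) (Set.Iio Q) →ₗᵢ[ℂ] Fk (Xr X ω) Set.univ,
      (∀ i u, Ev (Xr X ω) Set.univ (e i) (V u) =
          V (Ev (Xr X (ω ∩ Set.Iio j₀)) (Set.Iio Q) (e i) u)) ∧
      (∀ i u, star (Ev (Xr X ω) Set.univ (e i)) (V u) =
          V (star (Ev (Xr X (ω ∩ Set.Iio j₀)) (Set.Iio Q) (e i)) u)) := by
  obtain ⟨V, hV⟩ := loc_embed_vac X ω j₀ Q
  exact ⟨V, fun i u => hV (e i) (he i) u, fun i u => hV (Expr.st (e i)) (he i) u⟩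

theorem loc_lower (X : ℕ → Dat) (ω σ : Set ℕ) (j₀ Q : ℕ) (hσ : ω ∩ Set.Iio j₀ = σ) (j : ℕ)
    (hj : j ∈ ω) (e : Ix → Expr) (he : ∀ i, (e i).Bdd j₀ Q) (y : Tup n) (κ : ℝ)
    (H : ∀ ξ : Amp n (Fk (Xr X ω) Set.univ),
      κ * ‖ξ‖ ^ 2 ≤ (⟪Del y (fun i => Ev (Xr X ω) Set.univ (e i)) ξ, ξ⟫_ℂ).re)
    (ξ : Amp n (Amp (X j).1 (Fk (Xr X σ) (Set.Iio Q)))) :
    κ * ‖ξ‖ ^ 2 ≤
      (⟪Del y (fun i => locE (Xr X σ) (Set.Iio Q) (X j).2 (e i)) ξ, ξ⟫_ℂ).re := by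
  subst hσ
  obtain ⟨V, hV, hV'⟩ := embed_star X ω j₀ Q j hj e he
  have h := restrict V (fun i => Ev (Xr X ω) Set.univ (e i))
    (fun i => locE (Xr X (ω ∩ Set.Iio j₀)) (Set.Iio Q) (X j).2 (e i)) hV hV' y ξ
  have h2 := H (ampIso n V ξ)
  rw [h.1, h.2.1] at h2
  exact h2

theorem loc_lower_vac (X : ℕ → Dat) (ω σ : Set ℕ) (j₀ Q : ℕ) (hσ : ω ∩ Set.Iio j₀ = σ)
    (e : Ix → Expr) (he : ∀ i, (e i).Bdd j₀ Q) (y : Tup n) (κ : ℝ)
    (H : ∀ ξ : Amp n (Fk (Xr X ω) Set.univ),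
      κ * ‖ξ‖ ^ 2 ≤ (⟪Del y (fun i => Ev (Xr X ω) Set.univ (e i)) ξ, ξ⟫_ℂ).re)
    (ξ : Amp n (Fk (Xr X σ) (Set.Iio Q))) :
    κ * ‖ξ‖ ^ 2 ≤ (⟪Del y (fun i => Ev (Xr X σ) (Set.Iio Q) (e i)) ξ, ξ⟫_ℂ).re := by
  subst hσ
  obtain ⟨V, hV, hV'⟩ := embed_vac_star X ω j₀ Q e he
  have h := restrict V (fun i => Ev (Xr X ω) Set.univ (e i))
    (fun i => Ev (Xr X (ω ∩ Set.Iio j₀)) (Set.Iio Q) (e i)) hV hV' y ξ
  have h2 := H (ampIso n V ξ)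
  rw [h.1, h.2.1] at h2
  exact h2

theorem loc_H4 (X : ℕ → Dat) (ω σ : Set ℕ) (j₀ Q : ℕ) (hσ : ω ∩ Set.Iio j₀ = σ) (j : ℕ)
    (hj : j ∈ ω) (e : Ix → Expr) (he : ∀ i, (e i).Bdd j₀ Q) (y : Tup n) (κ τ : ℝ)
    (H : ∀ ξ : Amp n (Fk (Xr X ω) Set.univ),
      κ * (⟪Del y (fun i => Ev (Xr X ω) Set.univ (e i)) ξ, ξ⟫_ℂ).re ≤
        ‖Del y (fun i => Ev (Xr X ω) Set.univ (e i)) ξ‖ ^ 2 + τ * ‖ξ‖ ^ 2)
    (ξ : Amp n (Amp (X j).1 (Fk (Xr X σ) (Set.Iio Q)))) :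
    κ * (⟪Del y (fun i => locE (Xr X σ) (Set.Iio Q) (X j).2 (e i)) ξ, ξ⟫_ℂ).re ≤
      ‖Del y (fun i => locE (Xr X σ) (Set.Iio Q) (X j).2 (e i)) ξ‖ ^ 2 + τ * ‖ξ‖ ^ 2 := by
  subst hσ
  obtain ⟨V, hV, hV'⟩ := embed_star X ω j₀ Q j hj e he
  have h := restrict V (fun i => Ev (Xr X ω) Set.univ (e i))
    (fun i => locE (Xr X (ω ∩ Set.Iio j₀)) (Set.Iio Q) (X j).2 (e i)) hV hV' y ξ
  have h2 := H (ampIso n V ξ)
  rw [h.1, h.2.1, h.2.2] at h2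
  exact h2

theorem loc_H1 (X : ℕ → Dat) (ω σ : Set ℕ) (j₀ Q : ℕ) (hσ : ω ∩ Set.Iio j₀ = σ) (j : ℕ)
    (hj : j ∈ ω) (e : Ix → Expr) (he : ∀ i, (e i).Bdd j₀ Q) (δ : ℝ) (i : Ix)
    (H : ‖star (Ev (Xr X ω) Set.univ (e i)) * Ev (Xr X ω) Set.univ (e i) - 1‖ ≤ δ) :
    ‖star (locE (Xr X σ) (Set.Iio Q) (X j).2 (e i)) *
      locE (Xr X σ) (Set.Iio Q) (X j).2 (e i) - 1‖ ≤ δ := by
  subst hσ
  obtain ⟨V, hV, hV'⟩ := embed_star X ω j₀ Q j hj e he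
  refine ContinuousLinearMap.opNorm_le_bound _ ((norm_nonneg _).trans H) fun u => ?_
  have h1 : V ((star (locE (Xr X (ω ∩ Set.Iio j₀)) (Set.Iio Q) (X j).2 (e i)) *
      locE (Xr X (ω ∩ Set.Iio j₀)) (Set.Iio Q) (X j).2 (e i) - 1) u) =
      (star (Ev (Xr X ω) Set.univ (e i)) * Ev (Xr X ω) Set.univ (e i) - 1) (V u) := by
    change V (star (locE (Xr X (ω ∩ Set.Iio j₀)) (Set.Iio Q) (X j).2 (e i))
      (locE (Xr X (ω ∩ Set.Iio j₀)) (Set.Iio Q) (X j).2 (e i) u) - u) =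
      star (Ev (Xr X ω) Set.univ (e i)) (Ev (Xr X ω) Set.univ (e i) (V u)) - V u
    rw [map_sub, hV, hV']
  rw [← V.norm_map, h1]
  calc _ ≤ _ * ‖V u‖ := ContinuousLinearMap.le_opNorm _ _
    _ ≤ δ * ‖u‖ := by rw [V.norm_map]; gcongr

end loc

/-- The statement that an anti-automorphism of the algebra of `ω` is computed by `e`. -/
def Cap (c : ℝ) (X : ℕ → Dat) (e : Ix → Expr) (ω : Set ℕ) : Prop :=
  ∃ v : Ix → (Fk (Xr X ω) Set.univ →L[ℂ] Fk (Xr X ω) Set.univ),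
    (∀ i, star (v i) * v i = 1) ∧
    (∀ (n : ℕ) (y : Tup n) (κ : ℝ),
        (∀ ξ : Amp n (Fk (Xr X ω) Set.univ),
          κ * ‖ξ‖ ^ 2 ≤ (⟪Del (trT y) (xop (Xr X ω) Set.univ) ξ, ξ⟫_ℂ).re) ↔
        (∀ ξ : Amp n (Fk (Xr X ω) Set.univ), κ * ‖ξ‖ ^ 2 ≤ (⟪Del y v ξ, ξ⟫_ℂ).re)) ∧
    (∀ (n : ℕ) (y : Tup n) (κ : ℝ),
        (∀ ξ : Amp n (Fk (Xr X ω) Set.univ),
          κ * (⟪Del (trT y) (xop (Xr X ω) Set.univ) ξ, ξ⟫_ℂ).re ≤
            ‖Del (trT y) (xop (Xr X ω) Set.univ) ξ‖ ^ 2) →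
        (∀ ξ : Amp n (Fk (Xr X ω) Set.univ),
          κ * (⟪Del y v ξ, ξ⟫_ℂ).re ≤ ‖Del y v ξ‖ ^ 2)) ∧
    ∀ i, ‖Ev (Xr X ω) Set.univ (e i) - v i‖ < dC c

section glob

variable {c : ℝ} (hc : 0 < c) (hc1 : c ≤ 1) (X : ℕ → Dat) (hX0 : X 0 = ⟨1, fun _ => 1⟩)
  (hgap : ∀ j, Gap c (X j).2) (hgrow : ∀ i j, i < j → 2 * (X i).1 ≤ (X j).1)

include hc hc1

theorem delta_small : 16 * dC c ≤ sC c / 2 := by
  have h1 := dC_le hc hc1
  have h2 := sC_pos hc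
  linarith

theorem v_norm_le {K : Type} [NormedAddCommGroup K] [InnerProductSpace ℂ K] [CompleteSpace K]
    (v : K →L[ℂ] K) (h : star v * v = 1) : ‖v‖ ≤ 1 := by
  refine ContinuousLinearMap.opNorm_le_bound _ zero_le_one fun u => ?_
  have h2 := norm_sq_le_of_near v (δ := 0) (by rw [h, sub_self, norm_zero]) u
  rw [one_mul]
  apply le_of_sq_le_sq _ (norm_nonneg u)
  linarith

/-- near unitarity of the approximating polynomials -/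
theorem cap_H1 (e : Ix → Expr) (ω : Set ℕ) (h : Cap c X e ω) (i : Ix) :
    ‖star (Ev (Xr X ω) Set.univ (e i)) * Ev (Xr X ω) Set.univ (e i) - 1‖ ≤ 3 * dC c := by
  obtain ⟨v, hv1, -, -, hv⟩ := h
  set w := Ev (Xr X ω) Set.univ (e i) with hw
  have h1 := v_norm_le hc hc1 (v i) (hv1 i)
  have h2 : ‖w - v i‖ ≤ dC c := (hv i).le
  have h3 : ‖w‖ ≤ 1 + dC c := by
    calc ‖w‖ = ‖(w - v i) + v i‖ := by rw [sub_add_cancel]
      _ ≤ ‖w - v i‖ + ‖v i‖ := norm_add_le _ _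
      _ ≤ _ := by linarith
  have h4 : star w * w - 1 = star w * (w - v i) + star (w - v i) * v i := by
    rw [← hv1 i, star_sub]
    noncomm_ring
  have h5 : ‖star w‖ = ‖w‖ := norm_star w
  have h6 : ‖star (w - v i)‖ = ‖w - v i‖ := norm_star (w - v i)
  have h7 := dC_pos hc
  have h8 := dC_le hc hc1
  have h9 := sC_le_rC hc hc1
  have h10 := rC_le hc hc1
  rw [h4]
  calc _ ≤ ‖star w * (w - v i)‖ + ‖star (w - v i) * v i‖ := norm_add_le _ _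
    _ ≤ ‖star w‖ * ‖w - v i‖ + ‖star (w - v i)‖ * ‖v i‖ := by
        gcongr <;> exact norm_mul_le _ _
    _ ≤ (1 + dC c) * dC c + dC c * 1 := by
        rw [h5, h6]
        gcongr
    _ ≤ 3 * dC c := by nlinarith

include hX0 hgap hgrow

theorem cap_not_mem (e : Ix → Expr) (ω : Set ℕ) (h : Cap c X e ω) (h0 : 0 ∈ ω) (j : ℕ)
    (hj : j ∉ ω) (ξ : Amp (X j).1 (Fk (Xr X ω) Set.univ)) :
    (c1 c ^ 2 - sC c) * ‖ξ‖ ^ 2 ≤
      (⟪Del (X j).2 (fun i => Ev (Xr X ω) Set.univ (e i)) ξ, ξ⟫_ℂ).re := by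
  obtain ⟨v, hv1, hA, -, hv⟩ := h
  have h1 := (hA (X j).1 (X j).2 (c1 c ^ 2)).1
    (glob_not_mem hc hc1 X ω h0 hX0 hgap hgrow j hj) ξ
  have h2 := del_sub_norm_le (X j).2 (fun i => Ev (Xr X ω) Set.univ (e i)) v (dC c)
    (fun i => (hv i).le)
  have h3 : |(⟪(Del (X j).2 (fun i => Ev (Xr X ω) Set.univ (e i)) - Del (X j).2 v) ξ,
      ξ⟫_ℂ).re| ≤ 16 * dC c * ‖ξ‖ ^ 2 := by
    calc _ ≤ ‖⟪(Del (X j).2 (fun i => Ev (Xr X ω) Set.univ (e i)) - Del (X j).2 v) ξ, ξ⟫_ℂ‖ :=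
          Complex.abs_re_le_norm _
      _ ≤ ‖(Del (X j).2 (fun i => Ev (Xr X ω) Set.univ (e i)) - Del (X j).2 v) ξ‖ * ‖ξ‖ :=
          norm_inner_le_norm _ _
      _ ≤ (16 * dC c * ‖ξ‖) * ‖ξ‖ := by
          gcongr
          exact (ContinuousLinearMap.le_opNorm _ _).trans (by gcongr)
      _ = _ := by ring
  rw [show (Del (X j).2 (fun i => Ev (Xr X ω) Set.univ (e i)) - Del (X j).2 v) ξ =
    Del (X j).2 (fun i => Ev (Xr X ω) Set.univ (e i)) ξ - Del (X j).2 v ξ from rfl,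
    inner_sub_left, Complex.sub_re] at h3
  have h4 := (abs_le.1 h3).1
  have h5 := delta_small hc hc1
  have h6 : 16 * dC c * ‖ξ‖ ^ 2 ≤ sC c * ‖ξ‖ ^ 2 := by
    have := sC_pos hc
    gcongr
    linarith
  have h7 : (c1 c ^ 2 - sC c) * ‖ξ‖ ^ 2 = c1 c ^ 2 * ‖ξ‖ ^ 2 - sC c * ‖ξ‖ ^ 2 := by ring
  rw [h7]
  linarith

theorem cap_mem_low (e : Ix → Expr) (ω : Set ℕ) (h : Cap c X e ω) (h0 : 0 ∈ ω) (j : ℕ)
    (hj : j ∈ ω) : ¬ ∀ ξ : Amp (X j).1 (Fk (Xr X ω) Set.univ), sC c * ‖ξ‖ ^ 2 ≤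
      (⟪Del (X j).2 (fun i => Ev (Xr X ω) Set.univ (e i)) ξ, ξ⟫_ℂ).re := by
  intro hcon
  obtain ⟨v, hv1, hA, -, hv⟩ := h
  have h2 := del_sub_norm_le (X j).2 (fun i => Ev (Xr X ω) Set.univ (e i)) v (dC c)
    (fun i => (hv i).le)
  have h5 := delta_small hc hc1
  have h1 := (hA (X j).1 (X j).2 (sC c / 2)).2 (by
    intro ξ
    have h3 : |(⟪(Del (X j).2 (fun i => Ev (Xr X ω) Set.univ (e i)) - Del (X j).2 v) ξ,
        ξ⟫_ℂ).re| ≤ 16 * dC c * ‖ξ‖ ^ 2 := by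
      calc _ ≤ ‖⟪(Del (X j).2 (fun i => Ev (Xr X ω) Set.univ (e i)) - Del (X j).2 v) ξ, ξ⟫_ℂ‖ :=
            Complex.abs_re_le_norm _
        _ ≤ ‖(Del (X j).2 (fun i => Ev (Xr X ω) Set.univ (e i)) - Del (X j).2 v) ξ‖ * ‖ξ‖ :=
            norm_inner_le_norm _ _
        _ ≤ (16 * dC c * ‖ξ‖) * ‖ξ‖ := by
            gcongr
            exact (ContinuousLinearMap.le_opNorm _ _).trans (by gcongr)
        _ = _ := by ring
    rw [show (Del (X j).2 (fun i => Ev (Xr X ω) Set.univ (e i)) - Del (X j).2 v) ξ =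
      Del (X j).2 (fun i => Ev (Xr X ω) Set.univ (e i)) ξ - Del (X j).2 v ξ from rfl,
      inner_sub_left, Complex.sub_re] at h3
    have h4 := (abs_le.1 h3).2
    have h6 : 16 * dC c * ‖ξ‖ ^ 2 ≤ sC c / 2 * ‖ξ‖ ^ 2 := by
      gcongr
    have h7 := hcon ξ
    have h8 : sC c * ‖ξ‖ ^ 2 = sC c / 2 * ‖ξ‖ ^ 2 + sC c / 2 * ‖ξ‖ ^ 2 := by ring
    rw [h8] at h7
    linarith)
  obtain ⟨ξ, hξ0, hξ⟩ := (glob_mem hc hc1 X ω h0 hX0 hgap hgrow j hj).1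
  have h9 := h1 ξ
  rw [hξ, inner_zero_left, Complex.zero_re] at h9
  have h10 := sC_pos hc
  have h11 : 0 < ‖ξ‖ ^ 2 := by
    have := norm_pos_iff.2 hξ0
    positivity
  have h12 : 0 < sC c / 2 * ‖ξ‖ ^ 2 := by positivity
  linarith

theorem cap_mem_H4 (e : Ix → Expr) (ω : Set ℕ) (h : Cap c X e ω) (h0 : 0 ∈ ω) (j : ℕ)
    (hj : j ∈ ω) (ξ : Amp (X j).1 (Fk (Xr X ω) Set.univ)) :
    c1 c ^ 2 * (⟪Del (X j).2 (fun i => Ev (Xr X ω) Set.univ (e i)) ξ, ξ⟫_ℂ).re ≤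
      ‖Del (X j).2 (fun i => Ev (Xr X ω) Set.univ (e i)) ξ‖ ^ 2 +
        sC c * (c1 c ^ 2 - sC c) * ‖ξ‖ ^ 2 := by
  obtain ⟨v, hv1, -, hB, hv⟩ := h
  have h1 := hB (X j).1 (X j).2 (c1 c ^ 2) (glob_mem hc hc1 X ω h0 hX0 hgap hgrow j hj).2 ξ
  have h2 := del_sub_norm_le (X j).2 (fun i => Ev (Xr X ω) Set.univ (e i)) v (dC c)
    (fun i => (hv i).le)
  set A := Del (X j).2 (fun i => Ev (Xr X ω) Set.univ (e i)) with hA
  set B := Del (X j).2 v with hBdef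
  have hBn : ‖B‖ ≤ 32 := by
    have := del_norm_le (X j).2 v 1 (fun i => v_norm_le hc hc1 (v i) (hv1 i))
    linarith
  have nξ := norm_nonneg ξ
  have hd : 0 < dC c := dC_pos hc
  have e1 : ‖A ξ - B ξ‖ ≤ 16 * dC c * ‖ξ‖ := by
    rw [show A ξ - B ξ = (A - B) ξ from rfl]
    exact (ContinuousLinearMap.le_opNorm _ _).trans (by gcongr)
  have e2 : ‖B ξ‖ ≤ 32 * ‖ξ‖ := (ContinuousLinearMap.le_opNorm _ _).trans (by gcongr)
  have e3 : ‖B ξ‖ ≤ ‖A ξ‖ + 16 * dC c * ‖ξ‖ := by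
    calc ‖B ξ‖ = ‖A ξ - (A ξ - B ξ)‖ := by rw [sub_sub_cancel]
      _ ≤ ‖A ξ‖ + ‖A ξ - B ξ‖ := norm_sub_le _ _
      _ ≤ _ := by linarith
  have e4 : ‖B ξ‖ ^ 2 ≤ ‖A ξ‖ ^ 2 + 1024 * dC c * ‖ξ‖ ^ 2 := by
    have f0 := norm_nonneg (A ξ)
    have f1 : ‖B ξ‖ - 16 * dC c * ‖ξ‖ ≤ ‖A ξ‖ := by linarith
    by_cases hs : 0 ≤ ‖B ξ‖ - 16 * dC c * ‖ξ‖
    · have f2 : (‖B ξ‖ - 16 * dC c * ‖ξ‖) ^ 2 ≤ ‖A ξ‖ ^ 2 := pow_le_pow_left₀ hs f1 2
      have f3 : dC c * ‖ξ‖ * ‖B ξ‖ ≤ dC c * ‖ξ‖ * (32 * ‖ξ‖) := by gcongr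
      nlinarith [sq_nonneg (16 * dC c * ‖ξ‖)]
    · push Not at hs
      have f4 : ‖B ξ‖ ≤ 16 * dC c * ‖ξ‖ := by linarith
      have f5 : ‖B ξ‖ ^ 2 ≤ (16 * dC c * ‖ξ‖) * (32 * ‖ξ‖) := by
        rw [sq]
        gcongr
      nlinarith [sq_nonneg (‖A ξ‖), sq_nonneg ‖ξ‖]
  have e5 : (⟪A ξ, ξ⟫_ℂ).re ≤ (⟪B ξ, ξ⟫_ℂ).re + 16 * dC c * ‖ξ‖ ^ 2 := by
    have f6 : (⟪A ξ - B ξ, ξ⟫_ℂ).re ≤ 16 * dC c * ‖ξ‖ * ‖ξ‖ := by
      calc _ ≤ ‖⟪A ξ - B ξ, ξ⟫_ℂ‖ := Complex.re_le_norm _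
        _ ≤ ‖A ξ - B ξ‖ * ‖ξ‖ := norm_inner_le_norm _ _
        _ ≤ _ := by gcongr
    rw [inner_sub_left, Complex.sub_re] at f6
    nlinarith
  have hcpos := c1_pos hc
  have hcle := c1_le hc hc1
  have hs := sC_le_c1 hc hc1
  have hs0 := sC_pos hc
  have e6 : 1040 * dC c ≤ sC c * (c1 c ^ 2 - sC c) := by
    unfold dC
    have g1 : c1 c ^ 2 - sC c ≥ c1 c ^ 2 / 2 := by nlinarith
    have g2 : sC c * (c1 c ^ 2 / 2) ≤ sC c * (c1 c ^ 2 - sC c) := by gcongr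
    have g3 : 0 < sC c * c1 c ^ 2 := by positivity
    nlinarith
  have e7 : 1040 * dC c * ‖ξ‖ ^ 2 ≤ sC c * (c1 c ^ 2 - sC c) * ‖ξ‖ ^ 2 := by gcongr
  have e8 : c1 c ^ 2 * (⟪A ξ, ξ⟫_ℂ).re ≤ c1 c ^ 2 * (⟪B ξ, ξ⟫_ℂ).re +
      c1 c ^ 2 * (16 * dC c * ‖ξ‖ ^ 2) := by
    rw [← mul_add]
    gcongr
  have e9 : c1 c ^ 2 * (16 * dC c * ‖ξ‖ ^ 2) ≤ 1 * (16 * dC c * ‖ξ‖ ^ 2) := by
    gcongr
    exact pow_le_one₀ hcpos.le (by linarith)
  nlinarith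

theorem good_of (e : Ix → Expr) (j₀ Q : ℕ) (he : ∀ i, (e i).Bdd j₀ Q) (σ : Set ℕ) (j : ℕ)
    (A : Set ℕ) (hA : Cap c X e A) (hA0 : 0 ∈ A) (hAσ : A ∩ Set.Iio j₀ = σ) (hjA : j ∈ A)
    (B : Set ℕ) (hB : Cap c X e B) (hB0 : 0 ∈ B) (hBσ : B ∩ Set.Iio j₀ = σ) (hjB : j ∉ B)
    (hC : ∀ j' ∈ A, j' ≠ j → ∃ C : Set ℕ, Cap c X e C ∧ 0 ∈ C ∧ C ∩ Set.Iio j₀ = σ ∧
      j' ∈ C ∧ j ∉ C) :
    Good c (Xr X σ) (Set.Iio Q) e (X j).2 := by
  have hs1 := sC_le_c1 hc hc1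
  have hs0 := sC_pos hc
  have hcpos := c1_pos hc
  have hsle : sC c ≤ c1 c ^ 2 - sC c := by
    have : 0 < c1 c ^ 2 := by positivity
    linarith
  refine ⟨?_, ?_, ?_, ?_⟩
  · intro i
    exact loc_H1 X A σ j₀ Q hAσ j hjA e he _ i (cap_H1 hc hc1 X e A hA i)
  · by_contra hcon
    push Not at hcon
    have hloc : ∀ ξ : Amp (X j).1 (Amp (X j).1 (Fk (Xr X σ) (Set.Iio Q))), sC c * ‖ξ‖ ^ 2 ≤
        (⟪Del (X j).2 (fun i => locE (Xr X σ) (Set.Iio Q) (X j).2 (e i)) ξ, ξ⟫_ℂ).re := by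
      intro ξ
      by_cases hξ : ξ = 0
      · subst hξ
        simp
      · exact (hcon ξ hξ).le
    apply cap_mem_low hc hc1 X hX0 hgap hgrow e A hA hA0 j hjA
    subst hAσ
    apply loc_cover X A j₀ Q e he (X j).2 (sC c)
    · intro j' hj' ξ
      by_cases hjj : j' = j
      · subst hjj
        exact hloc ξ
      · obtain ⟨C, hCc, hC0, hCσ, hj'C, hjC⟩ := hC j' hj' hjj
        have h1 := loc_lower X C (A ∩ Set.Iio j₀) j₀ Q hCσ j' hj'C e he (X j).2 _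
          (cap_not_mem hc hc1 X hX0 hgap hgrow e C hCc hC0 j hjC) ξ
        refine le_trans ?_ h1
        gcongr
    · intro ξ
      have h1 := loc_lower_vac X B (A ∩ Set.Iio j₀) j₀ Q hBσ e he (X j).2 _
        (cap_not_mem hc hc1 X hX0 hgap hgrow e B hB hB0 j hjB) ξ
      refine le_trans ?_ h1
      gcongr
  · intro ξ
    exact loc_lower_vac X B σ j₀ Q hBσ e he (X j).2 _
        (cap_not_mem hc hc1 X hX0 hgap hgrow e B hB hB0 j hjB) ξ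
  · intro ξ
    exact loc_H4 X A σ j₀ Q hAσ j hjA e he (X j).2 _ _
      (cap_mem_H4 hc hc1 X hX0 hgap hgrow e A hA hA0 j hjA) ξ

end glob

/-! ### Baire category -/

/-- the set of levels of a point of the Cantor space -/
def Wf (f : ℕ → Bool) : Set ℕ := {j | j = 0 ∨ f j = true}

theorem zero_mem_Wf (f : ℕ → Bool) : 0 ∈ Wf f := Or.inl rfl

theorem Wf_inter (f g : ℕ → Bool) (j₀ : ℕ) (h : ∀ i, i < j₀ → f i = g i) :
    Wf f ∩ Set.Iio j₀ = Wf g ∩ Set.Iio j₀ := by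
  ext i
  simp only [Wf, Set.mem_inter_iff, Set.mem_ofPred_eq, Set.mem_Iio]
  constructor
  · rintro ⟨h1, h2⟩
    rw [h i h2] at h1
    exact ⟨h1, h2⟩
  · rintro ⟨h1, h2⟩
    rw [← h i h2] at h1
    exact ⟨h1, h2⟩

theorem baire_cap {I : Type} [Countable I] [Nonempty I] (S : I → (ℕ → Bool) → Prop)
    (hS : ∀ f, ∃ e, S e f) :
    ∃ (e : I) (f₀ : ℕ → Bool) (j₁ : ℕ), ∀ (f : ℕ → Bool) (k : ℕ), (∀ i, i < j₁ → f i = f₀ i) →
      ∃ g, S e g ∧ ∀ i, i < k → g i = f i := by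
  classical
  have h1 := nonempty_interior_of_iUnion_of_closed (f := fun e : I => closure {f | S e f})
    (fun _ => isClosed_closure) (by
      rw [Set.eq_univ_iff_forall]
      intro f
      obtain ⟨e, he⟩ := hS f
      exact Set.mem_iUnion.2 ⟨e, subset_closure he⟩)
  obtain ⟨e, f₀, hf₀⟩ := h1
  obtain ⟨I', u, hu1, hu2⟩ := isOpen_pi_iff.1 isOpen_interior f₀ hf₀
  refine ⟨e, f₀, I'.sup id + 1, ?_⟩
  intro f k hf
  have h2 : f ∈ closure {f | S e f} := by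
    apply interior_subset
    apply hu2
    intro i hi
    have h3 : i < I'.sup id + 1 := Nat.lt_succ_of_le (Finset.le_sup (f := id) hi)
    rw [hf i h3]
    exact (hu1 i hi).2
  have h4 : IsOpen {g : ℕ → Bool | ∀ i, i < k → g i = f i} := by
    have : {g : ℕ → Bool | ∀ i, i < k → g i = f i} =
        ⋂ i ∈ Finset.range k, (fun g : ℕ → Bool => g i) ⁻¹' {f i} := by
      ext g
      simp
    rw [this]
    exact isOpen_biInter_finset fun i _ => (isOpen_discrete _).preimage (continuous_apply i)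
  obtain ⟨g, hg1, hg2⟩ := mem_closure_iff.1 h2 _ h4 (fun _ _ => rfl)
  exact ⟨g, hg2, hg1⟩

end SeqM

open SeqM Chi in
theorem main_exists : ∃ (X : ℕ → Dat) (ω : Set ℕ), 0 ∈ ω ∧ X 0 = ⟨1, fun _ => 1⟩ ∧
    IsEmpty (Aalg (Xr X ω) ≃⋆ₐ[ℂ] (Aalg (Xr X ω))ᵐᵒᵖ) := by
  classical
  obtain ⟨c, X, hc, hc1, hX0, hgap, hgrow, hmaster⟩ := master
  by_contra hcon
  push Not at hcon
  have hiso : ∀ f : ℕ → Bool, Nonempty (Aalg (Xr X (Wf f)) ≃⋆ₐ[ℂ] (Aalg (Xr X (Wf f)))ᵐᵒᵖ) := by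
    intro f
    have := hcon X (Wf f) (zero_mem_Wf f) hX0
    simpa [not_isEmpty_iff] using this
  have hS : ∀ f : ℕ → Bool, ∃ e : Ix → Expr, Cap c X e (Wf f) := by
    intro f
    obtain ⟨ψ⟩ := hiso f
    obtain ⟨v, hv, hv1, hA, hB⟩ := transfer (Xr X (Wf f)) (zero_mem_Wf f) hX0 ψ
    choose e he using fun i => Aalg_approx (Xr X (Wf f)) (v i) (hv i) (dC c) (dC_pos hc)
    exact ⟨e, v, hv1, hA, hB, he⟩
  have hcount : Countable Expr := countable_expr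
  have hne : Nonempty (Ix → Expr) := ⟨fun _ => Expr.cst 0 0⟩
  obtain ⟨e, f₀, j₁, hd⟩ := baire_cap (fun (e : Ix → Expr) f => Cap c X e (Wf f)) hS
  obtain ⟨j₂, Q, hbd⟩ := exists_bdd_all e
  set j₀ := max j₁ j₂ with hj₀
  have he : ∀ i, (e i).Bdd j₀ Q := fun i => hbd i _ _ (le_max_right _ _) le_rfl
  obtain ⟨j, hj1, hj2, hbad⟩ := hmaster e (Wf f₀ ∩ Set.Iio j₀) j₀ Q 1
    Set.inter_subset_right
  apply hbad
  -- the points of the Cantor space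
  obtain ⟨fA, hA, hAe⟩ := hd (Function.update f₀ j true) (j + 1) (by
    intro i hi
    rw [Function.update_of_ne (by omega)])
  obtain ⟨fB, hB, hBe⟩ := hd (Function.update f₀ j false) (j + 1) (by
    intro i hi
    rw [Function.update_of_ne (by omega)])
  refine good_of hc hc1 X hX0 hgap hgrow e j₀ Q he _ j (Wf fA) hA (zero_mem_Wf _) ?_ ?_
    (Wf fB) hB (zero_mem_Wf _) ?_ ?_ ?_
  · apply Wf_inter
    intro i hi
    rw [hAe i (by omega), Function.update_of_ne (by omega)]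
  · right
    rw [hAe j (by omega), Function.update_self]
  · apply Wf_inter
    intro i hi
    rw [hBe i (by omega), Function.update_of_ne (by omega)]
  · rintro (h | h)
    · omega
    · rw [hBe j (by omega), Function.update_self] at h
      exact absurd h (by simp)
  · intro j' hj' hne'
    obtain ⟨fC, hCc, hCe⟩ := hd (Function.update fA j false) (max j j' + 1) (by
      intro i hi
      rw [Function.update_of_ne (by omega), hAe i (by omega), Function.update_of_ne (by omega)])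
    refine ⟨Wf fC, hCc, zero_mem_Wf _, ?_, ?_, ?_⟩
    · apply Wf_inter
      intro i hi
      rw [hCe i (by omega), Function.update_of_ne (by omega), hAe i (by omega),
        Function.update_of_ne (by omega)]
    · rcases hj' with h | h
      · exact Or.inl h
      · right
        rw [hCe j' (by omega), Function.update_of_ne hne']
        exact h
    · rintro (h | h)
      · omega
      · rw [hCe j (by omega), Function.update_self] at h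
        exact absurd h (by simp)

end Pool.Agent.C8B

end
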